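import Pool.Agent.H.MP_08eaf3_pr.H.Ker

/-!
# Part H: the perturbation kernel
-/

set_option autoImplicit false

open MeasureTheory ProbabilityTheory Filter Topology Matrix

namespace SKC.H

theorem PkA_prod {N : ℕ} (n : ℕ) (f g : Fin N → ℝ) :
    ∑ i : Fin n → Fin N, (∏ a, f (i a)) * ∏ a, g (i a) = (∑ j, f j * g j) ^ n := by
  rw [Fintype.sum_pow]
  exact Finset.sum_congr rfl fun i _ => Finset.prod_mul_distrib.symm

theorem PkA_ov {N : ℕ} (ρ ρ' : Cfg (Fin 2) N) (c c' : Fin 2) :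
    ∑ j, sg (ρ j c) / Real.sqrt N * (sg (ρ' j c') / Real.sqrt N) = ovM ρ ρ' c c' := by
  unfold ovM ov
  rw [Finset.sum_div]
  refine Finset.sum_congr rfl fun j _ => ?_
  rw [div_mul_div_comm, Real.mul_self_sqrt (Nat.cast_nonneg N)]

theorem PkA_three {A B C : Type} [Fintype A] [Fintype B] [Fintype C] (a : A → ℝ) (b : B → ℝ)
    (c : C → ℝ) : ∑ i : A × B × C, a i.1 * b i.2.1 * c i.2.2 =
      (∑ i, a i) * (∑ i, b i) * ∑ i, c i := by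
  rw [Fintype.sum_prod_type, Finset.sum_mul, Finset.sum_mul]
  refine Finset.sum_congr rfl fun i _ => ?_
  rw [Fintype.sum_prod_type, mul_assoc, Finset.sum_mul, Finset.mul_sum]
  refine Finset.sum_congr rfl fun j _ => ?_
  rw [Finset.mul_sum, Finset.mul_sum]
  refine Finset.sum_congr rfl fun k _ => ?_
  ring

theorem PkA_pow_lip {a b : ℝ} (ha : |a| ≤ 1) (hb : |b| ≤ 1) (n : ℕ) :
    |a ^ n - b ^ n| ≤ n * |a - b| := by
  induction n with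
  | zero => simp
  | succ n ih =>
    have e : a ^ (n + 1) - b ^ (n + 1) = a ^ n * (a - b) + (a ^ n - b ^ n) * b := by ring
    have h1 : |a ^ n * (a - b)| ≤ |a - b| := by
      rw [abs_mul, abs_pow]
      exact mul_le_of_le_one_left (abs_nonneg _) (pow_le_one₀ (abs_nonneg _) ha)
    have h2 : |(a ^ n - b ^ n) * b| ≤ n * |a - b| := by
      rw [abs_mul]
      exact (mul_le_of_le_one_right (abs_nonneg _) hb).trans ih
    rw [e]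
    refine (abs_add_le _ _).trans ?_
    push_cast
    linarith

theorem PkA_mul3 {x y z x' y' z' : ℝ} (hx' : |x'| ≤ 1) (hy : |y| ≤ 1)
    (hy' : |y'| ≤ 1) (hz : |z| ≤ 1) :
    |x * y * z - x' * y' * z'| ≤ |x - x'| + |y - y'| + |z - z'| := by
  have e : x * y * z - x' * y' * z' =
      (x - x') * (y * z) + x' * z * (y - y') + x' * y' * (z - z') := by ring
  rw [e]
  have h1 : |(x - x') * (y * z)| ≤ |x - x'| := by
    rw [abs_mul, abs_mul]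
    exact mul_le_of_le_one_right (abs_nonneg _) (mul_le_one₀ hy (abs_nonneg _) hz)
  have h2 : |x' * z * (y - y')| ≤ |y - y'| := by
    rw [abs_mul, abs_mul]
    exact mul_le_of_le_one_left (abs_nonneg _) (mul_le_one₀ hx' (abs_nonneg _) hz)
  have h3 : |x' * y' * (z - z')| ≤ |z - z'| := by
    rw [abs_mul, abs_mul]
    exact mul_le_of_le_one_left (abs_nonneg _) (mul_le_one₀ hx' (abs_nonneg _) hy')
  exact (abs_add_le _ _).trans (add_le_add ((abs_add_le _ _).trans (add_le_add h1 h2)) h3)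

theorem PkA_avg {a b c d : ℝ} {δ : ℝ} (ha : |a| ≤ δ) (hb : |b| ≤ δ) (hc : |c| ≤ δ)
    (hd : |d| ≤ δ) : |(a + b + c + d) / 4| ≤ δ := by
  rw [abs_le] at *
  constructor <;> linarith [ha.1, ha.2, hb.1, hb.2, hc.1, hc.2, hd.1, hd.2]

/-- kernel of the features `vp`: [the dot product over `Ip = (Fin p1 → Fin N) × ...` factorises:
`∑_{i : Fin p1 → Fin N} ∏_a (ρ_{i_a} ρ'_{i_a} / N) = (∑_i ρ_i ρ'_i / N)^p1` (`Finset.prod_univ_sum` /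
`Fintype.sum_pow`), the third factor has `(ρ_0+ρ_1)(ρ'_0+ρ'_1)/4/N`; `√N √N = N` (both are `0` for
`N = 0`, where `0^0 = 1` on both sides).] -/
theorem dot_vp {M : ℕ} (N : ℕ) (p : PM M) (ρ ρ' : Cfg (Fin 2) N) :
    dot (vp N p ρ) (vp N p ρ') = Kp p (ovM ρ ρ') := by
  unfold dot
  have h1 : ∀ i : Ip M N p, vp N p ρ i * vp N p ρ' i =
      ((∏ a, sg (ρ (i.1 a) 0) / Real.sqrt N) * ∏ a, sg (ρ' (i.1 a) 0) / Real.sqrt N) *
      ((∏ a, sg (ρ (i.2.1 a) 1) / Real.sqrt N) * ∏ a, sg (ρ' (i.2.1 a) 1) / Real.sqrt N) *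
      ((∏ a, ((sg (ρ (i.2.2 a) 0) + sg (ρ (i.2.2 a) 1)) / 2) / Real.sqrt N) *
        ∏ a, ((sg (ρ' (i.2.2 a) 0) + sg (ρ' (i.2.2 a) 1)) / 2) / Real.sqrt N) := by
    intro i
    unfold vp
    ring
  rw [Finset.sum_congr rfl fun i _ => h1 i]
  rw [PkA_three
    (fun i : Fin (p.1 : ℕ) → Fin N =>
      (∏ a, sg (ρ (i a) 0) / Real.sqrt N) * ∏ a, sg (ρ' (i a) 0) / Real.sqrt N)
    (fun i : Fin (p.2.1 : ℕ) → Fin N =>
      (∏ a, sg (ρ (i a) 1) / Real.sqrt N) * ∏ a, sg (ρ' (i a) 1) / Real.sqrt N)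
    (fun i : Fin (p.2.2 : ℕ) → Fin N =>
      (∏ a, ((sg (ρ (i a) 0) + sg (ρ (i a) 1)) / 2) / Real.sqrt N) *
        ∏ a, ((sg (ρ' (i a) 0) + sg (ρ' (i a) 1)) / 2) / Real.sqrt N)]
  rw [PkA_prod _ (fun j => sg (ρ j 0) / Real.sqrt N) (fun j => sg (ρ' j 0) / Real.sqrt N),
    PkA_prod _ (fun j => sg (ρ j 1) / Real.sqrt N) (fun j => sg (ρ' j 1) / Real.sqrt N),
    PkA_prod _ (fun j => ((sg (ρ j 0) + sg (ρ j 1)) / 2) / Real.sqrt N)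
      (fun j => ((sg (ρ' j 0) + sg (ρ' j 1)) / 2) / Real.sqrt N), PkA_ov, PkA_ov]
  have h2 : ∑ j, ((sg (ρ j 0) + sg (ρ j 1)) / 2) / Real.sqrt N *
      (((sg (ρ' j 0) + sg (ρ' j 1)) / 2) / Real.sqrt N) =
      (ovM ρ ρ' 0 0 + ovM ρ ρ' 0 1 + ovM ρ ρ' 1 0 + ovM ρ ρ' 1 1) / 4 := by
    rw [← PkA_ov, ← PkA_ov, ← PkA_ov, ← PkA_ov, ← Finset.sum_add_distrib,
      ← Finset.sum_add_distrib, ← Finset.sum_add_distrib, Finset.sum_div]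
    refine Finset.sum_congr rfl fun j _ => ?_
    ring
  rw [h2]
  rfl

/-- [`Fintype.sum_sigma`, `dot_vp`, `sN N ^ 2 = N^(3/4)`.] -/
theorem dot_vP (M N : ℕ) (x : PM M → ℝ) (ρ ρ' : Cfg (Fin 2) N) :
    dot (vP M N x ρ) (vP M N x ρ') = (N : ℝ) ^ (3 / 4 : ℝ) * ∑ p, x p ^ 2 * Kp p (ovM ρ ρ') := by
  have h1 : sN N ^ 2 = (N : ℝ) ^ (3 / 4 : ℝ) := by
    unfold sN
    rw [← Real.rpow_natCast, ← Real.rpow_mul (Nat.cast_nonneg N)]
    norm_num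
  unfold dot
  rw [Fintype.sum_sigma, Finset.mul_sum]
  refine Finset.sum_congr rfl fun p _ => ?_
  rw [← dot_vp N p ρ ρ', ← h1]
  unfold dot
  rw [Finset.mul_sum, Finset.mul_sum]
  refine Finset.sum_congr rfl fun i _ => ?_
  unfold vP
  ring

/-- [Each of the three factors has absolute value at most `1` by `abs_ov_le`.] -/
theorem abs_Kp_le {M : ℕ} (p : PM M) {N : ℕ} (ρ ρ' : Cfg (Fin 2) N) : |Kp p (ovM ρ ρ')| ≤ 1 := by
  have h : ∀ c c', |ovM ρ ρ' c c'| ≤ 1 := fun c c' => abs_ov_le ρ ρ' c c'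
  unfold Kp
  rw [abs_mul, abs_mul, abs_pow, abs_pow, abs_pow]
  exact mul_le_one₀ (mul_le_one₀ (pow_le_one₀ (abs_nonneg _) (h 0 0)) (by positivity)
    (pow_le_one₀ (abs_nonneg _) (h 1 1))) (by positivity)
    (pow_le_one₀ (abs_nonneg _) (PkA_avg (h 0 0) (h 0 1) (h 1 0) (h 1 1)))

/-- [Products of powers of numbers in `[-1,1]`: `|a^n - b^n| ≤ n |a - b|`,
`|aa'a'' - bb'b''| ≤ |a-b| + |a'-b'| + |a''-b''|` if all are in `[-1,1]`; `p1, p2, p3 ≤ M`.] -/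
theorem Kp_lip {M : ℕ} (p : PM M) {R R' : Matrix (Fin 2) (Fin 2) ℝ} {δ : ℝ}
    (hR : ∀ c c', |R c c'| ≤ 1) (hR' : ∀ c c', |R' c c'| ≤ 1) (h : ∀ c c', |R c c' - R' c c'| ≤ δ) :
    |Kp p R - Kp p R'| ≤ 3 * M * δ := by
  have hδ : 0 ≤ δ := (abs_nonneg _).trans (h 0 0)
  have hM : ∀ q : Fin (M + 1), ∀ x : ℝ, |x| ≤ δ → ((q : ℕ) : ℝ) * |x| ≤ M * δ := by
    intro q x hx
    have h1 : ((q : ℕ) : ℝ) ≤ M := by exact_mod_cast Nat.lt_succ_iff.1 q.2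
    exact mul_le_mul h1 hx (abs_nonneg _) (Nat.cast_nonneg M)
  have hb : ∀ (a : ℝ) (n : ℕ), |a| ≤ 1 → |a ^ n| ≤ 1 := by
    intro a n ha
    rw [abs_pow]
    exact pow_le_one₀ (abs_nonneg _) ha
  unfold Kp
  have hS := PkA_avg (hR 0 0) (hR 0 1) (hR 1 0) (hR 1 1)
  have hS' := PkA_avg (hR' 0 0) (hR' 0 1) (hR' 1 0) (hR' 1 1)
  refine (PkA_mul3 (hb _ _ (hR' 0 0)) (hb _ _ (hR 1 1)) (hb _ _ (hR' 1 1)) (hb _ _ hS)).trans ?_
  have h1 := (PkA_pow_lip (hR 0 0) (hR' 0 0) p.1).trans (hM p.1 _ (h 0 0))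
  have h2 := (PkA_pow_lip (hR 1 1) (hR' 1 1) p.2.1).trans (hM p.2.1 _ (h 1 1))
  have h3 : |((R 0 0 + R 0 1 + R 1 0 + R 1 1) / 4) ^ (p.2.2 : ℕ) -
      ((R' 0 0 + R' 0 1 + R' 1 0 + R' 1 1) / 4) ^ (p.2.2 : ℕ)| ≤ M * δ := by
    refine (PkA_pow_lip hS hS' p.2.2).trans (hM p.2.2 _ ?_)
    have e : (R 0 0 + R 0 1 + R 1 0 + R 1 1) / 4 - (R' 0 0 + R' 0 1 + R' 1 0 + R' 1 1) / 4 =
        ((R 0 0 - R' 0 0) + (R 0 1 - R' 0 1) + (R 1 0 - R' 1 0) + (R 1 1 - R' 1 1)) / 4 := by ring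
    rw [e]
    exact PkA_avg (h 0 0) (h 0 1) (h 1 0) (h 1 1)
  linarith

end SKC.H
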