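import Pool.Agent.H.MP_08eaf3_pr.H.Sel
import Pool.Agent.H.MP_08eaf3_pr.G.Defs

/-!
# Part H: the sequence of systems, one size and one parameter for every `M`
-/

set_option autoImplicit false

open MeasureTheory ProbabilityTheory Filter Topology Matrix

namespace SKC.H

/-- for every `M` a size `Nn M` and a parameter `x M`; `g` = Ghirlanda-Guerra errors -/
structure HSeq (b1 b2 u A : ℝ) (g : ∀ M : ℕ, ℕ → PM M → (PM M → ℝ) → ℝ) where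
  /-- sizes -/
  Nn : ℕ → ℕ
  /-- parameters -/
  x : ∀ M : ℕ, PM M → ℝ
  pos : ∀ M, 0 < Nn M
  ge : ∀ M, M ≤ Nn M
  hx : ∀ M p, x M p ∈ Set.Icc (1 : ℝ) 2
  hg : ∀ M p, g M (Nn M) p (x M) ≤ 1 / ((M : ℝ) + 1)
  hd : ∀ M, dev b1 b2 u M (Nn M) (x M) ≤ 1 / ((M : ℝ) + 1)
  ha : ∀ M, LZ b1 b2 1 u M (Nn M + 1) (x M) - LZ b1 b2 1 u M (Nn M) (x M) ≤ A + 1 / ((M : ℝ) + 1)
  hz : ∀ M, (Nn M : ℝ) * (A - 1 / ((M : ℝ) + 1)) ≤ LZ b1 b2 (cN (Nn M)) u M (Nn M) (x M)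
  hP : ∀ M : ℕ, 4 * ((M : ℝ) + 1) ^ 3 * (Nn M : ℝ) ^ (3 / 4 : ℝ) ≤ Nn M / ((M : ℝ) + 1)
  hQ : ∀ M : ℕ, 4 * ((M : ℝ) + 1) ^ 3 * (1 + 6 * M) * (Nn M : ℝ) ^ (-(1 / 4) : ℝ) ≤
    1 / ((M : ℝ) + 1)

/-- [`select` for every `M` with `ε = 1/(M+1)` and `N1` so large that `M ≤ N`, `hP` and `hQ` hold for all
`N ≥ N1` (`rpow_small` for `hP`; `N^{-1/4} → 0` for `hQ`); `choose`.] -/
theorem exists_HSeq {b1 b2 u A : ℝ} (hb1 : 0 ≤ b1) (hb2 : 0 ≤ b2) (hu : |u| ≤ 1)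
    (h : ∀ M, GoodBlocks b1 b2 u A M) (g : ∀ M : ℕ, ℕ → PM M → (PM M → ℝ) → ℝ)
    (hg0 : ∀ M N p x, 0 ≤ g M N p x) (hgc : ∀ M N p, Continuous (g M N p))
    (hgi : ∀ M, ∃ C : ℝ, 0 ≤ C ∧ ∀ N : ℕ, 0 < N → ∀ p : PM M, ∀ δ : ℝ, 0 ≤ δ →
      (∀ x : PM M → ℝ, (∀ p, x p ∈ Set.Icc (1 : ℝ) 2) → dev b1 b2 u M N x ≤ δ) →
      ∫ x, g M N p x ∂(muX M) ≤ C * ((N : ℝ) ^ (-(1 / 8) : ℝ) + δ))
    (hLZ : ∀ M N, Continuous (fun x => LZ b1 b2 1 u M N x)) :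
    Nonempty (HSeq b1 b2 u A g) := by
  have key : ∀ M : ℕ, ∃ N : ℕ, ∃ x : PM M → ℝ, 0 < N ∧ M ≤ N ∧
      (∀ p, x p ∈ Set.Icc (1 : ℝ) 2) ∧ (∀ p, g M N p x ≤ 1 / ((M : ℝ) + 1)) ∧
      dev b1 b2 u M N x ≤ 1 / ((M : ℝ) + 1) ∧
      LZ b1 b2 1 u M (N + 1) x - LZ b1 b2 1 u M N x ≤ A + 1 / ((M : ℝ) + 1) ∧
      (N : ℝ) * (A - 1 / ((M : ℝ) + 1)) ≤ LZ b1 b2 (cN N) u M N x ∧
      4 * ((M : ℝ) + 1) ^ 3 * (N : ℝ) ^ (3 / 4 : ℝ) ≤ N / ((M : ℝ) + 1) ∧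
      4 * ((M : ℝ) + 1) ^ 3 * (1 + 6 * M) * (N : ℝ) ^ (-(1 / 4) : ℝ) ≤ 1 / ((M : ℝ) + 1) := by
    intro M
    have he : (0 : ℝ) < 1 / ((M : ℝ) + 1) := by positivity
    obtain ⟨N2, hN2⟩ := rpow_small (4 * ((M : ℝ) + 1) ^ 3) he
    have ht : Tendsto (fun N : ℕ => 4 * ((M : ℝ) + 1) ^ 3 * (1 + 6 * M) *
        (N : ℝ) ^ (-(1 / 4) : ℝ)) atTop (𝓝 0) := by
      have h1 : Tendsto (fun N : ℕ => (N : ℝ) ^ (-(1 / 4) : ℝ)) atTop (𝓝 0) :=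
        (tendsto_rpow_neg_atTop (by norm_num : (0 : ℝ) < 1 / 4)).comp tendsto_natCast_atTop_atTop
      simpa using h1.const_mul (4 * ((M : ℝ) + 1) ^ 3 * (1 + 6 * M))
    obtain ⟨N3, hN3⟩ := eventually_atTop.1 (ht.eventually_le_const he)
    obtain ⟨N, hN, hpos, x, hx, h1, h2, h3, h4⟩ := select hb1 hb2 hu (h M) (g M) (hg0 M) (hgc M)
      (hgi M) (hLZ M) he (max (max N2 N3) M)
    have hN2' : N2 ≤ N := (le_max_left _ _).trans ((le_max_left _ _).trans hN)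
    have hN3' : N3 ≤ N := (le_max_right _ _).trans ((le_max_left _ _).trans hN)
    have hM : M ≤ N := (le_max_right _ _).trans hN
    refine ⟨N, x, hpos, hM, hx, h1, h2, h3, h4, ?_, hN3 N hN3'⟩
    have h5 := hN2 N hN2'
    have h6 : (0 : ℝ) ≤ 4 * ((M : ℝ) + 1) ^ 3 := by positivity
    have h7 : 1 / ((M : ℝ) + 1) * (N : ℝ) = N / ((M : ℝ) + 1) := by ring
    have h8 : 4 * ((M : ℝ) + 1) ^ 3 * (1 + (N : ℝ) ^ (3 / 4 : ℝ)) =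
        4 * ((M : ℝ) + 1) ^ 3 + 4 * ((M : ℝ) + 1) ^ 3 * (N : ℝ) ^ (3 / 4 : ℝ) := by ring
    rw [h7, h8] at h5
    linarith
  choose Nn x h1 h2 h3 h4 h5 h6 h7 h8 h9 using key
  exact ⟨⟨Nn, x, h1, h2, h3, h4, h5, h6, h7, h8, h9⟩⟩

variable {b1 b2 u A : ℝ} {g : ∀ M : ℕ, ℕ → PM M → (PM M → ℝ) → ℝ}

/-- the cavity inequality along the sequence: the errors tend to `0`.
[`one_step`, `hd`, `ha`, `hQ`; `1/(N+1) ≤ 1/(M+1)`; the constant is `1 + 4 e^B + 4 (1+B) + 1`,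
`B = (b1+b2)^2`.] -/
theorem HSeq.cav (s : HSeq b1 b2 u A g) (hb1 : 0 ≤ b1) (hb2 : 0 ≤ b2) (hu : |u| ≤ 1) (M : ℕ) :
    CH b1 b2 u M (s.Nn M) (s.x M) - CY b1 b2 u M (s.Nn M) (s.x M) ≤
      A + (2 + 4 * Real.exp ((b1 + b2) ^ 2) + 4 * (1 + (b1 + b2) ^ 2)) / ((M : ℝ) + 1) := by
  have h1 := one_step hb1 hb2 hu (s.pos M) (s.hx M)
  have h2 := s.hd M
  have h3 := s.ha M
  have h4 := s.hQ M
  have hMN : (M : ℝ) ≤ s.Nn M := by exact_mod_cast s.ge M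
  have hM0 : (0 : ℝ) ≤ M := Nat.cast_nonneg M
  have h5 : 4 * (1 + (b1 + b2) ^ 2) / ((s.Nn M : ℝ) + 1) ≤
      4 * (1 + (b1 + b2) ^ 2) / ((M : ℝ) + 1) :=
    div_le_div_of_nonneg_left (by positivity) (by linarith) (by linarith)
  have h6 : 4 * Real.exp ((b1 + b2) ^ 2) * dev b1 b2 u M (s.Nn M) (s.x M) ≤
      4 * Real.exp ((b1 + b2) ^ 2) * (1 / ((M : ℝ) + 1)) :=
    mul_le_mul_of_nonneg_left h2 (by positivity)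
  have h7 : A + (2 + 4 * Real.exp ((b1 + b2) ^ 2) + 4 * (1 + (b1 + b2) ^ 2)) / ((M : ℝ) + 1) =
      A + 1 / ((M : ℝ) + 1) + 1 / ((M : ℝ) + 1) +
        4 * Real.exp ((b1 + b2) ^ 2) * (1 / ((M : ℝ) + 1)) +
        4 * (1 + (b1 + b2) ^ 2) / ((M : ℝ) + 1) := by ring
  rw [h7]
  linarith

end SKC.H
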