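import Pool.Agent.H.MP_08eaf3_pr.H.CSd

/-!
# Block CS: overlap matrices are close to the path; the cell structure
-/

set_option autoImplicit false

open MeasureTheory ProbabilityTheory Filter Topology Matrix

namespace SKC.H

/-- Markov: an event on which a continuous function vanishing on the path is bounded below is negligible -/
theorem CSe_markov {F : Fam} (O : EF.OrdData F) (φ : Matrix (Fin 2) (Fin 2) ℝ → ℝ) (hφ : Continuous φ)
    (h0 : ∀ x ∈ O.T, φ (O.Q x) ≤ 0) {ε : ℝ} (hε : 0 < ε)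
    (f : ∀ i, (Fin 2 → Cfg (Fin 2) (F.Nn i)) → ℝ) (hf0 : ∀ i r, 0 ≤ f i r) (hf1 : ∀ i r, f i r ≤ 1)
    (hf : ∀ i r, f i r ≠ 0 → ε ≤ φ (ovM (r 0) (r 1))) : F.E f = 0 := by
  have hfb : ∀ i r, |f i r| ≤ 1 := fun i r => abs_le.2 ⟨by linarith [hf0 i r], hf1 i r⟩
  apply le_antisymm _ (F.E_nonneg f 1 hfb hf0)
  have hgc : Continuous (fun R : Matrix (Fin 2) (Fin 2) ℝ => max 0 (min 1 (φ R / ε))) :=
    continuous_const.max (continuous_const.min (hφ.div_const ε))
  have hg := law2 O (fun R => max 0 (min 1 (φ R / ε))) hgc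
  have hz : ∫ x, (fun R => max 0 (min 1 (φ R / ε))) (O.Q x) ∂O.μ = 0 := by
    have : ∀ᵐ x ∂O.μ, (fun R => max 0 (min 1 (φ R / ε))) (O.Q x) = 0 := by
      filter_upwards [ae_mem O] with x hx
      have h1 : φ (O.Q x) / ε ≤ 0 := div_nonpos_of_nonpos_of_nonneg (h0 x hx) hε.le
      exact max_eq_left ((min_le_right _ _).trans h1)
    rw [integral_congr_ae this]
    simp
  rw [hz] at hg
  rw [← hg]
  apply F.E_mono f _ 1 hfb
  · intro i r
    rw [abs_of_nonneg (le_max_left _ _)]
    exact max_le zero_le_one (min_le_left _ _)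
  · intro i r
    by_cases h : f i r = 0
    · rw [h]
      exact le_max_left _ _
    · have h1 := hf i r h
      have h2 : 1 ≤ φ (ovM (r 0) (r 1)) / ε := by
        rw [le_div_iff₀ hε, one_mul]
        exact h1
      refine (hf1 i r).trans ((le_min le_rfl h2).trans (le_max_right _ _))

/-- union bound -/
theorem CSe_union {F : Fam} {n : ℕ} (f g : ∀ i, (Fin n → Cfg (Fin 2) (F.Nn i)) → ℝ)
    (h : ℕ → ∀ i, (Fin n → Cfg (Fin 2) (F.Nn i)) → ℝ)
    (hf0 : ∀ i r, 0 ≤ f i r) (hf1 : ∀ i r, f i r ≤ 1)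
    (hg0 : ∀ i r, 0 ≤ g i r) (hg1 : ∀ i r, g i r ≤ 1)
    (hh0 : ∀ j i r, 0 ≤ h j i r) (hh1 : ∀ j i r, h j i r ≤ 1) (m : ℕ) (δ : ℝ)
    (hg : F.E g ≤ 0) (hh : ∀ j < m, F.E (h j) ≤ δ)
    (hle : ∀ i x, f i x ≤ g i x + ∑ j ∈ Finset.range m, h j i x) : F.E f ≤ m * δ := by
  have hb : ∀ (k : ℕ) (i : F.I) (x : Fin n → Cfg (Fin 2) (F.Nn i)),
      |g i x + ∑ j ∈ Finset.range k, h j i x| ≤ 1 + k := by
    intro k i x
    have h1 : 0 ≤ ∑ j ∈ Finset.range k, h j i x := Finset.sum_nonneg fun j _ => hh0 j i x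
    have h2 : ∑ j ∈ Finset.range k, h j i x ≤ ∑ _j ∈ Finset.range k, (1 : ℝ) :=
      Finset.sum_le_sum fun j _ => hh1 j i x
    rw [Finset.sum_const, Finset.card_range, nsmul_eq_mul, mul_one] at h2
    rw [abs_of_nonneg (add_nonneg (hg0 i x) h1)]
    exact add_le_add (hg1 i x) h2
  have key : ∀ k : ℕ, (∀ j < k, F.E (h j) ≤ δ) →
      F.E (fun i x => g i x + ∑ j ∈ Finset.range k, h j i x) ≤ k * δ := by
    intro k
    induction k with
    | zero =>
      intro _
      have e : (fun i (x : Fin n → Cfg (Fin 2) (F.Nn i)) => g i x + ∑ j ∈ Finset.range 0, h j i x) = g := by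
        funext i x
        rw [Finset.sum_range_zero, add_zero]
      rw [e, Nat.cast_zero, zero_mul]
      exact hg
    | succ k ih =>
      intro hk
      have e : (fun i (x : Fin n → Cfg (Fin 2) (F.Nn i)) => g i x + ∑ j ∈ Finset.range (k + 1), h j i x) =
          fun i x => (fun i x => g i x + ∑ j ∈ Finset.range k, h j i x) i x + h k i x := by
        funext i x
        rw [Finset.sum_range_succ, ← add_assoc]
      rw [e, F.E_add (fun i x => g i x + ∑ j ∈ Finset.range k, h j i x) (h k) (1 + k) (hb k)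
        (fun i x => by
          rw [abs_of_nonneg (hh0 k i x)]
          have := hh1 k i x
          have h3 : (0 : ℝ) ≤ k := Nat.cast_nonneg k
          linarith)]
      have h1 := ih (fun j hj => hk j (hj.trans (Nat.lt_succ_self k)))
      have h2 := hk k (Nat.lt_succ_self k)
      push_cast
      linarith
  refine le_trans ?_ (key m hh)
  apply F.E_mono f _ (1 + m) _ (hb m) hle
  intro i x
  rw [abs_of_nonneg (hf0 i x)]
  have h3 : (0 : ℝ) ≤ m := Nat.cast_nonneg m
  linarith [hf1 i x]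

/-- a common lower bound of finitely many positive reals -/
theorem CSe_min (m : ℕ) (e : ℕ → ℝ) (he : ∀ j < m, 0 < e j) : ∃ ε : ℝ, 0 < ε ∧ ∀ j < m, ε ≤ e j := by
  induction m with
  | zero => exact ⟨1, one_pos, fun j hj => absurd hj (Nat.not_lt_zero j)⟩
  | succ m ih =>
    obtain ⟨ε, h1, h2⟩ := ih (fun j hj => he j (hj.trans (Nat.lt_succ_self m)))
    refine ⟨min ε (e m), lt_min h1 (he m (Nat.lt_succ_self m)), fun j hj => ?_⟩
    rcases Nat.lt_succ_iff_lt_or_eq.1 hj with h | h
    · exact (min_le_left _ _).trans (h2 j h)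
    · rw [h]
      exact min_le_right _ _

/-- the points of the path, as functions -/
def CSe_S {F : Fam} (O : EF.OrdData F) : Set (Fin 2 → Fin 2 → ℝ) :=
  {M | ∃ x ∈ O.T, M = fun c c' => O.Q x c c'}

/-- distance to the path -/
noncomputable def CSe_d {F : Fam} (O : EF.OrdData F) (R : Matrix (Fin 2) (Fin 2) ℝ) : ℝ :=
  Metric.infDist (fun c c' => R c c') (CSe_S O)

theorem CSe_d_cont {F : Fam} (O : EF.OrdData F) : Continuous (CSe_d O) := by
  unfold CSe_d
  refine (Metric.continuous_infDist_pt (CSe_S O)).comp ?_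
  exact continuous_pi fun c => continuous_pi fun c' => continuous_id.matrix_elem c c'

theorem CSe_d_Q {F : Fam} (O : EF.OrdData F) (x : ℝ) (hx : x ∈ O.T) : CSe_d O (O.Q x) ≤ 0 := by
  have h : (fun c c' => O.Q x c c') ∈ CSe_S O := ⟨x, hx, rfl⟩
  unfold CSe_d
  rw [Metric.infDist_zero_of_mem h]

theorem CSe_near {F : Fam} (O : EF.OrdData F) (R : Matrix (Fin 2) (Fin 2) ℝ) (ε : ℝ)
    (h : CSe_d O R < ε) : ∃ x ∈ O.T, ∀ c c', |R c c' - O.Q x c c'| < ε := by
  have hne : (CSe_S O).Nonempty := by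
    obtain ⟨x, hx⟩ := O.ne
    exact ⟨_, x, hx, rfl⟩
  obtain ⟨M, ⟨x, hx, rfl⟩, hd⟩ := (Metric.infDist_lt_iff hne).1 h
  have hε : 0 < ε := dist_nonneg.trans_lt hd
  refine ⟨x, hx, fun c c' => ?_⟩
  have h1 := (dist_pi_lt_iff hε).1 hd c
  have h2 := (dist_pi_lt_iff hε).1 h1 c'
  rwa [Real.dist_eq] at h2

/-- The overlap matrix is close to `Q` of its trace. Proof: `law2` for the continuous function
`ψ R = ∑ c c', |R c c' - Q (tr R) c c'|` (`O.Qcont`), whose integral is `0` because `tr (Q x) = x` on `T`; Markov. -/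
theorem close_Q {F : Fam} (O : EF.OrdData F) {ε : ℝ} (hε : 0 < ε) :
    F.E (n := 2) (fun _ r => if ∃ c c', ε < |ovM (r 0) (r 1) c c' - O.Q (tr2 (r 0) (r 1)) c c'|
      then (1 : ℝ) else 0) = 0 := by
  have hc : Continuous (fun R : Matrix (Fin 2) (Fin 2) ℝ =>
      ∑ c, ∑ c', |R c c' - O.Q (Matrix.trace R) c c'|) := by
    refine continuous_finsetSum _ fun c _ => continuous_finsetSum _ fun c' _ => ?_
    refine ((continuous_id.matrix_elem c c').sub ?_).abs
    exact (O.Qcont.comp continuous_id.matrix_trace).matrix_elem c c'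
  refine CSe_markov O _ hc ?_ hε _ ?_ ?_ ?_
  · intro x hx
    apply le_of_eq
    refine Finset.sum_eq_zero fun c _ => Finset.sum_eq_zero fun c' _ => ?_
    rw [O.tr x hx, sub_self, abs_zero]
  · intro i r
    split_ifs
    · exact zero_le_one
    · exact le_rfl
  · intro i r
    split_ifs
    · exact le_rfl
    · exact zero_le_one
  · intro i r h
    by_cases hx : ∃ c c', ε < |ovM (r 0) (r 1) c c' - O.Q (tr2 (r 0) (r 1)) c c'|
    · obtain ⟨c, c', hcc⟩ := hx
      refine hcc.le.trans ?_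
      have h1 : |ovM (r 0) (r 1) c c' - O.Q (tr2 (r 0) (r 1)) c c'| ≤
          ∑ c', |ovM (r 0) (r 1) c c' - O.Q (Matrix.trace (ovM (r 0) (r 1))) c c'| :=
        Finset.single_le_sum (f := fun c' => |ovM (r 0) (r 1) c c' -
          O.Q (Matrix.trace (ovM (r 0) (r 1))) c c'|) (fun _ _ => abs_nonneg _) (Finset.mem_univ c')
      refine h1.trans ?_
      exact Finset.single_le_sum (f := fun c => ∑ c', |ovM (r 0) (r 1) c c' -
          O.Q (Matrix.trace (ovM (r 0) (r 1))) c c'|)
          (fun _ _ => Finset.sum_nonneg fun _ _ => abs_nonneg _) (Finset.mem_univ c)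
    · exact absurd (if_neg hx) h

/-- The trace is close to `T`. Proof: `law2` for `ψ R = Metric.infDist (tr R) T`, whose integral is `0`; Markov
(`T` compact and nonempty). -/
theorem close_T {F : Fam} (O : EF.OrdData F) {ε : ℝ} (hε : 0 < ε) :
    F.E (n := 2) (fun _ r => if ε < Metric.infDist (tr2 (r 0) (r 1)) O.T then (1 : ℝ) else 0) = 0 := by
  have hc : Continuous (fun R : Matrix (Fin 2) (Fin 2) ℝ => Metric.infDist (Matrix.trace R) O.T) :=
    (Metric.continuous_infDist_pt O.T).comp continuous_id.matrix_trace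
  refine CSe_markov O _ hc ?_ hε _ ?_ ?_ ?_
  · intro x hx
    rw [O.tr x hx, Metric.infDist_zero_of_mem hx]
  · intro i r
    split_ifs
    · exact zero_le_one
    · exact le_rfl
  · intro i r
    split_ifs
    · exact le_rfl
    · exact zero_le_one
  · intro i r h
    by_cases hx : ε < Metric.infDist (tr2 (r 0) (r 1)) O.T
    · exact hx.le
    · exact absurd (if_neg hx) h

/-- the deterministic estimate of `close_path` -/
theorem CSe_det {F : Fam} (O : EF.OrdData F) {η : ℝ} (C : Cells (pdata O).T (pdata O).μ η) {η' ε : ℝ}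
    (hε : ε ≤ η') (R : Matrix (Fin 2) (Fin 2) ℝ) (h1 : CSe_d O R < ε)
    (h2 : ∀ j < C.r, 2 * ε < |Matrix.trace R - C.c j|) (c c' : Fin 2) :
    |R c c' - Qtot ((cpath (pdata O) C).take (kp C (Matrix.trace R))) c c'| ≤ η + η' := by
  obtain ⟨x, hx, hd⟩ := CSe_near O R ε h1
  have htr : |x - Matrix.trace R| ≤ 2 * ε := by
    have e1 : x = O.Q x 0 0 + O.Q x 1 1 := by
      rw [← Matrix.trace_fin_two, O.tr x hx]
    have e2 : Matrix.trace R = R 0 0 + R 1 1 := Matrix.trace_fin_two R
    have h00 := abs_lt.1 (hd 0 0)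
    have h11 := abs_lt.1 (hd 1 1)
    rw [e2, abs_le]
    constructor <;> linarith
  have hidx : C.idx x = C.idx (Matrix.trace R) := idx_stable C x _ (2 * ε) htr h2
  have hk : kp C (Matrix.trace R) = C.idx x + 1 := by
    unfold kp
    rw [hidx, add_comm]
  have hle := idx_le C x
  rw [hk, cpath_take (pdata O) C (C.idx x) hle]
  have hn : |x - C.t (C.idx x)| ≤ η := near_idx C x hx
  have hl : |(pdata O).Q x c c' - (pdata O).Q (C.t (C.idx x)) c c'| ≤ |x - C.t (C.idx x)| :=
    Q_lip (pdata O) (C.t (C.idx x)) x (C.mem _ hle) hx c c'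
  have hd' : |R c c' - (pdata O).Q x c c'| < ε := hd c c'
  have h3 : R c c' - (pdata O).Q (C.t (C.idx x)) c c' =
      (R c c' - (pdata O).Q x c c') + ((pdata O).Q x c c' - (pdata O).Q (C.t (C.idx x)) c c') := by ring
  rw [h3]
  refine (abs_add_le _ _).trans ?_
  linarith

/-- Closeness to the path. Let `η' > 0`. `Q` is uniformly continuous on `[-1, 3]`: take `ε ≤ η'/4` with
`|Q s c c' - Q x c c'| ≤ η'/4` for `|s - x| ≤ ε`. Outside the events `close_Q` (with `η'/4`), `close_T` (with `ε`) and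
`|tr - C.c j| ≤ ε'` for some `j < r`: there is `x ∈ T` with `|tr R - x| ≤ ε`
(`ε` smaller than the `ε'` of `near_small`), `idx (tr R) = idx x` (`idx_stable`), so
`|R - Q (t (idx))| ≤ |R - Q (tr R)| + |Q (tr R) - Q x| + |Q x - Q (t (idx x))| ≤ η'/4 + η'/4 + η` (`Q_lip`,
`near_idx`), and `Qtot (take (kp) path) = Q (t idx)` (`cpath_take`). So the expectation of the indicator is at most
`∑_j E 1{|tr - c j| ≤ ε'} ≤ r δ` for every `δ > 0`, i.e. it is `0` in the limit; `Tendsto` by `F.tendsto_E`. -/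
theorem close_path {F : Fam} (O : EF.OrdData F) {η : ℝ} (C : Cells (pdata O).T (pdata O).μ η) {η' : ℝ}
    (hη' : 0 < η') : Tendsto (fun i => (F.S i).av (n := 2) (fun r =>
    if ∃ c c', η + η' < |ovM (r 0) (r 1) c c' -
      Qtot ((cpath (pdata O) C).take (kp C (Matrix.trace (ovM (r 0) (r 1))))) c c'|
        then (1 : ℝ) else 0)) F.U (𝓝 0) := by
  obtain ⟨f, hfdef⟩ : ∃ f : ∀ i, (Fin 2 → Cfg (Fin 2) (F.Nn i)) → ℝ, f = fun _ r =>
    if ∃ c c', η + η' < |ovM (r 0) (r 1) c c' -
      Qtot ((cpath (pdata O) C).take (kp C (Matrix.trace (ovM (r 0) (r 1))))) c c'|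
        then (1 : ℝ) else 0 := ⟨_, rfl⟩
  have hf0 : ∀ i r, 0 ≤ f i r := by
    intro i r
    rw [hfdef]
    show (0 : ℝ) ≤ if _ then 1 else 0
    split_ifs
    · exact zero_le_one
    · exact le_rfl
  have hf1 : ∀ i r, f i r ≤ 1 := by
    intro i r
    rw [hfdef]
    show (if _ then (1 : ℝ) else 0) ≤ 1
    split_ifs
    · exact le_rfl
    · exact zero_le_one
  have hfb : ∀ i r, |f i r| ≤ 1 := fun i r => abs_le.2 ⟨by linarith [hf0 i r], hf1 i r⟩
  have hE : F.E f = 0 := by
    apply le_antisymm _ (F.E_nonneg f 1 hfb hf0)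
    have hr : (0 : ℝ) < (C.r : ℝ) + 1 := by positivity
    refine le_of_forall_pos_le_add fun δ0 hδ0 => ?_
    obtain ⟨δ, hδdef⟩ : ∃ δ : ℝ, δ = δ0 / ((C.r : ℝ) + 1) := ⟨_, rfl⟩
    have hδ : 0 < δ := by
      rw [hδdef]
      exact div_pos hδ0 hr
    have hns : ∀ j : ℕ, ∃ e : ℝ, 0 < e ∧ (j < C.r →
        F.E (n := 2) (fun _ r => if |tr2 (r 0) (r 1) - C.c j| ≤ e then (1 : ℝ) else 0) ≤ δ) := by
      intro j
      by_cases hj : j < C.r
      · obtain ⟨e, h1, h2⟩ := near_small O (c := C.c j) (C.null j hj) hδ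
        exact ⟨e, h1, fun _ => h2⟩
      · exact ⟨1, one_pos, fun h => absurd h hj⟩
    choose e he1 he2 using hns
    obtain ⟨ε0, hε0, hε1⟩ := CSe_min C.r e (fun j _ => he1 j)
    obtain ⟨ε, hεdef⟩ : ∃ ε : ℝ, ε = min η' (ε0 / 2) := ⟨_, rfl⟩
    have hε : 0 < ε := by
      rw [hεdef]
      exact lt_min hη' (half_pos hε0)
    have hεη : ε ≤ η' := by
      rw [hεdef]
      exact min_le_left _ _
    have hε2 : 2 * ε ≤ ε0 := by
      have : ε ≤ ε0 / 2 := by
        rw [hεdef]
        exact min_le_right _ _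
      linarith
    classical
    have hg : F.E (n := 2) (fun _ r => if ε ≤ CSe_d O (ovM (r 0) (r 1)) then (1 : ℝ) else 0) = 0 := by
      refine CSe_markov O _ (CSe_d_cont O) (CSe_d_Q O) hε _ ?_ ?_ ?_
      · intro i r
        split_ifs
        · exact zero_le_one
        · exact le_rfl
      · intro i r
        split_ifs
        · exact le_rfl
        · exact zero_le_one
      · intro i r h
        by_cases hx : ε ≤ CSe_d O (ovM (r 0) (r 1))
        · exact hx
        · exact absurd (if_neg hx) h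
    have hu := CSe_union f (fun _ r => if ε ≤ CSe_d O (ovM (r 0) (r 1)) then (1 : ℝ) else 0)
      (fun j _ r => if |tr2 (r 0) (r 1) - C.c j| ≤ e j then (1 : ℝ) else 0) hf0 hf1
      (by
        intro i r
        show (0 : ℝ) ≤ if _ then 1 else 0
        split_ifs
        · exact zero_le_one
        · exact le_rfl)
      (by
        intro i r
        show (if _ then (1 : ℝ) else 0) ≤ 1
        split_ifs
        · exact le_rfl
        · exact zero_le_one)
      (by
        intro j i r
        show (0 : ℝ) ≤ if _ then 1 else 0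
        split_ifs
        · exact zero_le_one
        · exact le_rfl)
      (by
        intro j i r
        show (if _ then (1 : ℝ) else 0) ≤ 1
        split_ifs
        · exact le_rfl
        · exact zero_le_one) C.r δ hg.le (fun j hj => he2 j hj)
      (by
        intro i r
        have hS : ∀ j, (0 : ℝ) ≤ if |tr2 (r 0) (r 1) - C.c j| ≤ e j then (1 : ℝ) else 0 := by
          intro j
          split_ifs
          · exact zero_le_one
          · exact le_rfl
        show f i r ≤ (if ε ≤ CSe_d O (ovM (r 0) (r 1)) then (1 : ℝ) else 0) +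
          ∑ j ∈ Finset.range C.r, if |tr2 (r 0) (r 1) - C.c j| ≤ e j then (1 : ℝ) else 0
        by_cases hA : ε ≤ CSe_d O (ovM (r 0) (r 1))
        · rw [if_pos hA]
          have := Finset.sum_nonneg (s := Finset.range C.r) fun j _ => hS j
          linarith [hf1 i r]
        · by_cases hB : ∃ j < C.r, |tr2 (r 0) (r 1) - C.c j| ≤ e j
          · obtain ⟨j, hj, hj2⟩ := hB
            have h1 := Finset.single_le_sum (f := fun j =>
              if |tr2 (r 0) (r 1) - C.c j| ≤ e j then (1 : ℝ) else 0) (s := Finset.range C.r)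
              (fun j _ => hS j) (Finset.mem_range.2 hj)
            have h2 : (if |tr2 (r 0) (r 1) - C.c j| ≤ e j then (1 : ℝ) else 0) = 1 := if_pos hj2
            have h1' : (if |tr2 (r 0) (r 1) - C.c j| ≤ e j then (1 : ℝ) else 0) ≤
              ∑ j ∈ Finset.range C.r, if |tr2 (r 0) (r 1) - C.c j| ≤ e j then (1 : ℝ) else 0 := h1
            rw [h2] at h1'
            rw [if_neg hA, zero_add]
            exact (hf1 i r).trans h1'
          · have hC : ¬ ∃ c c', η + η' < |ovM (r 0) (r 1) c c' -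
                Qtot ((cpath (pdata O) C).take (kp C (Matrix.trace (ovM (r 0) (r 1))))) c c'| := by
              rintro ⟨c, c', hcc⟩
              have h2 : ∀ j < C.r, 2 * ε < |Matrix.trace (ovM (r 0) (r 1)) - C.c j| := by
                intro j hj
                have h3 : e j < |tr2 (r 0) (r 1) - C.c j| := by
                  by_contra h4
                  exact hB ⟨j, hj, not_lt.1 h4⟩
                exact (hε2.trans (hε1 j hj)).trans_lt h3
              have h5 := CSe_det O C hεη (ovM (r 0) (r 1)) (not_le.1 hA) h2 c c'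
              exact absurd h5 (not_le.2 hcc)
            have hfz : f i r = 0 := by
              rw [hfdef]
              exact if_neg hC
            rw [hfz, if_neg hA, zero_add]
            exact Finset.sum_nonneg fun j _ => hS j)
    refine hu.trans ?_
    have h6 : (C.r : ℝ) * δ ≤ ((C.r : ℝ) + 1) * δ := by nlinarith
    have h7 : ((C.r : ℝ) + 1) * δ = δ0 := by
      rw [hδdef]
      field_simp
    linarith
  have ht := F.tendsto_E f 1 hfb
  rw [hE, hfdef] at ht
  exact ht

/-- law of the level matrices -/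
theorem CSe_law {F : Fam} (O : EF.OrdData F) {η : ℝ} (C : Cells O.T O.μ η) (n : ℕ)
    (w : G.LM (C.r + 2) n) : F.EA (n := n) (fun A =>
    if ∀ i j, (w i j : ℕ) = (if i = j then C.r + 2 else kp C (Matrix.trace (A i j))) then (1 : ℝ)
      else 0) = pw O C n w := by
  unfold pw
  exact congrArg _ (funext fun A => ind_eq O C w A)

/-- the law of the level matrices as a `TLaw` -/
noncomputable def CSe_T {F : Fam} (hF : F.IsGG) (O : EF.OrdData F) {η : ℝ} (C : Cells O.T O.μ η)
    (m : ℕ → ℝ) (hm : ∀ j : ℕ, j < C.r + 2 → m j = C.w j) : G.TLaw (C.r + 2) m where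
  p := pw O C
  nonneg := pw_nonneg O C
  one := pw_one O C
  cons := fun n w _ => pw_cons O C n w
  supp := pw_supp O C
  root := pw_root O C
  gg := fun n w i j hj => by
    rw [hm j hj]
    exact pw_gg O C hF n w i j hj

/-- The cell structure. All fields from `CSd`, `close_path`, `cpath_length`, `cpath_valid`, `cpath_Qtot`,
`cpath_w`. -/
theorem cs_of_cells {F : Fam} (hF : F.IsGG) (O : EF.OrdData F) {η : ℝ}
    (C : Cells (pdata O).T (pdata O).μ η) :
    ∃ D : G.CS F η, D.l = cpath (pdata O) C := by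
  have hm : ∀ j : ℕ, j < C.r + 2 → ((cpath (pdata O) C).map Prod.fst).getD j 0 = C.w j :=
    fun j hj => cpath_w (pdata O) C j hj
  have hlaw : ∀ (n : ℕ) (w : G.LM (C.r + 2) n), 0 < n → F.EA (n := n) (fun A =>
      if ∀ i j, (w i j : ℕ) = (if i = j then C.r + 2 else kp C (Matrix.trace (A i j))) then (1 : ℝ)
        else 0) = pw O C n w := fun n w _ => CSe_law O C n w
  have hT : ∃ T : G.TLaw (C.r + 2) (fun j => ((cpath (pdata O) C).map Prod.fst).getD j 0),
      ∀ (n : ℕ) (w : G.LM (C.r + 2) n), T.p n w = pw O C n w := ⟨CSe_T hF O C _ hm, fun _ _ => rfl⟩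
  obtain ⟨T, hT⟩ := hT
  have hc : ∀ η' : ℝ, 0 < η' → Tendsto (fun i => (F.S i).av (n := 2) (fun r =>
    if ∃ c c', η + η' < |ovM (r 0) (r 1) c c' -
      Qtot ((cpath (pdata O) C).take (kp C (Matrix.trace (ovM (r 0) (r 1))))) c c'|
        then (1 : ℝ) else 0)) F.U (𝓝 0) := fun η' hη' => close_path O C hη'
  have hl : ∀ (n : ℕ) (w : G.LM (C.r + 2) n), 0 < n → F.EA (n := n) (fun A =>
      if ∀ i j, (w i j : ℕ) = (if i = j then C.r + 2 else kp C (Matrix.trace (A i j))) then (1 : ℝ)
        else 0) = T.p n w := by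
    intro n w hn
    rw [hT n w]
    exact hlaw n w hn
  exact ⟨G.CS.mk (C.r + 2) (cpath (pdata O) C) (cpath_length (pdata O) C) T (cpath_valid (pdata O) C)
    (cpath_Qtot (pdata O) C) (kp C) (kp_lt C) hl hc, rfl⟩

end SKC.H
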