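import Pool.Agent.H.MP_08eaf3_pr.H.CellsG

/-!
# Interface of the deterministic part Cells (helper46)
-/

set_option autoImplicit false

open MeasureTheory ProbabilityTheory Filter Topology Matrix

namespace SKC.H

/-- index: bounds -/
theorem idx_le {T : Set ℝ} {μ : Measure ℝ} {η : ℝ} (C : Cells T μ η) (x : ℝ) : C.idx x ≤ C.r :=
  CellsB_idx_le C x

/-- `j ≤ idx x` iff the threshold `j - 1` is at most `x` -/
theorem lt_idx {T : Set ℝ} {μ : Measure ℝ} {η : ℝ} (C : Cells T μ η) (x : ℝ) (j : ℕ) (hj : j < C.r) :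
    j < C.idx x ↔ C.c j ≤ x :=
  CellsB_lt_idx C x j hj

theorem idx_rep {T : Set ℝ} {μ : Measure ℝ} {η : ℝ} (C : Cells T μ η) (j : ℕ) (hj : j ≤ C.r) :
    C.idx (C.t j) = j :=
  CellsB_idx_rep C j hj

theorem near_idx {T : Set ℝ} {μ : Measure ℝ} {η : ℝ} (C : Cells T μ η) (x : ℝ) (hx : x ∈ T) :
    |x - C.t (C.idx x)| ≤ η :=
  CellsB_near_idx C x hx

/-- no threshold within `ε` of `y`: the index is constant on the `ε`-ball about `y` -/
theorem idx_stable {T : Set ℝ} {μ : Measure ℝ} {η : ℝ} (C : Cells T μ η) (x y ε : ℝ)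
    (h1 : |x - y| ≤ ε) (h2 : ∀ j : ℕ, j < C.r → ε < |y - C.c j|) : C.idx x = C.idx y :=
  CellsB_idx_stable C x y ε h1 h2

/-- entries of a positive semidefinite matrix are bounded by the trace -/
theorem psd_entry {M : Matrix (Fin 2) (Fin 2) ℝ} (hM : M.PosSemidef) (c c' : Fin 2) :
    |M c c'| ≤ Matrix.trace M :=
  CellsA_entry hM c c'

/-- `Q` is Lipschitz on `T` -/
theorem Q_lip {u : ℝ} (P : PData u) (s t : ℝ) (hs : s ∈ P.T) (ht : t ∈ P.T) (c c' : Fin 2) :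
    |P.Q t c c' - P.Q s c c'| ≤ |t - s| :=
  CellsA_lip P s t hs ht c c'

theorem cpath_length {u : ℝ} (P : PData u) {η : ℝ} (C : Cells P.T P.μ η) :
    (cpath P C).length = C.r + 2 :=
  CellsC_length P C

theorem cpath_valid {u : ℝ} (P : PData u) {η : ℝ} (C : Cells P.T P.μ η) : Valid (cpath P C) :=
  CellsC_valid P C

theorem cpath_Qtot {u : ℝ} (P : PData u) {η : ℝ} (C : Cells P.T P.μ η) :
    Qtot (cpath P C) = mat 1 1 u :=
  CellsC_Qtot P C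

/-- value of the path after `j + 1` steps -/
theorem cpath_take {u : ℝ} (P : PData u) {η : ℝ} (C : Cells P.T P.μ η) (j : ℕ) (hj : j ≤ C.r) :
    Qtot ((cpath P C).take (j + 1)) = P.Q (C.t j) :=
  CellsC_take P C j hj

theorem cpath_w {u : ℝ} (P : PData u) {η : ℝ} (C : Cells P.T P.μ η) (j : ℕ) (hj : j < C.r + 2) :
    ((cpath P C).map Prod.fst).getD j 0 = C.w j :=
  CellsC_w P C j hj

theorem w_zero {T : Set ℝ} {μ : Measure ℝ} {η : ℝ} (C : Cells T μ η) : C.w 0 = 0 := rfl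

theorem w_succ {T : Set ℝ} {μ : Measure ℝ} {η : ℝ} (C : Cells T μ η) (j : ℕ) (hj : j < C.r) :
    C.w (j + 1) = μ.real (Set.Iio (C.c j)) :=
  CellsB_w_succ C j hj

theorem w_last {T : Set ℝ} {μ : Measure ℝ} {η : ℝ} (C : Cells T μ η) : C.w (C.r + 1) = 1 :=
  w_ge C C.r le_rfl

/-- every threshold structure gives a path with all the properties of `LData.path` (except the bound
of the functional), split at two representatives `s = t k` and `t = t k'` -/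
theorem cells_split {u : ℝ} (P : PData u) {η : ℝ} (C : Cells P.T P.μ η) (k k' : ℕ) (hk : k ≤ k')
    (hk' : k' ≤ C.r) : ∃ l1 l2 l3 : List (Step (Fin 2)),
    cpath P C = l1 ++ (l2 ++ l3) ∧ Valid (l1 ++ (l2 ++ l3)) ∧ l3 ≠ [] ∧ Qtot l1 = P.Q (C.t k) ∧
    Qtot (l1 ++ l2) = P.Q (C.t k') ∧ Qtot (l1 ++ (l2 ++ l3)) = mat 1 1 u ∧
    (∀ a ∈ l1, a.1 ≤ P.μ.real (Set.Iio (C.t k))) ∧
    (∀ a ∈ l2, P.μ.real (Set.Iic (C.t k)) ≤ a.1 ∧ a.1 ≤ P.μ.real (Set.Iio (C.t k'))) ∧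
    (∀ a ∈ l3, P.μ.real (Set.Iic (C.t k')) ≤ a.1) ∧
    (∀ l' l'' : List (Step (Fin 2)), l1 ++ (l2 ++ l3) = l' ++ l'' → l' ≠ [] → l'' ≠ [] →
      ∃ x ∈ P.T, Qtot l' = P.Q x) ∧
    |Gl (l2 ++ l3) - ∫ x, (u - P.Q (max (C.t k) x) 0 1) ∂P.μ| ≤ η ∧
    |Gl l3 - ∫ x, (u - P.Q (max (C.t k') x) 0 1) ∂P.μ| ≤ η ∧
    (k = k' → l2 = []) ∧
    (C.t k = 0 → l1 = [((0 : ℝ), 0)]) ∧
    ((∀ x ∈ P.T, x ≤ C.t k') → ∃ E, l3 = [((1 : ℝ), E)]) :=
  CellsE_split P C k k' hk hk'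

/-- existence of cells with two given representatives -/
theorem exists_cells {u : ℝ} (P : PData u) {η : ℝ} (hη : 0 < η) (s t : ℝ) (hs : s ∈ P.T)
    (ht : t ∈ P.T) (hst : s ≤ t) : ∃ (C : Cells P.T P.μ η) (k k' : ℕ), k ≤ k' ∧ k' ≤ C.r ∧
      C.t k = s ∧ C.t k' = t ∧ (s = t → k = k') :=
  CellsG_exists P hη s t hs ht hst

end SKC.H
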