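import Pool.Agent.H.MP_08eaf3_pr.G.Lz
import Pool.Agent.H.MP_08eaf3_pr.G.Ly

/-!
# Part H: the output of part G (`G.field_lower` and `G.field_upper` together)
-/

set_option autoImplicit false

open MeasureTheory ProbabilityTheory Filter Topology Matrix

namespace SKC.H

/-- output of part G -/
theorem G_out {b1 b2 : ℝ} (hb1 : 0 ≤ b1) (hb2 : 0 ≤ b2) {ε : ℝ} (hε : 0 < ε) :
    ∃ δ : ℝ, 0 < δ ∧ ∀ (F : Fam) (_ : F.IsGG) (C : G.CS F δ),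
      (∀ᶠ i in (F.U : Filter F.I),
        PsiL (be b1 b2) C.l F0 0 - ε ≤ G.fld (F.S i) F0 (G.vz b1 b2 (F.Nn i))) ∧
      ∀ᶠ i in (F.U : Filter F.I),
        G.fld (F.S i) (fun z => z ()) (G.vy b1 b2 (F.Nn i)) ≤
          (1 / 2) * corr (be b1 b2) 0 C.l + ε := by
  obtain ⟨d1, hd1, h1⟩ := G.field_lower b1 b2 hb1 hb2 ε hε
  obtain ⟨d2, hd2, h2⟩ := G.field_upper b1 b2 hb1 hb2 ε hε
  exact ⟨min d1 d2, lt_min hd1 hd2, fun F hF C =>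
    ⟨h1 F hF _ (lt_min hd1 hd2) (min_le_left _ _) C,
      h2 F hF _ (lt_min hd1 hd2) (min_le_right _ _) C⟩⟩

end SKC.H
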