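import Pool.Agent.H.MP_08eaf3_pr.H.FldA
import Pool.Agent.H.MP_08eaf3_pr.D.Out
import Pool.Agent.H.MP_08eaf3_pr.H.NeedG
import Pool.Agent.H.MP_08eaf3_pr.H.CSe
import Pool.Agent.H.MP_08eaf3_pr.H.CellsIf
import Pool.Agent.H.MP_08eaf3_pr.EF.Out

/-!
# Part H: the lower bound (Aizenman-Sims-Starr) for the paths of cell structures
-/

set_option autoImplicit false

open MeasureTheory ProbabilityTheory Filter Topology Matrix

namespace SKC.H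

variable {b1 b2 u A : ℝ}

/-- every cell structure of small mesh has a path with functional at most `A + ε`.
[`G_out` for `ε/3` gives `δ`; let `η = δ`.  `cs_of_cells` gives `D : G.CS F η` with `D.l = cpath`.  Along the
ultrafilter eventually `PsiL .. - ε/3 ≤ fld z = CH - LZ'` and `fld y = CY - LZ' ≤ corr/2 + ε/3` (`fld_vz`, `fld_vy`), and
`HSeq.cav`: `CH - CY ≤ A + const/(M+1)`, `const/(M+1) ≤ ε/3` eventually (`hyperfilter ℕ ≤ atTop`).  So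
`Pf = PsiL - corr/2 ≤ A + ε`; `psiEnd (fun _ => 0) 0 = F0`.  Take one `M` in the intersection
(`Eventually.exists`).] -/
theorem HSeq.path (s : HSeq b1 b2 u A (gP b1 b2 u)) (hb1 : 0 ≤ b1) (hb2 : 0 ≤ b2) (hu : |u| ≤ 1)
    {ε : ℝ} (hε : 0 < ε) : ∃ η : ℝ, 0 < η ∧ ∀ (O : EF.OrdData (seqFam s))
      (C : Cells (pdata O).T (pdata O).μ η),
      Pf (be b1 b2) (fun _ => 0) 0 (cpath (pdata O) C) ≤ A + ε := by
  obtain ⟨δ, hδ, hG⟩ := G_out hb1 hb2 (ε := ε / 3) (by positivity)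
  refine ⟨δ, hδ, fun O C => ?_⟩
  obtain ⟨D, hD⟩ := cs_of_cells (seqFam_isGG hu s) O C
  obtain ⟨h1, h2⟩ := hG (seqFam s) (seqFam_isGG hu s) D
  rw [hD] at h1 h2
  have hK : Tendsto (fun M : ℕ => (2 + 4 * Real.exp ((b1 + b2) ^ 2) + 4 * (1 + (b1 + b2) ^ 2)) *
      (1 / ((M : ℝ) + 1))) (hyperfilter ℕ : Filter ℕ) (𝓝 0) := by
    have h3 : Tendsto (fun M : ℕ => (2 + 4 * Real.exp ((b1 + b2) ^ 2) +
        4 * (1 + (b1 + b2) ^ 2)) * (1 / ((M : ℝ) + 1))) atTop (𝓝 0) := by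
      have h4 := (tendsto_one_div_add_atTop_nhds_zero_nat (𝕜 := ℝ)).const_mul
        (2 + 4 * Real.exp ((b1 + b2) ^ 2) + 4 * (1 + (b1 + b2) ^ 2))
      rwa [mul_zero] at h4
    refine h3.mono_left ?_
    rw [← Nat.cofinite_eq_atTop]
    exact Filter.hyperfilter_le_cofinite
  have h3 : ∀ᶠ M : ℕ in (hyperfilter ℕ : Filter ℕ),
      (2 + 4 * Real.exp ((b1 + b2) ^ 2) + 4 * (1 + (b1 + b2) ^ 2)) * (1 / ((M : ℝ) + 1)) ≤ ε / 3 :=
    hK.eventually_le_const (by positivity)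
  have h1' : ∀ᶠ M : ℕ in (hyperfilter ℕ : Filter ℕ),
      PsiL (be b1 b2) (cpath (pdata O) C) F0 0 - ε / 3 ≤
        G.fld (SP b1 b2 (cN (s.Nn M)) u M (s.Nn M) (s.x M)) F0 (G.vz b1 b2 (s.Nn M)) := h1
  have h2' : ∀ᶠ M : ℕ in (hyperfilter ℕ : Filter ℕ),
      G.fld (SP b1 b2 (cN (s.Nn M)) u M (s.Nn M) (s.x M)) (fun z => z ()) (G.vy b1 b2 (s.Nn M)) ≤
        (1 / 2) * corr (be b1 b2) 0 (cpath (pdata O) C) + ε / 3 := h2
  obtain ⟨M, h4, h5, h6⟩ := (h1'.and (h2'.and h3)).exists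
  rw [fld_vz] at h4
  rw [fld_vy] at h5
  have h7 := s.cav hb1 hb2 hu M
  have h8 : (2 + 4 * Real.exp ((b1 + b2) ^ 2) + 4 * (1 + (b1 + b2) ^ 2)) / ((M : ℝ) + 1) =
      (2 + 4 * Real.exp ((b1 + b2) ^ 2) + 4 * (1 + (b1 + b2) ^ 2)) * (1 / ((M : ℝ) + 1)) := by
    ring
  rw [h8] at h7
  have h9 : Pf (be b1 b2) (fun _ => 0) 0 (cpath (pdata O) C) =
      PsiL (be b1 b2) (cpath (pdata O) C) F0 0 -
        (1 / 2) * corr (be b1 b2) 0 (cpath (pdata O) C) := rfl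
  rw [h9]
  linarith

/-- a valid path with functional at most `A + ε` exists [`EF.ordData`, `exists_cells` with `s = t` any point of
`T`, `cpath_valid`, `cpath_Qtot`.] -/
theorem HSeq.exists_path (s : HSeq b1 b2 u A (gP b1 b2 u)) (hb1 : 0 ≤ b1) (hb2 : 0 ≤ b2)
    (hu : |u| ≤ 1) {ε : ℝ} (hε : 0 < ε) : ∃ l : List (Step (Fin 2)), Valid l ∧
      Qtot l = mat 1 1 u ∧ Pf (be b1 b2) (fun _ => 0) 0 l ≤ A + ε := by
  obtain ⟨η, hη, h⟩ := s.path hb1 hb2 hu hε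
  obtain ⟨O⟩ := EF.ordData (seqFam s) (seqFam_isGG hu s)
  obtain ⟨t, ht⟩ := (pdata O).ne
  obtain ⟨C, -⟩ := exists_cells (pdata O) hη t t ht ht le_rfl
  exact ⟨cpath (pdata O) C, cpath_valid (pdata O) C, cpath_Qtot (pdata O) C, h O C⟩

end SKC.H
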