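import Pool.Agent.H.MP_08eaf3_pr.H.MassB

/-!
# Part H2, H3: good blocks of sizes
-/

set_option autoImplicit false

open MeasureTheory ProbabilityTheory Filter Topology Matrix

namespace SKC.H

/-- blocks of sizes `N0 ≤ N < N0 + L` in which the pair overlap is close to `u`, the free energy is
at least `A N` and the average increment is at most `A`, up to `δ` -/
def GoodBlocks (b1 b2 u A : ℝ) (M : ℕ) : Prop :=
  ∀ δ : ℝ, 0 < δ → ∀ N1 : ℕ, ∃ N0 : ℕ, N1 ≤ N0 ∧ ∃ L : ℕ, 0 < L ∧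
    (∀ N : ℕ, N0 ≤ N → N < N0 + L → ∀ x : PM M → ℝ, (∀ p, x p ∈ Set.Icc (1 : ℝ) 2) →
      dev b1 b2 u M N x ≤ δ ∧ (N : ℝ) * (A - δ) ≤ LZ b1 b2 (cN N) u M N x) ∧
    ∀ x : PM M → ℝ, (∀ p, x p ∈ Set.Icc (1 : ℝ) 2) →
      LZ b1 b2 1 u M (N0 + L) x - LZ b1 b2 1 u M N0 x ≤ L * (A + δ)

/-- `N^{3/4} = o(N)`, in the form used below -/
theorem rpow_small (C : ℝ) {e : ℝ} (he : 0 < e) :
    ∃ N1 : ℕ, ∀ N : ℕ, N1 ≤ N → C * (1 + (N : ℝ) ^ (3 / 4 : ℝ)) ≤ e * N := by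
  have h1 : Tendsto (fun N : ℕ => C * ((N : ℝ)⁻¹ + (N : ℝ) ^ (-(1 / 4) : ℝ))) atTop (𝓝 (C * (0 + 0))) := by
    apply Tendsto.const_mul
    apply Tendsto.add
    · exact tendsto_inv_atTop_nhds_zero_nat
    · exact (tendsto_rpow_neg_atTop (by norm_num : (0 : ℝ) < 1 / 4)).comp tendsto_natCast_atTop_atTop
  rw [add_zero, mul_zero] at h1
  have h2 := (h1.eventually (gt_mem_nhds he)).and (eventually_ge_atTop 1)
  obtain ⟨N1, hN1⟩ := eventually_atTop.1 h2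
  refine ⟨N1, fun N hN => ?_⟩
  obtain ⟨h3, h4⟩ := hN1 N hN
  have hN0 : (0 : ℝ) < N := by exact_mod_cast h4
  have h5 : (N : ℝ) ^ (3 / 4 : ℝ) = N * (N : ℝ) ^ (-(1 / 4) : ℝ) := by
    have h6 : (3 / 4 : ℝ) = 1 + -(1 / 4) := by norm_num
    rw [h6, Real.rpow_add hN0, Real.rpow_one]
  have h7 : C * (1 + (N : ℝ) ^ (3 / 4 : ℝ)) = (C * ((N : ℝ)⁻¹ + (N : ℝ) ^ (-(1 / 4) : ℝ))) * N := by
    rw [h5]
    field_simp
  rw [h7]
  exact mul_le_mul_of_nonneg_right h3.le hN0.le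

/-- reindexing of configurations -/
def BlkA_re {N : ℕ} (ρ : Cfg (Unit × Fin 2) N) : Cfg (Fin 2) N := fun i c => ρ i ((), c)

theorem BlkA_re_inj {N : ℕ} : Function.Injective (BlkA_re (N := N)) := by
  intro ρ ρ' h
  funext i p
  have h1 := congrFun (congrFun h i) p.2
  exact h1

theorem BlkA_vH (b1 b2 : ℝ) {N : ℕ} (ρ : Cfg (Unit × Fin 2) N) :
    vH (be b1 b2) N (BlkA_re ρ) = vH (beN b1 b2 Unit) N ρ := by
  funext q
  unfold vH
  congr 1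

theorem BlkA_sg (b : Bool) : |sg b| = 1 := by
  unfold sg
  split_ifs <;> simp

theorem BlkA_ov_le {K : Type} {N : ℕ} (ρ ρ' : Cfg K N) (c c' : K) : |ov ρ ρ' c c'| ≤ 1 := by
  unfold ov
  rw [abs_div, Nat.abs_cast]
  apply div_le_one_of_le₀ _ (Nat.cast_nonneg N)
  calc |∑ i, sg (ρ i c) * sg (ρ' i c')| ≤ ∑ i : Fin N, |sg (ρ i c) * sg (ρ' i c')| :=
        Finset.abs_sum_le_sum_abs _ _
    _ = ∑ _i : Fin N, (1 : ℝ) := by
        apply Finset.sum_congr rfl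
        intro i _
        rw [abs_mul, BlkA_sg, BlkA_sg, one_mul]
    _ = N := by simp

/-- reindexing of `memU`: the family `J = Unit`.
[`EL_map`-type reindexing along the equivalence `Cfg (Unit × Fin 2) N ≃ Cfg (Fin 2) N`; the kernel of
`vH (beN ..)` corresponds to that of `vH (be b1 b2)`; `Fintype.card Unit = 1`.] -/
theorem memU_frequently {b1 b2 u : ℝ} (hU : memU b1 b2 u) {e : ℝ} (he : 0 < e) :
    ∃ᶠ N : ℕ in atTop, ∃ B : Finset (Cfg (Fin 2) N), B.Nonempty ∧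
      (∀ ρ ∈ B, |ov ρ ρ 0 1 - u| ≤ e) ∧
      (N : ℝ) * (Fo b1 + Fo b2 - e) ≤ EL B (vH (be b1 b2) N) (fun _ => 0) := by
  have h0 := hU e he e he
  refine (h0.and_eventually (eventually_ge_atTop 1)).mono ?_
  rintro N ⟨⟨hne, hle⟩, hN⟩
  have hN0 : (0 : ℝ) < N := by exact_mod_cast hN
  refine ⟨(near (N := N) (fun p p' : Unit × Fin 2 => mat 1 1 u p.2 p'.2) e).map
    ⟨BlkA_re, BlkA_re_inj⟩, hne.map, ?_, ?_⟩
  · intro ρ hρ
    rw [Finset.mem_map] at hρ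
    obtain ⟨ρ', hρ', rfl⟩ := hρ
    unfold near at hρ'
    rw [Finset.mem_filter] at hρ'
    exact hρ'.2 ((), 0) ((), 1)
  · have h1 : EL ((near (N := N) (fun p p' : Unit × Fin 2 => mat 1 1 u p.2 p'.2) e).map
        ⟨BlkA_re, BlkA_re_inj⟩) (vH (be b1 b2) N) (fun _ => 0) =
        EL (near (N := N) (fun p p' : Unit × Fin 2 => mat 1 1 u p.2 p'.2) e)
          (vH (beN b1 b2 Unit) N) (fun _ => 0) := by
      unfold EL lse
      congr 1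
      funext x
      rw [Finset.sum_map]
      congr 1
    rw [h1]
    rw [Fintype.card_unit, Nat.cast_one, one_mul, le_div_iff₀ hN0] at hle
    linarith

/-- [`|ov| ≤ 1` and `near` nonempty for every `e`.] -/
theorem memU_abs_le {b1 b2 u : ℝ} (hU : memU b1 b2 u) : |u| ≤ 1 := by
  apply le_of_forall_pos_le_add
  intro e he
  obtain ⟨N, B, hB, h1, _⟩ := (memU_frequently hU he).exists
  obtain ⟨ρ, hρ⟩ := hB
  have h2 := h1 ρ hρ
  have h3 := BlkA_ov_le ρ ρ 0 1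
  have h4 : |u| ≤ |ov ρ ρ 0 1 - u| + |ov ρ ρ 0 1| := by
    have h5 : u = -(ov ρ ρ 0 1 - u) + ov ρ ρ 0 1 := by ring
    calc |u| = |-(ov ρ ρ 0 1 - u) + ov ρ ρ 0 1| := by rw [← h5]
      _ ≤ |-(ov ρ ρ 0 1 - u)| + |ov ρ ρ 0 1| := abs_add_le _ _
      _ = _ := by rw [abs_neg]
  linarith

end SKC.H
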