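import Pool.Agent.H.MP_08eaf3_pr.H.BlkA

/-!
# Part H3: lower bound in a block
-/

set_option autoImplicit false

open MeasureTheory ProbabilityTheory Filter Topology Matrix

namespace SKC.H

/-- H3 blocks, lower bound.  `Λ = F1 + F2`.  For small `e`, large `N0` (with a set `B` of
`memU_frequently`), `L = ⌈√e N0⌉`, `N0 ≤ N ≤ N0 + L`: `LZ c N x ≥ N (Λ - C √e)`.
[`frz_le_LZ`: `LZ ≥ N0 (Λ - e) - 3 B L - B - C_M N^{3/4} - N (e + 2L/N)^2`, `L ≤ 2 √e N0`,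
`N Λ ≤ N0 Λ + 2 √e N0 |Λ|`, `(e + 4 √e)^2 ≤ 25 √e`; `C = 2|Λ| + 27 + 6 B + 1`, where `rpow_small` with
constant `B + C_M` bounds the lower order terms by `√e N`.] -/
theorem lower_block {b1 b2 u : ℝ} (hb1 : 0 ≤ b1) (hb2 : 0 ≤ b2) (hu : |u| ≤ 1) (M : ℕ)
    (Λ : ℝ) : ∃ C : ℝ, 0 < C ∧ ∀ e : ℝ, 0 < e → e ≤ 1 → ∃ N1 : ℕ, ∀ N0 : ℕ, N1 ≤ N0 →
      (∃ B : Finset (Cfg (Fin 2) N0), B.Nonempty ∧ (∀ ρ ∈ B, |ov ρ ρ 0 1 - u| ≤ e) ∧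
        (N0 : ℝ) * (Λ - e) ≤ EL B (vH (be b1 b2) N0) (fun _ => 0)) →
      ∀ N : ℕ, N0 ≤ N → N ≤ N0 + ⌈Real.sqrt e * N0⌉₊ → ∀ c : ℝ, 1 - 1 / ((N : ℝ) + 1) ≤ c ^ 2 →
        c ^ 2 ≤ 1 → ∀ x : PM M → ℝ, (∀ p, x p ∈ Set.Icc (1 : ℝ) 2) →
        (N : ℝ) * (Λ - C * Real.sqrt e) ≤ LZ b1 b2 c u M N x := by
  refine ⟨2 * |Λ| + 27 + 6 * (b1 + b2) ^ 2, by positivity, ?_⟩
  intro e he he1
  have hS0 : 0 < Real.sqrt e := Real.sqrt_pos.2 he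
  have hS1 : Real.sqrt e ≤ 1 := by
    rw [← Real.sqrt_one]
    exact Real.sqrt_le_sqrt he1
  have hSe : Real.sqrt e * Real.sqrt e = e := Real.mul_self_sqrt he.le
  generalize Real.sqrt e = S at hS0 hS1 hSe ⊢
  have heS : e ≤ S := by
    rw [← hSe]
    nlinarith
  obtain ⟨N1, hN1⟩ := rpow_small ((b1 + b2) ^ 2 + 4 * ((M : ℝ) + 1) ^ 3) hS0
  refine ⟨max N1 (⌈1 / S⌉₊ + 1), ?_⟩
  rintro N0 hN0 ⟨B, hBne, hB, hEL⟩ N hNl hNu c hc hc1 x hx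
  have hN0a : N1 ≤ N0 := (le_max_left _ _).trans hN0
  have hN0b : ⌈1 / S⌉₊ + 1 ≤ N0 := (le_max_right _ _).trans hN0
  have hN0pos : 0 < N0 := by omega
  have hN0r : (0 : ℝ) < N0 := by exact_mod_cast hN0pos
  have hNr : (N0 : ℝ) ≤ N := by exact_mod_cast hNl
  have hNpos : (0 : ℝ) < N := lt_of_lt_of_le hN0r hNr
  have h1S : 1 ≤ S * N0 := by
    have h1 : 1 / S ≤ N0 := by
      refine (Nat.le_ceil (1 / S)).trans ?_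
      exact_mod_cast (Nat.le_succ _).trans hN0b
    rw [div_le_iff₀ hS0] at h1
    linarith
  have hk : (N : ℝ) - N0 ≤ 2 * S * N0 := by
    have h1 : (N : ℝ) ≤ N0 + (⌈S * N0⌉₊ : ℝ) := by exact_mod_cast hNu
    have h2 : (⌈S * N0⌉₊ : ℝ) < S * N0 + 1 := Nat.ceil_lt_add_one (by positivity)
    linarith
  have hk0 : 0 ≤ (N : ℝ) - N0 := by linarith
  have hkN : (N : ℝ) - N0 ≤ 2 * S * N := by
    refine hk.trans ?_
    exact mul_le_mul_of_nonneg_left hNr (by positivity)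
  have hmain := frz_le_LZ hb1 hb2 hu he.le hN0pos hNl hc hc1 hx hBne hB
  have hlow := hN1 N (hN0a.trans hNl)
  have hpow0 : (0 : ℝ) ≤ (N : ℝ) ^ (3 / 4 : ℝ) := by positivity
  have hM0 : (0 : ℝ) ≤ 4 * ((M : ℝ) + 1) ^ 3 := by positivity
  have hB0 : (0 : ℝ) ≤ (b1 + b2) ^ 2 := by positivity
  have hlow' : (b1 + b2) ^ 2 + 4 * ((M : ℝ) + 1) ^ 3 * (N : ℝ) ^ (3 / 4 : ℝ) ≤ S * N := by
    refine le_trans ?_ hlow
    have h1 : 0 ≤ (b1 + b2) ^ 2 * (N : ℝ) ^ (3 / 4 : ℝ) := by positivity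
    nlinarith
  have hpen : (N : ℝ) * (e + 2 * ((N : ℝ) - N0) / N) ^ 2 ≤ 25 * S * N := by
    have h1 : 2 * ((N : ℝ) - N0) / N ≤ 4 * S := by
      rw [div_le_iff₀ hNpos]
      linarith
    have h2 : 0 ≤ 2 * ((N : ℝ) - N0) / N := by positivity
    have h3 : (e + 2 * ((N : ℝ) - N0) / N) ^ 2 ≤ (5 * S) ^ 2 := by
      refine pow_le_pow_left₀ (by linarith) ?_ 2
      linarith
    have h4 : (5 * S) ^ 2 ≤ 25 * S := by nlinarith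
    calc (N : ℝ) * (e + 2 * ((N : ℝ) - N0) / N) ^ 2 ≤ N * (25 * S) :=
          mul_le_mul_of_nonneg_left (h3.trans h4) hNpos.le
      _ = 25 * S * N := by ring
  have h5 : 3 * (b1 + b2) ^ 2 * ((N : ℝ) - N0) ≤ 6 * (b1 + b2) ^ 2 * S * N := by
    have h6 := mul_le_mul_of_nonneg_left hkN (show (0 : ℝ) ≤ 3 * (b1 + b2) ^ 2 by positivity)
    linarith
  have h7 : (N : ℝ) * Λ - 2 * |Λ| * S * N - S * N ≤ (N0 : ℝ) * (Λ - e) := by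
    have h8 : ((N : ℝ) - N0) * Λ ≤ 2 * S * N * |Λ| := by
      calc ((N : ℝ) - N0) * Λ ≤ ((N : ℝ) - N0) * |Λ| :=
            mul_le_mul_of_nonneg_left (le_abs_self Λ) hk0
        _ ≤ 2 * S * N * |Λ| := mul_le_mul_of_nonneg_right hkN (abs_nonneg Λ)
    have h9 : (N0 : ℝ) * e ≤ S * N := by
      calc (N0 : ℝ) * e ≤ N * S := mul_le_mul hNr heS he.le hNpos.le
        _ = S * N := by ring
    linarith
  have h10 : (N : ℝ) * (Λ - (2 * |Λ| + 27 + 6 * (b1 + b2) ^ 2) * S) =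
      N * Λ - 2 * |Λ| * S * N - 27 * (S * N) - 6 * (b1 + b2) ^ 2 * S * N := by ring
  rw [h10]
  linarith

end SKC.H
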