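import Pool.Agent.H.MP_08eaf3_pr.H.BlkA

/-!
# Part H3: the increment over a block
-/

set_option autoImplicit false

open MeasureTheory ProbabilityTheory Filter Topology Matrix

namespace SKC.H

/-- H3 blocks, increment.  `Λ = F1 + F2`, `L = ⌈√e N0⌉`:
`LZ 1 (N0+L) - LZ 1 N0 ≤ L (Λ + 7 √e)`.
[Upper bound `EL_le_pair` (with `η = 0`) at `N0 + L`: `(N0+L)(Λ + 2e) + B + C_M (N0+L)^{3/4}`; lower bound
`frz_le_LZ` with `N = N0`, `c = 1`, `η = e`: `N0 (Λ - e) - B - C_M N0^{3/4} - N0 e^2`; the difference is at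
most `L Λ + (2e * 2 + e + e^2) N0 + o(N0) ≤ L Λ + 7 e N0`, and `e N0 ≤ √e L`.] -/
theorem incr_block {b1 b2 u : ℝ} (hb1 : 0 ≤ b1) (hb2 : 0 ≤ b2) (hu : |u| ≤ 1) (M : ℕ)
    (Λ : ℝ) : ∀ e : ℝ, 0 < e → e ≤ 1 → ∃ N1 : ℕ, ∀ N0 : ℕ, N1 ≤ N0 →
      (∃ B : Finset (Cfg (Fin 2) N0), B.Nonempty ∧ (∀ ρ ∈ B, |ov ρ ρ 0 1 - u| ≤ e) ∧
        (N0 : ℝ) * (Λ - e) ≤ EL B (vH (be b1 b2) N0) (fun _ => 0)) →
      FN b1 (N0 + ⌈Real.sqrt e * N0⌉₊) + FN b2 (N0 + ⌈Real.sqrt e * N0⌉₊) ≤ Λ + 2 * e →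
      ∀ x : PM M → ℝ, (∀ p, x p ∈ Set.Icc (1 : ℝ) 2) →
        LZ b1 b2 1 u M (N0 + ⌈Real.sqrt e * N0⌉₊) x - LZ b1 b2 1 u M N0 x ≤
          (⌈Real.sqrt e * N0⌉₊ : ℝ) * (Λ + 7 * Real.sqrt e) := by
  intro e he he1
  obtain ⟨CM, hCM⟩ : ∃ CM : ℝ, CM = 4 * ((M : ℝ) + 1) ^ 3 := ⟨_, rfl⟩
  obtain ⟨Bb, hBb⟩ : ∃ Bb : ℝ, Bb = (b1 + b2) ^ 2 := ⟨_, rfl⟩
  have hCM0 : 0 ≤ CM := by rw [hCM]; positivity
  have hBb0 : 0 ≤ Bb := by rw [hBb]; positivity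
  obtain ⟨N1, hN1⟩ := rpow_small (2 * Bb + 2 * CM) (e := e / 3) (by linarith)
  refine ⟨max N1 1, fun N0 hN0 hB hF x hx => ?_⟩
  obtain ⟨B, hne, hBo, hBl⟩ := hB
  have hN01 : N1 ≤ N0 := (le_max_left _ _).trans hN0
  have hN0p : 0 < N0 := (le_max_right _ _).trans hN0
  have hN0r : (1 : ℝ) ≤ N0 := by exact_mod_cast hN0p
  have hs0 : 0 < Real.sqrt e := Real.sqrt_pos.2 he
  have hs1 : Real.sqrt e ≤ 1 := Real.sqrt_le_one.2 he1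
  have hss : Real.sqrt e * Real.sqrt e = e := Real.mul_self_sqrt he.le
  have hes : e ≤ Real.sqrt e := by nlinarith
  obtain ⟨L, hL⟩ : ∃ L : ℕ, L = ⌈Real.sqrt e * N0⌉₊ := ⟨_, rfl⟩
  rw [← hL] at hF ⊢
  have hL1 : Real.sqrt e * N0 ≤ L := by rw [hL]; exact Nat.le_ceil _
  have hL2 : (L : ℝ) ≤ 2 * N0 := by
    have h1 : (L : ℝ) < Real.sqrt e * N0 + 1 := by
      rw [hL]; exact Nat.ceil_lt_add_one (by positivity)
    nlinarith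
  have hcast : ((N0 + L : ℕ) : ℝ) = N0 + L := by push_cast; ring
  have hup := EL_le_pair (u := u) (η := 0) (c := 1) hb1 hb2 (M := M) (N := N0 + L) (by omega)
    (by rw [one_pow]; have : (0 : ℝ) ≤ 1 / (((N0 + L : ℕ) : ℝ) + 1) := by positivity
        linarith) (by norm_num) hx le_rfl
    (B := (Finset.univ : Finset (Cfg (Fin 2) (N0 + L)))) Finset.univ_nonempty
    (fun ρ _ => abs_nonneg _)
  have hlo := frz_le_LZ (c := 1) hb1 hb2 hu he.le (M := M) hN0p (le_refl N0)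
    (by rw [one_pow]; have : (0 : ℝ) ≤ 1 / ((N0 : ℝ) + 1) := by positivity
        linarith) (by norm_num) hx hne hBo
  have hup' : LZ b1 b2 1 u M (N0 + L) x ≤
      ((N0 + L : ℕ) : ℝ) * (FN b1 (N0 + L) + FN b2 (N0 + L)) - ((N0 + L : ℕ) : ℝ) * 0 ^ 2 +
        (b1 + b2) ^ 2 + 4 * ((M : ℝ) + 1) ^ 3 * ((N0 + L : ℕ) : ℝ) ^ (3 / 4 : ℝ) := hup
  rw [← hBb, ← hCM] at hup' hlo
  have hsm := hN1 (N0 + L) (by omega)
  have hpow : (N0 : ℝ) ^ (3 / 4 : ℝ) ≤ ((N0 + L : ℕ) : ℝ) ^ (3 / 4 : ℝ) :=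
    Real.rpow_le_rpow (by positivity) (by rw [hcast]; linarith [Nat.cast_nonneg (α := ℝ) L]) (by norm_num)
  have hprod : ((N0 + L : ℕ) : ℝ) * (FN b1 (N0 + L) + FN b2 (N0 + L)) ≤
      ((N0 + L : ℕ) : ℝ) * (Λ + 2 * e) := mul_le_mul_of_nonneg_left hF (by positivity)
  rw [sub_self, mul_zero, mul_zero, zero_div, add_zero] at hlo
  have hP0 : 0 ≤ ((N0 + L : ℕ) : ℝ) ^ (3 / 4 : ℝ) := by positivity
  have k1 : CM * (N0 : ℝ) ^ (3 / 4 : ℝ) ≤ CM * ((N0 + L : ℕ) : ℝ) ^ (3 / 4 : ℝ) :=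
    mul_le_mul_of_nonneg_left hpow hCM0
  have k2 : 2 * Bb + 2 * (CM * ((N0 + L : ℕ) : ℝ) ^ (3 / 4 : ℝ)) ≤
      (2 * Bb + 2 * CM) * (1 + ((N0 + L : ℕ) : ℝ) ^ (3 / 4 : ℝ)) := by
    have := mul_nonneg hBb0 hP0
    linarith
  have k3 : e * N0 ≤ Real.sqrt e * L := by
    calc e * N0 = Real.sqrt e * (Real.sqrt e * N0) := by rw [← mul_assoc, hss]
      _ ≤ Real.sqrt e * L := mul_le_mul_of_nonneg_left hL1 hs0.le
  have k4 : e * L ≤ Real.sqrt e * L := mul_le_mul_of_nonneg_right hes (Nat.cast_nonneg _)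
  have k5 : (N0 : ℝ) * e ^ 2 ≤ e * N0 := by
    have : e ^ 2 ≤ e := by nlinarith
    have := mul_le_mul_of_nonneg_left this (by linarith : (0 : ℝ) ≤ N0)
    linarith
  have k6 : e / 3 * ((N0 + L : ℕ) : ℝ) ≤ e * N0 := by
    rw [hcast]
    have := mul_le_mul_of_nonneg_left hL2 he.le
    linarith
  rw [hcast] at hprod hup'
  rw [hcast] at k1 k2 hsm
  rw [hcast] at k6
  linarith

end SKC.H
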