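import Pool.Agent.H.MP_08eaf3_pr.H.BlkB
import Pool.Agent.H.MP_08eaf3_pr.H.BlkC

/-!
# Part H3: good blocks for the pair system
-/

set_option autoImplicit false

open MeasureTheory ProbabilityTheory Filter Topology Matrix

namespace SKC.H

/-- H3: good blocks for the pair system. [Given `δ`, take `e'` from `dev_small` and `e ≤ 1` so small
that `C √e ≤ δ`, `7 √e ≤ δ`, `C √e + 2 e ≤ e'`; `N0` large from `memU_frequently` (`Frequently.and_eventually`)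
and from `FN b_i → Fo b_i` (`FN b_i N ≤ Fo b_i + e` for `N ≥ N0`); `L = ⌈√e N0⌉ > 0`.] -/
theorem goodBlocks_pair {b1 b2 u : ℝ} (hb1 : 0 ≤ b1) (hb2 : 0 ≤ b2) (hU : memU b1 b2 u)
    (h1 : Tendsto (FN b1) atTop (𝓝 (Fo b1))) (h2 : Tendsto (FN b2) atTop (𝓝 (Fo b2))) (M : ℕ) :
    GoodBlocks b1 b2 u (Fo b1 + Fo b2) M := by
  have hu := memU_abs_le hU
  intro δ hδ Nmin
  obtain ⟨e', he', Nd, hd⟩ := dev_small hb1 hb2 hu M hδ
  obtain ⟨C, hC, hlow⟩ := lower_block hb1 hb2 hu M (Fo b1 + Fo b2)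
  have hinc := incr_block hb1 hb2 hu M (Fo b1 + Fo b2)
  -- the square root `r` of `e`
  obtain ⟨r, hr0, hr1, hr2, hr3, hr4⟩ : ∃ r : ℝ, 0 < r ∧ r ≤ 1 ∧ C * r ≤ δ ∧ 7 * r ≤ δ ∧
      (C + 2) * r ≤ e' := by
    refine ⟨min (min 1 (δ / C)) (min (δ / 7) (e' / (C + 2))), ?_, ?_, ?_, ?_, ?_⟩
    · exact lt_min (lt_min one_pos (div_pos hδ hC)) (lt_min (by positivity) (by positivity))
    · exact (min_le_left _ _).trans (min_le_left _ _)
    · have h3 : min (min 1 (δ / C)) (min (δ / 7) (e' / (C + 2))) ≤ δ / C :=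
        (min_le_left _ _).trans (min_le_right _ _)
      rw [le_div_iff₀ hC] at h3
      linarith
    · have h3 : min (min 1 (δ / C)) (min (δ / 7) (e' / (C + 2))) ≤ δ / 7 :=
        (min_le_right _ _).trans (min_le_left _ _)
      linarith
    · have h3 : min (min 1 (δ / C)) (min (δ / 7) (e' / (C + 2))) ≤ e' / (C + 2) :=
        (min_le_right _ _).trans (min_le_right _ _)
      rw [le_div_iff₀ (by positivity)] at h3
      linarith
  have hsq : Real.sqrt (r ^ 2) = r := Real.sqrt_sq hr0.le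
  have he0 : 0 < r ^ 2 := by positivity
  have he1 : r ^ 2 ≤ 1 := by nlinarith
  obtain ⟨Nl, hNl⟩ := hlow (r ^ 2) he0 he1
  obtain ⟨Ni, hNi⟩ := hinc (r ^ 2) he0 he1
  obtain ⟨Na, hNa⟩ := Filter.eventually_atTop.1
    (h1.eventually (gt_mem_nhds (lt_add_of_pos_right (Fo b1) he0)))
  obtain ⟨Nb, hNb⟩ := Filter.eventually_atTop.1
    (h2.eventually (gt_mem_nhds (lt_add_of_pos_right (Fo b2) he0)))
  obtain ⟨N0, ⟨B, hB1, hB2, hB3⟩, hN0⟩ := ((memU_frequently hU he0).and_eventually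
    (Filter.eventually_ge_atTop (Nmin + Nd + Nl + Ni + Na + Nb + 1))).exists
  rw [hsq] at hNl hNi
  have hN0' : (0 : ℝ) < N0 := by
    have : 0 < N0 := by omega
    exact_mod_cast this
  have hLpos : 0 < ⌈r * N0⌉₊ := Nat.ceil_pos.2 (mul_pos hr0 hN0')
  have hF : ∀ N, N0 ≤ N → FN b1 N + FN b2 N ≤ Fo b1 + Fo b2 + 2 * r ^ 2 := by
    intro N hN
    have e1 := hNa N (by omega)
    have e2 := hNb N (by omega)
    linarith
  refine ⟨N0, by omega, ⌈r * N0⌉₊, hLpos, ?_, ?_⟩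
  · intro N hN hN' x hx
    obtain ⟨hc1, hc2⟩ := cN_bounds N
    have hl := hNl N0 (by omega) ⟨B, hB1, hB2, hB3⟩ N hN hN'.le (cN N) hc1 hc2 x hx
    have hNn : (0 : ℝ) ≤ N := Nat.cast_nonneg N
    refine ⟨hd N (by omega) x hx ?_, ?_⟩
    · have e1 : (N : ℝ) * (FN b1 N + FN b2 N) ≤ N * (Fo b1 + Fo b2 + 2 * r ^ 2) :=
        mul_le_mul_of_nonneg_left (hF N hN) hNn
      have e2 : (N : ℝ) * (C * r + 2 * r ^ 2) ≤ N * e' := by
        refine mul_le_mul_of_nonneg_left ?_ hNn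
        nlinarith
      linarith
    · have e1 : (N : ℝ) * (C * r) ≤ N * δ := mul_le_mul_of_nonneg_left hr2 hNn
      linarith
  · intro x hx
    have h3 := hNi N0 (by omega) ⟨B, hB1, hB2, hB3⟩ (hF _ (Nat.le_add_right _ _)) x hx
    have h4 : ((⌈r * N0⌉₊ : ℕ) : ℝ) * (7 * r) ≤ ⌈r * N0⌉₊ * δ :=
      mul_le_mul_of_nonneg_left hr3 (Nat.cast_nonneg _)
    linarith

end SKC.H
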