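import Pool.Agent.H.MP_08eaf3_pr.H.BlkA

/-!
# Part H2: the single system, lower bound
-/

set_option autoImplicit false

open MeasureTheory ProbabilityTheory Filter Topology Matrix

namespace SKC.H

/-- number of configurations of a single system -/
theorem BlkE_card (N : ℕ) : ((Finset.univ : Finset (Cfg Unit N)).card : ℝ) = (2 : ℝ) ^ N := by
  simp

/-- logarithm of the number of configurations -/
theorem BlkE_log_card (N : ℕ) :
    Real.log ((Finset.univ : Finset (Cfg Unit N)).card : ℝ) = N * Real.log 2 := by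
  rw [BlkE_card, Real.log_pow]

/-- `FN 0 N = log 2` [features `0`: `lse univ 0 = log 2^N`.] -/
theorem FN_zero {N : ℕ} (hN : 0 < N) : FN 0 N = Real.log 2 := by
  have hN' : (N : ℝ) ≠ 0 := by exact_mod_cast hN.ne'
  unfold FN
  have h1 : EL (Finset.univ : Finset (Cfg Unit N)) (vH (fun _ : Unit => (0 : ℝ)) N) (fun _ => 0) =
      lse (Finset.univ : Finset (Cfg Unit N)) (fun _ => 0) := by
    refine A.EL_zero _ (fun ω _ => ?_) _
    funext p
    simp [vH]
  rw [h1, A.lse_const Finset.univ_nonempty, BlkE_log_card, add_zero]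
  field_simp

/-- `|FN b N| ≤ log 2 + b^2/2` [`lse_le_EL`, `EL_le_annealed`, kernel diagonal `N b^2`.] -/
theorem FN_bounds {b : ℝ} (hb : 0 ≤ b) {N : ℕ} (hN : 0 < N) :
    Real.log 2 ≤ FN b N ∧ FN b N ≤ Real.log 2 + b ^ 2 / 2 := by
  have hN' : (0 : ℝ) < N := by exact_mod_cast hN
  have h1 := lse_le_EL (B := (Finset.univ : Finset (Cfg Unit N))) Finset.univ_nonempty
    (vH (fun _ : Unit => b) N) (fun _ => 0)
  rw [A.lse_const Finset.univ_nonempty, BlkE_log_card, add_zero] at h1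
  have h2 := A.EL_le_of_le (B := (Finset.univ : Finset (Cfg Unit N))) Finset.univ_nonempty
    (vH (fun _ : Unit => b) N) (fun _ => 0) (D := N * b ^ 2) (c := 0) (fun ρ _ => by
      rw [dot_vH]
      have h3 := Cf_le (K := Unit) (β := fun _ => b) (fun _ => hb) (R := fun c c' => ov ρ ρ c c')
        (fun c c' => abs_ov_le ρ ρ c c')
      simp only [Finset.univ_unique, Finset.sum_const, Finset.card_singleton, one_smul] at h3
      exact mul_le_mul_of_nonneg_left h3 hN'.le) (fun _ _ => le_rfl)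
  rw [BlkE_log_card] at h2
  unfold FN
  constructor
  · rw [le_div_iff₀ hN']
    linarith
  · rw [div_le_iff₀ hN']
    nlinarith

/-- flipping the spin `i` -/
def BlkE_flip {N : ℕ} (i : Fin N) : Cfg Unit N ≃ Cfg Unit N where
  toFun τ := Function.update τ i (fun u => !(τ i u))
  invFun τ := Function.update τ i (fun u => !(τ i u))
  left_inv τ := by
    funext j
    by_cases h : j = i
    · subst h
      simp
    · simp [Function.update_of_ne h]
  right_inv τ := by
    funext j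
    by_cases h : j = i
    · subst h
      simp
    · simp [Function.update_of_ne h]

/-- orthogonality of two different spins -/
theorem BlkE_orth {N : ℕ} {i j : Fin N} (h : i ≠ j) :
    ∑ τ : Cfg Unit N, sg (τ i ()) * sg (τ j ()) = 0 := by
  have h1 := Equiv.sum_comp (BlkE_flip i) (fun τ : Cfg Unit N => sg (τ i ()) * sg (τ j ()))
  have h2 : ∀ τ : Cfg Unit N, sg ((BlkE_flip i τ) i ()) * sg ((BlkE_flip i τ) j ()) =
      -(sg (τ i ()) * sg (τ j ())) := by
    intro τ
    have e1 : (BlkE_flip i τ) i () = !(τ i ()) := by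
      simp [BlkE_flip]
    have e2 : (BlkE_flip i τ) j () = τ j () := by
      simp [BlkE_flip, Function.update_of_ne (Ne.symm h)]
    have e3 : ∀ b : Bool, sg (!b) = - sg b := by
      intro b
      cases b <;> simp [sg]
    rw [e1, e2, e3]
    ring
  rw [Finset.sum_congr rfl fun τ _ => h2 τ, Finset.sum_neg_distrib] at h1
  linarith

/-- second moment of the overlap with a fixed configuration -/
theorem BlkE_sq {N : ℕ} (σ : Cfg Unit N) :
    ∑ τ : Cfg Unit N, (∑ i, sg (σ i ()) * sg (τ i ())) ^ 2 = N * (2 : ℝ) ^ N := by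
  have h1 : ∀ τ : Cfg Unit N, (∑ i, sg (σ i ()) * sg (τ i ())) ^ 2 =
      ∑ i, ∑ j, sg (σ i ()) * sg (σ j ()) * (sg (τ i ()) * sg (τ j ())) := by
    intro τ
    rw [sq, Finset.sum_mul_sum]
    exact Finset.sum_congr rfl fun i _ => Finset.sum_congr rfl fun j _ => by ring
  rw [Finset.sum_congr rfl fun τ _ => h1 τ, Finset.sum_comm]
  have h2 : ∀ i : Fin N, ∑ τ : Cfg Unit N, ∑ j, sg (σ i ()) * sg (σ j ()) *
      (sg (τ i ()) * sg (τ j ())) = (2 : ℝ) ^ N := by
    intro i
    rw [Finset.sum_comm]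
    have h3 : ∀ j : Fin N, ∑ τ : Cfg Unit N, sg (σ i ()) * sg (σ j ()) *
        (sg (τ i ()) * sg (τ j ())) = if j = i then (2 : ℝ) ^ N else 0 := by
      intro j
      rw [← Finset.mul_sum]
      by_cases h : j = i
      · subst h
        rw [if_pos rfl]
        have h4 : ∀ τ : Cfg Unit N, sg (τ j ()) * sg (τ j ()) = 1 := fun τ => sg_sq _
        rw [Finset.sum_congr rfl fun τ _ => h4 τ, Finset.sum_const, nsmul_eq_mul, BlkE_card,
          sg_sq]
        ring
      · rw [if_neg h, BlkE_orth (Ne.symm h), mul_zero]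
    rw [Finset.sum_congr rfl fun j _ => h3 j, Finset.sum_ite_eq' Finset.univ i]
    simp
  rw [Finset.sum_congr rfl fun i _ => h2 i, Finset.sum_const, nsmul_eq_mul]
  simp

/-- for every `σ`: `∑_τ exp(-N R(σ,τ)^2) ≥ 2^N / e`. [Jensen: the average of `R(σ,τ)^2` over `τ` is
`1/N`; `exp` convex (`inner_le...`: `ConvexOn.map_sum_le` or `exp x ≥ exp(-1)(x + 2)` termwise).] -/
theorem sum_pen_ge {N : ℕ} (hN : 0 < N) (σ : Cfg Unit N) :
    (2 : ℝ) ^ N * Real.exp (-1) ≤
      ∑ τ : Cfg Unit N, Real.exp (-(N : ℝ) * ((∑ i, sg (σ i ()) * sg (τ i ())) / N) ^ 2) := by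
  have hN' : (N : ℝ) ≠ 0 := by exact_mod_cast hN.ne'
  have h1 : ∀ y : ℝ, Real.exp (-1) * (y + 2) ≤ Real.exp y := by
    intro y
    have h2 : y = -1 + (y + 1) := by ring
    have h3 : Real.exp y = Real.exp (-1) * Real.exp (y + 1) := by
      rw [← Real.exp_add]
      congr 1
    rw [h3]
    refine mul_le_mul_of_nonneg_left ?_ (Real.exp_pos _).le
    have h4 := Real.add_one_le_exp (y + 1)
    linarith
  have h5 : ∑ τ : Cfg Unit N, Real.exp (-1) *
      (-(N : ℝ) * ((∑ i, sg (σ i ()) * sg (τ i ())) / N) ^ 2 + 2) = (2 : ℝ) ^ N * Real.exp (-1) := by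
    rw [← Finset.mul_sum, Finset.sum_add_distrib, ← Finset.mul_sum, Finset.sum_const, nsmul_eq_mul,
      BlkE_card]
    have h6 : ∑ τ : Cfg Unit N, ((∑ i, sg (σ i ()) * sg (τ i ())) / (N : ℝ)) ^ 2 =
        (N * (2 : ℝ) ^ N) / N ^ 2 := by
      rw [← BlkE_sq σ, Finset.sum_div]
      exact Finset.sum_congr rfl fun τ _ => by rw [div_pow]
    rw [h6]
    field_simp
    ring
  rw [← h5]
  exact Finset.sum_le_sum fun τ _ => h1 _

/-- overlap and penalty of a pair -/
theorem BlkE_pen {N : ℕ} (σ τ : Cfg Unit N) :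
    Pen 0 N (prE N (σ, τ)) = -(N : ℝ) * ((∑ i, sg (σ i ()) * sg (τ i ())) / N) ^ 2 := by
  simp [Pen, ov, prE]

/-- lower bound for the unperturbed system with penalty -/
theorem BlkE_pair {b : ℝ} {N : ℕ} (hN : 0 < N) :
    (N : ℝ) * (FN b N + Real.log 2) - 1 ≤
      EL (Finset.univ : Finset (Cfg (Fin 2) N)) (vH (be b 0) N) (Pen 0 N) := by
  have hN' : (N : ℝ) ≠ 0 := by exact_mod_cast hN.ne'
  have h1 := EL_map (prE N).toEmbedding (Finset.univ : Finset (Cfg Unit N × Cfg Unit N))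
    (vH (be b 0) N) (Pen 0 N)
  rw [Finset.map_univ_equiv] at h1
  rw [h1]
  have h2 : EL (Finset.univ : Finset (Cfg Unit N × Cfg Unit N))
      (fun ω => vH (be b 0) N ((prE N).toEmbedding ω)) (fun ω => Pen 0 N ((prE N).toEmbedding ω)) =
      EL (Finset.univ : Finset (Cfg Unit N)) (vH (fun _ : Unit => b) N)
        (fun σ => lse (Finset.univ : Finset (Cfg Unit N)) (fun τ =>
          -(N : ℝ) * ((∑ i, sg (σ i ()) * sg (τ i ())) / N) ^ 2)) := by
    unfold EL
    refine integral_congr_ae (Filter.Eventually.of_forall fun x => ?_)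
    change lse Finset.univ _ = lse Finset.univ _
    rw [← Finset.univ_product_univ, A.lse_product_fibre Finset.univ_nonempty Finset.univ_nonempty]
    refine A.lse_congr fun σ _ => ?_
    change lse (Finset.univ : Finset (Cfg Unit N)) (fun τ => dot x (vH (be b 0) N (prE N (σ, τ))) +
      Pen 0 N (prE N (σ, τ))) = _
    rw [add_comm, ← A.lse_add_const Finset.univ_nonempty]
    refine A.lse_congr fun τ _ => ?_
    have h3 : vH (be b 0) N (prE N (σ, τ)) = vH (fun _ : Unit => b) N σ := by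
      funext q
      rw [Upp_vH]
      simp [vH]
    rw [h3, BlkE_pen, add_comm]
  rw [h2]
  have h4 : EL (Finset.univ : Finset (Cfg Unit N)) (vH (fun _ : Unit => b) N)
      (fun _ => 0 + (N * Real.log 2 - 1)) ≤
      EL (Finset.univ : Finset (Cfg Unit N)) (vH (fun _ : Unit => b) N)
        (fun σ => lse (Finset.univ : Finset (Cfg Unit N)) (fun τ =>
          -(N : ℝ) * ((∑ i, sg (σ i ()) * sg (τ i ())) / N) ^ 2)) := by
    refine EL_mono Finset.univ_nonempty _ fun σ _ => ?_
    have h5 := sum_pen_ge hN σ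
    unfold lse
    have h6 : (0 : ℝ) + (N * Real.log 2 - 1) = Real.log ((2 : ℝ) ^ N * Real.exp (-1)) := by
      rw [Real.log_mul (by positivity) (Real.exp_pos _).ne', Real.log_pow, Real.log_exp]
      ring
    rw [h6]
    exact Real.log_le_log (by positivity) h5
  rw [EL_add_const Finset.univ_nonempty] at h4
  refine le_trans (le_of_eq ?_) h4
  unfold FN
  field_simp
  ring

/-- lower bound of the perturbed free energy for `b2 = 0`, `u = 0`.
[`EL_diff_le` (`abs_dot_vP_le`, `|c^2 N C - N C| ≤ B`) reduces to `EL univ (vH (be b 0)) Pen`;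
by `prE` this is `E log ∑_σ exp(<x, vH b σ>) ∑_τ exp(-N R(σ,τ)^2)`; `sum_pen_ge`.] -/
theorem lower_single {b c : ℝ} (hb : 0 ≤ b) {M N : ℕ} (hN : 0 < N)
    (hc : 1 - 1 / ((N : ℝ) + 1) ≤ c ^ 2) (hc1 : c ^ 2 ≤ 1) {x : PM M → ℝ}
    (hx : ∀ p, x p ∈ Set.Icc (1 : ℝ) 2) :
    (N : ℝ) * (FN b N + Real.log 2) - 1 - b ^ 2 - 4 * ((M : ℝ) + 1) ^ 3 * (N : ℝ) ^ (3 / 4 : ℝ) ≤
      LZ b 0 c 0 M N x := by
  have hN1 : (0 : ℝ) < N := by exact_mod_cast hN
  have h6 := EL_diff_le (Finset.univ : Finset (Cfg (Fin 2) N)) Finset.univ_nonempty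
    (vA b 0 c M N x) (vH (be b 0) N) (Pen 0 N)
    (b ^ 2 + 4 * ((M : ℝ) + 1) ^ 3 * (N : ℝ) ^ (3 / 4 : ℝ)) (fun ρ _ ρ' _ => by
      rw [dot_vA, dot_vH]
      have h7 := abs_dot_vP_le N hx ρ ρ'
      have h8 := Cf_nonneg (be_nonneg hb le_rfl) (fun c c' => ov ρ ρ' c c')
      have h9 := Cf_le (be_nonneg hb le_rfl) (R := fun c c' => ov ρ ρ' c c')
        (fun c c' => abs_ov_le ρ ρ' c c')
      rw [sum_be, add_zero] at h9
      set C := Cf (be b 0) (fun c c' => ov ρ ρ' c c')
      set P := dot (vP M N x ρ) (vP M N x ρ')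
      have h10 : |c ^ 2 * (N * C) - N * C| ≤ b ^ 2 := by
        have h11 : c ^ 2 * (N * C) - N * C = -((1 - c ^ 2) * (N * C)) := by ring
        rw [h11, abs_neg, abs_of_nonneg (mul_nonneg (by linarith) (mul_nonneg hN1.le h8))]
        have h12 : (1 - c ^ 2) * (N * C) ≤ 1 / ((N : ℝ) + 1) * (N * C) :=
          mul_le_mul_of_nonneg_right (by linarith) (mul_nonneg hN1.le h8)
        have h13 : 1 / ((N : ℝ) + 1) * (N * C) ≤ C := by
          rw [one_div, inv_mul_le_iff₀ (by linarith)]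
          nlinarith
        linarith
      have h14 : c ^ 2 * (N * C) + P - N * C = (c ^ 2 * (N * C) - N * C) + P := by ring
      rw [h14]
      exact (abs_add_le _ _).trans (add_le_add h10 h7))
  have h7 := (abs_le.1 h6).1
  have h8 := BlkE_pair (b := b) hN
  unfold LZ
  linarith

end SKC.H
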