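import Pool.Agent.H.MP_08eaf3_pr.H.BlkE

/-!
# Part H2: good blocks for the single system
-/

set_option autoImplicit false

open MeasureTheory ProbabilityTheory Filter Topology Matrix

namespace SKC.H

theorem BlkF_bdd_ge {b : ℝ} (hb : 0 ≤ b) : IsBoundedUnder (· ≥ ·) atTop (FN b) := by
  refine ⟨Real.log 2, ?_⟩
  rw [eventually_map]
  filter_upwards [eventually_gt_atTop 0] with N hN
  exact (FN_bounds hb hN).1

theorem BlkF_bdd_le {b : ℝ} (hb : 0 ≤ b) : IsBoundedUnder (· ≤ ·) atTop (FN b) := by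
  refine ⟨Real.log 2 + b ^ 2 / 2, ?_⟩
  rw [eventually_map]
  filter_upwards [eventually_gt_atTop 0] with N hN
  exact (FN_bounds hb hN).2

/-- the error terms are small -/
theorem BlkF_err {CM b e : ℝ} (hCM : 0 ≤ CM) {N : ℕ}
    (h : (1 + b ^ 2 + CM) * (1 + (N : ℝ) ^ (3 / 4 : ℝ)) ≤ e * N) :
    1 + b ^ 2 + CM * (N : ℝ) ^ (3 / 4 : ℝ) ≤ e * N := by
  have h1 : 0 ≤ (N : ℝ) ^ (3 / 4 : ℝ) := Real.rpow_nonneg (Nat.cast_nonneg N) _
  have h2 : 0 ≤ (1 + b ^ 2) * (N : ℝ) ^ (3 / 4 : ℝ) := by positivity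
  nlinarith

/-- H2: good blocks for the single system (`b2 = 0`, `u = 0`). `A = liminf FN b + log 2`.
[`dev ≤ δ` and `N (A - δ) ≤ LZ` for ALL large `N` by `lower_single`, `dev_small`, `FN_zero`.  Fix such
`N0 ≥ N1`; for `n` large with `FN b n ≤ liminf + δ/2` (frequently): `LZ 1 n ≤ n (A + δ/2) + o(n)` by
`EL_le_pair`, so `LZ 1 n - LZ 1 N0 ≤ (n - N0)(A + δ)` for `n` large; the second term is bounded below
uniformly in `x` by `lower_single`.  `L = n - N0`.] -/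
theorem goodBlocks_single {b : ℝ} (hb : 0 ≤ b) (M : ℕ) :
    GoodBlocks b 0 0 (liminf (FN b) atTop + Real.log 2) M := by
  intro δ hδ N1
  obtain ⟨e, he, Nd, hdev⟩ := dev_small hb le_rfl (by simp : |(0 : ℝ)| ≤ 1) M hδ
  have hCM0 : (0 : ℝ) ≤ 4 * ((M : ℝ) + 1) ^ 3 := by positivity
  obtain ⟨Na, hNa⟩ := rpow_small (1 + b ^ 2 + 4 * ((M : ℝ) + 1) ^ 3) he
  obtain ⟨Nb, hNb⟩ := rpow_small (1 + b ^ 2 + 4 * ((M : ℝ) + 1) ^ 3) (half_pos hδ)
  obtain ⟨Nc, hNc⟩ := rpow_small (1 + b ^ 2 + 4 * ((M : ℝ) + 1) ^ 3)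
    (by linarith : (0 : ℝ) < δ / 4)
  set a : ℝ := liminf (FN b) atTop with ha
  have h1 : ∀ᶠ N in atTop, a - δ / 2 < FN b N :=
    eventually_lt_of_lt_liminf (by rw [← ha]; linarith) (BlkF_bdd_ge hb)
  obtain ⟨Ne, hNe⟩ := eventually_atTop.1 h1
  have h2 : ∃ᶠ N in atTop, FN b N < a + δ / 4 :=
    frequently_lt_of_liminf_lt (BlkF_bdd_le hb).isCoboundedUnder_ge (by rw [← ha]; linarith)
  obtain ⟨N0, hN1, hNd0, hNa0, hNb0, hNe0, hpos⟩ : ∃ N0 : ℕ, N1 ≤ N0 ∧ Nd ≤ N0 ∧ Na ≤ N0 ∧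
      Nb ≤ N0 ∧ Ne ≤ N0 ∧ 0 < N0 :=
    ⟨N1 + Nd + Na + Nb + Ne + 1, by omega, by omega, by omega, by omega, by omega, by omega⟩
  have hlow : ∀ N : ℕ, N0 ≤ N → ∀ c : ℝ, 1 - 1 / ((N : ℝ) + 1) ≤ c ^ 2 → c ^ 2 ≤ 1 →
      ∀ x : PM M → ℝ, (∀ p, x p ∈ Set.Icc (1 : ℝ) 2) →
        (N : ℝ) * (a + Real.log 2 - δ) ≤ LZ b 0 c 0 M N x := by
    intro N hN c hc hc1 x hx
    have h3 := lower_single hb (by omega : 0 < N) hc hc1 hx
    have h4 := BlkF_err hCM0 (hNb N (by omega))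
    have h5 := hNe N (by omega)
    have h6 : (0 : ℝ) ≤ N := Nat.cast_nonneg N
    have h7 : (N : ℝ) * (a - δ / 2) ≤ N * FN b N := mul_le_mul_of_nonneg_left h5.le h6
    refine le_trans ?_ h3
    nlinarith
  obtain ⟨n, hn, hnF⟩ := (frequently_atTop.1 h2) (4 * N0 + Nc + 1)
  refine ⟨N0, hN1, n - N0, by omega, ?_, ?_⟩
  · intro N hN _ x hx
    obtain ⟨hc, hc1⟩ := cN_bounds N
    refine ⟨?_, hlow N hN (cN N) hc hc1 x hx⟩
    refine hdev N (by omega) x hx ?_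
    refine le_trans ?_ (lower_single hb (by omega : 0 < N) hc hc1 hx)
    rw [FN_zero (by omega : 0 < N)]
    have h4 := BlkF_err hCM0 (hNa N (by omega))
    linarith
  · intro x hx
    have h8 : N0 + (n - N0) = n := by omega
    rw [h8]
    have hn0 : 0 < n := by omega
    have hc : ∀ N : ℕ, 1 - 1 / ((N : ℝ) + 1) ≤ (1 : ℝ) ^ 2 := by
      intro N
      have : (0 : ℝ) ≤ 1 / ((N : ℝ) + 1) := by positivity
      linarith
    have h9 := hlow N0 le_rfl 1 (hc N0) (by norm_num) x hx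
    have h10 : LZ b 0 1 0 M n x ≤ n * (FN b n + FN 0 n) - n * (0 : ℝ) ^ 2 + (b + 0) ^ 2 +
        4 * ((M : ℝ) + 1) ^ 3 * (n : ℝ) ^ (3 / 4 : ℝ) :=
      EL_le_pair hb le_rfl hn0 (hc n) (by norm_num) hx le_rfl Finset.univ_nonempty
        (fun ρ _ => abs_nonneg _)
    rw [FN_zero hn0] at h10
    have h11 := BlkF_err hCM0 (hNc n (by omega))
    have h12 : (n : ℝ) * FN b n ≤ n * (a + δ / 4) :=
      mul_le_mul_of_nonneg_left hnF.le (Nat.cast_nonneg n)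
    have h13 : ((n - N0 : ℕ) : ℝ) = (n : ℝ) - N0 := Nat.cast_sub (by omega)
    have h14 : 4 * (N0 : ℝ) ≤ n := by
      have : 4 * N0 ≤ n := by omega
      exact_mod_cast this
    rw [h13]
    have h15 : 4 * (N0 : ℝ) * δ ≤ n * δ := mul_le_mul_of_nonneg_right h14 hδ.le
    nlinarith

end SKC.H
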