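import Pool.Agent.H.MP_08eaf3_pr.Sys.Ul
import Pool.Agent.H.MP_08eaf3_pr.EF.CascDef
import Pool.Agent.H.MP_08eaf3_pr.H.CellsIf

/-!
# Block CS (cell structures): laws of two and three replicas from `OrdData`
-/

set_option autoImplicit false

open MeasureTheory ProbabilityTheory Filter Topology Matrix

namespace SKC.H

/-- the deterministic data of a family with `OrdData` -/
noncomputable def pdata {F : Fam} (O : EF.OrdData F) : PData F.u where
  T := O.T
  Q := O.Q
  μ := O.μ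
  prob := O.prob
  comp := O.comp
  ne := O.ne
  sub := O.sub
  supp1 := O.supp1
  supp2 := O.supp2
  psd := O.psd
  tr := O.tr
  leD := O.leD
  mono := O.mono

/-- trace of the overlap matrix of two configurations -/
noncomputable def tr2 {N : ℕ} (ρ ρ' : Cfg (Fin 2) N) : ℝ := Matrix.trace (ovM ρ ρ')

theorem tr2_symm {N : ℕ} (ρ ρ' : Cfg (Fin 2) N) : tr2 ρ ρ' = tr2 ρ' ρ := by
  unfold tr2 ovM ov
  simp only [Matrix.trace, Matrix.diag, Fin.sum_univ_two]
  congr 1 <;> (congr 1; exact Finset.sum_congr rfl (fun i _ => mul_comm _ _))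

/-- `T` has full measure, so almost surely `x ∈ T` -/
theorem ae_mem {F : Fam} (O : EF.OrdData F) : ∀ᵐ x ∂O.μ, x ∈ O.T := by
  rw [MeasureTheory.ae_iff]
  exact O.supp1

/-- Law of one overlap matrix (a field of `OrdData`). -/
theorem law2 {F : Fam} (O : EF.OrdData F) (ψ : Matrix (Fin 2) (Fin 2) ℝ → ℝ) (hψ : Continuous ψ) :
    F.E (n := 2) (fun _ r => ψ (ovM (r 0) (r 1))) = ∫ x, ψ (O.Q x) ∂O.μ :=
  O.law2 ψ hψ

/-- Ultrametricity (a field of `OrdData`). -/
theorem ultra3 {F : Fam} (O : EF.OrdData F) {ε : ℝ} (hε : 0 < ε) :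
    F.E (n := 3) (fun _ r => if tr2 (r 0) (r 2) + ε < min (tr2 (r 0) (r 1)) (tr2 (r 1) (r 2))
      then (1 : ℝ) else 0) = 0 :=
  O.ultra3 ε hε

end SKC.H
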