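import Pool.Agent.H.MP_08eaf3_pr.H.CSa

/-!
# Block CS: probabilities of threshold events
-/

set_option autoImplicit false

open MeasureTheory ProbabilityTheory Filter Topology Matrix

namespace SKC.H

/-- continuous ramp: `0` for `s ≤ c`, `1` for `s ≥ c + ε`, linear in between -/
noncomputable def ramp (c ε s : ℝ) : ℝ := max 0 (min 1 ((s - c) / ε))

theorem ramp_cont (c ε : ℝ) : Continuous (ramp c ε) := by
  unfold ramp
  exact continuous_const.max (continuous_const.min ((continuous_id.sub continuous_const).div_const ε))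

theorem ramp_mem (c ε s : ℝ) : 0 ≤ ramp c ε s ∧ ramp c ε s ≤ 1 :=
  ⟨le_max_left _ _, max_le zero_le_one (min_le_left _ _)⟩

theorem CSb_ramp_zero {c ε s : ℝ} (hε : 0 < ε) (h : s ≤ c) : ramp c ε s = 0 := by
  unfold ramp
  refine max_eq_left ((min_le_right _ _).trans ?_)
  exact div_nonpos_of_nonpos_of_nonneg (by linarith) hε.le

theorem CSb_ramp_one {c ε s : ℝ} (hε : 0 < ε) (h : c + ε ≤ s) : ramp c ε s = 1 := by
  unfold ramp
  have h1 : 1 ≤ (s - c) / ε := by
    rw [le_div_iff₀ hε]
    linarith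
  rw [min_eq_left h1]
  exact max_eq_right zero_le_one

/-- the ramp is below the indicator of `c ≤ s`, the error is supported on `|s - c| ≤ ε` -/
theorem ramp_le {c ε s : ℝ} (hε : 0 < ε) : ramp c ε s ≤ (if c ≤ s then 1 else 0) := by
  split_ifs with h
  · exact (ramp_mem c ε s).2
  · exact (CSb_ramp_zero hε (not_le.1 h).le).le

theorem ramp_err {c ε s : ℝ} (hε : 0 < ε) :
    |(if c ≤ s then (1 : ℝ) else 0) - ramp c ε s| ≤ (if |s - c| ≤ ε then 1 else 0) := by
  have hm := ramp_mem c ε s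
  by_cases h : c ≤ s
  · rw [if_pos h]
    split_ifs with h2
    · rw [abs_le]
      constructor <;> linarith [hm.1, hm.2]
    · rw [abs_of_nonneg (by linarith : (0 : ℝ) ≤ s - c)] at h2
      rw [CSb_ramp_one hε (by linarith)]
      simp
  · rw [if_neg h, CSb_ramp_zero hε (not_le.1 h).le]
    simp only [sub_zero, abs_zero]
    split_ifs <;> norm_num

theorem CSb_ind_le (p : Prop) [Decidable p] : |(if p then (1 : ℝ) else 0)| ≤ 1 := by
  split_ifs <;> simp

/-- indicator of a neighbourhood is at most one, nonnegative -/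
theorem CSb_ind_mem (p : Prop) [Decidable p] : 0 ≤ (if p then (1 : ℝ) else 0) ∧
    (if p then (1 : ℝ) else 0) ≤ 1 := by
  split_ifs <;> simp

theorem CSb_ae {F : Fam} (O : EF.OrdData F) : ∀ᵐ x ∂O.μ, x ∈ O.T :=
  O.supp1

/-- estimate of a difference -/
theorem CSb_diff (F : Fam) {n : ℕ} (f g h : ∀ i, (Fin n → Cfg (Fin 2) (F.Nn i)) → ℝ)
    (C : ℝ) (hf : ∀ i r, |f i r| ≤ C) (hg : ∀ i r, |g i r| ≤ C) (hh : ∀ i r, |h i r| ≤ C)
    (hle : ∀ i r, |f i r - g i r| ≤ h i r) : |F.E f - F.E g| ≤ F.E h := by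
  rw [← F.E_sub f g C hf hg]
  have hC : ∀ i r, |f i r - g i r| ≤ C := fun i r => (hle i r).trans ((le_abs_self _).trans (hh i r))
  rw [abs_le]
  constructor
  · have h1 := F.E_mono (fun i r => (-1) * h i r) (fun i r => f i r - g i r) C
      (fun i r => by rw [abs_mul]; simpa using hh i r) hC (fun i r => by
        have := (abs_le.1 (hle i r)).1
        linarith)
    rw [F.E_const_mul (-1) h C hh] at h1
    linarith
  · exact F.E_mono _ _ C hC hh fun i r => (le_abs_self _).trans (hle i r)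

/-- law of the trace -/
theorem CSb_law {F : Fam} (O : EF.OrdData F) (g : ℝ → ℝ) (hg : Continuous g) :
    F.E (n := 2) (fun _ r => g (tr2 (r 0) (r 1))) = ∫ x, g x ∂O.μ := by
  have h1 := O.law2 (fun R => g (Matrix.trace R)) (hg.comp (continuous_id.matrix_trace))
  refine h1.trans ?_
  refine integral_congr_ae ?_
  filter_upwards [CSb_ae O] with x hx
  rw [O.tr x hx]

/-- small probability near a threshold, for the family and for the measure -/
theorem CSb_small {F : Fam} (O : EF.OrdData F) {c : ℝ} (hc : O.μ {c} = 0) {δ : ℝ} (hδ : 0 < δ) :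
    ∃ ε : ℝ, 0 < ε ∧ F.E (n := 2) (fun _ r => if |tr2 (r 0) (r 1) - c| ≤ ε then (1 : ℝ) else 0) ≤ δ ∧
      O.μ.real (Metric.closedBall c ε) ≤ δ := by
  have := O.prob
  have hlt : O.μ {c} < ENNReal.ofReal δ := by
    rw [hc]
    exact ENNReal.ofReal_pos.2 hδ
  obtain ⟨U, hcU, hU, hμU⟩ := Set.exists_isOpen_lt_of_lt {c} _ hlt
  obtain ⟨r, hr, hrU⟩ := Metric.nhds_basis_closedBall.mem_iff.1
    (hU.mem_nhds (hcU (Set.mem_singleton c)))
  have hball : O.μ.real (Metric.closedBall c r) ≤ δ := by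
    have h1 : O.μ (Metric.closedBall c r) ≤ ENNReal.ofReal δ := (measure_mono hrU).trans hμU.le
    exact ENNReal.toReal_le_of_le_ofReal hδ.le h1
  set g : ℝ → ℝ := fun s => max 0 (min 1 (2 - |s - c| / (r / 2))) with hg
  have hgc : Continuous g := by
    rw [hg]
    exact continuous_const.max (continuous_const.min (continuous_const.sub
      ((continuous_id.sub continuous_const).abs.div_const _)))
  have hg0 : ∀ s, 0 ≤ g s := fun s => le_max_left _ _
  have hg1 : ∀ s, g s ≤ 1 := fun s => max_le zero_le_one (min_le_left _ _)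
  have hr2 : 0 < r / 2 := by linarith
  refine ⟨r / 2, hr2, ?_, ?_⟩
  · have h1 : F.E (n := 2) (fun _ r' => if |tr2 (r' 0) (r' 1) - c| ≤ r / 2 then (1 : ℝ) else 0) ≤
        F.E (n := 2) (fun _ r' => g (tr2 (r' 0) (r' 1))) := by
      refine F.E_mono _ _ 1 (fun i r' => CSb_ind_le _) (fun i r' => ?_) fun i r' => ?_
      · rw [abs_of_nonneg (hg0 _)]
        exact hg1 _
      · split_ifs with h
        · have h2 : |tr2 (r' 0) (r' 1) - c| / (r / 2) ≤ 1 := (div_le_one hr2).2 h
          refine le_trans ?_ (le_max_right _ _)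
          exact le_min le_rfl (by linarith)
        · exact hg0 _
    refine h1.trans ?_
    rw [CSb_law O g hgc]
    refine le_trans ?_ hball
    have h2 : ∫ x, g x ∂O.μ ≤ ∫ x, (Metric.closedBall c r).indicator (fun _ => (1 : ℝ)) x ∂O.μ := by
      refine integral_mono ?_ ?_ fun x => ?_
      · refine Integrable.mono' (integrable_const (1 : ℝ)) hgc.aestronglyMeasurable ?_
        refine Eventually.of_forall fun x => ?_
        rw [Real.norm_eq_abs, abs_of_nonneg (hg0 _)]
        exact hg1 _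
      · exact (integrable_const _).indicator Metric.isClosed_closedBall.measurableSet
      · by_cases hx : x ∈ Metric.closedBall c r
        · rw [Set.indicator_of_mem hx]
          exact hg1 x
        · rw [Set.indicator_of_notMem hx]
          rw [Metric.mem_closedBall, Real.dist_eq, not_le] at hx
          have h3 : 2 ≤ |x - c| / (r / 2) := by
            rw [le_div_iff₀ hr2]
            linarith
          exact max_le le_rfl ((min_le_right _ _).trans (by linarith))
    refine h2.trans ?_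
    rw [integral_indicator_const _ Metric.isClosed_closedBall.measurableSet]
    simp
  · refine le_trans ?_ hball
    exact measureReal_mono (Metric.closedBall_subset_closedBall (by linarith))

/-- Small probability near a threshold. Proof: the indicator of `|s - c| ≤ ε` is at most
`g s = ramp (c - 2ε) ε s - ramp (c + ε) ε s` (values: `1` on `[c - ε, c + ε]`, in `[0,1]`, `0` outside
`[c - 2ε, c + 2ε]`); `law2` for `ψ R = g (tr R)` gives `∫ g x dμ ≤ μ [c - 2ε, c + 2ε]` (`tr (Q x) = x` on `T`), which tends to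
`μ {c} = 0` as `ε → 0` (`tendsto_measure_iInter`.. or `tendsto_measure_Icc_nhdsWithin_right`-type lemma, finite
measure). -/
theorem near_small {F : Fam} (O : EF.OrdData F) {c : ℝ} (hc : O.μ {c} = 0) {δ : ℝ} (hδ : 0 < δ) :
    ∃ ε : ℝ, 0 < ε ∧ F.E (n := 2) (fun _ r => if |tr2 (r 0) (r 1) - c| ≤ ε then (1 : ℝ) else 0) ≤ δ := by
  obtain ⟨ε, h1, h2, _⟩ := CSb_small O hc hδ
  exact ⟨ε, h1, h2⟩

theorem CSb_eq {x y K : ℝ} (hK : 0 ≤ K) (h : ∀ δ : ℝ, 0 < δ → |x - y| ≤ K * δ) : x = y := by
  by_contra hne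
  have hd : 0 < |x - y| := abs_pos.2 (sub_ne_zero.2 hne)
  have h1 := h (|x - y| / (K + 1)) (by positivity)
  have h2 : K * (|x - y| / (K + 1)) < |x - y| := by
    rw [← mul_div_assoc, div_lt_iff₀ (by linarith)]
    nlinarith
  linarith

/-- Probability above a threshold. Proof: for every `δ` take `ε` of `near_small` (and with `μ` of the `ε`-neighbourhood
of `c` at most `δ`); `|1{c ≤ tr} - ramp| ≤ 1{|tr - c| ≤ ε}`, `law2` for the ramp, and the same for the measure. -/
theorem above {F : Fam} (O : EF.OrdData F) {c : ℝ} (hc : O.μ {c} = 0) :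
    F.E (n := 2) (fun _ r => if c ≤ tr2 (r 0) (r 1) then (1 : ℝ) else 0) = 1 - O.μ.real (Set.Iio c) := by
  have := O.prob
  refine CSb_eq (K := 2) zero_le_two fun δ hδ => ?_
  obtain ⟨ε, hε, h1, h2⟩ := CSb_small O hc hδ
  have hr : ∀ s, |ramp c ε s| ≤ 1 := fun s => by
    rw [abs_of_nonneg (ramp_mem c ε s).1]
    exact (ramp_mem c ε s).2
  have h3 : |F.E (n := 2) (fun _ r => if c ≤ tr2 (r 0) (r 1) then (1 : ℝ) else 0) -
      F.E (n := 2) (fun _ r => ramp c ε (tr2 (r 0) (r 1)))| ≤ δ :=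
    (CSb_diff F _ _ (fun _ r => if |tr2 (r 0) (r 1) - c| ≤ ε then (1 : ℝ) else 0) 1
      (fun i r => CSb_ind_le _) (fun i r => hr _) (fun i r => CSb_ind_le _)
      (fun i r => ramp_err hε)).trans h1
  rw [CSb_law O _ (ramp_cont c ε)] at h3
  have h4 : 1 - O.μ.real (Set.Iio c) = ∫ x, (Set.Ici c).indicator (fun _ => (1 : ℝ)) x ∂O.μ := by
    rw [integral_indicator_const _ measurableSet_Ici]
    have h5 := probReal_compl_eq_one_sub (μ := O.μ) (measurableSet_Iio (a := c))
    rw [Set.compl_Iio] at h5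
    rw [← h5]
    simp
  have hi1 : Integrable (fun x => (Set.Ici c).indicator (fun _ => (1 : ℝ)) x) O.μ :=
    (integrable_const _).indicator measurableSet_Ici
  have hi2 : Integrable (fun x => ramp c ε x) O.μ := by
    refine Integrable.mono' (integrable_const (1 : ℝ)) (ramp_cont c ε).aestronglyMeasurable ?_
    exact Eventually.of_forall fun x => hr x
  have hi3 : Integrable (fun x => (Metric.closedBall c ε).indicator (fun _ => (1 : ℝ)) x) O.μ :=
    (integrable_const _).indicator Metric.isClosed_closedBall.measurableSet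
  have h6 : |∫ x, (Set.Ici c).indicator (fun _ => (1 : ℝ)) x ∂O.μ - ∫ x, ramp c ε x ∂O.μ| ≤ δ := by
    rw [← integral_sub hi1 hi2]
    refine (abs_integral_le_integral_abs).trans ?_
    refine (integral_mono (hi1.sub hi2).abs hi3 fun x => ?_).trans ?_
    · have h7 := ramp_err (c := c) (s := x) hε
      have e1 : (Set.Ici c).indicator (fun _ => (1 : ℝ)) x = if c ≤ x then (1 : ℝ) else 0 := by
        by_cases h : c ≤ x
        · rw [Set.indicator_of_mem (show x ∈ Set.Ici c from h), if_pos h]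
        · rw [Set.indicator_of_notMem (show x ∉ Set.Ici c from h), if_neg h]
      have e2 : (Metric.closedBall c ε).indicator (fun _ => (1 : ℝ)) x =
          if |x - c| ≤ ε then (1 : ℝ) else 0 := by
        by_cases h : |x - c| ≤ ε
        · have hm : x ∈ Metric.closedBall c ε := by
            rw [Metric.mem_closedBall, Real.dist_eq]
            exact h
          rw [Set.indicator_of_mem hm, if_pos h]
        · have hm : x ∉ Metric.closedBall c ε := by
            rw [Metric.mem_closedBall, Real.dist_eq]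
            exact h
          rw [Set.indicator_of_notMem hm, if_neg h]
      change |(Set.Ici c).indicator (fun _ => (1 : ℝ)) x - ramp c ε x| ≤
        (Metric.closedBall c ε).indicator (fun _ => (1 : ℝ)) x
      rw [e1, e2]
      exact h7
    · rw [integral_indicator_const _ Metric.isClosed_closedBall.measurableSet]
      simpa using h2
  rw [h4]
  have h8 := abs_le.1 h3
  have h9 := abs_le.1 h6
  rw [abs_le]
  constructor <;> linarith [h8.1, h8.2, h9.1, h9.2]

theorem CSb_tr2 {N : ℕ} (ρ ρ' : Cfg (Fin 2) N) :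
    tr2 ρ ρ' = (Tv (ovM ρ ρ')).1 + (Tv (ovM ρ ρ')).2.1 := by
  unfold tr2 Tv
  simp [Matrix.trace_fin_two]

/-- replacing a ramp of two replicas by the indicator -/
theorem CSb_pair (F : Fam) {c ε δ : ℝ} (hε : 0 < ε)
    (hs : F.E (n := 2) (fun _ r => if |tr2 (r 0) (r 1) - c| ≤ ε then (1 : ℝ) else 0) ≤ δ)
    {n : ℕ} (l j : Fin n) (hlj : l ≠ j) (f : ∀ i, (Fin n → Cfg (Fin 2) (F.Nn i)) → ℝ)
    (hf : ∀ i r, |f i r| ≤ 1) :
    |F.E (fun i r => f i r * (if c ≤ tr2 (r l) (r j) then (1 : ℝ) else 0)) -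
      F.E (fun i r => f i r * ramp c ε (tr2 (r l) (r j)))| ≤ δ := by
  have hm : F.E (n := n) (fun _ r => if |tr2 (r l) (r j) - c| ≤ ε then (1 : ℝ) else 0) ≤ δ := by
    have hinj : Function.Injective (![l, j] : Fin 2 → Fin n) := by
      intro a b hab
      fin_cases a <;> fin_cases b <;> simp_all
    have h1 := F.E_marginal (n := n) (m := 2) ![l, j] hinj
      (fun _ r => if |tr2 (r 0) (r 1) - c| ≤ ε then (1 : ℝ) else 0)
    exact (le_of_eq h1).trans hs
  refine (CSb_diff F _ _ (fun _ r => if |tr2 (r l) (r j) - c| ≤ ε then (1 : ℝ) else 0) 1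
    (fun i r => ?_) (fun i r => ?_) (fun i r => CSb_ind_le _) (fun i r => ?_)).trans hm
  · rw [abs_mul]
    exact mul_le_one₀ (hf i r) (abs_nonneg _) (CSb_ind_le _)
  · rw [abs_mul, abs_of_nonneg (ramp_mem _ _ _).1]
    exact mul_le_one₀ (hf i r) (ramp_mem _ _ _).1 (ramp_mem _ _ _).2
  · rw [← mul_sub, abs_mul]
    calc |f i r| * |(if c ≤ tr2 (r l) (r j) then (1 : ℝ) else 0) - ramp c ε (tr2 (r l) (r j))|
        ≤ 1 * |(if c ≤ tr2 (r l) (r j) then (1 : ℝ) else 0) - ramp c ε (tr2 (r l) (r j))| :=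
          mul_le_mul_of_nonneg_right (hf i r) (abs_nonneg _)
      _ ≤ _ := by
          rw [one_mul]
          exact ramp_err hε

/-- Ghirlanda-Guerra for a threshold event. Proof: for every `δ > 0` take `ε` of `near_small`; `F.E_gg` for the
continuous function `ψ T = ramp c ε (T.1 + T.2.1)` (`tr2 = R00 + R11`); each of the at most `2 n + 1` terms changes by
at most `δ` when the ramp is replaced by the indicator (`ramp_err`, `F.abs_E_le`-type estimate
`|E f - E g| ≤ E |f - g|`, `|f| ≤ 1`, and `F.E_marginal` for the two replicas concerned). Let `δ → 0`. -/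
theorem gg_above {F : Fam} (hF : F.IsGG) (O : EF.OrdData F) {c : ℝ} (hc : O.μ {c} = 0) {n : ℕ}
    (l : Fin n) (f : ∀ i, (Fin n → Cfg (Fin 2) (F.Nn i)) → ℝ) (hf : ∀ i r, |f i r| ≤ 1) :
    (n : ℝ) * F.E (n := n + 1) (fun i r => f i (fun j => r j.castSucc) *
        (if c ≤ tr2 (r l.castSucc) (r (Fin.last n)) then (1 : ℝ) else 0)) =
      F.E f * (1 - O.μ.real (Set.Iio c)) +
        ∑ j ∈ Finset.univ.erase l, F.E (fun i r => f i r *
          (if c ≤ tr2 (r l) (r j) then (1 : ℝ) else 0)) := by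
  have hn0 : (0 : ℝ) ≤ n := Nat.cast_nonneg n
  refine CSb_eq (K := 2 * (n : ℝ) + 1) (by linarith) fun δ hδ => ?_
  obtain ⟨ε, hε, hs, -⟩ := CSb_small O hc hδ
  have hψ : Continuous (fun t : ℝ × ℝ × ℝ => ramp c ε (t.1 + t.2.1)) :=
    (ramp_cont c ε).comp (by fun_prop)
  have hgg := F.E_gg hF l f 1 hf (fun t => ramp c ε (t.1 + t.2.1)) hψ
  simp only [← CSb_tr2] at hgg
  have h1 := CSb_pair F hε hs l.castSucc (Fin.last n) (Fin.castSucc_lt_last l).ne
    (fun i r => f i (fun j => r j.castSucc)) (fun i r => hf i _)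
  have h2 : |F.E (n := 2) (fun _ r => if c ≤ tr2 (r 0) (r 1) then (1 : ℝ) else 0) -
      F.E (n := 2) (fun _ r => ramp c ε (tr2 (r 0) (r 1)))| ≤ δ := by
    refine (CSb_diff F _ _ (fun _ r => if |tr2 (r 0) (r 1) - c| ≤ ε then (1 : ℝ) else 0) 1
      (fun i r => CSb_ind_le _) (fun i r => ?_) (fun i r => CSb_ind_le _)
      (fun i r => ramp_err hε)).trans hs
    rw [abs_of_nonneg (ramp_mem c ε _).1]
    exact (ramp_mem c ε _).2
  have h3 : |F.E f| ≤ 1 := F.abs_E_le f 1 hf
  have h4 : |∑ j ∈ Finset.univ.erase l, F.E (fun i r => f i r *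
          (if c ≤ tr2 (r l) (r j) then (1 : ℝ) else 0)) -
      ∑ j ∈ Finset.univ.erase l, F.E (fun i r => f i r * ramp c ε (tr2 (r l) (r j)))| ≤
      (n : ℝ) * δ := by
    rw [← Finset.sum_sub_distrib]
    refine (Finset.abs_sum_le_sum_abs _ _).trans ?_
    refine (Finset.sum_le_sum (g := fun _ => δ) fun j hj => CSb_pair F hε hs l j
      (Finset.ne_of_mem_erase hj).symm f hf).trans ?_
    rw [Finset.sum_const, nsmul_eq_mul]
    refine mul_le_mul_of_nonneg_right ?_ hδ.le
    have h5 := Finset.card_le_univ (Finset.univ.erase l)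
    rw [Fintype.card_fin] at h5
    exact_mod_cast h5
  rw [← above O hc]
  set A := F.E (n := n + 1) (fun i r => f i (fun j => r j.castSucc) *
        (if c ≤ tr2 (r l.castSucc) (r (Fin.last n)) then (1 : ℝ) else 0))
  set A' := F.E (n := n + 1) (fun i r => f i (fun j => r j.castSucc) *
        ramp c ε (tr2 (r l.castSucc) (r (Fin.last n))))
  set B := F.E (n := 2) (fun _ r => if c ≤ tr2 (r 0) (r 1) then (1 : ℝ) else 0)
  set B' := F.E (n := 2) (fun _ r => ramp c ε (tr2 (r 0) (r 1)))
  set S := ∑ j ∈ Finset.univ.erase l, F.E (fun i r => f i r *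
          (if c ≤ tr2 (r l) (r j) then (1 : ℝ) else 0))
  set S' := ∑ j ∈ Finset.univ.erase l, F.E (fun i r => f i r * ramp c ε (tr2 (r l) (r j)))
  have e : (n : ℝ) * A - (F.E f * B + S) = (n : ℝ) * (A - A') - F.E f * (B - B') - (S - S') := by
    linear_combination hgg
  rw [e]
  have h6 : |(n : ℝ) * (A - A')| ≤ n * δ := by
    rw [abs_mul, abs_of_nonneg hn0]
    exact mul_le_mul_of_nonneg_left h1 hn0
  have h7 : |F.E f * (B - B')| ≤ δ := by
    rw [abs_mul]
    calc _ ≤ 1 * δ := mul_le_mul h3 h2 (abs_nonneg _) zero_le_one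
      _ = δ := one_mul δ
  have h8 := abs_le.1 h6
  have h9 := abs_le.1 h7
  have h10 := abs_le.1 h4
  rw [abs_le]
  constructor <;> nlinarith [h8.1, h8.2, h9.1, h9.2, h10.1, h10.2]

end SKC.H
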