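import Pool.Agent.H.MP_08eaf3_pr.H.CSb
import Pool.Agent.H.MP_08eaf3_pr.G.Defs

/-!
# Block CS: the number of shared levels
-/

set_option autoImplicit false

open MeasureTheory ProbabilityTheory Filter Topology Matrix

namespace SKC.H

/-- number of shared levels as a function of the trace -/
noncomputable def kp {T : Set ℝ} {μ : Measure ℝ} {η : ℝ} (C : Cells T μ η) (t : ℝ) : ℕ := 1 + C.idx t

theorem kp_lt {T : Set ℝ} {μ : Measure ℝ} {η : ℝ} (C : Cells T μ η) (t : ℝ) : kp C t < C.r + 2 := by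
  have := idx_le C t
  unfold kp
  omega

/-- `j < kp`: always for `j = 0`; a threshold event for `1 ≤ j ≤ r` (`lt_idx`); never for `j ≥ r + 1` (`idx_le`) -/
theorem zero_lt_kp {T : Set ℝ} {μ : Measure ℝ} {η : ℝ} (C : Cells T μ η) (t : ℝ) : 0 < kp C t := by
  unfold kp
  omega

theorem succ_lt_kp {T : Set ℝ} {μ : Measure ℝ} {η : ℝ} (C : Cells T μ η) (t : ℝ) (j : ℕ)
    (hj : j < C.r) : j + 1 < kp C t ↔ C.c j ≤ t := by
  rw [← lt_idx C t j hj]
  unfold kp
  omega

theorem not_lt_kp {T : Set ℝ} {μ : Measure ℝ} {η : ℝ} (C : Cells T μ η) (t : ℝ) :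
    ¬ C.r + 1 < kp C t := by
  have := idx_le C t
  unfold kp
  omega

/-- Ghirlanda-Guerra for the number of shared levels: `j = 0`: both sides are `n E f`; `1 ≤ j ≤ r`: `gg_above`,
`w_succ`, `C.null`; `j = r + 1`: both sides are `0`, `w_last`. -/
theorem gg_kp {F : Fam} (hF : F.IsGG) (O : EF.OrdData F) {η : ℝ} (C : Cells O.T O.μ η) {n : ℕ}
    (l : Fin n) (f : ∀ i, (Fin n → Cfg (Fin 2) (F.Nn i)) → ℝ) (hf : ∀ i r, |f i r| ≤ 1) (j : ℕ)
    (hj : j < C.r + 2) :
    (n : ℝ) * F.E (n := n + 1) (fun i r => f i (fun j => r j.castSucc) *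
        (if j < kp C (tr2 (r l.castSucc) (r (Fin.last n))) then (1 : ℝ) else 0)) =
      F.E f * (1 - C.w j) +
        ∑ k ∈ Finset.univ.erase l, F.E (fun i r => f i r *
          (if j < kp C (tr2 (r l) (r k)) then (1 : ℝ) else 0)) := by
  have hn : 0 < n := lt_of_le_of_lt (Nat.zero_le _) l.2
  rcases j with _ | j
  · have h1 : ∀ t : ℝ, (if 0 < kp C t then (1 : ℝ) else 0) = 1 := fun t => if_pos (zero_lt_kp C t)
    simp only [h1, mul_one, w_zero, sub_zero]
    have h2 : F.E (n := n + 1) (fun i r => f i (fun j => r j.castSucc)) = F.E f :=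
      F.E_marginal Fin.castSucc (Fin.castSucc_injective n) f
    rw [h2, Finset.sum_const, Finset.card_erase_of_mem (Finset.mem_univ l), Finset.card_univ,
      Fintype.card_fin, nsmul_eq_mul, Nat.cast_sub hn]
    push_cast
    ring
  · rcases Nat.lt_or_ge j C.r with h | h
    · have h1 : ∀ t : ℝ, (if j + 1 < kp C t then (1 : ℝ) else 0) = if C.c j ≤ t then (1 : ℝ) else 0 :=
        fun t => if_congr (succ_lt_kp C t j h) rfl rfl
      simp only [h1]
      rw [w_succ C j h]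
      exact gg_above hF O (C.null j h) l f hf
    · have hj' : j = C.r := by omega
      subst hj'
      have h1 : ∀ t : ℝ, (if C.r + 1 < kp C t then (1 : ℝ) else 0) = 0 :=
        fun t => if_neg (not_lt_kp C t)
      simp only [h1, mul_zero, w_last, sub_self, F.E_const, Finset.sum_const_zero, add_zero]

theorem CSc_sum_bd {F : Fam} {n : ℕ} (f : ℕ → ∀ i, (Fin n → Cfg (Fin 2) (F.Nn i)) → ℝ)
    (hf : ∀ m i r, |f m i r| ≤ 2) (k : ℕ) (i : F.I) (r : Fin n → Cfg (Fin 2) (F.Nn i)) :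
    |∑ m ∈ Finset.range k, f m i r| ≤ 2 * k := by
  refine (Finset.abs_sum_le_sum_abs _ _).trans ?_
  refine (Finset.sum_le_sum fun m _ => hf m i r).trans ?_
  rw [Finset.sum_const, Finset.card_range, nsmul_eq_mul, mul_comm]

theorem CSc_sum {F : Fam} {n : ℕ} (f : ℕ → ∀ i, (Fin n → Cfg (Fin 2) (F.Nn i)) → ℝ)
    (hf : ∀ m i r, |f m i r| ≤ 2) (k : ℕ) :
    F.E (fun i r => ∑ m ∈ Finset.range k, f m i r) = ∑ m ∈ Finset.range k, F.E (f m) := by
  induction k with
  | zero =>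
    simp only [Finset.range_zero, Finset.sum_empty]
    exact F.E_const 0
  | succ k ih =>
    rw [Finset.sum_range_succ, ← ih]
    simp only [Finset.sum_range_succ]
    refine F.E_add (fun i r => ∑ m ∈ Finset.range k, f m i r) (f k) (2 * (k + 1))
      (fun i r => (CSc_sum_bd f hf k i r).trans (by linarith))
      (fun i r => (hf k i r).trans ?_)
    have : (0 : ℝ) ≤ k := Nat.cast_nonneg k
    linarith

theorem CSc_ind (p : Prop) [Decidable p] : 0 ≤ (if p then (1 : ℝ) else 0) ∧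
    (if p then (1 : ℝ) else 0) ≤ 1 := by
  split_ifs <;> norm_num

theorem CSc_ind_abs (p : Prop) [Decidable p] : |if p then (1 : ℝ) else 0| ≤ 1 := by
  split_ifs <;> norm_num

/-- Ultrametricity of the number of shared levels. Proof: if `kp (tr 02) < kp (tr 01)` and `kp (tr 02) < kp (tr 12)` then
with `m = idx (tr 02) < r` (`lt_idx`): `tr 02 < c m ≤ tr 01, tr 12`; so for every `ε > 0` either `|tr 02 - c m| ≤ ε` or
`tr 02 + ε < min (tr 01) (tr 12)`. Union bound over `m < r`: the expectation is at most `r δ + 0` (`near_small` with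
`C.null` for a common `ε` = the minimum of finitely many, `F.E_marginal` for the replicas `0, 2`, `ultra3`). -/
theorem ultra_kp {F : Fam} (O : EF.OrdData F) {η : ℝ} (C : Cells O.T O.μ η) :
    F.E (n := 3) (fun _ r => if kp C (tr2 (r 0) (r 2)) < kp C (tr2 (r 0) (r 1)) ∧
      kp C (tr2 (r 0) (r 2)) < kp C (tr2 (r 1) (r 2)) then (1 : ℝ) else 0) = 0 := by
  refine le_antisymm ?_ (F.E_nonneg _ 1 (fun i r => CSc_ind_abs _) (fun i r => (CSc_ind _).1))
  refine le_of_forall_pos_le_add fun δ' hδ' => ?_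
  rw [zero_add]
  set δ : ℝ := δ' / (C.r + 1) with hδd
  have hr0 : (0 : ℝ) < C.r + 1 := by positivity
  have hδ : 0 < δ := div_pos hδ' hr0
  have hex : ∀ m : ℕ, ∃ ε : ℝ, m < C.r → 0 < ε ∧
      F.E (n := 2) (fun _ r => if |tr2 (r 0) (r 1) - C.c m| ≤ ε then (1 : ℝ) else 0) ≤ δ := by
    intro m
    by_cases hm : m < C.r
    · obtain ⟨ε, h1, h2⟩ := near_small O (C.null m hm) hδ
      exact ⟨ε, fun _ => ⟨h1, h2⟩⟩
    · exact ⟨0, fun h => absurd h hm⟩
  choose ε hε using hex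
  let g : ℕ → ∀ i, (Fin 3 → Cfg (Fin 2) (F.Nn i)) → ℝ := fun m i r =>
    (if |tr2 (r 0) (r 2) - C.c m| ≤ ε m then (1 : ℝ) else 0) +
      (if tr2 (r 0) (r 2) + ε m < min (tr2 (r 0) (r 1)) (tr2 (r 1) (r 2)) then (1 : ℝ) else 0)
  have hg : ∀ m i r, |g m i r| ≤ 2 := by
    intro m i r
    have h1 := CSc_ind (|tr2 (r 0) (r 2) - C.c m| ≤ ε m)
    have h2 := CSc_ind (tr2 (r 0) (r 2) + ε m < min (tr2 (r 0) (r 1)) (tr2 (r 1) (r 2)))
    rw [abs_of_nonneg (add_nonneg h1.1 h2.1)]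
    linarith [h1.2, h2.2]
  have hle : F.E (n := 3) (fun _ r => if kp C (tr2 (r 0) (r 2)) < kp C (tr2 (r 0) (r 1)) ∧
      kp C (tr2 (r 0) (r 2)) < kp C (tr2 (r 1) (r 2)) then (1 : ℝ) else 0) ≤
      F.E (fun i r => ∑ m ∈ Finset.range C.r, g m i r) := by
    refine F.E_mono _ _ (2 * C.r + 1) (fun i r => (CSc_ind_abs _).trans (by
        have : (0 : ℝ) ≤ C.r := Nat.cast_nonneg _
        linarith)) (fun i r => (CSc_sum_bd g hg C.r i r).trans (by linarith)) (fun i r => ?_)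
    have hg0 : ∀ m ∈ Finset.range C.r, 0 ≤ g m i r := fun m _ =>
      add_nonneg (CSc_ind _).1 (CSc_ind _).1
    split_ifs with hc
    · obtain ⟨h1, h2⟩ := hc
      unfold kp at h1 h2
      have h3 := idx_le C (tr2 (r 0) (r 1))
      set m := C.idx (tr2 (r 0) (r 2)) with hm
      have hmr : m < C.r := by omega
      have h4 : C.c m ≤ tr2 (r 0) (r 1) := (lt_idx C _ m hmr).1 (by omega)
      have h5 : C.c m ≤ tr2 (r 1) (r 2) := (lt_idx C _ m hmr).1 (by omega)
      have h6 : tr2 (r 0) (r 2) < C.c m := by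
        by_contra h7
        have h8 := (lt_idx C (tr2 (r 0) (r 2)) m hmr).2 (not_lt.1 h7)
        omega
      have h7 : 1 ≤ g m i r := by
        show 1 ≤ (if |tr2 (r 0) (r 2) - C.c m| ≤ ε m then (1 : ℝ) else 0) +
          (if tr2 (r 0) (r 2) + ε m < min (tr2 (r 0) (r 1)) (tr2 (r 1) (r 2)) then (1 : ℝ) else 0)
        by_cases h8 : |tr2 (r 0) (r 2) - C.c m| ≤ ε m
        · rw [if_pos h8]
          linarith [(CSc_ind (tr2 (r 0) (r 2) + ε m <
            min (tr2 (r 0) (r 1)) (tr2 (r 1) (r 2)))).1]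
        · have h9 : tr2 (r 0) (r 2) + ε m < min (tr2 (r 0) (r 1)) (tr2 (r 1) (r 2)) := by
            rw [not_le, abs_of_neg (by linarith)] at h8
            exact lt_min (by linarith) (by linarith)
          rw [if_pos h9]
          linarith [(CSc_ind (|tr2 (r 0) (r 2) - C.c m| ≤ ε m)).1]
      exact h7.trans (Finset.single_le_sum hg0 (Finset.mem_range.2 hmr))
    · exact Finset.sum_nonneg hg0
  have hE : ∀ m ∈ Finset.range C.r, F.E (g m) ≤ δ := by
    intro m hm
    have hmr := Finset.mem_range.1 hm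
    have h1 : F.E (g m) = F.E (n := 3) (fun _ r => if |tr2 (r 0) (r 2) - C.c m| ≤ ε m
        then (1 : ℝ) else 0) + F.E (n := 3) (fun _ r => if tr2 (r 0) (r 2) + ε m <
        min (tr2 (r 0) (r 1)) (tr2 (r 1) (r 2)) then (1 : ℝ) else 0) :=
      F.E_add _ _ 1 (fun i r => CSc_ind_abs _) (fun i r => CSc_ind_abs _)
    have h2 : F.E (n := 3) (fun _ r => if |tr2 (r 0) (r 2) - C.c m| ≤ ε m
        then (1 : ℝ) else 0) = F.E (n := 2) (fun _ r => if |tr2 (r 0) (r 1) - C.c m| ≤ ε m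
        then (1 : ℝ) else 0) := by
      have hj : Function.Injective (![0, 2] : Fin 2 → Fin 3) := by decide
      exact F.E_marginal (n := 3) (![0, 2] : Fin 2 → Fin 3) hj
        (fun _ r => if |tr2 (r 0) (r 1) - C.c m| ≤ ε m then (1 : ℝ) else 0)
    rw [h1, h2, ultra3 O (hε m hmr).1, add_zero]
    exact (hε m hmr).2
  refine hle.trans ?_
  rw [CSc_sum g hg C.r]
  refine (Finset.sum_le_sum hE).trans ?_
  rw [Finset.sum_const, Finset.card_range, nsmul_eq_mul]
  have h1 : (C.r : ℝ) * δ ≤ (C.r + 1) * δ := mul_le_mul_of_nonneg_right (by linarith) hδ.le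
  refine h1.trans (le_of_eq ?_)
  rw [hδd]
  field_simp

end SKC.H
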