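import Pool.Agent.H.MP_08eaf3_pr.H.CSc

/-!
# Block CS: the level matrix of an array, the law of the level matrices
-/

set_option autoImplicit false

open MeasureTheory ProbabilityTheory Filter Topology Matrix

namespace SKC.H

variable {F : Fam} (O : EF.OrdData F) {η : ℝ} (C : Cells O.T O.μ η)

/-- level matrix of an array of overlap matrices -/
noncomputable def wm {n : ℕ} (A : Fin n → Fin n → Matrix (Fin 2) (Fin 2) ℝ) :
    G.LM (C.r + 2) n :=
  fun i j => ⟨if i = j then C.r + 2 else kp C (Matrix.trace (A i j)), by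
    have := kp_lt C (Matrix.trace (A i j))
    split_ifs <;> omega⟩

/-- the indicator of `G.CS.law` is the indicator of `w = wm A` (entries are determined by their values) -/
theorem ind_eq {n : ℕ} (w : G.LM (C.r + 2) n) (A : Fin n → Fin n → Matrix (Fin 2) (Fin 2) ℝ) :
    (if ∀ i j, (w i j : ℕ) = (if i = j then C.r + 2 else kp C (Matrix.trace (A i j))) then (1 : ℝ)
      else 0) = if w = wm O C A then 1 else 0 := by
  refine if_congr ⟨fun h => ?_, fun h => ?_⟩ rfl rfl
  · funext i j
    exact Fin.ext (h i j)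
  · subst h
    exact fun i j => rfl

/-- probability of a level matrix -/
noncomputable def pw (n : ℕ) (w : G.LM (C.r + 2) n) : ℝ :=
  F.EA (n := n) (fun A => if w = wm O C A then (1 : ℝ) else 0)

/-- expectation of a function of the level matrix: finite linearity (`F.E_add`, `F.E_const_mul`, induction on
finite sums; `∑ w, c w * 1{w = wm A} = c (wm A)`) -/
theorem sum_pw (n : ℕ) (c : G.LM (C.r + 2) n → ℝ) :
    ∑ w, c w * pw O C n w = F.EA (n := n) (fun A => c (wm O C A)) := by
  classical
  have hb : ∀ (w : G.LM (C.r + 2) n) (i : F.I) (r : Fin n → Cfg (Fin 2) (F.Nn i)),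
      |(if w = wm O C (arr r) then (1 : ℝ) else 0)| ≤ 1 := by
    intro w i r
    split_ifs <;> simp
  have hbc : ∀ (w : G.LM (C.r + 2) n) (i : F.I) (r : Fin n → Cfg (Fin 2) (F.Nn i)),
      |c w * (if w = wm O C (arr r) then (1 : ℝ) else 0)| ≤ |c w| := by
    intro w i r
    rw [abs_mul]
    exact mul_le_of_le_one_right (abs_nonneg _) (hb w i r)
  have h1 : ∀ s : Finset (G.LM (C.r + 2) n), ∑ w ∈ s, c w * pw O C n w =
      F.E (n := n) (fun _ r => ∑ w ∈ s, c w * (if w = wm O C (arr r) then (1 : ℝ) else 0)) := by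
    intro s
    induction s using Finset.induction_on with
    | empty =>
      simp only [Finset.sum_empty]
      exact (F.E_const 0).symm
    | insert a s ha ih =>
      simp only [Finset.sum_insert ha]
      rw [ih, F.E_add _ _ (∑ w : G.LM (C.r + 2) n, |c w|)]
      · congr 1
        exact (F.E_const_mul (c a) _ 1 (hb a)).symm
      · intro i r
        exact (hbc a i r).trans (Finset.single_le_sum (f := fun w => |c w|)
          (fun w _ => abs_nonneg _) (Finset.mem_univ a))
      · intro i r
        refine (Finset.abs_sum_le_sum_abs _ _).trans ((Finset.sum_le_sum fun w _ =>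
          hbc w i r).trans ?_)
        exact Finset.sum_le_sum_of_subset_of_nonneg (Finset.subset_univ s)
          fun w _ _ => abs_nonneg _
  rw [h1 Finset.univ]
  unfold Fam.EA
  congr 1
  funext i r
  rw [Finset.sum_eq_single (wm O C (arr r))]
  · rw [if_pos rfl, mul_one]
  · intro w _ hw
    rw [if_neg hw, mul_zero]
  · intro h
    exact absurd (Finset.mem_univ _) h

theorem pw_nonneg (n : ℕ) (w : G.LM (C.r + 2) n) : 0 ≤ pw O C n w := by
  refine F.E_nonneg _ 1 (fun i r => ?_) fun i r => ?_
  · beta_reduce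
    split_ifs <;> simp
  · beta_reduce
    split_ifs <;> norm_num

/-- probability zero if the event is contained in an event of probability zero -/
theorem CSd_zero {n : ℕ} (w : G.LM (C.r + 2) n)
    (g : ∀ i, (Fin n → Cfg (Fin 2) (F.Nn i)) → ℝ) (hg : ∀ i r, |g i r| ≤ 1)
    (hg0 : ∀ i r, 0 ≤ g i r) (hE : F.E g = 0)
    (h : ∀ i (r : Fin n → Cfg (Fin 2) (F.Nn i)), w = wm O C (arr r) → g i r = 1) :
    pw O C n w = 0 := by
  refine le_antisymm ?_ (pw_nonneg O C n w)
  rw [← hE]
  refine F.E_mono _ _ 1 (fun i r => ?_) hg fun i r => ?_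
  · beta_reduce
    split_ifs <;> simp
  · beta_reduce
    by_cases h1 : w = wm O C (arr r)
    · rw [if_pos h1, h i r h1]
    · rw [if_neg h1]
      exact hg0 i r

/-- an impossible level matrix has probability zero -/
theorem CSd_zero' {n : ℕ} (w : G.LM (C.r + 2) n)
    (h : ∀ i (r : Fin n → Cfg (Fin 2) (F.Nn i)), w ≠ wm O C (arr r)) : pw O C n w = 0 :=
  CSd_zero O C w (fun _ _ => 0) (fun _ _ => by simp) (fun _ _ => le_rfl) (F.E_const 0)
    fun i r hr => absurd hr (h i r)

/-- `sum_pw` with `c = 1` -/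
theorem pw_one : ∑ w : G.LM (C.r + 2) 1, pw O C 1 w = 1 := by
  have h1 := sum_pw O C 1 (fun _ => (1 : ℝ))
  simp only [one_mul] at h1
  rw [h1]
  exact F.E_const 1

/-- restriction of the level matrix of `n + 1` replicas -/
theorem wm_res {n : ℕ} (A : Fin (n + 1) → Fin (n + 1) → Matrix (Fin 2) (Fin 2) ℝ) :
    (wm O C A).res = wm O C (fun i j => A i.castSucc j.castSucc) := by
  funext i j
  refine Fin.ext ?_
  show (if i.castSucc = j.castSucc then C.r + 2 else
    kp C (Matrix.trace (A i.castSucc j.castSucc))) = (if i = j then C.r + 2 else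
    kp C (Matrix.trace (A i.castSucc j.castSucc)))
  exact if_congr Fin.castSucc_inj rfl rfl

theorem CSd_off {n : ℕ} {A : Fin n → Fin n → Matrix (Fin 2) (Fin 2) ℝ} {i j : Fin n}
    (hij : i ≠ j) : ((wm O C A i j : Fin _) : ℕ) = kp C (Matrix.trace (A i j)) := by
  show (if i = j then C.r + 2 else kp C (Matrix.trace (A i j))) = _
  rw [if_neg hij]

theorem CSd_diag {n : ℕ} {A : Fin n → Fin n → Matrix (Fin 2) (Fin 2) ℝ} (i : Fin n) :
    ((wm O C A i i : Fin _) : ℕ) = C.r + 2 := by
  show (if i = i then C.r + 2 else kp C (Matrix.trace (A i i))) = _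
  rw [if_pos rfl]

/-- consistency: `sum_pw` with `c w' = 1{w'.res = w}`, `wm_res`, `F.E_marginal` for `Fin.castSucc` -/
theorem pw_cons (n : ℕ) (w : G.LM (C.r + 2) n) :
    ∑ w' : G.LM (C.r + 2) (n + 1), (if w'.res = w then pw O C (n + 1) w' else 0) = pw O C n w := by
  have h1 := sum_pw O C (n + 1) (fun w' => if w'.res = w then (1 : ℝ) else 0)
  have h2 : ∀ w' : G.LM (C.r + 2) (n + 1), (if w'.res = w then pw O C (n + 1) w' else 0) =
      (if w'.res = w then (1 : ℝ) else 0) * pw O C (n + 1) w' := by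
    intro w'
    split_ifs <;> simp
  rw [Finset.sum_congr rfl fun w' _ => h2 w', h1]
  have h3 := F.E_marginal (n := n + 1) (m := n) Fin.castSucc (Fin.castSucc_injective n)
    (fun _ r => if w = wm O C (arr r) then (1 : ℝ) else 0)
  have h4 : pw O C n w = F.E (n := n) (fun _ r => if w = wm O C (arr r) then (1 : ℝ) else 0) := rfl
  rw [h4, ← h3]
  unfold Fam.EA
  congr 1
  funext i r
  refine if_congr ?_ rfl rfl
  rw [wm_res, eq_comm]
  rfl

/-- on the support the diagonal is `C.r + 2` and the off-diagonal entries are positive, symmetric (exactly, for all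
arrays of replicas: `tr2_symm`), and ultrametric (`ultra_kp` and `F.E_marginal` for three distinct replicas: the
indicator of `w = wm A` is at most the indicator of the event of `ultra_kp` for the replicas `i, j, k` if
`w i k < min (w i j) (w j k)`; if two of `i,j,k` coincide the inequality is trivial since entries are at most
`C.r + 2`). -/
theorem pw_supp (n : ℕ) (w : G.LM (C.r + 2) n) (h : pw O C n w ≠ 0) : w.Um := by
  have hd : ∀ i, (w i i : ℕ) = C.r + 2 := by
    intro i
    by_contra hc
    refine h (CSd_zero' O C w fun i' r hr => hc ?_)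
    rw [hr]
    exact CSd_diag O C i
  refine ⟨hd, ?_, ?_⟩
  · intro i j
    by_cases hij : i = j
    · rw [hij]
    · by_contra hc
      refine h (CSd_zero' O C w fun i' r hr => hc ?_)
      rw [hr]
      refine Fin.ext ?_
      rw [CSd_off O C hij, CSd_off O C (Ne.symm hij)]
      exact congrArg (kp C) (tr2_symm (r i) (r j))
  · intro i j k
    by_contra hc
    rw [not_le, lt_min_iff] at hc
    obtain ⟨h1, h2⟩ := hc
    have hik : i ≠ k := by
      rintro rfl
      rw [hd i] at h1
      have := (w i j).2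
      omega
    have hij : i ≠ j := by
      rintro rfl
      exact lt_irrefl _ h2
    have hjk : j ≠ k := by
      rintro rfl
      exact lt_irrefl _ h1
    have hinj : Function.Injective ![i, j, k] := by
      intro a b hab
      fin_cases a <;> fin_cases b <;> simp_all
    have h3 := F.E_marginal (n := n) (m := 3) ![i, j, k] hinj
      (fun _ r => if kp C (tr2 (r 0) (r 2)) < kp C (tr2 (r 0) (r 1)) ∧
        kp C (tr2 (r 0) (r 2)) < kp C (tr2 (r 1) (r 2)) then (1 : ℝ) else 0)
    rw [ultra_kp O C] at h3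
    refine h (CSd_zero O C w _ (fun i' r => ?_) (fun i' r => ?_) h3 fun i' r hr => ?_)
    · split_ifs <;> simp
    · split_ifs <;> norm_num
    · refine if_pos ?_
      rw [hr, CSd_off O C hik, CSd_off O C hij] at h1
      rw [hr, CSd_off O C hik, CSd_off O C hjk] at h2
      exact ⟨h1, h2⟩

theorem pw_root (n : ℕ) (w : G.LM (C.r + 2) n) (h : pw O C n w ≠ 0) : ∀ i j, 0 < (w i j : ℕ) := by
  intro i j
  by_contra hc
  refine h (CSd_zero' O C w fun i' r hr => hc ?_)
  rw [hr]
  by_cases hij : i = j
  · subst hij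
    rw [CSd_diag O C i]
    omega
  · rw [CSd_off O C hij]
    exact zero_lt_kp C _

/-- Ghirlanda-Guerra. `sum_pw` for `n + 1` replicas: the left side is the expectation of
`1{w = wm (first n)} 1{j < kp (tr2 (r i) (r last))}`; `gg_kp` with `f i r = 1{w = wm (arr r)}`; in the terms
`k ≠ i` of the right side `kp (tr2 (r i) (r k)) = w i k` when `w = wm`; so
`n * LHS = p (1 - w_j) + #{k ≠ i, j < w i k} p`, and `cnt = 1 + #{k ≠ i, j < w i k}` if `p ≠ 0`
(`w i i = C.r + 2 > j`). -/
theorem pw_gg (hF : F.IsGG) (n : ℕ) (w : G.LM (C.r + 2) n) (i : Fin n) (j : ℕ) (hj : j < C.r + 2) :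
    ∑ w' : G.LM (C.r + 2) (n + 1),
        (if w'.res = w ∧ j < (w' i.castSucc (Fin.last n) : ℕ) then pw O C (n + 1) w' else 0) =
      pw O C n w * (((w.cnt i j : ℕ) : ℝ) - C.w j) / n := by
  classical
  have hn : (n : ℝ) ≠ 0 := by
    have := i.pos
    positivity
  have hdef : pw O C n w = F.E (n := n) (fun _ r => if w = wm O C (arr r) then (1 : ℝ) else 0) := rfl
  have hfb : ∀ (i' : F.I) (r : Fin n → Cfg (Fin 2) (F.Nn i')),
      |(if w = wm O C (arr r) then (1 : ℝ) else 0)| ≤ 1 := by
    intro i' r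
    split_ifs <;> simp
  have h1 := sum_pw O C (n + 1) (fun w' => if w'.res = w ∧
    j < (w' i.castSucc (Fin.last n) : ℕ) then (1 : ℝ) else 0)
  have h2 : ∀ w' : G.LM (C.r + 2) (n + 1),
      (if w'.res = w ∧ j < (w' i.castSucc (Fin.last n) : ℕ) then pw O C (n + 1) w' else 0) =
      (if w'.res = w ∧ j < (w' i.castSucc (Fin.last n) : ℕ) then (1 : ℝ) else 0) *
        pw O C (n + 1) w' := by
    intro w'
    split_ifs <;> simp
  rw [Finset.sum_congr rfl fun w' _ => h2 w', h1]
  have h3 : F.EA (n := n + 1) (fun A => if (wm O C A).res = w ∧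
      j < ((wm O C A) i.castSucc (Fin.last n) : ℕ) then (1 : ℝ) else 0) =
      F.E (n := n + 1) (fun _ r => (if w = wm O C (arr (fun j => r j.castSucc)) then (1 : ℝ) else 0) *
        (if j < kp C (tr2 (r i.castSucc) (r (Fin.last n))) then (1 : ℝ) else 0)) := by
    unfold Fam.EA
    congr 1
    funext i' r
    have h4 : ((wm O C (arr r)) i.castSucc (Fin.last n) : ℕ) =
        kp C (tr2 (r i.castSucc) (r (Fin.last n))) := by
      rw [CSd_off O C (Fin.castSucc_lt_last i).ne]
      rfl
    have h5 : (wm O C (arr r)).res = w ↔ w = wm O C (arr (fun j => r j.castSucc)) := by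
      rw [wm_res, eq_comm]
      rfl
    beta_reduce
    rw [h4]
    by_cases ha : w = wm O C (arr (fun j => r j.castSucc))
    · by_cases hb : j < kp C (tr2 (r i.castSucc) (r (Fin.last n)))
      · rw [if_pos ⟨h5.2 ha, hb⟩, if_pos ha, if_pos hb, mul_one]
      · rw [if_neg fun hh => hb hh.2, if_neg hb, mul_zero]
    · rw [if_neg fun hh => ha (h5.1 hh.1), if_neg ha, zero_mul]
  rw [h3]
  have h6 := gg_kp hF O C i (fun _ r => if w = wm O C (arr r) then (1 : ℝ) else 0) hfb j hj
  rw [eq_div_iff hn, mul_comm, h6, ← hdef]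
  have h7 : ∀ k ∈ Finset.univ.erase i, F.E (n := n) (fun _ r =>
      (if w = wm O C (arr r) then (1 : ℝ) else 0) *
        (if j < kp C (tr2 (r i) (r k)) then (1 : ℝ) else 0)) =
      (if j < (w i k : ℕ) then (1 : ℝ) else 0) * pw O C n w := by
    intro k hk
    have hik : i ≠ k := (Finset.mem_erase.1 hk).1.symm
    rw [hdef, ← F.E_const_mul _ _ 1 hfb]
    congr 1
    funext i' r
    by_cases ha : w = wm O C (arr r)
    · have h8 : (w i k : ℕ) = kp C (tr2 (r i) (r k)) := by
        rw [ha, CSd_off O C hik]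
        rfl
      rw [h8]
      ring
    · rw [if_neg ha]
      ring
  rw [Finset.sum_congr rfl h7, ← Finset.sum_mul]
  by_cases hp : pw O C n w = 0
  · rw [hp]
    ring
  · have hd := (pw_supp O C n w hp).diag i
    have h9 : ((w.cnt i j : ℕ) : ℝ) = 1 + ∑ k ∈ Finset.univ.erase i,
        (if j < (w i k : ℕ) then (1 : ℝ) else 0) := by
      unfold G.LM.cnt
      rw [Finset.card_filter]
      push_cast
      rw [← Finset.add_sum_erase _ _ (Finset.mem_univ i), if_pos (by rw [hd]; exact hj)]
    rw [h9]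
    ring

end SKC.H
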