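import Pool.Agent.H.MP_08eaf3_pr.H.Ker
import Pool.Agent.H.MP_08eaf3_pr.IfA

/-!
# Part H: elementary properties of `lse` and `EL`
-/

set_option autoImplicit false

open MeasureTheory ProbabilityTheory Filter Topology Matrix

namespace SKC.H

variable {Ω ι ι' : Type} [Fintype ι] [Fintype ι']

/-- -/
theorem lse_mono {B : Finset Ω} (hB : B.Nonempty) {a a' : Ω → ℝ} (h : ∀ ω ∈ B, a ω ≤ a' ω) :
    lse B a ≤ lse B a' := A.lse_mono hB h

/-- -/
theorem lse_subset {B B' : Finset Ω} (hB : B.Nonempty) (h : B ⊆ B') (a : Ω → ℝ) :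
    lse B a ≤ lse B' a := A.lse_subset hB h a

/-- -/
theorem lse_add_const {B : Finset Ω} (hB : B.Nonempty) (a : Ω → ℝ) (c : ℝ) :
    lse B (fun ω => a ω + c) = lse B a + c := A.lse_add_const hB a c

/-- `|lse B a| ≤ log |B| + ∑_{ω ∈ B} |a ω|` (for integrability) -/
theorem abs_lse_le {B : Finset Ω} (hB : B.Nonempty) (a : Ω → ℝ) :
    |lse B a| ≤ Real.log B.card + ∑ ω ∈ B, |a ω| := by
  have h := A.abs_lse_le hB (a := a) (c := ∑ ω ∈ B, |a ω|)
    (fun ω hω => Finset.single_le_sum (f := fun ω => |a ω|) (fun _ _ => abs_nonneg _) hω)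
  exact h

/-- [Continuous in `x`, at most linear growth by `abs_lse_le`; Gaussian moments.] -/
theorem integrable_lse {B : Finset Ω} (hB : B.Nonempty) (v : Ω → ι → ℝ) (a : Ω → ℝ) :
    Integrable (fun x => lse B (fun ω => dot x (v ω) + a ω)) (gam ι) := A.integrable_lse hB v a

/-- -/
theorem EL_mono {B : Finset Ω} (hB : B.Nonempty) (v : Ω → ι → ℝ) {a a' : Ω → ℝ}
    (h : ∀ ω ∈ B, a ω ≤ a' ω) : EL B v a ≤ EL B v a' := A.EL_mono hB v h

/-- -/
theorem EL_subset {B B' : Finset Ω} (hB : B.Nonempty) (h : B ⊆ B') (v : Ω → ι → ℝ) (a : Ω → ℝ) :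
    EL B v a ≤ EL B' v a := A.EL_subset hB h v a

/-- -/
theorem EL_add_const {B : Finset Ω} (hB : B.Nonempty) (v : Ω → ι → ℝ) (a : Ω → ℝ) (c : ℝ) :
    EL B v (fun ω => a ω + c) = EL B v a + c := A.EL_add_const hB v a c

/-- renaming the configurations -/
theorem EL_map {Ω' : Type} (e : Ω' ↪ Ω) (B : Finset Ω') (v : Ω → ι → ℝ) (a : Ω → ℝ) :
    EL (B.map e) v a = EL B (fun ω => v (e ω)) (fun ω => a (e ω)) := A.EL_map e B v a

/-- [Jensen: `E log ≥ log exp E` termwise, i.e. `log ∑ exp(y + a) ≥ ∑ p_ω (y_ω + a_ω) - ...`, or: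
`EL_diff_le` is not enough; use that `x ↦ lse` is convex and `E <x,v> = 0`, or compare `x` and `-x`:
`lse(y + a) + lse(-y + a) ≥ 2 lse a` (Cauchy-Schwarz) and the symmetry of `gam`.] -/
theorem lse_le_EL {B : Finset Ω} (hB : B.Nonempty) (v : Ω → ι → ℝ) (a : Ω → ℝ) :
    lse B a ≤ EL B v a := A.lse_le_EL hB v a

/-- Gaussian Laplace transform [product of one dimensional ones: `mgf_gaussianReal`,
`MeasureTheory.integral_fintype_prod_eq_prod`.] -/
theorem integral_exp_dot (v : ι → ℝ) :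
    ∫ x, Real.exp (dot x v) ∂(gam ι) = Real.exp (dot v v / 2) := A.integral_exp_dot v

/-- -/
theorem integrable_exp_dot (v : ι → ℝ) : Integrable (fun x => Real.exp (dot x v)) (gam ι) := (EG.exp_dot v).integrable

/-- annealed bound [Jensen for the concave `log` (`log t ≤ log t0 + (t - t0)/t0`).] -/
theorem EL_le_annealed {B : Finset Ω} (hB : B.Nonempty) (v : Ω → ι → ℝ) (a : Ω → ℝ) :
    EL B v a ≤ lse B (fun ω => dot (v ω) (v ω) / 2 + a ω) := A.EL_le_annealed hB v a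

/-- Fubini for features on a sum type [`MeasurableEquiv.sumPiEquivProdPi`,
`measurePreserving_sumPiEquivProdPi`, `integral_prod`.] -/
theorem integral_sum_gam (f : (ι ⊕ ι' → ℝ) → ℝ) (hf : Integrable f (gam (ι ⊕ ι'))) :
    ∫ z, f z ∂(gam (ι ⊕ ι')) = ∫ x, ∫ y, f (Sum.elim x y) ∂(gam ι') ∂(gam ι) := by
  rw [A.integral_gam_sum, integral_prod]
  exact (A.gam_sum_elim.integrable_comp hf.aestronglyMeasurable).2 hf

/-- two independent sums in the same disorder [`lse (B ×ˢ B') (a + b) = lse B a + lse B' b`] -/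
theorem EL_prod {Ω' : Type} {B : Finset Ω} {B' : Finset Ω'} (hB : B.Nonempty) (hB' : B'.Nonempty)
    (v : Ω → ι → ℝ) (w : Ω' → ι → ℝ) (a : Ω → ℝ) (b : Ω' → ℝ) :
    EL (B ×ˢ B') (fun p i => v p.1 i + w p.2 i) (fun p => a p.1 + b p.2) =
      EL B v a + EL B' w b := A.EL_prod hB hB' v w a b

/-- -/
theorem gw_nonneg [Fintype Ω] (v : Ω → ι → ℝ) (a : Ω → ℝ) (x : ι → ℝ) (ω : Ω) :
    0 ≤ gw v a x ω := by
  unfold gw
  positivity

/-- -/
theorem sum_gw [Fintype Ω] [Nonempty Ω] (v : Ω → ι → ℝ) (a : Ω → ℝ) (x : ι → ℝ) :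
    ∑ ω, gw v a x ω = 1 := by
  unfold gw
  rw [← Finset.sum_div]
  exact div_self (Finset.sum_pos (fun _ _ => Real.exp_pos _) Finset.univ_nonempty).ne'

/-- average of a function of one replica -/
noncomputable def E1 [Fintype Ω] (v : Ω → ι → ℝ) (a : Ω → ℝ) (f : Ω → ℝ) : ℝ :=
  ∫ x, ∑ ω, gw v a x ω * f ω ∂(gam ι)

/-- -/
theorem E1_eq_GA [Fintype Ω] (v : Ω → ι → ℝ) (a : Ω → ℝ) (f : Ω → ℝ) :
    GA v a (n := 1) (fun r => f (r 0)) = E1 v a f := by
  unfold GA E1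
  refine integral_congr_ae (Filter.Eventually.of_forall fun x => ?_)
  simp only [Finset.univ_unique, Fin.default_eq_zero, Finset.prod_singleton]
  exact Fintype.sum_equiv (Equiv.funUnique (Fin 1) Ω) _ _ (fun r => rfl)

end SKC.H
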