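import Pool.Agent.H.MP_08eaf3_pr.H.CavA

/-!
# Part H: removing a weight in the cavity sum
-/

set_option autoImplicit false

open MeasureTheory ProbabilityTheory Filter Topology Matrix

namespace SKC.H

variable {Ω ι ι' : Type} [Fintype ι] [Fintype ι']

/-- -/
theorem CavB_jensen [Fintype Ω] [Nonempty Ω] (b W : Ω → ℝ) (hb : ∀ ω, 0 < b ω) :
    Real.log (∑ ω, b ω) - (∑ ω, b ω * W ω) / ∑ ω, b ω ≤
      Real.log (∑ ω, b ω * Real.exp (- W ω)) := by
  have hT : 0 < ∑ ω, b ω := Finset.sum_pos (fun ω _ => hb ω) Finset.univ_nonempty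
  obtain ⟨m, hm⟩ : ∃ m : ℝ, m = (∑ ω, b ω * W ω) / ∑ ω, b ω := ⟨_, rfl⟩
  rw [← hm]
  have h4 : ∑ ω, b ω * W ω = m * ∑ ω, b ω := by
    rw [hm]; field_simp
  have h1 : Real.exp (-m) * ∑ ω, b ω ≤ ∑ ω, b ω * Real.exp (-W ω) := by
    have h2 : ∀ ω, b ω * (Real.exp (-m) * (1 + (m - W ω))) ≤ b ω * Real.exp (- W ω) := by
      intro ω
      apply mul_le_mul_of_nonneg_left _ (hb ω).le
      have h3 : Real.exp (-W ω) = Real.exp (-m) * Real.exp (m - W ω) := by
        rw [← Real.exp_add]; congr 1; ring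
      rw [h3]
      apply mul_le_mul_of_nonneg_left _ (Real.exp_pos _).le
      linarith [Real.add_one_le_exp (m - W ω)]
    have h5 : ∑ ω, b ω * (Real.exp (-m) * (1 + (m - W ω))) =
        Real.exp (-m) * (1 + m) * ∑ ω, b ω - Real.exp (-m) * ∑ ω, b ω * W ω := by
      rw [Finset.mul_sum, Finset.mul_sum, ← Finset.sum_sub_distrib]
      apply Finset.sum_congr rfl
      intro ω _
      ring
    calc Real.exp (-m) * ∑ ω, b ω = ∑ ω, b ω * (Real.exp (-m) * (1 + (m - W ω))) := by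
          rw [h5, h4]; ring
      _ ≤ _ := Finset.sum_le_sum (fun ω _ => h2 ω)
  have h6 := Real.log_le_log (mul_pos (Real.exp_pos _) hT) h1
  rw [Real.log_mul (Real.exp_pos _).ne' hT.ne', Real.log_exp] at h6
  linarith

/-- -/
theorem CavB_lse {S : Type} [Fintype Ω] [Fintype S] (v : Ω → ι → ℝ)
    (a : Ω → ℝ) (w : Ω → S → ι' → ℝ) (x : ι → ℝ) (y : ι' → ℝ) :
    lse (Finset.univ : Finset (Ω × S))
      (fun p => dot (Sum.elim x y) (Sum.elim (v p.1) (w p.1 p.2)) + a p.1) =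
    Real.log (∑ ω, Real.exp (dot x (v ω) + a ω) * ∑ s, Real.exp (dot y (w ω s))) := by
  unfold lse
  congr 1
  rw [Fintype.sum_prod_type]
  apply Finset.sum_congr rfl
  intro ω _
  rw [Finset.mul_sum]
  apply Finset.sum_congr rfl
  intro s _
  rw [← Real.exp_add]
  congr 1
  simp only [dot_elim]
  ring

/-- -/
theorem CavB_pt {S : Type} [Fintype Ω] [Nonempty Ω] [Fintype S] [Nonempty S] (v : Ω → ι → ℝ)
    (a W : Ω → ℝ) (w : Ω → S → ι' → ℝ) (hW : ∀ ω, 0 ≤ W ω)
    (hs : ∀ ω y, (Fintype.card S : ℝ) ≤ ∑ s, Real.exp (dot y (w ω s))) (x : ι → ℝ) (y : ι' → ℝ) :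
    lse (Finset.univ : Finset (Ω × S))
      (fun p => dot (Sum.elim x y) (Sum.elim (v p.1) (w p.1 p.2)) + a p.1)
      - (∑ ω, gw v a x ω * (W ω * ∑ s, Real.exp (dot y (w ω s)))) / Fintype.card S ≤
      lse (Finset.univ : Finset (Ω × S))
        (fun p => dot (Sum.elim x y) (Sum.elim (v p.1) (w p.1 p.2)) + (a p.1 - W p.1)) := by
  have hS : (0 : ℝ) < Fintype.card S := by exact_mod_cast Fintype.card_pos
  rw [CavB_lse v a w x y]
  have h2 := CavB_lse v (fun ω => a ω - W ω) w x y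
  rw [h2]
  have hA : ∀ ω, 0 < Real.exp (dot x (v ω) + a ω) := fun ω => Real.exp_pos _
  have hY : ∀ ω, 0 < ∑ s, Real.exp (dot y (w ω s)) := fun ω =>
    Finset.sum_pos (fun s _ => Real.exp_pos _) Finset.univ_nonempty
  have h3 := CavB_jensen (fun ω => Real.exp (dot x (v ω) + a ω) * ∑ s, Real.exp (dot y (w ω s)))
    W (fun ω => mul_pos (hA ω) (hY ω))
  have h4 : (∑ ω, Real.exp (dot x (v ω) + a ω) * (∑ s, Real.exp (dot y (w ω s))) *
      Real.exp (- W ω)) =
      ∑ ω, Real.exp (dot x (v ω) + (a ω - W ω)) * ∑ s, Real.exp (dot y (w ω s)) := by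
    apply Finset.sum_congr rfl
    intro ω _
    have h5 : dot x (v ω) + (a ω - W ω) = dot x (v ω) + a ω + (- W ω) := by ring
    rw [h5, Real.exp_add (dot x (v ω) + a ω)]
    ring
  rw [h4] at h3
  have hTA : 0 < ∑ ω, Real.exp (dot x (v ω) + a ω) :=
    Finset.sum_pos (fun ω _ => hA ω) Finset.univ_nonempty
  have h6 : (∑ ω, Real.exp (dot x (v ω) + a ω) * (∑ s, Real.exp (dot y (w ω s))) * W ω) /
      (∑ ω, Real.exp (dot x (v ω) + a ω) * ∑ s, Real.exp (dot y (w ω s))) ≤
      (∑ ω, gw v a x ω * (W ω * ∑ s, Real.exp (dot y (w ω s)))) / Fintype.card S := by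
    have h7 : (∑ ω, gw v a x ω * (W ω * ∑ s, Real.exp (dot y (w ω s)))) / Fintype.card S =
        (∑ ω, Real.exp (dot x (v ω) + a ω) * (∑ s, Real.exp (dot y (w ω s))) * W ω) /
          ((∑ ω, Real.exp (dot x (v ω) + a ω)) * Fintype.card S) := by
      rw [← div_div]
      congr 1
      rw [Finset.sum_div]
      apply Finset.sum_congr rfl
      intro ω _
      unfold gw
      ring
    rw [h7]
    apply div_le_div_of_nonneg_left
    · apply Finset.sum_nonneg
      intro ω _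
      exact mul_nonneg (mul_pos (hA ω) (hY ω)).le (hW ω)
    · exact mul_pos hTA hS
    · rw [Finset.sum_mul]
      apply Finset.sum_le_sum
      intro ω _
      exact mul_le_mul_of_nonneg_left (hs ω y) (hA ω).le
  linarith

/-- -/
theorem CavB_cont_gw [Fintype Ω] [Nonempty Ω] (v : Ω → ι → ℝ) (a : Ω → ℝ) (ω : Ω) :
    Continuous (fun x => gw v a x ω) := by
  unfold gw dot
  apply Continuous.div
  · fun_prop
  · fun_prop
  · intro x
    exact (Finset.sum_pos (fun ω _ => Real.exp_pos _) Finset.univ_nonempty).ne'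

/-- -/
theorem CavB_gw_le [Fintype Ω] [Nonempty Ω] (v : Ω → ι → ℝ) (a : Ω → ℝ) (x : ι → ℝ) (ω : Ω) :
    gw v a x ω ≤ 1 := by
  rw [← sum_gw v a x]
  exact Finset.single_le_sum (f := fun ω => gw v a x ω) (fun i _ => gw_nonneg v a x i)
    (Finset.mem_univ ω)

/-- -/
theorem CavB_int_Y {S : Type} [Fintype Ω] [Fintype S] (w : Ω → S → ι' → ℝ) (ω : Ω) :
    Integrable (fun y => ∑ s, Real.exp (dot y (w ω s))) (gam ι') :=
  integrable_finsetSum _ (fun s _ => integrable_exp_dot (w ω s))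

/-- -/
theorem CavB_int_z {S : Type} [Fintype Ω] [Nonempty Ω] [Fintype S] (v : Ω → ι → ℝ)
    (a W : Ω → ℝ) (w : Ω → S → ι' → ℝ) :
    Integrable (fun z : ι ⊕ ι' → ℝ => (∑ ω, gw v a (z ∘ Sum.inl) ω *
      (W ω * ∑ s, Real.exp (dot (z ∘ Sum.inr) (w ω s)))) / Fintype.card S) (gam (ι ⊕ ι')) := by
  apply Integrable.div_const
  apply integrable_finsetSum
  intro ω _
  have h1 : Integrable (fun z : ι ⊕ ι' → ℝ => W ω * ∑ s, Real.exp (dot (z ∘ Sum.inr) (w ω s)))
      (gam (ι ⊕ ι')) := by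
    apply Integrable.const_mul
    apply integrable_finsetSum
    intro s _
    have h2 := integrable_exp_dot (Sum.elim (fun _ : ι => (0 : ℝ)) (w ω s))
    refine h2.congr (Filter.Eventually.of_forall (fun z => ?_))
    simp only [dot, Fintype.sum_sum_type, Sum.elim_inl, Sum.elim_inr, mul_zero,
      Finset.sum_const_zero, zero_add, Function.comp_apply]
  apply h1.mono
  · have hc1 : Continuous (fun z : ι ⊕ ι' → ℝ => gw v a (z ∘ Sum.inl) ω) :=
      (CavB_cont_gw v a ω).comp (by fun_prop)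
    have hc2 : Continuous (fun z : ι ⊕ ι' → ℝ => W ω * ∑ s, Real.exp (dot (z ∘ Sum.inr) (w ω s))) := by
      unfold dot
      simp only [Function.comp_apply]
      fun_prop
    exact (hc1.mul hc2).aestronglyMeasurable
  · refine Filter.Eventually.of_forall (fun z => ?_)
    rw [norm_mul]
    have h3 : ‖gw v a (z ∘ Sum.inl) ω‖ ≤ 1 := by
      rw [Real.norm_eq_abs, abs_of_nonneg (gw_nonneg v a _ ω)]
      exact CavB_gw_le v a _ ω
    calc _ ≤ 1 * _ := mul_le_mul_of_nonneg_right h3 (norm_nonneg _)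
      _ = _ := one_mul _

/-- removing a weight `exp(-W ω)` in the cavity sum.  [For `(x,y)` in the product space let
`Y_ω := ∑_s exp<y, w ω s> ≥ |S|`, `g_ω := gw v a x ω`.  Then
`lse(a - W) - lse a = log (∑ g Y e^{-W} / ∑ g Y) ≥ - ∑ g Y W / ∑ g Y ≥ - ∑ g Y W / |S|` (concavity of
`log` for the weights `g Y / ∑ g Y`; `∑ g Y ≥ |S|`).  Integrate over `y` (`integral_exp_dot`):
`E_y Y_ω = ∑_s exp(|w ω s|^2 / 2) ≤ |S| exp D`, then over `x` (`integral_sum_gam`).] -/
theorem cav_weight {S : Type} [Fintype Ω] [Nonempty Ω] [Fintype S] [Nonempty S] (v : Ω → ι → ℝ)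
    (a W : Ω → ℝ) (w : Ω → S → ι' → ℝ) (hW : ∀ ω, 0 ≤ W ω) {D : ℝ}
    (hD : ∀ ω s, dot (w ω s) (w ω s) ≤ 2 * D)
    (hs : ∀ ω y, (Fintype.card S : ℝ) ≤ ∑ s, Real.exp (dot y (w ω s))) :
    EL (Finset.univ : Finset (Ω × S)) (fun p => Sum.elim (v p.1) (w p.1 p.2)) (fun p => a p.1)
        - Real.exp D * E1 v a W ≤
      EL (Finset.univ : Finset (Ω × S)) (fun p => Sum.elim (v p.1) (w p.1 p.2))
        (fun p => a p.1 - W p.1) := by
  have hS : (0 : ℝ) < Fintype.card S := by exact_mod_cast Fintype.card_pos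
  have hI1 := integrable_lse (B := (Finset.univ : Finset (Ω × S))) Finset.univ_nonempty
    (fun p => Sum.elim (v p.1) (w p.1 p.2)) (fun p => a p.1)
  have hI2 := integrable_lse (B := (Finset.univ : Finset (Ω × S))) Finset.univ_nonempty
    (fun p => Sum.elim (v p.1) (w p.1 p.2)) (fun p => a p.1 - W p.1)
  have hI3 := CavB_int_z v a W w
  have h1 : (∫ z, lse (Finset.univ : Finset (Ω × S))
      (fun p => dot z (Sum.elim (v p.1) (w p.1 p.2)) + a p.1) ∂(gam (ι ⊕ ι'))) -
      ∫ z : ι ⊕ ι' → ℝ, (∑ ω, gw v a (z ∘ Sum.inl) ω *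
        (W ω * ∑ s, Real.exp (dot (z ∘ Sum.inr) (w ω s)))) / Fintype.card S ∂(gam (ι ⊕ ι')) ≤
      ∫ z, lse (Finset.univ : Finset (Ω × S))
      (fun p => dot z (Sum.elim (v p.1) (w p.1 p.2)) + (a p.1 - W p.1)) ∂(gam (ι ⊕ ι')) := by
    rw [← integral_sub hI1 hI3]
    apply integral_mono (hI1.sub hI3) hI2
    intro z
    have hz : z = Sum.elim (z ∘ Sum.inl) (z ∘ Sum.inr) := by
      funext i
      cases i <;> rfl
    have h2 := CavB_pt v a W w hW hs (z ∘ Sum.inl) (z ∘ Sum.inr)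
    rw [← hz] at h2
    exact h2
  have h3 : (∫ z : ι ⊕ ι' → ℝ, (∑ ω, gw v a (z ∘ Sum.inl) ω *
        (W ω * ∑ s, Real.exp (dot (z ∘ Sum.inr) (w ω s)))) / Fintype.card S ∂(gam (ι ⊕ ι'))) ≤
      Real.exp D * E1 v a W := by
    rw [integral_sum_gam _ hI3]
    have h4 : ∀ x : ι → ℝ, (∫ y, (∑ ω, gw v a (Sum.elim x y ∘ Sum.inl) ω *
        (W ω * ∑ s, Real.exp (dot (Sum.elim x y ∘ Sum.inr) (w ω s)))) / Fintype.card S
          ∂(gam ι')) = (∑ ω, gw v a x ω * (W ω * ∑ s, Real.exp (dot (w ω s) (w ω s) / 2))) /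
            Fintype.card S := by
      intro x
      simp only [Sum.elim_comp_inl, Sum.elim_comp_inr]
      rw [integral_div, integral_finsetSum _ (fun ω _ =>
        ((CavB_int_Y w ω).const_mul (W ω)).const_mul (gw v a x ω))]
      congr 1
      apply Finset.sum_congr rfl
      intro ω _
      rw [integral_const_mul, integral_const_mul, integral_finsetSum _
        (fun s _ => integrable_exp_dot (w ω s))]
      simp only [integral_exp_dot]
    simp only [h4]
    unfold E1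
    rw [← integral_const_mul]
    have hIg : ∀ c : Ω → ℝ, Integrable (fun x => ∑ ω, gw v a x ω * c ω) (gam ι) := by
      intro c
      apply integrable_finsetSum
      intro ω _
      apply Integrable.mul_const
      apply Integrable.of_bound (CavB_cont_gw v a ω).aestronglyMeasurable 1
      refine Filter.Eventually.of_forall (fun x => ?_)
      rw [Real.norm_eq_abs, abs_of_nonneg (gw_nonneg v a _ ω)]
      exact CavB_gw_le v a _ ω
    apply integral_mono ((hIg _).div_const _) ((hIg _).const_mul _)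
    intro x
    simp only
    rw [div_le_iff₀ hS, Finset.mul_sum, Finset.sum_mul]
    apply Finset.sum_le_sum
    intro ω _
    have h5 : ∑ s, Real.exp (dot (w ω s) (w ω s) / 2) ≤ Fintype.card S * Real.exp D := by
      calc _ ≤ ∑ _s : S, Real.exp D := by
            apply Finset.sum_le_sum
            intro s _
            apply Real.exp_le_exp.mpr
            linarith [hD ω s]
        _ = _ := by rw [Finset.sum_const, Finset.card_univ, nsmul_eq_mul]
    calc gw v a x ω * (W ω * ∑ s, Real.exp (dot (w ω s) (w ω s) / 2))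
        ≤ gw v a x ω * (W ω * (Fintype.card S * Real.exp D)) :=
          mul_le_mul_of_nonneg_left (mul_le_mul_of_nonneg_left h5 (hW ω)) (gw_nonneg v a x ω)
      _ = _ := by ring
  unfold EL
  linarith

end SKC.H
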