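import Pool.Agent.H.MP_08eaf3_pr.H.CellsDef

/-!
# Cells: positive semidefinite matrices, factors, Lipschitz property of `Q`
-/

set_option autoImplicit false

open MeasureTheory ProbabilityTheory Filter Topology Matrix
open scoped MatrixOrder

namespace SKC.H

theorem CellsA_exists_factor {M : Matrix (Fin 2) (Fin 2) ℝ} (hM : M.PosSemidef) :
    ∃ E : Matrix (Fin 2) (Fin 2) ℝ, E * Eᵀ = M := by
  obtain ⟨B, hB⟩ := CStarAlgebra.nonneg_iff_eq_star_mul_self.mp hM.nonneg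
  refine ⟨Bᵀ, ?_⟩
  rw [Matrix.transpose_transpose, hB, Matrix.star_eq_conjTranspose,
    Matrix.conjTranspose_eq_transpose_of_trivial]

/-- the defining property of the factor -/
theorem fac_spec {M : Matrix (Fin 2) (Fin 2) ℝ} (hM : M.PosSemidef) : fac M * (fac M)ᵀ = M := by
  unfold fac
  rw [dif_pos (CellsA_exists_factor hM)]
  exact (CellsA_exists_factor hM).choose_spec

theorem fac_zero : fac 0 = 0 := by
  have h1 : fac 0 * (fac 0)ᵀ = 0 := fac_spec Matrix.PosSemidef.zero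
  have h2 : fac 0 * (fac 0)ᴴ = 0 := by
    rw [Matrix.conjTranspose_eq_transpose_of_trivial]
    exact h1
  exact Matrix.self_mul_conjTranspose_eq_zero.1 h2

theorem CellsA_facts {M : Matrix (Fin 2) (Fin 2) ℝ} (hM : M.PosSemidef) :
    0 ≤ M 0 0 ∧ 0 ≤ M 1 1 ∧ M 1 0 = M 0 1 ∧ M 0 1 ^ 2 ≤ M 0 0 * M 1 1 := by
  have h0 : 0 ≤ M 0 0 := hM.diag_nonneg
  have h1 : 0 ≤ M 1 1 := hM.diag_nonneg
  have h2 : M 1 0 = M 0 1 := by
    have h := hM.isHermitian.apply 0 1
    simpa using h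
  have h3 := hM.det_nonneg
  rw [Matrix.det_fin_two, h2] at h3
  exact ⟨h0, h1, h2, by nlinarith⟩

/-- entries of a positive semidefinite matrix are bounded by the trace -/
theorem CellsA_entry {M : Matrix (Fin 2) (Fin 2) ℝ} (hM : M.PosSemidef) (c c' : Fin 2) :
    |M c c'| ≤ Matrix.trace M := by
  obtain ⟨h0, h1, h2, h3⟩ := CellsA_facts hM
  have ht : Matrix.trace M = M 0 0 + M 1 1 := Matrix.trace_fin_two M
  have h4 : |M 0 1| ≤ Matrix.trace M := by
    rw [ht]
    apply abs_le_of_sq_le_sq _ (by linarith)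
    nlinarith [mul_nonneg h0 h1]
  fin_cases c <;> fin_cases c'
  · show |M 0 0| ≤ _
    rw [abs_of_nonneg h0, ht]
    linarith
  · exact h4
  · show |M 1 0| ≤ _
    rw [h2]
    exact h4
  · show |M 1 1| ≤ _
    rw [abs_of_nonneg h1, ht]
    linarith

theorem CellsA_zero {M : Matrix (Fin 2) (Fin 2) ℝ} (hM : M.PosSemidef) (h : Matrix.trace M = 0) :
    M = 0 := by
  ext c c'
  have := CellsA_entry hM c c'
  rw [h] at this
  exact abs_nonpos_iff.1 this

/-- `Q` is Lipschitz on `T` -/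
theorem CellsA_lip {u : ℝ} (P : PData u) (s t : ℝ) (hs : s ∈ P.T) (ht : t ∈ P.T) (c c' : Fin 2) :
    |P.Q t c c' - P.Q s c c'| ≤ |t - s| := by
  have key : ∀ s t : ℝ, s ∈ P.T → t ∈ P.T → s ≤ t → |P.Q t c c' - P.Q s c c'| ≤ |t - s| := by
    intro s t hs ht hst
    have h1 := CellsA_entry (P.mono s hs t ht hst) c c'
    rw [Matrix.trace_sub, P.tr t ht, P.tr s hs, Matrix.sub_apply] at h1
    rwa [abs_of_nonneg (sub_nonneg.2 hst)]
  rcases le_total s t with h | h
  · exact key s t hs ht h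
  · rw [abs_sub_comm, abs_sub_comm t s]
    exact key t s ht hs h

theorem CellsA_Q_zero {u : ℝ} (P : PData u) (h : (0 : ℝ) ∈ P.T) : P.Q 0 = 0 :=
  CellsA_zero (P.psd 0 h) (P.tr 0 h)

end SKC.H
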