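import Pool.Agent.H.MP_08eaf3_pr.H.CellsDef

/-!
# Cells: order of the representatives and thresholds, the index
-/

set_option autoImplicit false

open MeasureTheory ProbabilityTheory Filter Topology Matrix

namespace SKC.H

variable {T : Set ℝ} {μ : Measure ℝ} {η : ℝ}

/-- `t j < c j' < t (j'+1)` for `j ≤ j'` -/
theorem CellsB_t_lt_c (C : Cells T μ η) (j n : ℕ) (h : j + n < C.r) : C.t j < C.c (j + n) := by
  induction n with
  | zero => exact C.lo j h
  | succ n ih =>
    have h1 := ih (by omega)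
    have h2 := C.hi (j + n) (by omega)
    have h3 := C.lo (j + n + 1) (by omega)
    exact (h1.trans h2).trans h3

theorem t_lt_c (C : Cells T μ η) {i j : ℕ} (hij : i ≤ j) (hj : j < C.r) : C.t i < C.c j := by
  obtain ⟨n, rfl⟩ := Nat.exists_eq_add_of_le hij
  exact CellsB_t_lt_c C i n hj

theorem c_lt_t (C : Cells T μ η) {i j : ℕ} (hij : i < j) (hj : j ≤ C.r) : C.c i < C.t j := by
  obtain ⟨n, rfl⟩ := Nat.exists_eq_add_of_lt hij
  rcases Nat.eq_zero_or_pos n with h0 | h0
  · subst h0
    exact C.hi i (by omega)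
  · have h1 := C.hi i (by omega)
    have h2 : C.t (i + 1) < C.c (i + n) := t_lt_c C (by omega) (by omega)
    have h3 := C.hi (i + n) (by omega)
    exact (h1.trans h2).trans h3

theorem t_lt_t (C : Cells T μ η) {i j : ℕ} (hij : i < j) (hj : j ≤ C.r) : C.t i < C.t j :=
  (C.lo i (by omega)).trans (c_lt_t C hij hj)

theorem t_le_t (C : Cells T μ η) {i j : ℕ} (hij : i ≤ j) (hj : j ≤ C.r) : C.t i ≤ C.t j := by
  rcases hij.eq_or_lt with h | h
  · rw [h]
  · exact (t_lt_t C h hj).le

theorem c_lt_c (C : Cells T μ η) {i j : ℕ} (hij : i < j) (hj : j < C.r) : C.c i < C.c j :=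
  (C.hi i (by omega)).trans (t_lt_c C hij hj)

theorem c_le_c (C : Cells T μ η) {i j : ℕ} (hij : i ≤ j) (hj : j < C.r) : C.c i ≤ C.c j := by
  rcases hij.eq_or_lt with h | h
  · rw [h]
  · exact (c_lt_c C h hj).le

theorem CellsB_idx_le (C : Cells T μ η) (x : ℝ) : C.idx x ≤ C.r := by
  classical
  unfold Cells.idx
  refine (Finset.card_filter_le _ _).trans ?_
  rw [Finset.card_range]

theorem CellsB_lt_idx (C : Cells T μ η) (x : ℝ) (j : ℕ) (hj : j < C.r) :
    j < C.idx x ↔ C.c j ≤ x := by
  classical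
  unfold Cells.idx
  constructor
  · intro h
    by_contra hcon
    have hsub : (Finset.range C.r).filter (fun i => C.c i ≤ x) ⊆ Finset.range j := by
      intro i hi
      rw [Finset.mem_filter, Finset.mem_range] at hi
      rw [Finset.mem_range]
      by_contra hij
      exact hcon ((c_le_c C (not_lt.1 hij) hi.1).trans hi.2)
    have := Finset.card_le_card hsub
    rw [Finset.card_range] at this
    omega
  · intro h
    have hsub : Finset.range (j + 1) ⊆ (Finset.range C.r).filter (fun i => C.c i ≤ x) := by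
      intro i hi
      rw [Finset.mem_range] at hi
      rw [Finset.mem_filter, Finset.mem_range]
      exact ⟨by omega, (c_le_c C (by omega) hj).trans h⟩
    have := Finset.card_le_card hsub
    rw [Finset.card_range] at this
    omega

/-- characterisation of the index -/
theorem idx_eq_of (C : Cells T μ η) (x : ℝ) (j : ℕ) (hj : j ≤ C.r)
    (h1 : ∀ i : ℕ, i < j → C.c i ≤ x) (h2 : ∀ i : ℕ, j ≤ i → i < C.r → x < C.c i) :
    C.idx x = j := by
  apply le_antisymm
  · by_contra hcon
    have hj' : j < C.r := by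
      have := CellsB_idx_le C x
      omega
    have h3 := (CellsB_lt_idx C x j hj').1 (not_le.1 hcon)
    exact absurd h3 (not_le.2 (h2 j le_rfl hj'))
  · by_contra hcon
    have h3 := h1 (C.idx x) (not_le.1 hcon)
    have h4 := (CellsB_lt_idx C x (C.idx x) (by omega)).2 h3
    exact lt_irrefl _ h4

theorem idx_spec1 (C : Cells T μ η) (x : ℝ) (i : ℕ) (hi : i < C.idx x) : C.c i ≤ x :=
  (CellsB_lt_idx C x i (lt_of_lt_of_le hi (CellsB_idx_le C x))).1 hi

theorem idx_spec2 (C : Cells T μ η) (x : ℝ) (i : ℕ) (hi : C.idx x ≤ i) (hr : i < C.r) :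
    x < C.c i := by
  by_contra hcon
  have := (CellsB_lt_idx C x i hr).2 (not_lt.1 hcon)
  omega

theorem CellsB_idx_rep (C : Cells T μ η) (j : ℕ) (hj : j ≤ C.r) : C.idx (C.t j) = j :=
  idx_eq_of C _ j hj (fun _ hi => (c_lt_t C hi hj).le) (fun _ hi hr => t_lt_c C hi hr)

theorem CellsB_near_idx (C : Cells T μ η) (x : ℝ) (hx : x ∈ T) : |x - C.t (C.idx x)| ≤ η :=
  C.near x hx _ (CellsB_idx_le C x) (fun i hi => idx_spec1 C x i hi)
    (fun i hi hr => idx_spec2 C x i hi hr)

theorem idx_mono (C : Cells T μ η) {x y : ℝ} (h : x ≤ y) : C.idx x ≤ C.idx y := by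
  by_contra hcon
  have h1 := idx_spec1 C x (C.idx y) (not_le.1 hcon)
  have h2 := idx_spec2 C y (C.idx y) le_rfl
    (lt_of_lt_of_le (not_le.1 hcon) (CellsB_idx_le C x))
  linarith

theorem CellsB_idx_stable (C : Cells T μ η) (x y ε : ℝ)
    (h1 : |x - y| ≤ ε) (h2 : ∀ j : ℕ, j < C.r → ε < |y - C.c j|) : C.idx x = C.idx y := by
  apply idx_eq_of C x _ (CellsB_idx_le C y)
  · intro i hi
    have h3 := idx_spec1 C y i hi
    have h4 := h2 i (lt_of_lt_of_le hi (CellsB_idx_le C y))
    rw [abs_of_nonneg (sub_nonneg.2 h3)] at h4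
    have h5 := (abs_le.1 h1).1
    linarith
  · intro i hi hr
    have h3 := idx_spec2 C y i hi hr
    have h4 := h2 i hr
    rw [abs_of_neg (sub_neg.2 h3)] at h4
    have h5 := (abs_le.1 h1).2
    linarith

/-- points of a cell: `t k < x` or `x ≤ t k` in terms of the index -/
theorem idx_lt_imp (C : Cells T μ η) (x : ℝ) (k : ℕ) (hk : k ≤ C.r) (h : C.idx x < k) :
    x < C.t k := by
  have h1 := idx_spec2 C x (C.idx x) le_rfl (by omega)
  exact h1.trans (c_lt_t C h hk)

theorem lt_idx_imp (C : Cells T μ η) (x : ℝ) (k : ℕ) (h : k < C.idx x) :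
    C.t k < x := by
  have h1 := idx_spec1 C x k h
  exact (C.lo k (lt_of_lt_of_le h (CellsB_idx_le C x))).trans_le h1

theorem w_succ_eq (C : Cells T μ η) (j : ℕ) :
    C.w (j + 1) = if j < C.r then μ.real (Set.Iio (C.c j)) else 1 := rfl

theorem w_nonneg (C : Cells T μ η) (j : ℕ) : 0 ≤ C.w j := by
  cases j with
  | zero => exact le_rfl
  | succ j =>
    rw [w_succ_eq]
    split_ifs
    · exact measureReal_nonneg
    · exact zero_le_one

theorem w_le_one [IsProbabilityMeasure μ] (C : Cells T μ η) (j : ℕ) : C.w j ≤ 1 := by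
  cases j with
  | zero => exact zero_le_one
  | succ j =>
    rw [w_succ_eq]
    split_ifs
    · exact measureReal_le_one
    · exact le_rfl

theorem CellsB_w_succ (C : Cells T μ η) (j : ℕ) (hj : j < C.r) :
    C.w (j + 1) = μ.real (Set.Iio (C.c j)) := by
  rw [w_succ_eq, if_pos hj]

theorem w_ge (C : Cells T μ η) (j : ℕ) (hj : C.r ≤ j) : C.w (j + 1) = 1 := by
  rw [w_succ_eq, if_neg (not_lt.2 hj)]

theorem w_mono [IsProbabilityMeasure μ] (C : Cells T μ η) : Monotone C.w := by
  apply monotone_nat_of_le_succ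
  intro j
  cases j with
  | zero => exact w_nonneg C 1
  | succ j =>
    rcases lt_or_ge (j + 1) C.r with h | h
    · rw [CellsB_w_succ C (j + 1) h, CellsB_w_succ C j (by omega)]
      exact measureReal_mono (Set.Iio_subset_Iio (c_lt_c C (Nat.lt_succ_self j) h).le)
        (measure_ne_top μ _)
    · rw [w_ge C (j + 1) h]
      exact w_le_one C _

end SKC.H
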