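import Pool.Agent.H.MP_08eaf3_pr.H.CellsA
import Pool.Agent.H.MP_08eaf3_pr.H.CellsB

/-!
# Cells: the lists of steps `pl a n`
-/

set_option autoImplicit false

open MeasureTheory ProbabilityTheory Filter Topology Matrix

namespace SKC.H

theorem CellsC_Qtot_append {K : Type} [Fintype K] (l l' : List (Step K)) :
    Qtot (l ++ l') = Qtot l + Qtot l' := by
  induction l with
  | nil => simp [Qtot]
  | cons a l ih => rw [List.cons_append, Qtot, Qtot, ih, add_assoc]

theorem CellsC_Gl_append (l l' : List (Step (Fin 2))) : Gl (l ++ l') = Gl l + Gl l' := by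
  unfold Gl
  rw [List.map_append, List.sum_append]

variable {u : ℝ} (P : PData u) {η : ℝ} (C : Cells P.T P.μ η)

theorem bq_zero : bq P C 0 = 0 := rfl

theorem bq_succ (j : ℕ) : bq P C (j + 1) = if j ≤ C.r then P.Q (C.t j) else mat 1 1 u := rfl

theorem bq_rep (j : ℕ) (hj : j ≤ C.r) : bq P C (j + 1) = P.Q (C.t j) := by
  rw [bq_succ, if_pos hj]

theorem bq_top (j : ℕ) (hj : C.r < j) : bq P C (j + 1) = mat 1 1 u := by
  rw [bq_succ, if_neg (not_le.2 hj)]

/-- the increments are positive semidefinite -/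
theorem bq_inc (j : ℕ) : (bq P C (j + 1) - bq P C j).PosSemidef := by
  cases j with
  | zero =>
    rw [bq_rep P C 0 (Nat.zero_le _), bq_zero, sub_zero]
    exact P.psd _ (C.mem 0 (Nat.zero_le _))
  | succ j =>
    rcases lt_or_ge j C.r with h | h
    · rw [bq_rep P C (j + 1) (by omega), bq_rep P C j (by omega)]
      exact P.mono _ (C.mem j (by omega)) _ (C.mem (j + 1) (by omega))
        (t_lt_t C (Nat.lt_succ_self j) (by omega)).le
    · rcases h.eq_or_lt with h' | h'
      · rw [bq_top P C (j + 1) (by omega), bq_rep P C j (by omega)]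
        exact P.leD _ (C.mem j (by omega))
      · rw [bq_top P C (j + 1) (by omega), bq_top P C j (by omega), sub_self]
        exact Matrix.PosSemidef.zero

/-- step `j` -/
noncomputable def stp (j : ℕ) : Step (Fin 2) := (C.w j, fac (bq P C (j + 1) - bq P C j))

theorem stp_mul (j : ℕ) : (stp P C j).2 * (stp P C j).2ᵀ = bq P C (j + 1) - bq P C j :=
  fac_spec (bq_inc P C j)

theorem pl_zero (a : ℕ) : pl P C a 0 = [] := rfl

theorem pl_succ (a n : ℕ) : pl P C a (n + 1) = stp P C a :: pl P C (a + 1) n := by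
  unfold pl stp
  rw [List.range'_succ, List.map_cons]

theorem pl_length (a n : ℕ) : (pl P C a n).length = n := by
  unfold pl
  rw [List.length_map, List.length_range']

theorem pl_append (a n m : ℕ) : pl P C a n ++ pl P C (a + n) m = pl P C a (n + m) := by
  unfold pl
  rw [← List.map_append, List.range'_append_1]

theorem pl_concat (a n : ℕ) : pl P C a (n + 1) = pl P C a n ++ [stp P C (a + n)] := by
  rw [← pl_append, pl_succ, pl_zero]

theorem mem_pl (a n : ℕ) (x : Step (Fin 2)) (hx : x ∈ pl P C a n) :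
    ∃ j : ℕ, a ≤ j ∧ j < a + n ∧ x.1 = C.w j := by
  unfold pl at hx
  rw [List.mem_map] at hx
  obtain ⟨j, hj, rfl⟩ := hx
  rw [List.mem_range'_1] at hj
  exact ⟨j, hj.1, hj.2, rfl⟩

theorem Qtot_pl (a n : ℕ) : Qtot (pl P C a n) = bq P C (a + n) - bq P C a := by
  induction n generalizing a with
  | zero =>
    rw [pl_zero, add_zero, sub_self]
    rfl
  | succ n ih =>
    rw [pl_succ, Qtot, ih, stp_mul]
    have h : a + 1 + n = a + (n + 1) := by ring
    rw [h]
    abel

theorem Gl_pl (a n : ℕ) :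
    Gl (pl P C a n) = ∑ j ∈ Finset.range n, C.w (a + j) * (bq P C (a + j + 1) - bq P C (a + j)) 0 1 := by
  induction n with
  | zero => simp [pl_zero, Gl]
  | succ n ih =>
    rw [pl_concat, CellsC_Gl_append, ih, Finset.sum_range_succ]
    congr 1
    unfold Gl
    rw [List.map_cons, List.map_nil, List.sum_cons, List.sum_nil, add_zero, stp_mul]
    rfl

theorem cpath_split (n : ℕ) (hn : n ≤ C.r + 2) :
    cpath P C = pl P C 0 n ++ pl P C n (C.r + 2 - n) := by
  unfold cpath
  have h := pl_append P C 0 n (C.r + 2 - n)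
  rw [zero_add] at h
  rw [h, Nat.add_sub_cancel' hn]

theorem cpath_take_eq (n : ℕ) (hn : n ≤ C.r + 2) : (cpath P C).take n = pl P C 0 n := by
  rw [cpath_split P C n hn]
  exact List.take_left' (pl_length P C 0 n)

theorem cpath_drop_eq (n : ℕ) (hn : n ≤ C.r + 2) :
    (cpath P C).drop n = pl P C n (C.r + 2 - n) := by
  rw [cpath_split P C n hn]
  exact List.drop_left' (pl_length P C 0 n)

theorem CellsC_length : (cpath P C).length = C.r + 2 := pl_length P C 0 _

theorem CellsC_valid : Valid (cpath P C) := by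
  refine ⟨?_, ?_, ?_⟩
  · unfold cpath pl
    rw [List.pairwise_map]
    refine List.Pairwise.imp ?_ (List.pairwise_lt_range' (s := 0) (n := C.r + 2) (step := 1) one_pos)
    intro a b hab
    exact w_mono C (le_of_lt hab)
  · intro a ha
    obtain ⟨j, _, _, hj⟩ := mem_pl P C 0 _ a ha
    rw [hj]
    exact ⟨w_nonneg C j, w_le_one C j⟩
  · refine ⟨pl P C 0 (C.r + 1), fac (bq P C (C.r + 1 + 1) - bq P C (C.r + 1)), ?_⟩
    unfold cpath
    rw [pl_concat P C 0 (C.r + 1), zero_add]
    unfold stp
    rw [w_ge C C.r le_rfl]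

theorem CellsC_Qtot : Qtot (cpath P C) = mat 1 1 u := by
  unfold cpath
  rw [Qtot_pl, zero_add, bq_top P C (C.r + 1) (Nat.lt_succ_self _), bq_zero, sub_zero]

theorem CellsC_take (j : ℕ) (hj : j ≤ C.r) : Qtot ((cpath P C).take (j + 1)) = P.Q (C.t j) := by
  rw [cpath_take_eq P C (j + 1) (by omega), Qtot_pl, zero_add, bq_rep P C j hj, bq_zero, sub_zero]

theorem CellsC_w (j : ℕ) (hj : j < C.r + 2) :
    ((cpath P C).map Prod.fst).getD j 0 = C.w j := by
  unfold cpath pl
  rw [List.map_map, List.getD_eq_getElem _ _ (by simpa using hj)]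
  simp

end SKC.H
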