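import Pool.Agent.H.MP_08eaf3_pr.H.CellsC

/-!
# Cells: the estimate of `Gl`
-/

set_option autoImplicit false

open MeasureTheory ProbabilityTheory Filter Topology Matrix

namespace SKC.H

theorem CellsD_tel (f : ℕ → ℝ) (p n : ℕ) :
    ∑ i ∈ Finset.range n, (if p ≤ i then f (i + 1) - f i else 0) = if p ≤ n then f n - f p else 0 := by
  induction n with
  | zero =>
    rw [Finset.range_zero, Finset.sum_empty]
    split_ifs with h
    · have : p = 0 := by omega
      rw [this, sub_self]
    · rfl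
  | succ n ih =>
    rw [Finset.sum_range_succ, ih]
    rcases lt_trichotomy p (n + 1) with h | h | h
    · rw [if_pos (by omega), if_pos (by omega), if_pos (by omega)]
      ring
    · rw [if_neg (by omega), if_neg (by omega), if_pos (by omega), h]
      ring
    · rw [if_neg (by omega), if_neg (by omega), if_neg (by omega), add_zero]

theorem idx_measurable {T : Set ℝ} {μ : Measure ℝ} {η : ℝ} (C : Cells T μ η) :
    Measurable C.idx :=
  Monotone.measurable (fun _ _ h => idx_mono C h)

theorem w_eq {T : Set ℝ} {μ : Measure ℝ} [IsProbabilityMeasure μ] {η : ℝ} (C : Cells T μ η) (j : ℕ)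
    (hj : j ≤ C.r) : C.w (j + 1) = μ.real {x | C.idx x ≤ j} := by
  rcases hj.eq_or_lt with h | h
  · have h1 : {x | C.idx x ≤ j} = Set.univ := by
      ext x
      simp only [Set.mem_setOf_eq, Set.mem_univ, iff_true]
      rw [h]
      exact CellsB_idx_le C x
    rw [h1, w_ge C j h.ge, probReal_univ]
  · rw [CellsB_w_succ C j h]
    congr 1
    ext x
    rw [Set.mem_Iio, Set.mem_setOf_eq, ← not_le, ← CellsB_lt_idx C x j h, not_lt]

variable {u : ℝ} (P : PData u) {η : ℝ} (C : Cells P.T P.μ η)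

include P C in
theorem eta_nonneg : 0 ≤ η := by
  obtain ⟨x, hx⟩ := P.ne
  exact (abs_nonneg _).trans (CellsB_near_idx C x hx)

theorem CellsD_Gl_eq (k : ℕ) (hk : k ≤ C.r) :
    Gl (pl P C (k + 1) (C.r + 1 - k)) = ∫ x, (u - bq P C (max k (C.idx x) + 1) 0 1) ∂P.μ := by
  have hmeas : ∀ i : ℕ, MeasurableSet {x | C.idx x ≤ k + i} := fun i =>
    measurableSet_le (idx_measurable C) measurable_const
  have h1 : ∀ x : ℝ, u - bq P C (max k (C.idx x) + 1) 0 1 =
      ∑ i ∈ Finset.range (C.r + 1 - k),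
        (if C.idx x ≤ k + i then (bq P C (k + 1 + i + 1) - bq P C (k + 1 + i)) 0 1 else 0) := by
    intro x
    have h2 := CellsD_tel (fun i => bq P C (k + 1 + i) 0 1) (C.idx x - k) (C.r + 1 - k)
    have h3 : C.idx x ≤ C.r := CellsB_idx_le C x
    rw [if_pos (by omega)] at h2
    have h4 : k + 1 + (C.r + 1 - k) = C.r + 1 + 1 := by omega
    have h5 : k + 1 + (C.idx x - k) = max k (C.idx x) + 1 := by omega
    have h6 : bq P C (k + 1 + (C.r + 1 - k)) 0 1 = u := by
      rw [h4, bq_top P C (C.r + 1) (by omega)]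
      rfl
    rw [h5, h6] at h2
    rw [← h2]
    apply Finset.sum_congr rfl
    intro i _
    have h7 : (C.idx x - k ≤ i) ↔ (C.idx x ≤ k + i) := by omega
    rw [Matrix.sub_apply]
    by_cases h8 : C.idx x ≤ k + i
    · rw [if_pos (h7.2 h8), if_pos h8]
      rfl
    · rw [if_neg (fun h => h8 (h7.1 h)), if_neg h8]
  simp_rw [h1]
  rw [integral_finset_sum]
  · rw [Gl_pl]
    apply Finset.sum_congr rfl
    intro i hi
    rw [Finset.mem_range] at hi
    have h9 : (fun x => if C.idx x ≤ k + i then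
        (bq P C (k + 1 + i + 1) - bq P C (k + 1 + i)) 0 1 else 0) =
        Set.indicator {x | C.idx x ≤ k + i}
          (fun _ => (bq P C (k + 1 + i + 1) - bq P C (k + 1 + i)) 0 1) := by
      funext x
      rw [Set.indicator_apply]
      rfl
    rw [h9, integral_indicator_const _ (hmeas i), smul_eq_mul]
    have h10 : k + 1 + i = k + i + 1 := by ring
    rw [h10, w_eq C (k + i) (by omega)]
  · intro i _
    have h9 : (fun x => if C.idx x ≤ k + i then
        (bq P C (k + 1 + i + 1) - bq P C (k + 1 + i)) 0 1 else 0) =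
        Set.indicator {x | C.idx x ≤ k + i}
          (fun _ => (bq P C (k + 1 + i + 1) - bq P C (k + 1 + i)) 0 1) := by
      funext x
      rw [Set.indicator_apply]
      rfl
    rw [h9]
    exact (integrable_const _).indicator (hmeas i)

theorem ae_mem_T : ∀ᵐ x ∂P.μ, x ∈ P.T := by
  rw [ae_iff]
  exact P.supp1

theorem max_mem {s x : ℝ} (hs : s ∈ P.T) (hx : x ∈ P.T) : max s x ∈ P.T := by
  rcases le_total s x with h | h
  · rwa [max_eq_right h]
  · rwa [max_eq_left h]

theorem CellsD_int1 (s : ℝ) (hs : s ∈ P.T) :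
    Integrable (fun x => u - P.Q (max s x) 0 1) P.μ := by
  have hT : MeasurableSet P.T := P.comp.measurableSet
  have hr : P.μ.restrict P.T = P.μ := Measure.restrict_eq_self_of_ae_mem (ae_mem_T P)
  have hc : ContinuousOn (fun x => u - P.Q (max s x) 0 1) P.T := by
    have hl : LipschitzOnWith 1 (fun x => u - P.Q (max s x) 0 1) P.T := by
      apply LipschitzOnWith.of_dist_le_mul
      intro x hx y hy
      rw [NNReal.coe_one, one_mul, Real.dist_eq, Real.dist_eq]
      have h1 := CellsA_lip P (max s y) (max s x) (max_mem P hs hy) (max_mem P hs hx) 0 1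
      have h2 : |max s x - max s y| ≤ |x - y| := by
        have := abs_max_sub_max_le_abs x y s
        rwa [max_comm x s, max_comm y s] at this
      have h3 : u - P.Q (max s x) 0 1 - (u - P.Q (max s y) 0 1) =
          -(P.Q (max s x) 0 1 - P.Q (max s y) 0 1) := by ring
      rw [h3, abs_neg]
      exact h1.trans h2
    exact hl.continuousOn
  have hm : AEStronglyMeasurable (fun x => u - P.Q (max s x) 0 1) P.μ := by
    rw [← hr]
    exact hc.aestronglyMeasurable hT
  refine Integrable.of_bound hm (|u| + 2) ?_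
  filter_upwards [ae_mem_T P] with x hx
  have h1 := CellsA_entry (P.psd _ (max_mem P hs hx)) 0 1
  rw [P.tr _ (max_mem P hs hx)] at h1
  have h2 := (P.sub (max_mem P hs hx)).2
  rw [Real.norm_eq_abs]
  calc |u - P.Q (max s x) 0 1| ≤ |u| + |P.Q (max s x) 0 1| := abs_sub _ _
    _ ≤ |u| + 2 := by linarith

theorem CellsD_int2 (k : ℕ) (hk : k ≤ C.r) :
    Integrable (fun x => u - bq P C (max k (C.idx x) + 1) 0 1) P.μ := by
  have hm : Measurable (fun x => u - bq P C (max k (C.idx x) + 1) 0 1) := by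
    have h1 : Measurable (fun n : ℕ => u - bq P C (max k n + 1) 0 1) := measurable_from_nat
    exact h1.comp (idx_measurable C)
  refine Integrable.of_bound hm.aestronglyMeasurable (|u| + 2) ?_
  filter_upwards with x
  have h0 : max k (C.idx x) ≤ C.r := max_le hk (CellsB_idx_le C x)
  rw [bq_rep P C _ h0]
  have h1 := CellsA_entry (P.psd _ (C.mem _ h0)) 0 1
  rw [P.tr _ (C.mem _ h0)] at h1
  have h2 := (P.sub (C.mem _ h0)).2
  rw [Real.norm_eq_abs]
  calc |u - P.Q (C.t (max k (C.idx x))) 0 1| ≤ |u| + |P.Q (C.t (max k (C.idx x))) 0 1| := abs_sub _ _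
    _ ≤ |u| + 2 := by linarith

theorem CellsD_pt (k : ℕ) (hk : k ≤ C.r) (x : ℝ) (hx : x ∈ P.T) :
    |max (C.t k) x - C.t (max k (C.idx x))| ≤ η := by
  rcases lt_trichotomy (C.idx x) k with h | h | h
  · rw [max_eq_left (idx_lt_imp C x k hk h).le, max_eq_left h.le, sub_self, abs_zero]
    exact eta_nonneg P C
  · rw [h, max_self]
    have h1 := CellsB_near_idx C x hx
    rw [h] at h1
    rcases le_total (C.t k) x with h2 | h2
    · rw [max_eq_right h2]
      exact h1
    · rw [max_eq_left h2, sub_self, abs_zero]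
      exact eta_nonneg P C
  · rw [max_eq_right (lt_idx_imp C x k h).le, max_eq_right h.le]
    exact CellsB_near_idx C x hx

theorem CellsD_Gl (k : ℕ) (hk : k ≤ C.r) :
    |Gl (pl P C (k + 1) (C.r + 1 - k)) - ∫ x, (u - P.Q (max (C.t k) x) 0 1) ∂P.μ| ≤ η := by
  rw [CellsD_Gl_eq P C k hk, ← integral_sub (CellsD_int2 P C k hk)
    (CellsD_int1 P (C.t k) (C.mem k hk))]
  have h1 : ‖∫ x, ((u - bq P C (max k (C.idx x) + 1) 0 1) -
      (u - P.Q (max (C.t k) x) 0 1)) ∂P.μ‖ ≤ η * P.μ.real Set.univ := by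
    apply norm_integral_le_of_norm_le_const
    filter_upwards [ae_mem_T P] with x hx
    have h0 : max k (C.idx x) ≤ C.r := max_le hk (CellsB_idx_le C x)
    rw [bq_rep P C _ h0, Real.norm_eq_abs]
    have h2 := CellsA_lip P _ _ (C.mem _ h0) (max_mem P (C.mem k hk) hx) 0 1
    have h3 : u - P.Q (C.t (max k (C.idx x))) 0 1 - (u - P.Q (max (C.t k) x) 0 1) =
        P.Q (max (C.t k) x) 0 1 - P.Q (C.t (max k (C.idx x))) 0 1 := by ring
    rw [h3]
    exact h2.trans (CellsD_pt P C k hk x hx)
  rw [probReal_univ, mul_one, Real.norm_eq_abs] at h1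
  exact h1

end SKC.H
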