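import Pool.Agent.H.MP_08eaf3_pr.Defs2

/-!
# Cells (definitions): path data, cells, the path of a cell structure

`PData u` = the deterministic data of Theorem L (support `T` of the traces, matrices `Q t`, law `μ`).
`Cells T μ η` = representatives `t 0 < ... < t r` in `T` separated by thresholds `c 0 < ... < c (r-1)`
(`t j < c j < t (j+1)`) that are no atoms of `μ`, such that every point of `T` is at distance at most
`η` from the representative of its cell.
The path of a cell structure has `r + 2` steps: step `0` = (weight `0`, from `0` to `Q (t 0)`),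
step `j + 1` = (weight `μ (Iio (c j))`, from `Q (t j)` to `Q (t (j+1))`) for `j < r`,
step `r + 1` = (weight `1`, from `Q (t r)` to `D_u`).
-/

set_option autoImplicit false

open MeasureTheory ProbabilityTheory Filter Topology Matrix

namespace SKC.H

/-- the deterministic data of Theorem L -/
structure PData (u : ℝ) where
  T : Set ℝ
  Q : ℝ → Matrix (Fin 2) (Fin 2) ℝ
  μ : Measure ℝ
  prob : IsProbabilityMeasure μ
  comp : IsCompact T
  ne : T.Nonempty
  sub : T ⊆ Set.Icc 0 2
  supp1 : μ Tᶜ = 0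
  supp2 : ∀ t ∈ T, ∀ ε : ℝ, 0 < ε → 0 < μ (Set.Ioo (t - ε) (t + ε))
  psd : ∀ t ∈ T, (Q t).PosSemidef
  tr : ∀ t ∈ T, Matrix.trace (Q t) = t
  leD : ∀ t ∈ T, (mat 1 1 u - Q t).PosSemidef
  mono : ∀ s ∈ T, ∀ t ∈ T, s ≤ t → (Q t - Q s).PosSemidef

instance {u : ℝ} (P : PData u) : IsProbabilityMeasure P.μ := P.prob

/-- cell structures of mesh `η` -/
structure Cells (T : Set ℝ) (μ : Measure ℝ) (η : ℝ) where
  /-- number of thresholds -/
  r : ℕ
  /-- representatives -/
  t : ℕ → ℝ
  /-- thresholds -/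
  c : ℕ → ℝ
  mem : ∀ j : ℕ, j ≤ r → t j ∈ T
  lo : ∀ j : ℕ, j < r → t j < c j
  hi : ∀ j : ℕ, j < r → c j < t (j + 1)
  null : ∀ j : ℕ, j < r → μ {c j} = 0
  near : ∀ x ∈ T, ∀ j : ℕ, j ≤ r → (∀ i : ℕ, i < j → c i ≤ x) → (∀ i : ℕ, j ≤ i → i < r → x < c i) →
    |x - t j| ≤ η

/-- index of the cell of `x`: number of thresholds `≤ x` -/
noncomputable def Cells.idx {T : Set ℝ} {μ : Measure ℝ} {η : ℝ} (C : Cells T μ η) (x : ℝ) : ℕ := by
  classical
  exact ((Finset.range C.r).filter (fun i => C.c i ≤ x)).card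

/-- weights of the path -/
noncomputable def Cells.w {T : Set ℝ} {μ : Measure ℝ} {η : ℝ} (C : Cells T μ η) : ℕ → ℝ
  | 0 => 0
  | j + 1 => if j < C.r then μ.real (Set.Iio (C.c j)) else 1

/-- value of the path before step `j` -/
noncomputable def bq {u : ℝ} (P : PData u) {η : ℝ} (C : Cells P.T P.μ η) : ℕ → Matrix (Fin 2) (Fin 2) ℝ
  | 0 => 0
  | j + 1 => if j ≤ C.r then P.Q (C.t j) else mat 1 1 u

/-- a factor of a positive semidefinite matrix: `fac M * (fac M)ᵀ = M` -/
noncomputable def fac (M : Matrix (Fin 2) (Fin 2) ℝ) : Matrix (Fin 2) (Fin 2) ℝ := by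
  classical
  exact if h : ∃ E : Matrix (Fin 2) (Fin 2) ℝ, E * Eᵀ = M then h.choose else 0

/-- the steps `a, a+1, ..., a+n-1` of the path -/
noncomputable def pl {u : ℝ} (P : PData u) {η : ℝ} (C : Cells P.T P.μ η) (a n : ℕ) : List (Step (Fin 2)) :=
  (List.range' a n).map (fun j => (C.w j, fac (bq P C (j + 1) - bq P C j)))

/-- the path of a cell structure -/
noncomputable def cpath {u : ℝ} (P : PData u) {η : ℝ} (C : Cells P.T P.μ η) : List (Step (Fin 2)) :=
  pl P C 0 (C.r + 2)

end SKC.H
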