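import Pool.Agent.H.MP_08eaf3_pr.H.CellsD

/-!
# Cells: splitting the path at two representatives
-/

set_option autoImplicit false

open MeasureTheory ProbabilityTheory Filter Topology Matrix

namespace SKC.H

theorem CellsE_wA {T : Set ℝ} {μ : Measure ℝ} [IsProbabilityMeasure μ] {η : ℝ} (C : Cells T μ η)
    (k : ℕ) (hk : k ≤ C.r) : C.w k ≤ μ.real (Set.Iio (C.t k)) := by
  cases k with
  | zero => exact measureReal_nonneg
  | succ k =>
    rw [CellsB_w_succ C k (by omega)]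
    exact measureReal_mono (Set.Iio_subset_Iio (C.hi k (by omega)).le) (measure_ne_top μ _)

theorem CellsE_wB {T : Set ℝ} {μ : Measure ℝ} [IsProbabilityMeasure μ] {η : ℝ} (C : Cells T μ η)
    (k : ℕ) (hk : k ≤ C.r) : μ.real (Set.Iic (C.t k)) ≤ C.w (k + 1) := by
  rcases hk.eq_or_lt with h | h
  · rw [w_ge C k h.ge]
    exact measureReal_le_one
  · rw [CellsB_w_succ C k h]
    exact measureReal_mono (Set.Iic_subset_Iio.2 (C.lo k h)) (measure_ne_top μ _)

variable {u : ℝ} (P : PData u) {η : ℝ} (C : Cells P.T P.μ η)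

theorem CellsE_split (k k' : ℕ) (hk : k ≤ k')
    (hk' : k' ≤ C.r) : ∃ l1 l2 l3 : List (Step (Fin 2)),
    cpath P C = l1 ++ (l2 ++ l3) ∧ Valid (l1 ++ (l2 ++ l3)) ∧ l3 ≠ [] ∧ Qtot l1 = P.Q (C.t k) ∧
    Qtot (l1 ++ l2) = P.Q (C.t k') ∧ Qtot (l1 ++ (l2 ++ l3)) = mat 1 1 u ∧
    (∀ a ∈ l1, a.1 ≤ P.μ.real (Set.Iio (C.t k))) ∧
    (∀ a ∈ l2, P.μ.real (Set.Iic (C.t k)) ≤ a.1 ∧ a.1 ≤ P.μ.real (Set.Iio (C.t k'))) ∧
    (∀ a ∈ l3, P.μ.real (Set.Iic (C.t k')) ≤ a.1) ∧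
    (∀ l' l'' : List (Step (Fin 2)), l1 ++ (l2 ++ l3) = l' ++ l'' → l' ≠ [] → l'' ≠ [] →
      ∃ x ∈ P.T, Qtot l' = P.Q x) ∧
    |Gl (l2 ++ l3) - ∫ x, (u - P.Q (max (C.t k) x) 0 1) ∂P.μ| ≤ η ∧
    |Gl l3 - ∫ x, (u - P.Q (max (C.t k') x) 0 1) ∂P.μ| ≤ η ∧
    (k = k' → l2 = []) ∧
    (C.t k = 0 → l1 = [((0 : ℝ), 0)]) ∧
    ((∀ x ∈ P.T, x ≤ C.t k') → ∃ E, l3 = [((1 : ℝ), E)]) := by
  have e23 : pl P C (k + 1) (k' - k) ++ pl P C (k' + 1) (C.r + 1 - k') =
      pl P C (k + 1) (C.r + 1 - k) := by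
    have h := pl_append P C (k + 1) (k' - k) (C.r + 1 - k')
    have h1 : k + 1 + (k' - k) = k' + 1 := by omega
    have h2 : k' - k + (C.r + 1 - k') = C.r + 1 - k := by omega
    rwa [h1, h2] at h
  have e123 : pl P C 0 (k + 1) ++ (pl P C (k + 1) (k' - k) ++ pl P C (k' + 1) (C.r + 1 - k')) =
      cpath P C := by
    rw [e23]
    have h := pl_append P C 0 (k + 1) (C.r + 1 - k)
    have h2 : k + 1 + (C.r + 1 - k) = C.r + 2 := by omega
    rwa [zero_add, h2] at h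
  have e12 : pl P C 0 (k + 1) ++ pl P C (k + 1) (k' - k) = pl P C 0 (k' + 1) := by
    have h := pl_append P C 0 (k + 1) (k' - k)
    have h2 : k + 1 + (k' - k) = k' + 1 := by omega
    rwa [zero_add, h2] at h
  refine ⟨pl P C 0 (k + 1), pl P C (k + 1) (k' - k), pl P C (k' + 1) (C.r + 1 - k'), e123.symm,
    ?_, ?_, ?_, ?_, ?_, ?_, ?_, ?_, ?_, ?_, ?_, ?_, ?_, ?_⟩
  · rw [e123]
    exact CellsC_valid P C
  · intro h
    have h1 := congrArg List.length h
    rw [pl_length, List.length_nil] at h1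
    omega
  · rw [Qtot_pl, zero_add, bq_rep P C k (by omega), bq_zero, sub_zero]
  · rw [e12, Qtot_pl, zero_add, bq_rep P C k' hk', bq_zero, sub_zero]
  · rw [e123]
    exact CellsC_Qtot P C
  · intro a ha
    obtain ⟨j, _, hj, hw⟩ := mem_pl P C _ _ a ha
    rw [hw]
    exact (w_mono C (by omega : j ≤ k)).trans (CellsE_wA C k (by omega))
  · intro a ha
    obtain ⟨j, hj1, hj2, hw⟩ := mem_pl P C _ _ a ha
    rw [hw]
    exact ⟨(CellsE_wB C k (by omega)).trans (w_mono C hj1),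
      (w_mono C (by omega : j ≤ k')).trans (CellsE_wA C k' hk')⟩
  · intro a ha
    obtain ⟨j, hj1, hj2, hw⟩ := mem_pl P C _ _ a ha
    rw [hw]
    exact (CellsE_wB C k' hk').trans (w_mono C hj1)
  · intro l' l'' h h' h''
    rw [e123] at h
    have h1 : l' = (cpath P C).take l'.length := by
      rw [h, List.take_left]
    have h2 : l'.length + l''.length = C.r + 2 := by
      rw [← List.length_append, ← h, CellsC_length]
    have h3 : 0 < l'.length := List.length_pos_iff.2 h'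
    have h4 : 0 < l''.length := List.length_pos_iff.2 h''
    obtain ⟨m, hm⟩ : ∃ m, l'.length = m + 1 := ⟨l'.length - 1, by omega⟩
    refine ⟨C.t m, C.mem m (by omega), ?_⟩
    rw [h1, hm]
    exact CellsC_take P C m (by omega)
  · rw [e23]
    exact CellsD_Gl P C k (by omega)
  · exact CellsD_Gl P C k' hk'
  · intro h
    rw [h, Nat.sub_self, pl_zero]
  · intro h
    have hk0 : k = 0 := by
      by_contra hcon
      have h1 := t_lt_t C (Nat.pos_of_ne_zero hcon) (by omega : k ≤ C.r)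
      have h2 := (P.sub (C.mem 0 (Nat.zero_le _))).1
      linarith
    subst hk0
    rw [zero_add, pl_succ, pl_zero]
    unfold stp
    rw [zero_add, bq_rep P C 0 (Nat.zero_le _), bq_zero, sub_zero, h]
    have h0 : (0 : ℝ) ∈ P.T := by
      rw [← h]
      exact C.mem 0 (Nat.zero_le _)
    rw [CellsA_Q_zero P h0, fac_zero]
    rfl
  · intro h
    have hk0 : k' = C.r := by
      by_contra hcon
      have h1 := t_lt_t C (by omega : k' < C.r) le_rfl
      have h2 := h _ (C.mem C.r le_rfl)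
      linarith
    refine ⟨fac (bq P C (C.r + 1 + 1) - bq P C (C.r + 1)), ?_⟩
    rw [hk0, Nat.add_sub_cancel_left, pl_succ, pl_zero]
    unfold stp
    rw [w_ge C C.r le_rfl]

end SKC.H
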