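import Mathlib

/-!
# Cells: a grid of points that are not atoms
-/

set_option autoImplicit false

open MeasureTheory ProbabilityTheory Filter Topology Matrix

namespace SKC.H

theorem CellsF_atoms (μ : Measure ℝ) [IsProbabilityMeasure μ] : {x : ℝ | μ {x} ≠ 0}.Countable := by
  have h := Measure.countable_meas_level_set_pos (μ := μ) (g := fun x : ℝ => x) measurable_id
  refine h.mono ?_
  intro x hx
  exact pos_iff_ne_zero.2 hx

theorem CellsF_between (μ : Measure ℝ) [IsProbabilityMeasure μ] (s t a b : ℝ) (hab : a < b) :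
    ∃ x : ℝ, a < x ∧ x < b ∧ μ {x} = 0 ∧ x ≠ s ∧ x ≠ t := by
  have h1 : ({x : ℝ | μ {x} ≠ 0} ∪ {s, t}).Countable :=
    (CellsF_atoms μ).union ((Set.countable_singleton t).insert s)
  obtain ⟨x, hx1, hx2⟩ := (h1.dense_compl ℝ).exists_between hab
  rw [Set.mem_compl_iff, Set.mem_union, not_or] at hx1
  refine ⟨x, hx2.1, hx2.2, ?_, ?_, ?_⟩
  · by_contra hcon
    exact hx1.1 hcon
  · intro h
    exact hx1.2 (by simp [h])
  · intro h
    exact hx1.2 (by simp [h])

/-- a grid of non-atoms with mesh at most `η`, avoiding `s` and `t`, separating them if `s < t` -/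
theorem CellsF_grid (μ : Measure ℝ) [IsProbabilityMeasure μ] {η : ℝ} (hη : 0 < η) (s t : ℝ)
    (hs : 0 ≤ s) : ∃ g : ℕ → ℝ, StrictMono g ∧ g 0 < 0 ∧ (∃ n, 2 < g n) ∧
      (∀ i, g (i + 1) - g i ≤ η) ∧ (∀ i, μ {g i} = 0) ∧ (∀ i, g i ≠ s) ∧ (∀ i, g i ≠ t) ∧
      (s < t → ∃ i, s < g i ∧ g i < t) := by
  obtain ⟨h, hh0, hh1, hh2⟩ : ∃ h : ℝ, 0 < h ∧ h ≤ η / 2 ∧ (s < t → h ≤ (t - s) / 2) := by
    by_cases hst : s < t
    · exact ⟨min (η / 2) ((t - s) / 2), lt_min (by linarith) (by linarith), min_le_left _ _,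
        fun _ => min_le_right _ _⟩
    · exact ⟨η / 2, by linarith, le_rfl, fun h => absurd h hst⟩
  have hex : ∀ i : ℕ, ∃ x : ℝ, h * i - h < x ∧ x < h * i - h / 2 ∧ μ {x} = 0 ∧ x ≠ s ∧ x ≠ t :=
    fun i => CellsF_between μ s t _ _ (by linarith)
  choose g hg1 hg2 hg3 hg4 hg5 using hex
  refine ⟨g, ?_, ?_, ?_, ?_, hg3, hg4, hg5, ?_⟩
  · apply strictMono_nat_of_lt_succ
    intro i
    have h1 := hg2 i
    have h2 := hg1 (i + 1)
    push_cast at h2
    linarith
  · have h1 := hg2 0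
    rw [Nat.cast_zero, mul_zero] at h1
    linarith
  · obtain ⟨n, hn⟩ := exists_nat_gt ((2 + h) / h)
    refine ⟨n, ?_⟩
    have h1 := hg1 n
    rw [div_lt_iff₀ hh0] at hn
    linarith
  · intro i
    have h1 := hg1 i
    have h2 := hg2 (i + 1)
    push_cast at h2
    linarith
  · intro hst
    have hh3 := hh2 hst
    refine ⟨⌊s / h⌋₊ + 2, ?_, ?_⟩
    · have h1 := hg1 (⌊s / h⌋₊ + 2)
      have h2 := Nat.lt_floor_add_one (s / h)
      rw [div_lt_iff₀ hh0] at h2
      push_cast at h1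
      linarith
    · have h1 := hg2 (⌊s / h⌋₊ + 2)
      have h2 := Nat.floor_le (div_nonneg hs hh0.le)
      rw [le_div_iff₀ hh0] at h2
      push_cast at h1
      linarith

end SKC.H
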