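import Pool.Agent.H.MP_08eaf3_pr.H.CellsE
import Pool.Agent.H.MP_08eaf3_pr.H.CellsF

/-!
# Cells: existence
-/

set_option autoImplicit false

open MeasureTheory ProbabilityTheory Filter Topology Matrix

namespace SKC.H

theorem CellsG_bracket (g : ℕ → ℝ) (N : ℕ) (x : ℝ) (h0 : g 0 ≤ x) (h1 : x < g N) :
    ∃ a : ℕ, a < N ∧ g a ≤ x ∧ x < g (a + 1) := by
  classical
  have hex : ∃ m, x < g m := ⟨N, h1⟩
  obtain ⟨m, hm⟩ : ∃ m, m = Nat.find hex := ⟨_, rfl⟩
  have hm1 : x < g m := by
    rw [hm]
    exact Nat.find_spec hex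
  have hm2 : m ≤ N := by
    rw [hm]
    exact Nat.find_min' hex h1
  have hm0 : m ≠ 0 := by
    intro h
    rw [h] at hm1
    exact absurd h0 (not_le.2 hm1)
  obtain ⟨a, rfl⟩ : ∃ a, m = a + 1 := ⟨m - 1, by omega⟩
  refine ⟨a, by omega, ?_, hm1⟩
  by_contra hcon
  have := Nat.find_min' hex (not_le.1 hcon)
  omega

theorem CellsG_exists {u : ℝ} (P : PData u) {η : ℝ} (hη : 0 < η) (s t : ℝ) (hs : s ∈ P.T)
    (ht : t ∈ P.T) (hst : s ≤ t) : ∃ (C : Cells P.T P.μ η) (k k' : ℕ), k ≤ k' ∧ k' ≤ C.r ∧
      C.t k = s ∧ C.t k' = t ∧ (s = t → k = k') := by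
  classical
  obtain ⟨g, hg, hg0, ⟨N, hN⟩, hmesh, hnull, hgs, hgt, hsep⟩ :=
    CellsF_grid P.μ hη s t (P.sub hs).1
  obtain ⟨J, hJ⟩ : ∃ J : Finset ℕ, J = (Finset.range N).filter
    (fun i => (P.T ∩ Set.Ioo (g i) (g (i + 1))).Nonempty) := ⟨_, rfl⟩
  have hJmem : ∀ i, i ∈ J ↔ i < N ∧ (P.T ∩ Set.Ioo (g i) (g (i + 1))).Nonempty := by
    intro i
    rw [hJ, Finset.mem_filter, Finset.mem_range]
  have hbr : ∀ x ∈ P.T, ∃ a : ℕ, a < N ∧ g a ≤ x ∧ x < g (a + 1) := fun x hx =>
    CellsG_bracket g N x (by linarith [(P.sub hx).1]) (by linarith [(P.sub hx).2])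
  have hbr' : ∀ x ∈ P.T, (∀ i, g i ≠ x) → ∃ a ∈ J, g a < x ∧ x < g (a + 1) := by
    intro x hx hne
    obtain ⟨a, ha, h1, h2⟩ := hbr x hx
    have h3 : g a < x := lt_of_le_of_ne h1 (hne a)
    exact ⟨a, (hJmem a).2 ⟨ha, x, hx, h3, h2⟩, h3, h2⟩
  -- representatives
  obtain ⟨rep, hrep1, hrep2, hrep3⟩ : ∃ rep : ℕ → ℝ,
      (∀ i ∈ J, rep i ∈ P.T ∧ g i < rep i ∧ rep i < g (i + 1)) ∧
      (∀ i ∈ J, g i < s → s < g (i + 1) → rep i = s) ∧
      (∀ i ∈ J, g i < t → t < g (i + 1) → rep i = t) := by
    refine ⟨fun i => if g i < s ∧ s < g (i + 1) then s else if g i < t ∧ t < g (i + 1) then t else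
      if h : (P.T ∩ Set.Ioo (g i) (g (i + 1))).Nonempty then h.some else 0, ?_, ?_, ?_⟩
    · intro i hi
      show (if g i < s ∧ s < g (i + 1) then s else if g i < t ∧ t < g (i + 1) then t else
        if h : (P.T ∩ Set.Ioo (g i) (g (i + 1))).Nonempty then h.some else 0) ∈ P.T ∧
        g i < (if g i < s ∧ s < g (i + 1) then s else if g i < t ∧ t < g (i + 1) then t else
        if h : (P.T ∩ Set.Ioo (g i) (g (i + 1))).Nonempty then h.some else 0) ∧
        (if g i < s ∧ s < g (i + 1) then s else if g i < t ∧ t < g (i + 1) then t else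
        if h : (P.T ∩ Set.Ioo (g i) (g (i + 1))).Nonempty then h.some else 0) < g (i + 1)
      by_cases h1 : g i < s ∧ s < g (i + 1)
      · rw [if_pos h1]
        exact ⟨hs, h1.1, h1.2⟩
      · rw [if_neg h1]
        by_cases h2 : g i < t ∧ t < g (i + 1)
        · rw [if_pos h2]
          exact ⟨ht, h2.1, h2.2⟩
        · rw [if_neg h2, dif_pos ((hJmem i).1 hi).2]
          have h3 := ((hJmem i).1 hi).2.some_mem
          exact ⟨h3.1, h3.2.1, h3.2.2⟩
    · intro i _ h1 h2
      exact if_pos ⟨h1, h2⟩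
    · intro i _ h1 h2
      by_cases h3 : g i < s ∧ s < g (i + 1)
      · have h4 : s = t := by
          by_contra hne
          obtain ⟨m, hm1, hm2⟩ := hsep (lt_of_le_of_ne hst hne)
          have h5 : i < m := hg.lt_iff_lt.1 (h3.1.trans hm1)
          have h6 : m < i + 1 := hg.lt_iff_lt.1 (hm2.trans h2)
          omega
        rw [← h4]
        exact if_pos h3
      · show (if g i < s ∧ s < g (i + 1) then s else if g i < t ∧ t < g (i + 1) then t else
          if h : (P.T ∩ Set.Ioo (g i) (g (i + 1))).Nonempty then h.some else 0) = t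
        rw [if_neg h3, if_pos ⟨h1, h2⟩]
  obtain ⟨as, has, has1, has2⟩ := hbr' s hs hgs
  obtain ⟨at', hat, hat1, hat2⟩ := hbr' t ht hgt
  have hq : 0 < J.card := Finset.card_pos.2 ⟨as, has⟩
  obtain ⟨e, he1, he2, he3⟩ : ∃ e : ℕ → ℕ, (∀ j < J.card, e j ∈ J) ∧
      (∀ i j, i < j → j < J.card → e i < e j) ∧ (∀ a ∈ J, ∃ j < J.card, e j = a) := by
    refine ⟨fun j => if h : j < J.card then J.orderEmbOfFin rfl ⟨j, h⟩ else 0, ?_, ?_, ?_⟩
    · intro j hj
      show (if h : j < J.card then J.orderEmbOfFin rfl ⟨j, h⟩ else 0) ∈ J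
      rw [dif_pos hj]
      exact Finset.orderEmbOfFin_mem J rfl _
    · intro i j hij hj
      show (if h : i < J.card then J.orderEmbOfFin rfl ⟨i, h⟩ else 0) <
        (if h : j < J.card then J.orderEmbOfFin rfl ⟨j, h⟩ else 0)
      rw [dif_pos hj, dif_pos (hij.trans hj)]
      exact (J.orderEmbOfFin rfl).lt_iff_lt.2 hij
    · intro a ha
      have h1 : a ∈ Set.range (J.orderEmbOfFin rfl) := by
        rw [Finset.range_orderEmbOfFin]
        exact ha
      obtain ⟨j, hj⟩ := h1
      refine ⟨j, j.2, ?_⟩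
      show (if h : (j : ℕ) < J.card then J.orderEmbOfFin rfl ⟨j, h⟩ else 0) = a
      rw [dif_pos j.2, ← hj]
  have hei : ∀ i j, i < J.card → j < J.card → e i = e j → i = j := by
    intro i j hi hj hij
    rcases lt_trichotomy i j with h | h | h
    · have := he2 i j h hj
      omega
    · exact h
    · have := he2 j i h hi
      omega
  have hele : ∀ i j, i ≤ j → j < J.card → e i ≤ e j := by
    intro i j hij hj
    rcases hij.eq_or_lt with h | h
    · rw [h]
    · exact (he2 i j h hj).le
  have hele' : ∀ i j, i < J.card → j < J.card → e i ≤ e j → i ≤ j := by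
    intro i j hi hj hij
    by_contra hcon
    have := he2 j i (not_le.1 hcon) hi
    omega
  -- the near property
  have hnear : ∀ x ∈ P.T, ∀ j : ℕ, j ≤ J.card - 1 → (∀ i : ℕ, i < j → g (e (i + 1)) ≤ x) →
      (∀ i : ℕ, j ≤ i → i < J.card - 1 → x < g (e (i + 1))) → |x - rep (e j)| ≤ η := by
    intro x hx j hj h1 h2
    have hj' : j < J.card := by omega
    obtain ⟨a, ha, hxa1, hxa2⟩ := hbr x hx
    -- any `b ∈ J` with `b ≤ a` and no element of `J` in `(b, a]` is `e j`
    have huniq : ∀ b ∈ J, b ≤ a → (∀ i ∈ J, i ≤ a → i ≤ b) → b = e j := by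
      intro b hb hba hmax
      obtain ⟨m, hm, rfl⟩ := he3 b hb
      have h3 : m ≤ j := by
        by_contra hcon
        have h4 := h2 (m - 1) (by omega) (by omega)
        have h5 : m - 1 + 1 = m := by omega
        rw [h5] at h4
        have h6 : g (e m) ≤ g a := hg.monotone hba
        linarith
      have h7 : e j ≤ a := by
        rcases Nat.eq_zero_or_pos j with h0 | h0
        · have h8 : m = 0 := by omega
          rw [h0, ← h8]
          exact hba
        · have h4 := h1 (j - 1) (by omega)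
          have h5 : j - 1 + 1 = j := by omega
          rw [h5] at h4
          have h6 : e j < a + 1 := hg.lt_iff_lt.1 (lt_of_le_of_lt h4 hxa2)
          omega
      have h8 := hmax (e j) (he1 j hj') h7
      have h9 := hele' j m hj' hm h8
      have h10 : m = j := by omega
      rw [h10]
    by_cases haJ : a ∈ J
    · have h3 := huniq a haJ le_rfl (fun i _ hi => hi)
      rw [← h3]
      obtain ⟨_, h4, h5⟩ := hrep1 a haJ
      have h6 := hmesh a
      rw [abs_le]
      constructor <;> linarith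
    · have hxa : x = g a := by
        by_contra hne
        exact haJ ((hJmem a).2 ⟨ha, x, hx, lt_of_le_of_ne hxa1 (Ne.symm hne), hxa2⟩)
      -- the interval to the left of `a` meets `T`
      have ha0 : a ≠ 0 := by
        intro h
        rw [h] at hxa
        have := (P.sub hx).1
        linarith
      obtain ⟨b, hb⟩ : ∃ b, a = b + 1 := ⟨a - 1, by omega⟩
      have hbJ : b ∈ J := by
        refine (hJmem b).2 ⟨by omega, ?_⟩
        by_contra hemp
        have hgb : g b < g a := hg (by omega)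
        have hga : g a < g (a + 1) := hg (by omega)
        obtain ⟨ε, hε0, hε1, hε2⟩ : ∃ ε : ℝ, 0 < ε ∧ ε ≤ g a - g b ∧ ε ≤ g (a + 1) - g a :=
          ⟨min (g a - g b) (g (a + 1) - g a), lt_min (by linarith) (by linarith),
            min_le_left _ _, min_le_right _ _⟩
        have h3 := P.supp2 x hx ε hε0
        have h4 : P.μ (Set.Ioo (x - ε) (x + ε)) ≤ P.μ (P.Tᶜ ∪ {g a}) := by
          apply measure_mono
          intro y hy
          rw [Set.mem_union]
          by_cases hyT : y ∈ P.T
          · right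
            rw [Set.mem_singleton_iff]
            by_contra hya
            rcases lt_or_gt_of_ne hya with h5 | h5
            · apply hemp
              refine ⟨y, hyT, ?_, ?_⟩
              · have := hy.1
                linarith
              · rw [← hb]
                exact h5
            · apply haJ
              refine (hJmem a).2 ⟨ha, y, hyT, h5, ?_⟩
              have := hy.2
              linarith
          · left
            exact hyT
        have h5 : P.μ (P.Tᶜ ∪ {g a}) = 0 := measure_union_null P.supp1 (hnull a)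
        rw [h5] at h4
        exact absurd h3 (not_lt.2 h4)
      have h3 := huniq b hbJ (by omega) (by
        intro i hi hia
        have : i ≠ a := fun h => haJ (h ▸ hi)
        omega)
      rw [← h3, hxa]
      obtain ⟨_, h4, h5⟩ := hrep1 b hbJ
      have h6 := hmesh b
      rw [← hb] at h5 h6
      rw [abs_le]
      constructor <;> linarith
  obtain ⟨k, hk, hke⟩ := he3 as has
  obtain ⟨k', hk', hke'⟩ := he3 at' hat
  refine ⟨⟨J.card - 1, fun j => rep (e j), fun j => g (e (j + 1)), ?_, ?_, ?_, ?_, hnear⟩, k, k',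
    ?_, ?_, ?_, ?_, ?_⟩
  · intro j hj
    exact (hrep1 _ (he1 j (by omega))).1
  · intro j hj
    have h1 := (hrep1 _ (he1 j (by omega))).2.2
    have h2 : e j + 1 ≤ e (j + 1) := he2 j (j + 1) (Nat.lt_succ_self j) (by omega)
    exact h1.trans_le (hg.monotone h2)
  · intro j hj
    exact (hrep1 _ (he1 (j + 1) (by omega))).2.1
  · intro j _
    exact hnull _
  · have h1 : as ≤ at' := by
      have h2 : as < at' + 1 := hg.lt_iff_lt.1 (lt_of_lt_of_le has1 (hst.trans hat2.le))
      omega
    rw [← hke, ← hke'] at h1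
    exact hele' k k' hk hk' h1
  · show k' ≤ J.card - 1
    omega
  · show rep (e k) = s
    rw [hke]
    exact hrep2 as has has1 has2
  · show rep (e k') = t
    rw [hke']
    exact hrep3 at' hat hat1 hat2
  · intro h
    have h1 : as = at' := by
      have h2 : as < at' + 1 := hg.lt_iff_lt.1 (by rw [h] at has1; exact has1.trans hat2)
      have h3 : at' < as + 1 := hg.lt_iff_lt.1 (by rw [h] at has2; exact hat1.trans has2)
      omega
    rw [← hke, ← hke'] at h1
    exact hei k k' hk hk' h1

end SKC.H
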