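import Pool.Agent.H.MP_08eaf3_pr.H.OneC
import Pool.Agent.H.MP_08eaf3_pr.G.Defs
import Pool.Agent.H.MP_08eaf3_pr.D.InstDef

/-!
# Part H: the cavity functionals as fields on the perturbed system
-/

set_option autoImplicit false

open MeasureTheory ProbabilityTheory Filter Topology Matrix

namespace SKC.H

/-- a finite Gaussian system on the pair configurations as a replica system
(features `v`, deterministic part `a`) -/
noncomputable def gSys {N : ℕ} {ι : Type} [Fintype ι] (v : Cfg (Fin 2) N → ι → ℝ)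
    (a : Cfg (Fin 2) N → ℝ) : RS N where
  X := ι → ℝ
  ms := inferInstance
  mu := gam ι
  pr := inferInstance
  G := fun x ρ => gw v a x ρ
  meas := by
    exact fun ρ => (CavB_cont_gw v a ρ).measurable
  nonneg := by
    exact fun x ρ => gw_nonneg v a x ρ
  sum_one := by
    exact fun x => sum_gw v a x

/-- the primed perturbed system -/
noncomputable def pSys (b1 b2 u : ℝ) (M N : ℕ) (x : PM M → ℝ) : RS N :=
  gSys (vA b1 b2 (cN N) M N x) (Pen u N)

theorem FldA_gen {Ω ι ι' : Type} [Fintype Ω] [Nonempty Ω] [Fintype ι] [Fintype ι']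
    (v : Ω → ι → ℝ) (a : Ω → ℝ) (h : Ω → (ι' → ℝ) → ℝ) (hpos : ∀ ω y, 0 < h ω y)
    (f : (ι ⊕ ι' → ℝ) → ℝ) (hf : Integrable f (gam (ι ⊕ ι')))
    (hfy : ∀ x : ι → ℝ, Integrable (fun y => f (Sum.elim x y)) (gam ι'))
    (he : ∀ x y, f (Sum.elim x y) =
      Real.log (∑ ω, Real.exp (dot x (v ω) + a ω) * h ω y)) :
    ∫ x, ∫ y, Real.log (∑ ω, gw v a x ω * h ω y) ∂(gam ι') ∂(gam ι) =
      ∫ z, f z ∂(gam (ι ⊕ ι')) - EL (Finset.univ : Finset Ω) v a := by
  have hp : ∀ (x : ι → ℝ) (y : ι' → ℝ), Real.log (∑ ω, gw v a x ω * h ω y) =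
      f (Sum.elim x y) - lse (Finset.univ : Finset Ω) (fun ω => dot x (v ω) + a ω) := by
    intro x y
    have h1 : ∑ ω, gw v a x ω * h ω y = (∑ ω, Real.exp (dot x (v ω) + a ω) * h ω y) /
        ∑ ω, Real.exp (dot x (v ω) + a ω) := by
      rw [Finset.sum_div]
      refine Finset.sum_congr rfl fun ω _ => ?_
      unfold gw
      ring
    have h2 : 0 < ∑ ω, Real.exp (dot x (v ω) + a ω) * h ω y :=
      Finset.sum_pos (fun ω _ => mul_pos (Real.exp_pos _) (hpos ω y)) Finset.univ_nonempty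
    have h3 : 0 < ∑ ω, Real.exp (dot x (v ω) + a ω) :=
      Finset.sum_pos (fun ω _ => Real.exp_pos _) Finset.univ_nonempty
    rw [h1, Real.log_div h2.ne' h3.ne', he]
    rfl
  have hi : ∀ x : ι → ℝ, ∫ y, Real.log (∑ ω, gw v a x ω * h ω y) ∂(gam ι') =
      ∫ y, f (Sum.elim x y) ∂(gam ι') -
        lse (Finset.univ : Finset Ω) (fun ω => dot x (v ω) + a ω) := by
    intro x
    simp only [hp]
    rw [integral_sub (hfy x) (integrable_const _), integral_const]
    simp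
  simp only [hi]
  rw [integral_sub (OneC_int hf) (integrable_lse OneC_univ_ne v a), integral_sum_gam f hf]
  rfl

theorem FldA_exp_F0 (z : Fin 2 → ℝ) :
    Real.exp (F0 z) = ∑ s : Fin 2 → Bool, Real.exp (∑ c, sg (s c) * z c) := by
  unfold F0 psiEnd
  rw [Real.exp_log (Finset.sum_pos (fun s _ => Real.exp_pos _) Finset.univ_nonempty)]
  refine Finset.sum_congr rfl fun s _ => ?_
  rw [mul_zero, add_zero]

theorem FldA_dot_vs (b1 b2 : ℝ) {N : ℕ} (ρ : Cfg (Fin 2) N) (s : Fin 2 → Bool) (y : Fin N → ℝ) :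
    ∑ c, sg (s c) * dot y (G.vz b1 b2 N ρ c) = dot y (vs (be b1 b2) N (ρ, s)) := by
  unfold dot vs
  simp only [Finset.mul_sum]
  rw [Finset.sum_comm]
  refine Finset.sum_congr rfl fun i _ => Finset.sum_congr rfl fun c _ => ?_
  unfold G.vz vz
  ring

/-- [`exp (F0 z) = ∑_s exp(∑_c sg(s c) z_c)`; `∑_ρ gw ρ ∑_s exp(..)` is
`exp(lse univ (pairs) - lse univ)`; Fubini `integral_sum_gam` for `CH`.] -/
theorem fld_vz0 (b1 b2 u : ℝ) (M N : ℕ) (x : PM M → ℝ) :
    G.fld (pSys b1 b2 u M N x) F0 (G.vz b1 b2 N) =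
      CH b1 b2 u M N x - LZ b1 b2 (cN N) u M N x := by
  have hi := integrable_lse (OneC_univ_ne (Ω := Cfg (Fin 2) N × (Fin 2 → Bool)))
    (fun p => Sum.elim (vA b1 b2 (cN N) M N x p.1) (vs (be b1 b2) N p)) (fun p => Pen u N p.1)
  have h := FldA_gen (vA b1 b2 (cN N) M N x) (Pen u N)
    (fun ρ y => ∑ s : Fin 2 → Bool, Real.exp (dot y (vs (be b1 b2) N (ρ, s))))
    (fun ρ y => Finset.sum_pos (fun s _ => Real.exp_pos _) Finset.univ_nonempty) _ hi
    (fun z => by
      have h1 := integrable_lse (OneC_univ_ne (Ω := Cfg (Fin 2) N × (Fin 2 → Bool)))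
        (fun p => vs (be b1 b2) N p)
        (fun p => dot z (vA b1 b2 (cN N) M N x p.1) + Pen u N p.1)
      refine h1.congr (Eventually.of_forall fun y => ?_)
      change lse _ _ = lse _ _
      congr 1
      funext p
      rw [OneC_dot_elim]
      ring)
    (fun z y => CavB_lse (vA b1 b2 (cN N) M N x) (Pen u N)
      (fun ρ s => vs (be b1 b2) N (ρ, s)) z y)
  have h2 : G.fld (pSys b1 b2 u M N x) F0 (G.vz b1 b2 N) =
      ∫ z, ∫ y, Real.log (∑ ρ, gw (vA b1 b2 (cN N) M N x) (Pen u N) z ρ *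
        ∑ s : Fin 2 → Bool, Real.exp (dot y (vs (be b1 b2) N (ρ, s)))) ∂(gam (Fin N))
        ∂(gam _) := by
    unfold G.fld
    refine integral_congr_ae (Eventually.of_forall fun z => ?_)
    refine integral_congr_ae (Eventually.of_forall fun y => ?_)
    change Real.log _ = Real.log _
    congr 1
    refine Finset.sum_congr rfl fun ρ _ => ?_
    rw [FldA_exp_F0]
    simp only [FldA_dot_vs]
    rfl
  rw [h2, h]
  rfl

/-- [the same with `f z = z ()`.] -/
theorem fld_vy0 (b1 b2 u : ℝ) (M N : ℕ) (x : PM M → ℝ) :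
    G.fld (pSys b1 b2 u M N x) (fun z => z ()) (G.vy b1 b2 N) =
      CY b1 b2 u M N x - LZ b1 b2 (cN N) u M N x := by
  have hi := integrable_lse (OneC_univ_ne (Ω := Cfg (Fin 2) N))
    (fun ρ => Sum.elim (vA b1 b2 (cN N) M N x ρ) (vy (be b1 b2) N ρ)) (Pen u N)
  have h := FldA_gen (vA b1 b2 (cN N) M N x) (Pen u N)
    (fun ρ y => Real.exp (dot y (vy (be b1 b2) N ρ))) (fun ρ y => Real.exp_pos _) _ hi
    (fun z => by
      have h1 := integrable_lse (OneC_univ_ne (Ω := Cfg (Fin 2) N)) (vy (be b1 b2) N)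
        (fun ρ => dot z (vA b1 b2 (cN N) M N x ρ) + Pen u N ρ)
      refine h1.congr (Eventually.of_forall fun y => ?_)
      change lse _ _ = lse _ _
      congr 1
      funext p
      rw [OneC_dot_elim]
      ring)
    (fun z y => by
      unfold lse
      congr 1
      refine Finset.sum_congr rfl fun ρ _ => ?_
      beta_reduce
      rw [OneC_dot_elim, ← Real.exp_add]
      congr 1
      ring)
  exact h

/-- -/
theorem av_dev (b1 b2 u : ℝ) (M N : ℕ) (x : PM M → ℝ) :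
    (pSys b1 b2 u M N x).av (n := 1) (fun r => |ovM (r 0) (r 0) 0 1 - u|) = dev b1 b2 u M N x :=
  E1_eq_GA (vA b1 b2 (cN N) M N x) (Pen u N) (fun ρ => |ov ρ ρ 0 1 - u|)

/-- the same for the system `SP` of part D -/
theorem fld_vz (b1 b2 u : ℝ) (M N : ℕ) (x : PM M → ℝ) :
    G.fld (SP b1 b2 (cN N) u M N x) F0 (G.vz b1 b2 N) =
      CH b1 b2 u M N x - LZ b1 b2 (cN N) u M N x :=
  fld_vz0 b1 b2 u M N x

/-- the same for the system `SP` of part D -/
theorem fld_vy (b1 b2 u : ℝ) (M N : ℕ) (x : PM M → ℝ) :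
    G.fld (SP b1 b2 (cN N) u M N x) (fun z => z ()) (G.vy b1 b2 N) =
      CY b1 b2 u M N x - LZ b1 b2 (cN N) u M N x :=
  fld_vy0 b1 b2 u M N x

/-- -/
theorem devP_eq (b1 b2 u : ℝ) (M N : ℕ) (x : PM M → ℝ) :
    devP b1 b2 (cN N) u M N x = dev b1 b2 u M N x :=
  E1_eq_GA (vA b1 b2 (cN N) M N x) (Pen u N) (fun ρ => |ov ρ ρ 0 1 - u|)

end SKC.H
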