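import Pool.Agent.H.MP_08eaf3_pr.H.OneC
import Pool.Agent.H.MP_08eaf3_pr.I.Lse

/-!
# Part H3 (1): lower bound of the perturbed free energy by freezing spins
-/

set_option autoImplicit false

open MeasureTheory ProbabilityTheory Filter Topology Matrix

namespace SKC.H

variable {K : Type} [Fintype K]

/-- freeze the spins `N0 ≤ i < N` to `+1` -/
def frz (N0 N : ℕ) (ρ : Cfg K N0) : Cfg K N :=
  fun i => if h : (i : ℕ) < N0 then ρ ⟨i, h⟩ else fun _ => true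

/-- -/
theorem frz_injective {N0 N : ℕ} (h : N0 ≤ N) : Function.Injective (frz (K := K) N0 N) := by
  intro ρ ρ' hρ
  funext i
  have h1 := congrFun hρ ⟨(i : ℕ), lt_of_lt_of_le i.2 h⟩
  unfold frz at h1
  rw [dif_pos i.2, dif_pos i.2] at h1
  exact h1

theorem Frz_mul_ov {N : ℕ} (ρ ρ' : Cfg K N) (c c' : K) :
    (N : ℝ) * ov ρ ρ' c c' = ∑ i, sg (ρ i c) * sg (ρ' i c') := by
  rcases Nat.eq_zero_or_pos N with h | h
  · subst h
    simp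
  · unfold ov
    have hN : (N : ℝ) ≠ 0 := (Nat.cast_pos.2 h).ne'
    field_simp

/-- `N R_N = N0 R_{N0} + (N - N0)` [split the sum over `Fin N` at `N0`: `Fin.sum_univ_eq_sum_range`
or `Fin.castAddEmb` after writing `N = N0 + k`.] -/
theorem ov_frz {N0 N : ℕ} (h : N0 ≤ N) (ρ ρ' : Cfg K N0) (c c' : K) :
    (N : ℝ) * ov (frz N0 N ρ) (frz N0 N ρ') c c' = N0 * ov ρ ρ' c c' + (N - N0) := by
  obtain ⟨k, rfl⟩ := Nat.exists_eq_add_of_le h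
  rw [Frz_mul_ov, Frz_mul_ov, Fin.sum_univ_add]
  have h1 : ∀ i : Fin N0, sg (frz N0 (N0 + k) ρ (Fin.castAdd k i) c) *
      sg (frz N0 (N0 + k) ρ' (Fin.castAdd k i) c') = sg (ρ i c) * sg (ρ' i c') := by
    intro i
    have h2 : ((Fin.castAdd k i : Fin (N0 + k)) : ℕ) < N0 := i.2
    unfold frz
    rw [dif_pos h2, dif_pos h2]
    rfl
  have h3 : ∀ j : Fin k, sg (frz N0 (N0 + k) ρ (Fin.natAdd N0 j) c) *
      sg (frz N0 (N0 + k) ρ' (Fin.natAdd N0 j) c') = 1 := by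
    intro j
    have h2 : ¬ ((Fin.natAdd N0 j : Fin (N0 + k)) : ℕ) < N0 := by
      rw [Fin.val_natAdd]
      omega
    unfold frz
    rw [dif_neg h2, dif_neg h2]
    norm_num [sg]
  rw [Finset.sum_congr rfl fun i _ => h1 i, Finset.sum_congr rfl fun j _ => h3 j]
  simp

theorem Frz_arith {N N0 r x : ℝ} (h0 : 0 < N0) (h : N0 ≤ N) (hx : N * x = N0 * r + (N - N0))
    (hr : |r| ≤ 1) : |N * x ^ 2 - N0 * r ^ 2| ≤ 3 * (N - N0) := by
  obtain ⟨h1, h2⟩ := abs_le.1 hr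
  have hN : 0 < N := lt_of_lt_of_le h0 h
  have hk : 0 ≤ N - N0 := sub_nonneg.2 h
  have hr2 : r ^ 2 ≤ 1 := by
    rw [sq_le_one_iff_abs_le_one]
    exact hr
  have key : N * (N * x ^ 2 - N0 * r ^ 2) =
      (N - N0) * (2 * N0 * r + (N - N0) - N0 * r ^ 2) := by
    have h3 : N * (N * x ^ 2) = (N0 * r + (N - N0)) ^ 2 := by
      rw [← hx]
      ring
    rw [mul_sub, h3]
    ring
  have hb : |2 * N0 * r + (N - N0) - N0 * r ^ 2| ≤ 3 * N := by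
    rw [abs_le]
    constructor
    · nlinarith [mul_le_mul_of_nonneg_left hr2 h0.le, mul_le_mul_of_nonneg_left h1 h0.le]
    · nlinarith [mul_nonneg h0.le (sq_nonneg r), mul_le_mul_of_nonneg_left h2 h0.le]
  have h4 : |N * (N * x ^ 2 - N0 * r ^ 2)| ≤ (N - N0) * (3 * N) := by
    rw [key, abs_mul, abs_of_nonneg hk]
    exact mul_le_mul_of_nonneg_left hb hk
  rw [abs_mul, abs_of_pos hN] at h4
  have h5 : N * |N * x ^ 2 - N0 * r ^ 2| ≤ N * (3 * (N - N0)) := by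
    refine h4.trans (le_of_eq ?_)
    ring
  exact le_of_mul_le_mul_left h5 hN

/-- `|N C(R_N) - N0 C(R_{N0})| ≤ 3 B (N - N0)`. [Termwise, with `r = R_{N0}`, `k = N - N0`:
`(N0 r + k)^2/N - N0 r^2 = k (-N0 r^2 + 2 N0 r + k)/N`, and `|-N0 r^2 + 2 N0 r + k| ≤ 3 N0 + k ≤ 3 N`.] -/
theorem Cf_frz {β : K → ℝ} (hb : ∀ c, 0 ≤ β c) {N0 N : ℕ} (h0 : 0 < N0) (h : N0 ≤ N)
    (ρ ρ' : Cfg K N0) :
    |(N : ℝ) * Cf β (fun c c' => ov (frz N0 N ρ) (frz N0 N ρ') c c') -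
        N0 * Cf β (fun c c' => ov ρ ρ' c c')| ≤ 3 * (∑ c, β c) ^ 2 * ((N : ℝ) - N0) := by
  have hterm : ∀ c c', |(N : ℝ) * ov (frz N0 N ρ) (frz N0 N ρ') c c' ^ 2 -
      N0 * ov ρ ρ' c c' ^ 2| ≤ 3 * ((N : ℝ) - N0) := by
    intro c c'
    have h1 := ov_frz h ρ ρ' c c'
    have h2 := abs_ov_le ρ ρ' c c'
    have hN0 : (0 : ℝ) < N0 := Nat.cast_pos.2 h0
    have hN : (N0 : ℝ) ≤ N := Nat.cast_le.2 h
    exact Frz_arith hN0 hN h1 h2
  unfold Cf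
  have h1 : (N : ℝ) * (∑ c, ∑ c', β c * β c' * ov (frz N0 N ρ) (frz N0 N ρ') c c' ^ 2) -
      N0 * (∑ c, ∑ c', β c * β c' * ov ρ ρ' c c' ^ 2) =
      ∑ c, ∑ c', β c * β c' * ((N : ℝ) * ov (frz N0 N ρ) (frz N0 N ρ') c c' ^ 2 -
        N0 * ov ρ ρ' c c' ^ 2) := by
    rw [Finset.mul_sum, Finset.mul_sum, ← Finset.sum_sub_distrib]
    refine Finset.sum_congr rfl fun c _ => ?_
    rw [Finset.mul_sum, Finset.mul_sum, ← Finset.sum_sub_distrib]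
    refine Finset.sum_congr rfl fun c' _ => ?_
    ring
  rw [h1]
  refine (Finset.abs_sum_le_sum_abs _ _).trans ?_
  have h2 : 3 * (∑ c, β c) ^ 2 * ((N : ℝ) - N0) =
      ∑ c, ∑ c', β c * β c' * (3 * ((N : ℝ) - N0)) := by
    rw [sq, Finset.sum_mul_sum, Finset.mul_sum, Finset.sum_mul]
    refine Finset.sum_congr rfl fun c _ => ?_
    rw [Finset.mul_sum, Finset.sum_mul]
    refine Finset.sum_congr rfl fun c' _ => ?_
    ring
  rw [h2]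
  refine Finset.sum_le_sum fun c _ => (Finset.abs_sum_le_sum_abs _ _).trans ?_
  refine Finset.sum_le_sum fun c' _ => ?_
  rw [abs_mul, abs_of_nonneg (mul_nonneg (hb c) (hb c'))]
  exact mul_le_mul_of_nonneg_left (hterm c c') (mul_nonneg (hb c) (hb c'))

/-- penalty of frozen configurations: if `|R_{N0} - u| ≤ η` and `|u| ≤ 1` then `|R_N - u| ≤ η + 2(N-N0)/N`, so
`Pen ≥ -N (η + 2 (N-N0)/N)^2`. [`ov_frz`: `R_N - u = (N0 (R_{N0} - u) + (N-N0)(1-u))/N`.] -/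
theorem pen_frz {u η : ℝ} (hu : |u| ≤ 1) (hη : 0 ≤ η) {N0 N : ℕ} (h0 : 0 < N0) (h : N0 ≤ N)
    (ρ : Cfg (Fin 2) N0) (hρ : |ov ρ ρ 0 1 - u| ≤ η) :
    -((N : ℝ) * (η + 2 * ((N : ℝ) - N0) / N) ^ 2) ≤ Pen u N (frz N0 N ρ) := by
  have hN0 : (0 : ℝ) < N0 := Nat.cast_pos.2 h0
  have hNN : (N0 : ℝ) ≤ N := Nat.cast_le.2 h
  have hN : (0 : ℝ) < N := lt_of_lt_of_le hN0 hNN
  have h1 := ov_frz h ρ ρ 0 1
  obtain ⟨x, hx⟩ : ∃ x, ov (frz N0 N ρ) (frz N0 N ρ) 0 1 = x := ⟨_, rfl⟩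
  unfold Pen
  rw [hx] at h1 ⊢
  have h2 : |x - u| ≤ η + 2 * ((N : ℝ) - N0) / N := by
    have h3 : (N : ℝ) * (x - u) = N0 * (ov ρ ρ 0 1 - u) + (N - N0) * (1 - u) := by
      rw [mul_sub, h1]
      ring
    have h4 : |(N : ℝ) * (x - u)| ≤ N * η + 2 * (N - N0) := by
      rw [h3]
      refine (abs_add_le _ _).trans (add_le_add ?_ ?_)
      · rw [abs_mul, abs_of_pos hN0]
        exact mul_le_mul hNN hρ (abs_nonneg _) hN.le
      · rw [abs_mul, abs_of_nonneg (sub_nonneg.2 hNN), mul_comm]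
        refine mul_le_mul_of_nonneg_right ?_ (sub_nonneg.2 hNN)
        obtain ⟨h5, h6⟩ := abs_le.1 hu
        rw [abs_le]
        constructor <;> linarith
    rw [abs_mul, abs_of_pos hN] at h4
    have h5 : (N : ℝ) * |x - u| ≤ N * (η + 2 * ((N : ℝ) - N0) / N) := by
      refine h4.trans (le_of_eq ?_)
      field_simp
    exact le_of_mul_le_mul_left h5 hN
  have h3 : (x - u) ^ 2 ≤ (η + 2 * ((N : ℝ) - N0) / N) ^ 2 := by
    rw [← sq_abs (x - u)]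
    exact pow_le_pow_left₀ (abs_nonneg _) h2 2
  have h4 := mul_le_mul_of_nonneg_left h3 hN.le
  linarith

theorem Frz_EL_map {Ω Ω' ι : Type} [Fintype ι] (e : Ω' ↪ Ω) (B : Finset Ω') (v : Ω → ι → ℝ)
    (a : Ω → ℝ) :
    EL (B.map e) v a = EL B (fun ω => v (e ω)) (fun ω => a (e ω)) := by
  unfold EL lse
  simp only [Finset.sum_map]

theorem Frz_EL_subset {Ω ι : Type} [Fintype ι] {B B' : Finset Ω} (hB : B.Nonempty) (h : B ⊆ B')
    (v : Ω → ι → ℝ) (a : Ω → ℝ) : EL B v a ≤ EL B' v a := by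
  unfold EL
  exact integral_mono (I.integrable_lse hB v a) (I.integrable_lse (hB.mono h) v a)
    (fun x => I.lse_mono_set hB h _)

/-- H3 (1), for features `vA c` with `1 - 1/(N+1) ≤ c^2 ≤ 1` (`c = 1` or `c = cN N`).
[`LZ ≥ EL` over the image of `near` under `frz` (`EL_subset`, `EL_map`); part `≥` constant by
`pen_frz` (`mat 1 1 u 0 1 = u`; `EL_mono`, `EL_add_const`); kernel `c^2 N C(R_N) + P` against
`N0 C(R_{N0})`: `EL_diff_le` with `|c^2 N C - N C| ≤ B` (as `N/(N+1) ≤ 1`), `Cf_frz`,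
`abs_dot_vP_le`.] -/
theorem frz_le_LZ {b1 b2 u η c : ℝ} (hb1 : 0 ≤ b1) (hb2 : 0 ≤ b2) (hu : |u| ≤ 1) (hη : 0 ≤ η)
    {M N0 N : ℕ} (h0 : 0 < N0) (h : N0 ≤ N) (hc : 1 - 1 / ((N : ℝ) + 1) ≤ c ^ 2) (hc1 : c ^ 2 ≤ 1)
    {x : PM M → ℝ} (hx : ∀ p, x p ∈ Set.Icc (1 : ℝ) 2)
    {B : Finset (Cfg (Fin 2) N0)} (hne : B.Nonempty) (hB : ∀ ρ ∈ B, |ov ρ ρ 0 1 - u| ≤ η) :
    EL B (vH (be b1 b2) N0) (fun _ => 0)
      - 3 * (b1 + b2) ^ 2 * ((N : ℝ) - N0) - (b1 + b2) ^ 2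
      - 4 * ((M : ℝ) + 1) ^ 3 * (N : ℝ) ^ (3 / 4 : ℝ)
      - (N : ℝ) * (η + 2 * ((N : ℝ) - N0) / N) ^ 2 ≤ LZ b1 b2 c u M N x := by
  classical
  have hN0 : (0 : ℝ) < N0 := Nat.cast_pos.2 h0
  have hNN : (N0 : ℝ) ≤ N := Nat.cast_le.2 h
  have hN : (0 : ℝ) < N := lt_of_lt_of_le hN0 hNN
  -- the image of `B`
  have h1 : EL B (fun ρ => vA b1 b2 c M N x (frz N0 N ρ)) (fun ρ => Pen u N (frz N0 N ρ)) ≤
      LZ b1 b2 c u M N x := by
    have e := Frz_EL_map ⟨frz N0 N, frz_injective h⟩ B (vA b1 b2 c M N x) (Pen u N)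
    refine (le_of_eq e.symm).trans ?_
    exact Frz_EL_subset (hne.map) (Finset.subset_univ _) _ _
  -- the penalty
  have h2 : EL B (fun ρ => vA b1 b2 c M N x (frz N0 N ρ)) (fun _ => 0) +
      -((N : ℝ) * (η + 2 * ((N : ℝ) - N0) / N) ^ 2) ≤
      EL B (fun ρ => vA b1 b2 c M N x (frz N0 N ρ)) (fun ρ => Pen u N (frz N0 N ρ)) := by
    rw [← I.EL_add_const hne]
    refine I.EL_mono hne _ fun ρ hρ => ?_
    rw [zero_add]
    exact pen_frz hu hη h0 h ρ (hB ρ hρ)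
  -- the kernels
  have h3 : |EL B (vH (be b1 b2) N0) (fun _ => 0) -
      EL B (fun ρ => vA b1 b2 c M N x (frz N0 N ρ)) (fun _ => 0)| ≤
      3 * (b1 + b2) ^ 2 * ((N : ℝ) - N0) + (b1 + b2) ^ 2 +
        4 * ((M : ℝ) + 1) ^ 3 * (N : ℝ) ^ (3 / 4 : ℝ) := by
    refine EL_diff_le B hne _ _ _ _ fun ρ _ ρ' _ => ?_
    rw [dot_vH, dot_vA]
    have e1 := Cf_frz (be_nonneg hb1 hb2) h0 h ρ ρ'
    rw [sum_be] at e1
    have e2 := abs_dot_vP_le (M := M) N hx (frz N0 N ρ) (frz N0 N ρ')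
    have e3 : Cf (be b1 b2) (fun c c' => ov (frz N0 N ρ) (frz N0 N ρ') c c') ≤ (b1 + b2) ^ 2 := by
      rw [← sum_be b1 b2]
      exact Cf_le (be_nonneg hb1 hb2) fun c c' => abs_ov_le _ _ c c'
    have e4 : 0 ≤ Cf (be b1 b2) (fun c c' => ov (frz N0 N ρ) (frz N0 N ρ') c c') :=
      Cf_nonneg (be_nonneg hb1 hb2) _
    generalize Cf (be b1 b2) (fun c c' => ov (frz N0 N ρ) (frz N0 N ρ') c c') = A at e1 e3 e4 ⊢
    generalize Cf (be b1 b2) (fun c c' => ov ρ ρ' c c') = A0 at e1 ⊢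
    generalize dot (vP M N x (frz N0 N ρ)) (vP M N x (frz N0 N ρ')) = P at e2 ⊢
    have e5 : (1 - c ^ 2) * (N * A) ≤ (b1 + b2) ^ 2 := by
      have e6 : (1 - c ^ 2) ≤ 1 / ((N : ℝ) + 1) := by linarith
      have e7 : 0 ≤ (N : ℝ) * A := mul_nonneg hN.le e4
      calc (1 - c ^ 2) * (N * A) ≤ 1 / ((N : ℝ) + 1) * (N * A) :=
            mul_le_mul_of_nonneg_right e6 e7
        _ = (N / ((N : ℝ) + 1)) * A := by ring
        _ ≤ 1 * A := by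
            refine mul_le_mul_of_nonneg_right ?_ e4
            rw [div_le_one (by linarith)]
            linarith
        _ ≤ (b1 + b2) ^ 2 := by rw [one_mul]; exact e3
    have e8 : 0 ≤ (1 - c ^ 2) * (N * A) := mul_nonneg (by linarith) (mul_nonneg hN.le e4)
    obtain ⟨a1, a2⟩ := abs_le.1 e1
    obtain ⟨a3, a4⟩ := abs_le.1 e2
    rw [abs_le]
    constructor <;> nlinarith
  obtain ⟨-, h4⟩ := abs_le.1 h3
  linarith

end SKC.H
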