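import Pool.Agent.H.MP_08eaf3_pr.H.FldA
import Pool.Agent.H.MP_08eaf3_pr.H.SeqA
import Pool.Agent.H.MP_08eaf3_pr.D.Inst2
import Pool.Agent.H.MP_08eaf3_pr.D.Pack

/-!
# Part H: the sequence of perturbed pair systems as a family with Ghirlanda-Guerra identities
-/

set_option autoImplicit false

open MeasureTheory ProbabilityTheory Filter Topology Matrix

namespace SKC.H

/-- projection to the cube -/
noncomputable def clp {M : ℕ} (x : PM M → ℝ) : PM M → ℝ := fun p => max 1 (min 2 (x p))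

/-- -/
theorem clp_mem {M : ℕ} (x : PM M → ℝ) (p : PM M) : clp x p ∈ Set.Icc (1 : ℝ) 2 := by
  unfold clp
  exact ⟨le_max_left _ _, max_le (by norm_num) (min_le_left _ _)⟩

/-- -/
theorem clp_eq {M : ℕ} {x : PM M → ℝ} (hx : ∀ p, x p ∈ Set.Icc (1 : ℝ) 2) : clp x = x := by
  funext p
  unfold clp
  rw [min_eq_right (hx p).2, max_eq_right (hx p).1]

/-- the Ghirlanda-Guerra error of part D as a continuous nonnegative function of all parameters -/
noncomputable def gc (b1 b2 u : ℝ) (M N : ℕ) (p : PM M) (x : PM M → ℝ) : ℝ :=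
  if N = 0 then 0 else max 0 (gge b1 b2 (cN N) u M N p (clp x))

/-- -/
theorem gc_nonneg (b1 b2 u : ℝ) (M N : ℕ) (p : PM M) (x : PM M → ℝ) : 0 ≤ gc b1 b2 u M N p x := by
  unfold gc
  split_ifs
  · exact le_rfl
  · exact le_max_left _ _

/-- [`gge_contOn` composed with the continuous map `clp` into the cube.] -/
theorem gc_cont (b1 b2 u : ℝ) (M N : ℕ) (p : PM M) : Continuous (gc b1 b2 u M N p) := by
  unfold gc
  by_cases hN : N = 0
  · simp only [if_pos hN]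
    exact continuous_const
  · simp only [if_neg hN]
    refine continuous_const.max ?_
    refine (gge_contOn b1 b2 (cN N) u (Nat.pos_of_ne_zero hN) p).comp_continuous ?_ ?_
    · unfold clp
      exact continuous_pi fun q => continuous_const.max (continuous_const.min (continuous_apply q))
    · intro x q _
      exact clp_mem x q

/-- -/
theorem gge_le_gc (b1 b2 u : ℝ) {M N : ℕ} (hN : 0 < N) (p : PM M) {x : PM M → ℝ}
    (hx : ∀ q, x q ∈ Set.Icc (1 : ℝ) 2) : gge b1 b2 (cN N) u M N p x ≤ gc b1 b2 u M N p x := by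
  unfold gc
  rw [if_neg hN.ne', clp_eq hx]
  exact le_max_right _ _

/-- [`gc = gge` almost everywhere (`ae_mem_cube`, `gge ≥ 0` on the cube: `DDP` and `devP` are integrals of
nonnegative functions); `int_gge_le` with `c = cN N` (`|cN N| ≤ 1`) and `B = δ`, `devP_eq`;
`C = 19 + 3 √((b1+b2)^2 + 9 (M+1)^3) + 2 M`.] -/
theorem gc_int {b1 b2 : ℝ} (hb1 : 0 ≤ b1) (hb2 : 0 ≤ b2) (u : ℝ) (M : ℕ) :
    ∃ C : ℝ, 0 ≤ C ∧ ∀ N : ℕ, 0 < N → ∀ p : PM M, ∀ δ : ℝ, 0 ≤ δ →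
      (∀ x : PM M → ℝ, (∀ p, x p ∈ Set.Icc (1 : ℝ) 2) → dev b1 b2 u M N x ≤ δ) →
      ∫ x, gc b1 b2 u M N p x ∂(muX M) ≤ C * ((N : ℝ) ^ (-(1 / 8) : ℝ) + δ) := by
  refine ⟨19 + 3 * Real.sqrt ((b1 + b2) ^ 2 + 9 * ((M : ℝ) + 1) ^ 3) + 2 * M, by positivity, ?_⟩
  intro N hN p δ hδ hd
  have hc : |cN N| ≤ 1 := by
    have h1 := (cN_bounds N).2
    rw [← sq_abs] at h1
    nlinarith [abs_nonneg (cN N)]
  have h1 := int_gge_le hb1 hb2 hc u hN p δ (fun x hx => by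
    rw [devP_eq]
    exact hd x hx)
  have h2 : ∫ x, gc b1 b2 u M N p x ∂(muX M) = ∫ x, gge b1 b2 (cN N) u M N p x ∂(muX M) := by
    refine integral_congr_ae ?_
    filter_upwards [ae_mem_cube M] with x hx
    unfold gc
    rw [if_neg hN.ne', clp_eq hx]
    refine max_eq_right ?_
    unfold gge
    have h3 := DDP_nonneg b1 b2 (cN N) u M N p x
    have h4 := devP_nonneg b1 b2 (cN N) u M N x
    have h5 : 0 < sN N := lt_of_lt_of_le one_pos (one_le_sN hN)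
    have h6 : 0 < x p := lt_of_lt_of_le one_pos (hx p).1
    exact add_nonneg (div_nonneg h3 (mul_pos h5 h6).le)
      (mul_nonneg (by positivity) h4)
  rw [h2]
  refine h1.trans ?_
  have h7 : 0 ≤ (N : ℝ) ^ (-(1 / 8) : ℝ) := Real.rpow_nonneg (Nat.cast_nonneg N) _
  have h8 : 0 ≤ Real.sqrt ((b1 + b2) ^ 2 + 9 * ((M : ℝ) + 1) ^ 3) := Real.sqrt_nonneg _
  have h9 : 0 ≤ 2 * (M : ℝ) * (N : ℝ) ^ (-(1 / 8) : ℝ) := by positivity
  have h10 : 0 ≤ (19 + 3 * Real.sqrt ((b1 + b2) ^ 2 + 9 * ((M : ℝ) + 1) ^ 3)) * δ := by positivity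
  linarith

/-- [`exists_HSeq`, `LZ_cont`.] -/
theorem exists_seq {b1 b2 u A : ℝ} (hb1 : 0 ≤ b1) (hb2 : 0 ≤ b2) (hu : |u| ≤ 1)
    (h : ∀ M, GoodBlocks b1 b2 u A M) : Nonempty (HSeq b1 b2 u A (gc b1 b2 u)) := by
  exact exists_HSeq hb1 hb2 hu h (gc b1 b2 u) (gc_nonneg b1 b2 u) (gc_cont b1 b2 u)
    (gc_int hb1 hb2 u) (fun M N => LZ_cont b1 b2 1 u M N)

variable {b1 b2 u A : ℝ}

/-- the family of perturbed pair systems of the sequence -/
noncomputable def HSeq.fam (s : HSeq b1 b2 u A (gc b1 b2 u)) : Fam :=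
  famP b1 b2 u s.Nn (fun M => cN (s.Nn M)) s.x

/-- [`famP_isGG` with `e M = 1/(M+1)`; `M < Nn M` follows from `hP` (`N ≥ 4 (M+1)^4 N^{3/4} ≥ 4 (M+1)^4`);
`gge_le_gc`, `hg`, `hd`, `devP_eq`.] -/
theorem HSeq.fam_isGG (s : HSeq b1 b2 u A (gc b1 b2 u)) (hu : |u| ≤ 1) : s.fam.IsGG := by
  refine famP_isGG b1 b2 hu s.Nn (fun M => cN (s.Nn M)) s.x (fun M => 1 / ((M : ℝ) + 1))
    tendsto_one_div_add_atTop_nhds_zero_nat s.pos s.ge s.hx ?_ ?_
  · intro M p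
    exact (gge_le_gc b1 b2 u (s.pos M) p (s.hx M)).trans (s.hg M p)
  · intro M
    rw [devP_eq]
    exact s.hd M

end SKC.H
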