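import Pool.Agent.H.MP_08eaf3_pr.Sys

/-!
# Part H: kernels (covariances) of the features; adding one site
-/

set_option autoImplicit false

open MeasureTheory ProbabilityTheory Filter Topology Matrix

namespace SKC.H

variable {K : Type} [Fintype K]

/-- `sg b ^ 2 = 1`, `|sg b| = 1` -/
theorem sg_sq (b : Bool) : sg b * sg b = 1 := by
  cases b <;> simp [sg]

/-- -/
theorem abs_sg (b : Bool) : |sg b| = 1 := by
  cases b <;> simp [sg]

/-- [Triangle inequality, `|sg b| = 1`; for `N = 0` the overlap is `0 / 0 = 0`.] -/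
theorem abs_ov_le {N : ℕ} (ρ ρ' : Cfg K N) (c c' : K) : |ov ρ ρ' c c'| ≤ 1 := by
  unfold ov
  rcases Nat.eq_zero_or_pos N with h | h
  · subst h
    simp
  · have hN : (0 : ℝ) < N := Nat.cast_pos.2 h
    rw [abs_div, abs_of_pos hN, div_le_one hN]
    refine (Finset.abs_sum_le_sum_abs _ _).trans ?_
    have h1 : ∀ i ∈ (Finset.univ : Finset (Fin N)), |sg (ρ i c) * sg (ρ' i c')| ≤ 1 := by
      intro i _
      rw [abs_mul, abs_sg, abs_sg, one_mul]
    refine (Finset.sum_le_sum h1).trans ?_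
    simp

/-- [Expand: `∑_{i,j} (∑_c β_c ρ_ci ρ_cj / √N) (∑_c' β_c' ρ'_c'i ρ'_c'j / √N) =
(1/N) ∑_{c,c'} β_c β_c' (∑_i ρ_ci ρ'_c'i)^2 = N ∑_{c,c'} β_c β_c' ov^2`; for `N = 0` both sides are `0`.
`Fintype.sum_prod_type`, `Finset.sum_comm`, `Finset.sum_mul_sum`.] -/
theorem dot_vH (β : K → ℝ) (N : ℕ) (ρ ρ' : Cfg K N) :
    dot (vH β N ρ) (vH β N ρ') = N * Cf β (fun c c' => ov ρ ρ' c c') := by
  have hkey : ∑ p : Fin N × Fin N, (∑ c, β c * (sg (ρ p.1 c) * sg (ρ p.2 c))) *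
      (∑ c', β c' * (sg (ρ' p.1 c') * sg (ρ' p.2 c'))) =
      ∑ c, ∑ c', β c * β c' * (∑ i, sg (ρ i c) * sg (ρ' i c')) ^ 2 := by
    have h1 : ∀ p : Fin N × Fin N, (∑ c, β c * (sg (ρ p.1 c) * sg (ρ p.2 c))) *
        (∑ c', β c' * (sg (ρ' p.1 c') * sg (ρ' p.2 c'))) =
        ∑ c, ∑ c', β c * β c' * ((sg (ρ p.1 c) * sg (ρ' p.1 c')) *
          (sg (ρ p.2 c) * sg (ρ' p.2 c'))) := by
      intro p
      rw [Finset.sum_mul_sum]
      exact Finset.sum_congr rfl fun c _ => Finset.sum_congr rfl fun c' _ => by ring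
    rw [Finset.sum_congr rfl fun p _ => h1 p, Finset.sum_comm]
    refine Finset.sum_congr rfl fun c _ => ?_
    rw [Finset.sum_comm]
    refine Finset.sum_congr rfl fun c' _ => ?_
    rw [← Finset.mul_sum, sq, Finset.sum_mul_sum, Fintype.sum_prod_type]
  unfold dot vH
  have h2 : ∀ p : Fin N × Fin N, (∑ c, β c * (sg (ρ p.1 c) * sg (ρ p.2 c))) / Real.sqrt N *
      ((∑ c', β c' * (sg (ρ' p.1 c') * sg (ρ' p.2 c'))) / Real.sqrt N) =
      ((∑ c, β c * (sg (ρ p.1 c) * sg (ρ p.2 c))) *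
      (∑ c', β c' * (sg (ρ' p.1 c') * sg (ρ' p.2 c')))) / N := by
    intro p
    rw [div_mul_div_comm, Real.mul_self_sqrt (Nat.cast_nonneg N)]
  rw [Finset.sum_congr rfl fun p _ => h2 p, ← Finset.sum_div, hkey]
  unfold Cf ov
  rcases Nat.eq_zero_or_pos N with h | h
  · subst h
    simp
  · have hN : (N : ℝ) ≠ 0 := (Nat.cast_pos.2 h).ne'
    rw [Finset.sum_div, Finset.mul_sum]
    refine Finset.sum_congr rfl fun c _ => ?_
    rw [Finset.sum_div, Finset.mul_sum]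
    refine Finset.sum_congr rfl fun c' _ => ?_
    field_simp

/-- `0 ≤ C(R) ≤ (∑ β)^2` for matrices with entries in `[-1,1]`. [Termwise.] -/
theorem Cf_nonneg {β : K → ℝ} (hb : ∀ c, 0 ≤ β c) (R : Matrix K K ℝ) : 0 ≤ Cf β R := by
  unfold Cf
  exact Finset.sum_nonneg fun c _ => Finset.sum_nonneg fun c' _ =>
    mul_nonneg (mul_nonneg (hb c) (hb c')) (sq_nonneg _)

/-- -/
theorem Cf_le {β : K → ℝ} (hb : ∀ c, 0 ≤ β c) {R : Matrix K K ℝ} (hR : ∀ c c', |R c c'| ≤ 1) :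
    Cf β R ≤ (∑ c, β c) ^ 2 := by
  unfold Cf
  rw [sq, Finset.sum_mul_sum]
  refine Finset.sum_le_sum fun c _ => Finset.sum_le_sum fun c' _ => ?_
  have h1 : R c c' ^ 2 ≤ 1 := by
    rw [← sq_abs]
    exact pow_le_one₀ (abs_nonneg _) (hR c c')
  calc β c * β c' * R c c' ^ 2 ≤ β c * β c' * 1 :=
        mul_le_mul_of_nonneg_left h1 (mul_nonneg (hb c) (hb c'))
    _ = β c * β c' := mul_one _

/-- adding one site -/
def snc {N : ℕ} (ρ : Cfg K N) (s : K → Bool) : Cfg K (N + 1) := Fin.snoc (α := fun _ => K → Bool) ρ s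

/-- `(N+1) R(ρ~,ρ~') = N R(ρ,ρ') + s s'`. [`Fin.sum_univ_castSucc`, `Fin.snoc_castSucc`,
`Fin.snoc_last`; for `N = 0` the term `0 * ov` and the empty sum vanish.] -/
theorem ov_snc {N : ℕ} (ρ ρ' : Cfg K N) (s s' : K → Bool) (c c' : K) :
    ((N : ℝ) + 1) * ov (snc ρ s) (snc ρ' s') c c' =
      N * ov ρ ρ' c c' + sg (s c) * sg (s' c') := by
  have h1 : ((N : ℝ) + 1) * ov (snc ρ s) (snc ρ' s') c c' =
      ∑ i, sg (snc ρ s i c) * sg (snc ρ' s' i c') := by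
    unfold ov
    have h2 : ((N + 1 : ℕ) : ℝ) ≠ 0 := by positivity
    rw [show (N : ℝ) + 1 = ((N + 1 : ℕ) : ℝ) by push_cast; ring]
    field_simp
  have h2 : (N : ℝ) * ov ρ ρ' c c' = ∑ i, sg (ρ i c) * sg (ρ' i c') := by
    unfold ov
    rcases Nat.eq_zero_or_pos N with h | h
    · subst h
      simp
    · have hN : (N : ℝ) ≠ 0 := (Nat.cast_pos.2 h).ne'
      field_simp
  rw [h1, h2, Fin.sum_univ_castSucc]
  simp [snc]

/-- the pairs (configuration, new spins) are the configurations of size `N+1`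
[`Fin.snocEquiv` or by hand: inverse `ρ ↦ (fun i => ρ i.castSucc, ρ (Fin.last N))`.] -/
def sncE (K : Type) (N : ℕ) : Cfg K N × (K → Bool) ≃ Cfg K (N + 1) where
  toFun p := snc p.1 p.2
  invFun ρ := (fun i => ρ i.castSucc, ρ (Fin.last N))
  left_inv p := by
    obtain ⟨ρ, s⟩ := p
    simp [snc]
  right_inv ρ := by
    funext i
    refine Fin.lastCases ?_ (fun i => ?_) i <;> simp [snc]

/-- `(N+1) C(R~) = N^2/(N+1) C(R) + N/(N+1) ∑ 2 β β' R s s' + (∑ β)^2/(N+1)`.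
[Multiply by `N+1`, use `ov_snc` squared termwise and `sg_sq`.] -/
theorem Cf_snc (β : K → ℝ) {N : ℕ} (ρ ρ' : Cfg K N) (s s' : K → Bool) :
    ((N : ℝ) + 1) * Cf β (fun c c' => ov (snc ρ s) (snc ρ' s') c c') =
      (N : ℝ) ^ 2 / (N + 1) * Cf β (fun c c' => ov ρ ρ' c c')
      + N / (N + 1) * (∑ c, ∑ c', 2 * β c * β c' * ov ρ ρ' c c' * (sg (s c) * sg (s' c')))
      + (∑ c, β c) ^ 2 / (N + 1) := by
  have hN : (N : ℝ) + 1 ≠ 0 := by positivity
  have h1 : ∀ c c', ((N : ℝ) + 1) * (β c * β c' * ov (snc ρ s) (snc ρ' s') c c' ^ 2) =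
      (N : ℝ) ^ 2 / (N + 1) * (β c * β c' * ov ρ ρ' c c' ^ 2)
      + N / (N + 1) * (2 * β c * β c' * ov ρ ρ' c c' * (sg (s c) * sg (s' c')))
      + β c * β c' / (N + 1) := by
    intro c c'
    have h2 := ov_snc ρ ρ' s s' c c'
    have h3 : ov (snc ρ s) (snc ρ' s') c c' =
        (N * ov ρ ρ' c c' + sg (s c) * sg (s' c')) / (N + 1) := by
      rw [eq_div_iff hN, mul_comm]
      exact h2
    have h4 : (sg (s c) * sg (s' c')) ^ 2 = 1 := by
      have e1 := sg_sq (s c)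
      have e2 := sg_sq (s' c')
      calc (sg (s c) * sg (s' c')) ^ 2 = (sg (s c) * sg (s c)) * (sg (s' c') * sg (s' c')) := by
            ring
        _ = 1 := by rw [e1, e2, one_mul]
    rw [h3]
    field_simp
    linear_combination (β c * β c') * h4
  unfold Cf
  rw [sq (∑ c, β c), Finset.sum_mul_sum, Finset.mul_sum, Finset.mul_sum, Finset.mul_sum,
    Finset.sum_div, ← Finset.sum_add_distrib, ← Finset.sum_add_distrib]
  refine Finset.sum_congr rfl fun c _ => ?_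
  rw [Finset.mul_sum, Finset.mul_sum, Finset.mul_sum, Finset.sum_div, ← Finset.sum_add_distrib,
    ← Finset.sum_add_distrib]
  exact Finset.sum_congr rfl fun c' _ => h1 c c'

/-- features of the cavity field `z_c`: covariance `2 β_c β_c' R_cc'` -/
noncomputable def vz (β : K → ℝ) (N : ℕ) (ρ : Cfg K N) (c : K) : Fin N → ℝ :=
  fun i => Real.sqrt 2 * β c * sg (ρ i c) / Real.sqrt N

/-- [`∑_i (√2 β_c ρ_ci/√N)(√2 β_c' ρ'_c'i/√N) = 2 β_c β_c' ov`.] -/
theorem dot_vz (β : K → ℝ) (N : ℕ) (ρ ρ' : Cfg K N) (c c' : K) :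
    dot (vz β N ρ c) (vz β N ρ' c') = 2 * β c * β c' * ov ρ ρ' c c' := by
  unfold dot vz ov
  rw [Finset.sum_div, Finset.mul_sum]
  refine Finset.sum_congr rfl fun i _ => ?_
  rw [div_mul_div_comm, Real.mul_self_sqrt (Nat.cast_nonneg N)]
  have h2 : Real.sqrt 2 * Real.sqrt 2 = 2 := Real.mul_self_sqrt (by norm_num)
  calc Real.sqrt 2 * β c * sg (ρ i c) * (Real.sqrt 2 * β c' * sg (ρ' i c')) / N
      = (Real.sqrt 2 * Real.sqrt 2) * β c * β c' * (sg (ρ i c) * sg (ρ' i c')) / N := by ring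
    _ = 2 * β c * β c' * (sg (ρ i c) * sg (ρ' i c') / N) := by rw [h2]; ring

/-- features of `∑_c s_c z_c(ρ)` -/
noncomputable def vs (β : K → ℝ) (N : ℕ) (p : Cfg K N × (K → Bool)) : Fin N → ℝ :=
  fun i => ∑ c, sg (p.2 c) * vz β N p.1 c i

/-- [Bilinearity and `dot_vz`.] -/
theorem dot_vs (β : K → ℝ) (N : ℕ) (p p' : Cfg K N × (K → Bool)) :
    dot (vs β N p) (vs β N p') =
      ∑ c, ∑ c', 2 * β c * β c' * ov p.1 p'.1 c c' * (sg (p.2 c) * sg (p'.2 c')) := by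
  have h1 : dot (vs β N p) (vs β N p') = ∑ c, ∑ c', (sg (p.2 c) * sg (p'.2 c')) *
      dot (vz β N p.1 c) (vz β N p'.1 c') := by
    unfold dot vs
    have h2 : ∀ i : Fin N, (∑ c, sg (p.2 c) * vz β N p.1 c i) *
        (∑ c', sg (p'.2 c') * vz β N p'.1 c' i) =
        ∑ c, ∑ c', (sg (p.2 c) * sg (p'.2 c')) * (vz β N p.1 c i * vz β N p'.1 c' i) := by
      intro i
      rw [Finset.sum_mul_sum]
      exact Finset.sum_congr rfl fun c _ => Finset.sum_congr rfl fun c' _ => by ring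
    rw [Finset.sum_congr rfl fun i _ => h2 i, Finset.sum_comm]
    refine Finset.sum_congr rfl fun c _ => ?_
    rw [Finset.sum_comm]
    refine Finset.sum_congr rfl fun c' _ => ?_
    rw [Finset.mul_sum]
  rw [h1]
  refine Finset.sum_congr rfl fun c _ => Finset.sum_congr rfl fun c' _ => ?_
  rw [dot_vz]
  ring

/-- [`|2 β β' ov s s'| ≤ 2 β β'`.] -/
theorem abs_dot_vs_le {β : K → ℝ} (hb : ∀ c, 0 ≤ β c) (N : ℕ) (p p' : Cfg K N × (K → Bool)) :
    |dot (vs β N p) (vs β N p')| ≤ 2 * (∑ c, β c) ^ 2 := by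
  rw [dot_vs]
  refine (Finset.abs_sum_le_sum_abs _ _).trans ?_
  rw [sq, Finset.sum_mul_sum, Finset.mul_sum]
  refine Finset.sum_le_sum fun c _ => ?_
  refine (Finset.abs_sum_le_sum_abs _ _).trans ?_
  rw [Finset.mul_sum]
  refine Finset.sum_le_sum fun c' _ => ?_
  have h1 := abs_ov_le p.1 p'.1 c c'
  have h2 := mul_nonneg (hb c) (hb c')
  have h3 : |2 * β c * β c' * ov p.1 p'.1 c c' * (sg (p.2 c) * sg (p'.2 c'))| =
      2 * (β c * β c') * |ov p.1 p'.1 c c'| := by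
    rw [abs_mul, abs_mul (sg _), abs_sg, abs_sg, one_mul, mul_one, abs_mul, mul_assoc 2,
      abs_mul 2, abs_of_nonneg h2, abs_of_pos (by norm_num : (0 : ℝ) < 2)]
  rw [h3]
  nlinarith

/-- features of the field `y` with covariance `C(R)` -/
noncomputable def vy (β : K → ℝ) (N : ℕ) (ρ : Cfg K N) : Fin N × Fin N → ℝ :=
  fun q => vH β N ρ q / Real.sqrt N

/-- [`dot_vH` divided by `N`; for `N = 0` the left side is `0`, so assume `0 < N`.] -/
theorem dot_vy (β : K → ℝ) {N : ℕ} (hN : 0 < N) (ρ ρ' : Cfg K N) :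
    dot (vy β N ρ) (vy β N ρ') = Cf β (fun c c' => ov ρ ρ' c c') := by
  have hN' : (N : ℝ) ≠ 0 := (Nat.cast_pos.2 hN).ne'
  have h1 : dot (vy β N ρ) (vy β N ρ') = dot (vH β N ρ) (vH β N ρ') / N := by
    unfold dot vy
    rw [Finset.sum_div]
    refine Finset.sum_congr rfl fun q _ => ?_
    rw [div_mul_div_comm, Real.mul_self_sqrt (Nat.cast_nonneg N)]
  rw [h1, dot_vH, mul_div_cancel_left₀ _ hN']

/-- dot product of `Sum.elim` features [`Fintype.sum_sum_type`] -/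
theorem dot_elim {ι ι' : Type} [Fintype ι] [Fintype ι'] (v w : ι → ℝ) (v' w' : ι' → ℝ) :
    dot (Sum.elim v v') (Sum.elim w w') = dot v w + dot v' w' := by
  unfold dot
  rw [Fintype.sum_sum_type]
  simp

/-- -/
theorem dot_smul {ι : Type} [Fintype ι] (c : ℝ) (v w : ι → ℝ) :
    dot (fun i => c * v i) (fun i => c * w i) = c ^ 2 * dot v w := by
  unfold dot
  rw [Finset.mul_sum]
  exact Finset.sum_congr rfl fun i _ => by ring

end SKC.H
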