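import Pool.Agent.H.MP_08eaf3_pr.H.TreeA

/-!
# Part H3, (L3): events of positive mass are full
-/

set_option autoImplicit false

open MeasureTheory ProbabilityTheory Filter Topology Matrix

namespace SKC.H

/-- `cN N ^ 2 = 1 - 1 / (N + 1)` -/
theorem TreeB_cN (N : ℕ) : cN N ^ 2 = 1 - 1 / ((N : ℝ) + 1) := by
  have h1 : (N : ℝ) + 1 ≠ 0 := by positivity
  unfold cN
  rw [Real.sq_sqrt (by positivity)]
  field_simp
  ring

/-- the bound for one `M` -/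
theorem TreeB_one {b1 b2 u Λ : ℝ} (hb1 : 0 ≤ b1) (hb2 : 0 ≤ b2) {J : Type} [Fintype J]
    [DecidableEq J] [Nonempty J] {N M : ℕ} (hN : 1 ≤ N) (E : Finset (Cfg (J × Fin 2) N))
    (x : PM M → ℝ) (hx : ∀ p, x p ∈ Set.Icc (1 : ℝ) 2)
    (hz : (N : ℝ) * (Λ - 1 / ((M : ℝ) + 1)) ≤ LZ b1 b2 (cN N) u M N x)
    (hP : 4 * ((M : ℝ) + 1) ^ 3 * (N : ℝ) ^ (3 / 4 : ℝ) ≤ N / ((M : ℝ) + 1))
    {c : ℝ} (hc : 0 < c)
    (h : c ≤ PJ (vA b1 b2 (cN N) M N x) (Pen u N)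
      (Finset.univ.filter (fun r : J → Cfg (Fin 2) N => jn J N r ∈ E))) :
    E.Nonempty ∧ (Fintype.card J : ℝ) * Λ - ((Fintype.card J : ℝ) * (1 / ((M : ℝ) + 1))
        + |Real.log (c / 2)| * (1 / N)
        + 2 * (Fintype.card J : ℝ) * Real.sqrt (4 * ((b1 + b2) ^ 2 + 2) / c) *
          (Real.sqrt N)⁻¹
        + (Fintype.card J : ℝ) ^ 2 * (b1 + b2) ^ 2 * (1 / N)
        + (Fintype.card J : ℝ) ^ 2 * (1 / ((M : ℝ) + 1))) ≤
      EL E (vH (beN b1 b2 J) N) (fun _ => 0) / N := by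
  classical
  have hN0 : (0 : ℝ) < N := by exact_mod_cast hN
  have hN1 : (1 : ℝ) ≤ N := by exact_mod_cast hN
  have hM0 : (0 : ℝ) < (M : ℝ) + 1 := by positivity
  have hJ : (0 : ℝ) ≤ (Fintype.card J : ℝ) := by positivity
  have hcN := TreeB_cN N
  have hcN1 : cN N ^ 2 ≤ 1 := by
    rw [hcN]
    have : 0 ≤ 1 / ((N : ℝ) + 1) := by positivity
    linarith
  have hM1 : (N : ℝ) / ((M : ℝ) + 1) ≤ N := by
    rw [div_le_iff₀ hM0]
    nlinarith [Nat.cast_nonneg (α := ℝ) M]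
  set D : ℝ := N * ((b1 + b2) ^ 2 + 2) with hDdef
  have hD : ∀ ρ, dot (vA b1 b2 (cN N) M N x ρ) (vA b1 b2 (cN N) M N x ρ) ≤ D := by
    intro ρ
    have h1 := dot_vA_le hb1 hb2 hcN1 hx ρ
    rw [hDdef]
    nlinarith
  have hD1 : 1 ≤ D := by
    rw [hDdef]
    nlinarith [sq_nonneg (b1 + b2)]
  set E' : Finset (J → Cfg (Fin 2) N) :=
    Finset.univ.filter (fun r : J → Cfg (Fin 2) N => jn J N r ∈ E) with hE'
  obtain ⟨hne, h1⟩ := EL_ge_of_mass (vA b1 b2 (cN N) M N x) (Pen u N) hD hD1 hc E' h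
  have hmap : E'.map (jn J N).toEmbedding = E := by
    ext ρ
    simp only [Finset.mem_map, Equiv.coe_toEmbedding, hE', Finset.mem_filter, Finset.mem_univ,
      true_and]
    constructor
    · rintro ⟨r, hr, rfl⟩
      exact hr
    · intro hρ
      exact ⟨(jn J N).symm ρ, by simpa using hρ, by simp⟩
  have hne' : E.Nonempty := by
    rw [← hmap]
    exact hne.map
  have h2 : EL E' (fun r i => ∑ j, vA b1 b2 (cN N) M N x (r j) i) (fun r => ∑ j, Pen u N (r j)) ≤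
      EL E' (fun r i => ∑ j, vA b1 b2 (cN N) M N x (r j) i) (fun _ => 0) := by
    refine A.EL_mono hne _ fun r _ => ?_
    refine Finset.sum_nonpos fun j _ => ?_
    unfold Pen
    nlinarith [sq_nonneg (ov (r j) (r j) 0 1 - u)]
  have h3 := EL_diff_le E' hne (fun r i => ∑ j, vA b1 b2 (cN N) M N x (r j) i)
    (fun r => vH (beN b1 b2 J) N (jn J N r)) (fun _ => 0)
    ((Fintype.card J : ℝ) ^ 2 * ((b1 + b2) ^ 2 + 4 * ((M : ℝ) + 1) ^ 3 * (N : ℝ) ^ (3 / 4 : ℝ)))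
    (fun r _ r' _ => kernel_J hb1 hb2 hcN.ge hcN1 hx r r')
  have h4 : EL E (vH (beN b1 b2 J) N) (fun _ => 0) =
      EL E' (fun r => vH (beN b1 b2 J) N (jn J N r)) (fun _ => 0) := by
    conv_lhs => rw [← hmap]
    exact A.EL_map (jn J N).toEmbedding E' (vH (beN b1 b2 J) N) (fun _ => 0)
  have h5 := (abs_le.1 h3).2
  have h6 : (Fintype.card J : ℝ) ^ 2 *
      ((b1 + b2) ^ 2 + 4 * ((M : ℝ) + 1) ^ 3 * (N : ℝ) ^ (3 / 4 : ℝ)) ≤
      (Fintype.card J : ℝ) ^ 2 * ((b1 + b2) ^ 2 + N / ((M : ℝ) + 1)) :=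
    mul_le_mul_of_nonneg_left (by linarith) (by positivity)
  have h7 : (Fintype.card J : ℝ) * ((N : ℝ) * (Λ - 1 / ((M : ℝ) + 1))) ≤
      (Fintype.card J : ℝ) * EL Finset.univ (vA b1 b2 (cN N) M N x) (Pen u N) :=
    mul_le_mul_of_nonneg_left hz hJ
  have h8 : -|Real.log (c / 2)| ≤ Real.log (c / 2) := neg_abs_le _
  have h9 : Real.sqrt (4 * D / c) =
      Real.sqrt (4 * ((b1 + b2) ^ 2 + 2) / c) * Real.sqrt N := by
    rw [← Real.sqrt_mul (by positivity)]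
    congr 1
    rw [hDdef]
    ring
  refine ⟨hne', ?_⟩
  rw [le_div_iff₀ hN0, h4]
  have hs : (Real.sqrt N)⁻¹ * N = Real.sqrt N := by
    have h10 : Real.sqrt N ≠ 0 := (Real.sqrt_pos.2 hN0).ne'
    field_simp
    rw [Real.sq_sqrt hN0.le]
  have hn : (1 : ℝ) / N * N = 1 := by
    field_simp
  rw [h9] at h1
  have h11 : ((Fintype.card J : ℝ) * Λ - ((Fintype.card J : ℝ) * (1 / ((M : ℝ) + 1))
        + |Real.log (c / 2)| * (1 / N)
        + 2 * (Fintype.card J : ℝ) * Real.sqrt (4 * ((b1 + b2) ^ 2 + 2) / c) *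
          (Real.sqrt N)⁻¹
        + (Fintype.card J : ℝ) ^ 2 * (b1 + b2) ^ 2 * (1 / N)
        + (Fintype.card J : ℝ) ^ 2 * (1 / ((M : ℝ) + 1)))) * N =
      (Fintype.card J : ℝ) * ((N : ℝ) * (Λ - 1 / ((M : ℝ) + 1)))
        - |Real.log (c / 2)| * (1 / N * N)
        - 2 * (Fintype.card J : ℝ) * Real.sqrt (4 * ((b1 + b2) ^ 2 + 2) / c) *
          ((Real.sqrt N)⁻¹ * N)
        - (Fintype.card J : ℝ) ^ 2 * (b1 + b2) ^ 2 * (1 / N * N)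
        - (Fintype.card J : ℝ) ^ 2 * (N / ((M : ℝ) + 1)) := by
    ring
  rw [h11, hs, hn]
  have h12 : 2 * (Fintype.card J : ℝ) *
      (Real.sqrt (4 * ((b1 + b2) ^ 2 + 2) / c) * Real.sqrt N) =
      2 * (Fintype.card J : ℝ) * Real.sqrt (4 * ((b1 + b2) ^ 2 + 2) / c) * Real.sqrt N := by
    ring
  rw [h12] at h1
  have h13 : (Fintype.card J : ℝ) ^ 2 * ((b1 + b2) ^ 2 + N / ((M : ℝ) + 1)) =
      (Fintype.card J : ℝ) ^ 2 * (b1 + b2) ^ 2 * 1 +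
        (Fintype.card J : ℝ) ^ 2 * (N / ((M : ℝ) + 1)) := by ring
  rw [h13] at h6
  linarith

/-- [`EL_ge_of_mass` with `D = N (b1+b2)^2 + 4 (M+1)^3 N^{3/4} + 1 ≤ N ((b1+b2)^2 + 2)` (`dot_vA_le`, `hP`) bounds the
free energy of the `J`-fold perturbed primed system on `E' = {r : jn r ∈ E}` from below by
`|J| N (Λ - 1/(M+1)) + log (c/2) - C √N`; the penalty is `≤ 0` (`EL_mono`); `EL_diff_le` with `kernel_J` (`≤ |J|^2 (B + N/(M+1))`)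
and `EL_map` (along `jn`) give the unperturbed one.  Divide by `N = N_M → ∞`.  Frequently in `M` implies
frequently in `N` because `Nn → ∞` (`Tendsto.frequently`).] -/
theorem full_of_mass {b1 b2 u Λ : ℝ} (hb1 : 0 ≤ b1) (hb2 : 0 ≤ b2) {J : Type} [Fintype J]
    [DecidableEq J] [Nonempty J] (E : ∀ N : ℕ, Finset (Cfg (J × Fin 2) N)) (Nn : ℕ → ℕ)
    (hN : Tendsto Nn atTop atTop) (x : ∀ M : ℕ, PM M → ℝ)
    (hx : ∀ M p, x M p ∈ Set.Icc (1 : ℝ) 2)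
    (hz : ∀ M : ℕ, (Nn M : ℝ) * (Λ - 1 / ((M : ℝ) + 1)) ≤
      LZ b1 b2 (cN (Nn M)) u M (Nn M) (x M))
    (hP : ∀ M : ℕ, 4 * ((M : ℝ) + 1) ^ 3 * (Nn M : ℝ) ^ (3 / 4 : ℝ) ≤ Nn M / ((M : ℝ) + 1))
    {c : ℝ} (hc : 0 < c)
    (h : ∃ᶠ M : ℕ in atTop, c ≤ PJ (vA b1 b2 (cN (Nn M)) M (Nn M) (x M)) (Pen u (Nn M))
      (Finset.univ.filter (fun r : J → Cfg (Fin 2) (Nn M) => jn J (Nn M) r ∈ E (Nn M)))) :
    ∀ δ : ℝ, 0 < δ → ∃ᶠ N : ℕ in atTop, (E N).Nonempty ∧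
      (Fintype.card J : ℝ) * Λ - δ ≤ EL (E N) (vH (beN b1 b2 J) N) (fun _ => 0) / N := by
  intro δ hδ
  have hNr : Tendsto (fun M => (Nn M : ℝ)) atTop atTop :=
    tendsto_natCast_atTop_atTop.comp hN
  have e1 : Tendsto (fun M : ℕ => 1 / ((M : ℝ) + 1)) atTop (𝓝 0) :=
    tendsto_one_div_add_atTop_nhds_zero_nat
  have e2 : Tendsto (fun M : ℕ => 1 / (Nn M : ℝ)) atTop (𝓝 0) := by
    simp only [one_div]
    exact tendsto_inv_atTop_zero.comp hNr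
  have e3 : Tendsto (fun M : ℕ => (Real.sqrt (Nn M : ℝ))⁻¹) atTop (𝓝 0) :=
    tendsto_inv_atTop_zero.comp (Real.tendsto_sqrt_atTop.comp hNr)
  have e4 := ((((e1.const_mul (Fintype.card J : ℝ)).add
    (e2.const_mul |Real.log (c / 2)|)).add
    (e3.const_mul (2 * (Fintype.card J : ℝ) * Real.sqrt (4 * ((b1 + b2) ^ 2 + 2) / c)))).add
    (e2.const_mul ((Fintype.card J : ℝ) ^ 2 * (b1 + b2) ^ 2))).add
    (e1.const_mul ((Fintype.card J : ℝ) ^ 2))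
  simp only [mul_zero, add_zero] at e4
  have e5 := e4.eventually (gt_mem_nhds hδ)
  have e6 : ∀ᶠ M in atTop, 1 ≤ Nn M := hN.eventually_ge_atTop 1
  have h1 := (h.and_eventually (e5.and e6))
  refine hN.frequently (h1.mono fun M hM => ?_)
  obtain ⟨hM1, hM2, hM3⟩ := hM
  obtain ⟨h2, h3⟩ := TreeB_one hb1 hb2 hM3 (E (Nn M)) (x M) (hx M) (hz M) (hP M) hc hM1
  exact ⟨h2, by linarith⟩

end SKC.H
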