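import Pool.Agent.H.MP_08eaf3_pr.H.AsmA
import Pool.Agent.H.MP_08eaf3_pr.H.TreeB

/-!
# Theorem L: the trees are full
-/

set_option autoImplicit false

open MeasureTheory ProbabilityTheory Filter Topology Matrix

namespace SKC.H

variable {b1 b2 u : ℝ}

theorem LdA_near {N n k : ℕ} (D Q Q' : Matrix (Fin 2) (Fin 2) ℝ) (ε : ℝ)
    (r : Fin n × Fin k → Cfg (Fin 2) N) :
    jn (Fin n × Fin k) N r ∈ near (N := N) (treeG n k D Q Q') ε ↔
      ∀ (p p' : Fin n × Fin k) (c c' : Fin 2), |ovM (r p) (r p') c c' -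
        (if p = p' then D else if p.1 = p'.1 then Q' else Q) c c'| ≤ ε := by
  have hG : ∀ (p p' : Fin n × Fin k) (c c' : Fin 2), treeG n k D Q Q' (p, c) (p', c') =
      (if p = p' then D else if p.1 = p'.1 then Q' else Q) c c' := by
    intro p p' c c'
    unfold treeG
    split_ifs <;> rfl
  unfold near
  simp only [Finset.mem_filter, Finset.mem_univ, true_and]
  constructor
  · intro h p p' c c'
    have h1 := h (p, c) (p', c')
    rw [ov_jn, hG] at h1
    exact h1
  · intro h q q'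
    have h1 := h q.1 q'.1 q.2 q'.2
    rw [ov_jn]
    rw [← hG] at h1
    exact h1

/-- average of a function of `n k` replicas indexed by `Fin (n * k)` as an average over tuples indexed by
`Fin n × Fin k`: [`finProdFinEquiv`, `Fintype.sum_equiv`, `Fintype.prod_equiv`; the indicator sum is the sum over
the filter.] -/
theorem av_tree (b1 b2 c u : ℝ) (M N : ℕ) (x : PM M → ℝ) (n k : ℕ)
    (D Q Q' : Matrix (Fin 2) (Fin 2) ℝ) (ε : ℝ) :
    (SP b1 b2 c u M N x).av (n := n * k) (fun ρ => if ∀ (p p' : Fin n × Fin k) (c c' : Fin 2),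
      |ovM (ρ (finProdFinEquiv p)) (ρ (finProdFinEquiv p')) c c' -
        (if p = p' then D else if p.1 = p'.1 then Q' else Q) c c'| ≤ ε then (1 : ℝ) else 0) =
    PJ (J := Fin n × Fin k) (vA b1 b2 c M N x) (Pen u N) (Finset.univ.filter
      (fun r : Fin n × Fin k → Cfg (Fin 2) N =>
        jn (Fin n × Fin k) N r ∈ near (N := N) (treeG n k D Q Q') ε)) := by
  classical
  rw [SP, RS.av_ofFeat]
  unfold GA PJ
  refine integral_congr_ae (Filter.Eventually.of_forall fun y => ?_)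
  simp only
  rw [Finset.sum_filter]
  refine Fintype.sum_equiv
    (Equiv.arrowCongr (finProdFinEquiv (m := n) (n := k)) (Equiv.refl (Cfg (Fin 2) N))).symm _ _
    fun ρ => ?_
  have h1 : ∏ l, gw (vA b1 b2 c M N x) (Pen u N) y (ρ l) =
      ∏ p : Fin n × Fin k, gw (vA b1 b2 c M N x) (Pen u N) y (ρ (finProdFinEquiv p)) :=
    (Fintype.prod_equiv finProdFinEquiv _ _ fun p => rfl).symm
  have h2 : ((Equiv.arrowCongr (finProdFinEquiv (m := n) (n := k))
      (Equiv.refl (Cfg (Fin 2) N))).symm ρ) = fun p => ρ (finProdFinEquiv p) := rfl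
  rw [h1, h2]
  have h3 := LdA_near D Q Q' ε (fun p => ρ (finProdFinEquiv p))
  by_cases hc : jn (Fin n × Fin k) N (fun p => ρ (finProdFinEquiv p)) ∈
      near (N := N) (treeG n k D Q Q') ε
  · rw [if_pos hc, if_pos (h3.1 hc), mul_one]
  · rw [if_neg hc, if_neg (fun h => hc (h3.2 h)), mul_zero]

/-- [`O.trees` gives a positive limit `c` of the averages, so `av ≥ c/2` eventually along `hyperfilter ℕ`
(`UL.eventually_of_lt_ul` or the analogous lemma of Sys/Ul1), hence frequently in `atTop`; `av_tree` and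
`full_of_mass` with `Λ = Fo b1 + Fo b2`, `E N = near (treeM n k u Q Q') ε`, `J = Fin n × Fin k`
(nonempty as `n, k > 0`).] -/
theorem HSeq.tree (s : HSeq b1 b2 u (Fo b1 + Fo b2) (gP b1 b2 u)) (hb1 : 0 ≤ b1) (hb2 : 0 ≤ b2)
    (O : EF.OrdData (seqFam s)) {σ τ : ℝ} (hσ : σ ∈ O.T) (hτ : τ ∈ O.T) (h : σ ≤ τ) :
    TreeFull b1 b2 u (O.Q σ) (O.Q τ) := by
  intro n k hn hk ε hε
  have hpos := O.trees σ hσ τ hτ h n k hn hk ε hε
  have : Nonempty (Fin n × Fin k) := ⟨(⟨0, hn⟩, ⟨0, hk⟩)⟩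
  unfold Fam.E at hpos
  have hev := eventually_of_lt_ul (seqFam s).U _ 1 _ (fun i => RS.abs_av_le _ _ 1 (fun r => by
    split_ifs
    · rw [abs_one]
    · rw [abs_zero]
      exact zero_le_one)) (half_lt_self hpos)
  refine full_of_mass hb1 hb2 (fun N => near (N := N) (treeM n k u (O.Q σ) (O.Q τ)) ε) s.Nn
    (tendsto_atTop_mono s.ge tendsto_id) s.x s.hx s.hz s.hP (half_pos hpos) ?_
  have hU : (hyperfilter ℕ : Filter ℕ) ≤ atTop := by
    rw [← Nat.cofinite_eq_atTop]
    exact Filter.hyperfilter_le_cofinite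
  refine Frequently.filter_mono (f := (hyperfilter ℕ : Filter ℕ)) ?_ hU
  refine Filter.Eventually.frequently ?_
  refine Filter.Eventually.mono (f := (hyperfilter ℕ : Filter ℕ)) hev fun M hM => ?_
  refine hM.le.trans (le_of_eq ?_)
  exact av_tree b1 b2 (cN (s.Nn M)) u M (s.Nn M) (s.x M) n k (mat 1 1 u) (O.Q σ) (O.Q τ) ε

end SKC.H
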