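import Pool.Agent.H.MP_08eaf3_pr.H.SglA
import Pool.Agent.H.MP_08eaf3_pr.H.BlkE

/-!
# Part H2: the Parisi infimum of the single system and pair paths with `b2 = 0`, `u = 0`
-/

set_option autoImplicit false

open MeasureTheory ProbabilityTheory Filter Topology Matrix

namespace SKC.H

/-- [Induction on `l` with `Tm_pr`; the class `LG` is preserved by `PsiL` (Parts A, B, J) and contains
`F0`.] -/
theorem PsiL_pr {b : ℝ} {l : List (Step (Fin 2))} (hl : ∀ a ∈ l, 0 ≤ a.1) (z : Fin 2 → ℝ)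
    (hz : z 1 = 0) :
    PsiL (be b 0) l F0 z =
      PsiL (fun _ : Unit => b) (l.map (pr 0)) F0 (fun _ => z 0) + Real.log 2 := by
  induction l generalizing z with
  | nil => exact F0_pr z hz
  | cons s l ih =>
    have hs : 0 ≤ s.1 := hl s (List.mem_cons_self)
    have hl' : ∀ a ∈ l, 0 ≤ a.1 := fun a ha => hl a (List.mem_cons_of_mem _ ha)
    have hg : LG (PsiL (fun _ : Unit => b) (l.map (pr 0)) F0) := LG_PsiL _ _ _ LG_F0
    exact Tm_pr (b := b) hs s.2 hg (fun z hz => ih hl' z hz) z hz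

theorem SglB_ov_self {N : ℕ} (hN : 0 < N) (ρ : Cfg Unit N) (c c' : Unit) : ov ρ ρ c c' = 1 := by
  have hN' : (N : ℝ) ≠ 0 := by exact_mod_cast hN.ne'
  unfold ov
  have h1 : ∀ i, sg (ρ i c) * sg (ρ i c') = 1 := by
    intro i
    have : c = c' := Subsingleton.elim _ _
    subst this
    unfold sg
    split_ifs <;> norm_num
  simp only [h1, Finset.sum_const, Finset.card_univ, Fintype.card_fin, nsmul_eq_mul, mul_one]
  exact div_self hN'

/-- the Guerra bound: `FN b N ≤ Pf` for valid paths with `Qtot = 1`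
[`guerra` with `ε = 0`, `φ = 0`, `t = 0`, `B = univ`; `ov ρ ρ () () = 1`.] -/
theorem FN_le_Pf {b : ℝ} (hb : 0 ≤ b) {N : ℕ} (hN : 0 < N) {l : List (Step Unit)} (hl : Valid l)
    (hQ : Qtot l = 1) : FN b N ≤ Pf (fun _ => b) (fun _ => 0) 0 l := by
  have hN' : (0 : ℝ) < N := by exact_mod_cast hN
  have h := guerra (fun _ : Unit => b) (fun _ => hb) (fun _ => 0) 0 l hl 0 le_rfl N hN
    (Finset.univ : Finset (Cfg Unit N)) Finset.univ_nonempty (by
      intro ρ _ c c'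
      rw [SglB_ov_self hN, hQ]
      have : c = c' := Subsingleton.elim _ _
      subst this
      simp)
  unfold FN
  rw [div_le_iff₀ hN']
  simp only [zero_mul] at h
  have e : (N : ℝ) / 2 * (∑ _c : Unit, b) ^ 2 * 0 ^ 2 = 0 := by ring
  rw [e] at h
  linarith

/-- a valid path with total one -/
theorem SglB_one : Valid [((1 : ℝ), (1 : Matrix Unit Unit ℝ))] ∧
    Qtot [((1 : ℝ), (1 : Matrix Unit Unit ℝ))] = 1 := by
  refine ⟨⟨List.pairwise_singleton _ _, ?_, ⟨[], 1, rfl⟩⟩, ?_⟩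
  · intro a ha
    rw [List.mem_singleton] at ha
    subst ha
    norm_num
  · simp [Qtot]

/-- [The set is nonempty: the list `[(1, 1)]`; `FN_le_Pf`.] -/
theorem FN_le_Fo {b : ℝ} (hb : 0 ≤ b) {N : ℕ} (hN : 0 < N) : FN b N ≤ Fo b := by
  unfold Fo
  refine le_csInf ⟨_, [((1 : ℝ), (1 : Matrix Unit Unit ℝ))], SglB_one.1, SglB_one.2, rfl⟩ ?_
  rintro x ⟨l, hl, hQ, rfl⟩
  exact FN_le_Pf hb hN hl hQ

/-- [The set in `Fo` is bounded below by `log 2` (`FN_le_Pf`, `FN_bounds`).] -/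
theorem Fo_le {b : ℝ} (hb : 0 ≤ b) {l : List (Step Unit)} (hl : Valid l) (hQ : Qtot l = 1) :
    Fo b ≤ Pf (fun _ => b) (fun _ => 0) 0 l := by
  unfold Fo
  refine csInf_le ⟨FN b 1, ?_⟩ ⟨l, hl, hQ, rfl⟩
  rintro x ⟨l', hl', hQ', rfl⟩
  exact FN_le_Pf hb one_pos hl' hQ'

/-- [`PsiL_pr` at `0`, `corr_pr`, `valid_pr`, `Qtot_pr` (`mat 1 1 0 0 0 = 1`), `Fo_le`;
`psiEnd (fun _ => 0) 0 = F0`.] -/
theorem Fo_le_pair {b : ℝ} (hb : 0 ≤ b) {l : List (Step (Fin 2))} (hl : Valid l)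
    (hQ : Qtot l = mat 1 1 0) :
    Fo b + Real.log 2 ≤ Pf (be b 0) (fun _ => 0) 0 l := by
  have hQ' : Qtot (l.map (pr 0)) = 1 := by
    rw [Qtot_pr, hQ]
    ext i j
    simp [mat]
  have h1 := Fo_le hb (valid_pr hl 0) hQ'
  have h2 : Pf (be b 0) (fun _ => 0) 0 l =
      Pf (fun _ : Unit => b) (fun _ => 0) 0 (l.map (pr 0)) + Real.log 2 := by
    unfold Pf
    have e1 : (0 : Matrix Unit Unit ℝ) = (fun _ _ => (0 : Matrix (Fin 2) (Fin 2) ℝ) 0 0) := by
      ext i j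
      simp
    have e2 := PsiL_pr (b := b) (fun a ha => (hl.2.1 a ha).1) 0 rfl
    have e3 := corr_pr b l 0
    have e4 : (fun _ : Unit => (0 : Fin 2 → ℝ) 0) = 0 := rfl
    rw [e4] at e2
    rw [e1, ← e3]
    change PsiL (be b 0) l F0 0 - _ = PsiL (fun _ : Unit => b) (l.map (pr 0)) F0 0 - _ + _
    rw [e2]
    ring
  rw [h2]
  linarith

end SKC.H
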