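import Pool.Agent.H.MP_08eaf3_pr.H.AsmA
import Pool.Agent.H.MP_08eaf3_pr.H.BlkF
import Pool.Agent.H.MP_08eaf3_pr.H.SglB

/-!
# Part H2: the Parisi formula
-/

set_option autoImplicit false

open MeasureTheory ProbabilityTheory Filter Topology Matrix

namespace SKC.H

/-- [`goodBlocks_single`, `exists_seq` with `b2 = 0`, `u = 0`, `A = liminf FN b + log 2`; `HSeq.exists_path` and
`Fo_le_pair`: `Fo b + log 2 ≤ A + ε` for every `ε`.] -/
theorem Fo_le_liminf {b : ℝ} (hb : 0 ≤ b) : Fo b ≤ liminf (FN b) atTop := by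
  obtain ⟨s⟩ := exists_seq hb le_rfl (by norm_num : |(0 : ℝ)| ≤ 1)
    (fun M => goodBlocks_single hb M)
  refine le_of_forall_pos_le_add fun ε hε => ?_
  obtain ⟨l, hl, hQ, hP⟩ := s.exists_path hb le_rfl (by norm_num : |(0 : ℝ)| ≤ 1) hε
  have h1 := Fo_le_pair hb hl hQ
  linarith

/-- [`Fo_le_liminf`, `FN_le_Fo` for `N > 0`; `tendsto_of_le_liminf_of_limsup_le` (bounds: `FN_bounds`).] -/
theorem parisi {b : ℝ} (hb : 0 ≤ b) : Tendsto (FN b) atTop (𝓝 (Fo b)) := by
  have hbu : IsBoundedUnder (· ≤ ·) atTop (FN b) := by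
    refine ⟨Fo b, ?_⟩
    rw [eventually_map]
    filter_upwards [eventually_gt_atTop 0] with N hN using FN_le_Fo hb hN
  have hbl : IsBoundedUnder (· ≥ ·) atTop (FN b) := by
    refine ⟨Real.log 2, ?_⟩
    rw [eventually_map]
    filter_upwards [eventually_gt_atTop 0] with N hN using (FN_bounds hb hN).1
  refine tendsto_of_le_liminf_of_limsup_le (Fo_le_liminf hb) ?_ hbu hbl
  refine limsup_le_of_le hbl.isCoboundedUnder_flip ?_
  filter_upwards [eventually_gt_atTop 0] with N hN using FN_le_Fo hb hN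

end SKC.H
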