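import Pool.Agent.H.MP_08eaf3_pr.H.LdA
import Pool.Agent.H.MP_08eaf3_pr.H.Par
import Pool.Agent.H.MP_08eaf3_pr.H.BlkD
import Pool.Agent.H.MP_08eaf3_pr.EF.Out

/-!
# Theorem L
-/

set_option autoImplicit false

open MeasureTheory ProbabilityTheory Filter Topology Matrix

namespace SKC.H

variable {b1 b2 u : ℝ}

/-- the field `path` of Theorem L [`HSeq.path` for `ε = δ` gives `η`; `exists_cells` for `min η δ` with the
representatives `σ, τ`; `cells_split`.  Cells of mesh `min η δ` are cells of mesh `η` (structure with the same data,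
`near` weakened), the path is the same.] -/
theorem HSeq.path_split (s : HSeq b1 b2 u (Fo b1 + Fo b2) (gP b1 b2 u)) (hb1 : 0 ≤ b1)
    (hb2 : 0 ≤ b2) (hu : |u| ≤ 1) (O : EF.OrdData (seqFam s)) (δ : ℝ) (hδ : 0 < δ) (σ : ℝ)
    (hσ : σ ∈ O.T) (τ : ℝ) (hτ : τ ∈ O.T) (h : σ ≤ τ) :
    ∃ l1 l2 l3 : List (Step (Fin 2)),
    PairPath b1 b2 u (O.Q σ) (O.Q τ) δ l1 l2 l3 ∧
    (∀ a ∈ l1, a.1 ≤ O.μ.real (Set.Iio σ)) ∧
    (∀ a ∈ l2, O.μ.real (Set.Iic σ) ≤ a.1 ∧ a.1 ≤ O.μ.real (Set.Iio τ)) ∧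
    (∀ a ∈ l3, O.μ.real (Set.Iic τ) ≤ a.1) ∧
    (∀ l' l'' : List (Step (Fin 2)), l1 ++ (l2 ++ l3) = l' ++ l'' → l' ≠ [] → l'' ≠ [] →
      ∃ x ∈ O.T, Qtot l' = O.Q x) ∧
    |Gl (l2 ++ l3) - ∫ x, (u - O.Q (max σ x) 0 1) ∂O.μ| ≤ δ ∧
    |Gl l3 - ∫ x, (u - O.Q (max τ x) 0 1) ∂O.μ| ≤ δ ∧
    (σ = τ → l2 = []) ∧
    (σ = 0 → l1 = [((0 : ℝ), 0)]) ∧
    ((∀ x ∈ O.T, x ≤ τ) → ∃ E, l3 = [((1 : ℝ), E)]) := by
  obtain ⟨η, hη, hp⟩ := s.path hb1 hb2 hu hδ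
  obtain ⟨C, k, k', hkk, hk', hCk, hCk', heq⟩ :=
    exists_cells (pdata O) (lt_min hη hδ) σ τ hσ hτ h
  obtain ⟨l1, l2, l3, e0, e1, e2, e3, e4, e5, e6, e7, e8, e9, e10, e11, e12, e13, e14⟩ :=
    cells_split (pdata O) C k k' hkk hk'
  have hPf := hp O ⟨C.r, C.t, C.c, C.mem, C.lo, C.hi, C.null,
    fun x hx j hj h1 h2 => (C.near x hx j hj h1 h2).trans (min_le_left _ _)⟩
  have hPf' : Pf (be b1 b2) (fun _ => 0) 0 (cpath (pdata O) C) ≤ Fo b1 + Fo b2 + δ := hPf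
  rw [e0] at hPf'
  subst hCk
  subst hCk'
  exact ⟨l1, l2, l3, ⟨e1, e2, e3, e4, e5, hPf'⟩, e6, e7, e8, e9, e10.trans (min_le_right _ _),
    e11.trans (min_le_right _ _), fun hh => e12 (heq hh), e13, e14⟩

/-- Theorem L [`parisi`, `goodBlocks_pair`, `exists_seq` with `A = Fo b1 + Fo b2`, `memU_abs_le`; `EF.ordData`;
fields from `OrdData` (`(seqFam s).u = u` by `rfl`), `HSeq.tree`, `HSeq.path_split`.] -/
theorem thmL (b1 b2 u : ℝ) (hb1 : 0 < b1) (hb2 : 0 < b2) (hu : memU b1 b2 u) :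
    Nonempty (LData b1 b2 u) := by
  have hu1 := memU_abs_le hu
  have h1 := parisi hb1.le
  have h2 := parisi hb2.le
  obtain ⟨s⟩ := exists_seq hb1.le hb2.le hu1
    (fun M => goodBlocks_pair hb1.le hb2.le hu h1 h2 M)
  obtain ⟨O⟩ := EF.ordData (seqFam s) (seqFam_isGG hu1 s)
  exact ⟨{ T := O.T, Q := O.Q, μ := O.μ, prob := O.prob, comp := O.comp, ne := O.ne, sub := O.sub,
           supp1 := O.supp1, supp2 := O.supp2, psd := O.psd, tr := O.tr, leD := O.leD,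
           mono := O.mono,
           tree := fun σ hσ τ hτ h => HSeq.tree s hb1.le hb2.le O hσ hτ h,
           path := fun δ hδ σ hσ τ hτ h =>
             HSeq.path_split s hb1.le hb2.le hu1 O δ hδ σ hσ τ hτ h }⟩

end SKC.H
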