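import Pool.Agent.H.MP_08eaf3_pr.H.CavA

/-!
# Part H: small Gibbs mass from a gap of free energies
-/

set_option autoImplicit false

open MeasureTheory ProbabilityTheory Filter Topology Matrix

namespace SKC.H

theorem MassA_meas {Ω ι : Type} [Fintype ι] (B : Finset Ω) (v : Ω → ι → ℝ) (a : Ω → ℝ) :
    Measurable (fun x : ι → ℝ => lse B (fun ω => dot x (v ω) + a ω)) := by
  unfold lse dot
  fun_prop

theorem MassA_sq (t : ℝ) : t ^ 2 ≤ 2 * (Real.exp t + Real.exp (-t)) := by
  rcases le_total 0 t with h | h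
  · have h1 := Real.quadratic_le_exp_of_nonneg h
    have h2 := Real.exp_pos (-t)
    nlinarith
  · have h1 := Real.quadratic_le_exp_of_nonneg (neg_nonneg.2 h)
    have h2 := Real.exp_pos t
    nlinarith

theorem MassA_int {Ω ι : Type} [Fintype ι] {B : Finset Ω} (hB : B.Nonempty) (v : Ω → ι → ℝ)
    (a : Ω → ℝ) : Integrable (fun x => (lse B (fun ω => dot x (v ω) + a ω) - EL B v a) ^ 2)
      (gam ι) := by
  obtain ⟨ω₀, hω₀⟩ := hB
  have i1 : Integrable (fun x => Real.exp (lse B (fun ω => dot x (v ω) + a ω))) (gam ι) := by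
    have h1 : (fun x : ι → ℝ => Real.exp (lse B (fun ω => dot x (v ω) + a ω))) =
        fun x => ∑ ω ∈ B, Real.exp (dot x (v ω)) * Real.exp (a ω) := by
      funext x
      unfold lse
      rw [Real.exp_log (Finset.sum_pos (fun ω _ => Real.exp_pos _) ⟨ω₀, hω₀⟩)]
      exact Finset.sum_congr rfl fun ω _ => Real.exp_add _ _
    rw [h1]
    exact integrable_finsetSum _ fun ω _ => (integrable_exp_dot (v ω)).mul_const _
  have i2 : Integrable (fun x => Real.exp (-lse B (fun ω => dot x (v ω) + a ω))) (gam ι) := by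
    have h1 : Integrable (fun x : ι → ℝ => Real.exp (dot x (-(v ω₀))) * Real.exp (-(a ω₀)))
      (gam ι) := (integrable_exp_dot (-(v ω₀))).mul_const _
    refine h1.mono' ((MassA_meas B v a).neg.exp).aestronglyMeasurable
      (Filter.Eventually.of_forall fun x => ?_)
    rw [Real.norm_eq_abs, abs_of_pos (Real.exp_pos _), ← Real.exp_add]
    apply Real.exp_le_exp.2
    have h2 : dot x (v ω₀) + a ω₀ ≤ lse B (fun ω => dot x (v ω) + a ω) := by
      unfold lse
      rw [Real.le_log_iff_exp_le (Finset.sum_pos (fun ω _ => Real.exp_pos _) ⟨ω₀, hω₀⟩)]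
      exact Finset.single_le_sum (f := fun ω => Real.exp (dot x (v ω) + a ω))
        (fun ω _ => (Real.exp_pos _).le) hω₀
    have h3 : dot x (-(v ω₀)) = -dot x (v ω₀) := by
      unfold dot
      rw [← Finset.sum_neg_distrib]
      exact Finset.sum_congr rfl fun i _ => by rw [Pi.neg_apply, mul_neg]
    rw [h3]
    linarith
  have i3 : Integrable (fun x => 4 * (Real.exp (lse B (fun ω => dot x (v ω) + a ω)) +
      Real.exp (-lse B (fun ω => dot x (v ω) + a ω))) + 2 * EL B v a ^ 2) (gam ι) :=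
    ((i1.add i2).const_mul 4).add (integrable_const _)
  refine i3.mono' (((MassA_meas B v a).sub_const _).pow_const 2).aestronglyMeasurable
    (Filter.Eventually.of_forall fun x => ?_)
  rw [Real.norm_eq_abs, abs_of_nonneg (sq_nonneg _)]
  have h1 := MassA_sq (lse B (fun ω => dot x (v ω) + a ω))
  nlinarith [sq_nonneg (lse B (fun ω => dot x (v ω) + a ω) + EL B v a)]

/-- Chebyshev for `lse` [`var_lse_le`, `meas_ge_le_mul_pow_eLpNorm` or Markov's inequality for the
square (`mul_meas_ge_le_integral_of_nonneg`).] -/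
theorem conc {Ω ι : Type} [Fintype ι] {B : Finset Ω} (hB : B.Nonempty) (v : Ω → ι → ℝ)
    (a : Ω → ℝ) {D t : ℝ} (hD : ∀ ω ∈ B, dot (v ω) (v ω) ≤ D) (ht : 0 < t) :
    (gam ι).real {x | t ≤ |lse B (fun ω => dot x (v ω) + a ω) - EL B v a|} ≤ D / t ^ 2 := by
  have h1 := var_lse_le B hB v a D hD
  have h2 := mul_meas_ge_le_integral_of_nonneg (μ := gam ι)
    (f := fun x => (lse B (fun ω => dot x (v ω) + a ω) - EL B v a) ^ 2)
    (Filter.Eventually.of_forall fun x => sq_nonneg _) (MassA_int hB v a) (t ^ 2)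
  have h3 : {x : ι → ℝ | t ≤ |lse B (fun ω => dot x (v ω) + a ω) - EL B v a|} =
      {x | t ^ 2 ≤ (lse B (fun ω => dot x (v ω) + a ω) - EL B v a) ^ 2} := by
    ext x
    rw [Set.mem_ofPred_eq, Set.mem_ofPred_eq, ← sq_abs (lse B _ - _)]
    exact (sq_le_sq₀ ht.le (abs_nonneg _)).symm
  rw [h3, le_div_iff₀ (by positivity)]
  have h4 := h2.trans h1
  linarith

/-- a gap `3 t` of free energies makes the Gibbs mass of `B` small. [Let `G(x)` be the Gibbs mass
`∑_{ω ∈ B} gw`; `0 ≤ G ≤ 1`, `log G = lse B - lse univ`.  Outside the two exceptional sets of `conc`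
(for `B` and for `univ`, each of measure `≤ D/t^2`) `log G ≤ EL B + t - EL univ + t ≤ -t`.  If `B` is
empty the mass is `0`.] -/
theorem mass_small {Ω ι : Type} [Fintype Ω] [DecidableEq Ω] [Nonempty Ω] [Fintype ι]
    (B : Finset Ω) (v : Ω → ι → ℝ) (a : Ω → ℝ) {D t : ℝ} (hD : ∀ ω, dot (v ω) (v ω) ≤ D)
    (ht : 0 < t) (hgap : B.Nonempty → EL B v a + 3 * t ≤ EL Finset.univ v a) :
    E1 v a (fun ω => if ω ∈ B then 1 else 0) ≤ Real.exp (-t) + 2 * D / t ^ 2 := by
  have hD0 : 0 ≤ D := by
    obtain ⟨ω⟩ := ‹Nonempty Ω›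
    refine le_trans ?_ (hD ω)
    unfold dot
    exact Finset.sum_nonneg fun i _ => mul_self_nonneg _
  unfold E1
  rcases B.eq_empty_or_nonempty with rfl | hB
  · have h1 : ∀ x : ι → ℝ, ∑ ω, gw v a x ω * (if ω ∈ (∅ : Finset Ω) then 1 else 0) = 0 := by
      intro x
      refine Finset.sum_eq_zero fun ω _ => ?_
      rw [if_neg (Finset.notMem_empty ω), mul_zero]
    simp_rw [h1]
    rw [integral_zero]
    positivity
  have hgap' := hgap hB
  have c1 := conc hB v a (D := D) (fun ω _ => hD ω) ht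
  have c2 := conc (Finset.univ_nonempty (α := Ω)) v a (D := D) (fun ω _ => hD ω) ht
  have m1 : MeasurableSet {x : ι → ℝ | t ≤ |lse B (fun ω => dot x (v ω) + a ω) - EL B v a|} :=
    measurableSet_le measurable_const ((MassA_meas B v a).sub_const _).abs
  have m2 : MeasurableSet {x : ι → ℝ | t ≤ |lse Finset.univ (fun ω => dot x (v ω) + a ω) -
      EL Finset.univ v a|} :=
    measurableSet_le measurable_const ((MassA_meas Finset.univ v a).sub_const _).abs
  set S1 := {x : ι → ℝ | t ≤ |lse B (fun ω => dot x (v ω) + a ω) - EL B v a|} with hS1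
  set S2 := {x : ι → ℝ | t ≤ |lse Finset.univ (fun ω => dot x (v ω) + a ω) -
      EL Finset.univ v a|} with hS2
  have i1 : Integrable (S1.indicator (fun _ => (1 : ℝ))) (gam ι) :=
    (integrable_const (1 : ℝ)).indicator m1
  have i2 : Integrable (S2.indicator (fun _ => (1 : ℝ))) (gam ι) :=
    (integrable_const (1 : ℝ)).indicator m2
  have hG0 : ∀ x : ι → ℝ, 0 ≤ ∑ ω, gw v a x ω * (if ω ∈ B then 1 else 0) := by
    intro x
    refine Finset.sum_nonneg fun ω _ => mul_nonneg (gw_nonneg v a x ω) ?_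
    split_ifs
    · exact zero_le_one
    · exact le_rfl
  have hG1 : ∀ x : ι → ℝ, ∑ ω, gw v a x ω * (if ω ∈ B then 1 else 0) ≤ 1 := by
    intro x
    calc ∑ ω, gw v a x ω * (if ω ∈ B then 1 else 0) ≤ ∑ ω, gw v a x ω := by
          refine Finset.sum_le_sum fun ω _ => ?_
          have h1 := gw_nonneg v a x ω
          split_ifs
          · rw [mul_one]
          · rw [mul_zero]
            exact h1
      _ = 1 := sum_gw v a x
  have hG : ∀ x : ι → ℝ, ∑ ω, gw v a x ω * (if ω ∈ B then 1 else 0) =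
      Real.exp (lse B (fun ω => dot x (v ω) + a ω) -
        lse Finset.univ (fun ω => dot x (v ω) + a ω)) := by
    intro x
    have p1 : 0 < ∑ ω ∈ B, Real.exp (dot x (v ω) + a ω) :=
      Finset.sum_pos (fun ω _ => Real.exp_pos _) hB
    have p2 : 0 < ∑ ω, Real.exp (dot x (v ω) + a ω) :=
      Finset.sum_pos (fun ω _ => Real.exp_pos _) Finset.univ_nonempty
    unfold lse gw
    rw [Real.exp_sub, Real.exp_log p1, Real.exp_log p2, Finset.sum_div]
    simp_rw [mul_ite, mul_one, mul_zero]
    rw [Finset.sum_ite_mem, Finset.univ_inter]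
  have hle : ∀ x : ι → ℝ, ∑ ω, gw v a x ω * (if ω ∈ B then 1 else 0) ≤
      Real.exp (-t) + S1.indicator (fun _ => (1 : ℝ)) x + S2.indicator (fun _ => (1 : ℝ)) x := by
    intro x
    have n1 : 0 ≤ S1.indicator (fun _ => (1 : ℝ)) x :=
      Set.indicator_nonneg (fun _ _ => zero_le_one) x
    have n2 : 0 ≤ S2.indicator (fun _ => (1 : ℝ)) x :=
      Set.indicator_nonneg (fun _ _ => zero_le_one) x
    have n3 := Real.exp_pos (-t)
    by_cases hx1 : x ∈ S1
    · rw [Set.indicator_of_mem hx1]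
      have := hG1 x
      linarith
    by_cases hx2 : x ∈ S2
    · rw [Set.indicator_of_mem hx2]
      have := hG1 x
      linarith
    rw [hS1, Set.mem_ofPred_eq, not_le] at hx1
    rw [hS2, Set.mem_ofPred_eq, not_le] at hx2
    have e1 := (abs_lt.1 hx1).2
    have e2 := (abs_lt.1 hx2).1
    have e3 : ∑ ω, gw v a x ω * (if ω ∈ B then 1 else 0) ≤ Real.exp (-t) := by
      rw [hG x]
      exact Real.exp_le_exp.2 (by linarith)
    linarith
  have i3 : Integrable (fun x : ι → ℝ => Real.exp (-t) + S1.indicator (fun _ => (1 : ℝ)) x +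
      S2.indicator (fun _ => (1 : ℝ)) x) (gam ι) := ((integrable_const _).add i1).add i2
  refine (integral_mono_of_nonneg (Filter.Eventually.of_forall hG0) i3
    (Filter.Eventually.of_forall hle)).trans ?_
  have e4 : ∫ x, (Real.exp (-t) + S1.indicator (fun _ => (1 : ℝ)) x +
      S2.indicator (fun _ => (1 : ℝ)) x) ∂(gam ι) =
      Real.exp (-t) + (gam ι).real S1 + (gam ι).real S2 := by
    have j1 : Integrable (fun x : ι → ℝ => Real.exp (-t) + S1.indicator (fun _ => (1 : ℝ)) x)
      (gam ι) := (integrable_const _).add i1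
    rw [integral_add j1 i2, integral_add (integrable_const _) i1, integral_const,
      integral_indicator_const _ m1, integral_indicator_const _ m2]
    simp
  rw [e4]
  have e5 : 2 * D / t ^ 2 = D / t ^ 2 + D / t ^ 2 := by ring
  rw [e5]
  linarith

end SKC.H
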