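import Pool.Agent.H.MP_08eaf3_pr.H.OneC

/-!
# Part H: upper bounds of the perturbed free energy by the two single systems
-/

set_option autoImplicit false

open MeasureTheory ProbabilityTheory Filter Topology Matrix

namespace SKC.H

/-- pair configurations are pairs of single configurations -/
def prE (N : ℕ) : Cfg Unit N × Cfg Unit N ≃ Cfg (Fin 2) N where
  toFun p := fun i => ![p.1 i (), p.2 i ()]
  invFun ρ := (fun i _ => ρ i 0, fun i _ => ρ i 1)
  left_inv p := by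
    obtain ⟨σ, τ⟩ := p
    refine Prod.ext ?_ ?_ <;> funext i j <;> simp
  right_inv ρ := by
    funext i j
    fin_cases j <;> simp

theorem Upp_vH (b1 b2 : ℝ) (N : ℕ) (p : Cfg Unit N × Cfg Unit N) (q : Fin N × Fin N) :
    vH (be b1 b2) N (prE N p) q = vH (fun _ : Unit => b1) N p.1 q +
      vH (fun _ : Unit => b2) N p.2 q := by
  obtain ⟨σ, τ⟩ := p
  simp [vH, prE, be, Fin.sum_univ_two, add_div]

/-- the pair free energy without constraint is the sum of the single ones.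
[`EL_map` with `prE`; `vH (be b1 b2) N (prE (σ,τ)) = vH b1 σ + vH b2 τ`; `EL_prod`; `FN = EL / N`.] -/
theorem EL_pair (b1 b2 : ℝ) {N : ℕ} (hN : 0 < N) :
    EL (Finset.univ : Finset (Cfg (Fin 2) N)) (vH (be b1 b2) N) (fun _ => 0) =
      N * (FN b1 N + FN b2 N) := by
  have hN' : (N : ℝ) ≠ 0 := by exact_mod_cast hN.ne'
  have h1 := EL_map (prE N).toEmbedding (Finset.univ : Finset (Cfg Unit N × Cfg Unit N))
    (vH (be b1 b2) N) (fun _ => 0)
  rw [Finset.map_univ_equiv] at h1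
  rw [h1]
  have h2 := EL_prod (B := (Finset.univ : Finset (Cfg Unit N)))
    (B' := (Finset.univ : Finset (Cfg Unit N))) Finset.univ_nonempty Finset.univ_nonempty
    (vH (fun _ : Unit => b1) N) (vH (fun _ : Unit => b2) N) (fun _ => 0) (fun _ => 0)
  have h3 : (fun p : Cfg Unit N × Cfg Unit N => vH (be b1 b2) N ((prE N).toEmbedding p)) =
      fun p i => vH (fun _ : Unit => b1) N p.1 i + vH (fun _ : Unit => b2) N p.2 i := by
    funext p q
    exact Upp_vH b1 b2 N p q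
  have h4 : (fun p : Cfg Unit N × Cfg Unit N => (0 : ℝ)) = fun p => (0 : ℝ) + 0 := by
    funext p
    rw [add_zero]
  rw [h3, h4]
  rw [Finset.univ_product_univ] at h2
  rw [h2]
  unfold FN
  field_simp

/-- upper bound for a set on which the penalty is at most `-N η^2` [`EL_mono`, `EL_add_const`,
`EL_subset`, `EL_diff_le` with `abs_dot_vP_le` and `|c^2 N C - N C| ≤ B`, `EL_pair`.] -/
theorem EL_le_pair {b1 b2 u η c : ℝ} (hb1 : 0 ≤ b1) (hb2 : 0 ≤ b2)
    {M N : ℕ} (hN : 0 < N) (hc : 1 - 1 / ((N : ℝ) + 1) ≤ c ^ 2) (hc1 : c ^ 2 ≤ 1)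
    {x : PM M → ℝ} (hx : ∀ p, x p ∈ Set.Icc (1 : ℝ) 2) (hη : 0 ≤ η)
    {B : Finset (Cfg (Fin 2) N)} (hne : B.Nonempty) (hB : ∀ ρ ∈ B, η ≤ |ov ρ ρ 0 1 - u|) :
    EL B (vA b1 b2 c M N x) (Pen u N) ≤
      N * (FN b1 N + FN b2 N) - N * η ^ 2 + (b1 + b2) ^ 2 +
        4 * ((M : ℝ) + 1) ^ 3 * (N : ℝ) ^ (3 / 4 : ℝ) := by
  have hN1 : (0 : ℝ) < N := by exact_mod_cast hN
  have h1 : EL B (vA b1 b2 c M N x) (Pen u N) ≤
      EL B (vA b1 b2 c M N x) (fun _ => 0 + -(N * η ^ 2)) := by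
    refine EL_mono hne _ fun ρ hρ => ?_
    have h2 := hB ρ hρ
    have h3 : η ^ 2 ≤ (ov ρ ρ 0 1 - u) ^ 2 := by
      rw [← sq_abs (ov ρ ρ 0 1 - u)]
      exact pow_le_pow_left₀ hη h2 2
    unfold Pen
    have h4 := mul_le_mul_of_nonneg_left h3 hN1.le
    linarith
  rw [EL_add_const hne] at h1
  have h5 := EL_subset hne (Finset.subset_univ B) (vA b1 b2 c M N x) (fun _ => 0)
  have h6 := EL_diff_le (Finset.univ : Finset (Cfg (Fin 2) N)) Finset.univ_nonempty
    (vA b1 b2 c M N x) (vH (be b1 b2) N) (fun _ => 0)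
    ((b1 + b2) ^ 2 + 4 * ((M : ℝ) + 1) ^ 3 * (N : ℝ) ^ (3 / 4 : ℝ)) (fun ρ _ ρ' _ => by
      rw [dot_vA, dot_vH]
      have h7 := abs_dot_vP_le N hx ρ ρ'
      have h8 := Cf_nonneg (be_nonneg hb1 hb2) (fun c c' => ov ρ ρ' c c')
      have h9 := Cf_le (be_nonneg hb1 hb2) (R := fun c c' => ov ρ ρ' c c')
        (fun c c' => abs_ov_le ρ ρ' c c')
      rw [sum_be] at h9
      set C := Cf (be b1 b2) (fun c c' => ov ρ ρ' c c')
      set P := dot (vP M N x ρ) (vP M N x ρ')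
      have h10 : |c ^ 2 * (N * C) - N * C| ≤ (b1 + b2) ^ 2 := by
        have h11 : c ^ 2 * (N * C) - N * C = -((1 - c ^ 2) * (N * C)) := by ring
        rw [h11, abs_neg, abs_of_nonneg (mul_nonneg (by linarith) (mul_nonneg hN1.le h8))]
        have h12 : (1 - c ^ 2) * (N * C) ≤ 1 / ((N : ℝ) + 1) * (N * C) :=
          mul_le_mul_of_nonneg_right (by linarith) (mul_nonneg hN1.le h8)
        have h13 : 1 / ((N : ℝ) + 1) * (N * C) ≤ C := by
          rw [one_div, inv_mul_le_iff₀ (by linarith)]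
          nlinarith
        linarith
      have h14 : c ^ 2 * (N * C) + P - N * C = (c ^ 2 * (N * C) - N * C) + P := by ring
      rw [h14]
      exact (abs_add_le _ _).trans (add_le_add h10 h7))
  have h7 := (abs_le.1 h6).2
  have h8 := EL_pair b1 b2 hN
  rw [h8] at h7
  linarith

/-- `cN` satisfies the hypotheses on `c` -/
theorem cN_bounds (N : ℕ) : 1 - 1 / ((N : ℝ) + 1) ≤ cN N ^ 2 ∧ cN N ^ 2 ≤ 1 := by
  have h0 : (0 : ℝ) ≤ N := Nat.cast_nonneg N
  rw [cN_sq]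
  constructor
  · apply le_of_eq
    field_simp
    ring
  · rw [div_le_one (by linarith)]
    linarith

end SKC.H
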