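import Pool.Agent.H.MP_08eaf3_pr.H.MassA
import Pool.Agent.H.MP_08eaf3_pr.H.Frz
import Pool.Agent.H.MP_08eaf3_pr.H.Upp
import Pool.Agent.H.MP_08eaf3_pr.Sys.Gw

/-!
# Part H: the average of `|R - u|` is small
-/

set_option autoImplicit false

open MeasureTheory ProbabilityTheory Filter Topology Matrix

namespace SKC.H

theorem MassB_int {Ω ι : Type} [Fintype Ω] [Fintype ι] (v : Ω → ι → ℝ) (a : Ω → ℝ) (f : Ω → ℝ) :
    Integrable (fun x => ∑ ω, gw v a x ω * f ω) (gam ι) := by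
  refine integrable_finsetSum _ fun ω _ => ?_
  refine Integrable.mul_const ?_ _
  refine Integrable.of_bound (SKC.gw_continuous v a ω).aestronglyMeasurable 1 ?_
  refine Filter.Eventually.of_forall fun x => ?_
  rw [Real.norm_eq_abs, abs_of_nonneg (SKC.gw_nonneg v a x ω)]
  exact SKC.gw_le_one v a x ω

theorem MassB_mono {Ω ι : Type} [Fintype Ω] [Fintype ι] (v : Ω → ι → ℝ) (a : Ω → ℝ)
    {f g : Ω → ℝ} (h : ∀ ω, f ω ≤ g ω) : E1 v a f ≤ E1 v a g := by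
  unfold E1
  refine integral_mono (MassB_int v a f) (MassB_int v a g) fun x => ?_
  exact Finset.sum_le_sum fun ω _ => mul_le_mul_of_nonneg_left (h ω) (SKC.gw_nonneg v a x ω)

theorem MassB_affine {Ω ι : Type} [Fintype Ω] [Nonempty Ω] [Fintype ι] (v : Ω → ι → ℝ) (a : Ω → ℝ)
    (g : Ω → ℝ) (η : ℝ) : E1 v a (fun ω => η + 2 * g ω) = η + 2 * E1 v a g := by
  unfold E1
  have h1 : ∀ x, ∑ ω, gw v a x ω * (η + 2 * g ω) = η + 2 * ∑ ω, gw v a x ω * g ω := by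
    intro x
    calc ∑ ω, gw v a x ω * (η + 2 * g ω) = ∑ ω, (gw v a x ω * η + 2 * (gw v a x ω * g ω)) :=
          Finset.sum_congr rfl fun ω _ => by ring
      _ = (∑ ω, gw v a x ω) * η + 2 * ∑ ω, gw v a x ω * g ω := by
          rw [Finset.sum_add_distrib, ← Finset.sum_mul, ← Finset.mul_sum]
      _ = _ := by rw [SKC.gw_sum, one_mul]
  rw [integral_congr_ae (Filter.Eventually.of_forall h1),
    integral_add (integrable_const _) ((MassB_int v a g).const_mul 2), integral_const_mul]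
  simp

/-- diagonal of the kernel of `vA` [`dot_vA`, `Cf_le`, `abs_dot_vP_le`, `c^2 ≤ 1`.] -/
theorem dot_vA_le {b1 b2 c : ℝ} (hb1 : 0 ≤ b1) (hb2 : 0 ≤ b2) (hc : c ^ 2 ≤ 1) {M N : ℕ}
    {x : PM M → ℝ} (hx : ∀ p, x p ∈ Set.Icc (1 : ℝ) 2) (ρ : Cfg (Fin 2) N) :
    dot (vA b1 b2 c M N x ρ) (vA b1 b2 c M N x ρ) ≤
      N * (b1 + b2) ^ 2 + 4 * ((M : ℝ) + 1) ^ 3 * (N : ℝ) ^ (3 / 4 : ℝ) := by
  rw [dot_vA]
  have h1 := Cf_le (be_nonneg hb1 hb2) (R := fun c c' => ov ρ ρ c c') (fun c c' => abs_ov_le ρ ρ c c')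
  rw [sum_be] at h1
  have h0 := Cf_nonneg (be_nonneg hb1 hb2) (fun c c' => ov ρ ρ c c')
  have h2 := (abs_le.1 (abs_dot_vP_le N hx ρ ρ)).2
  have hN : (0 : ℝ) ≤ N := Nat.cast_nonneg N
  have h3 : (N : ℝ) * Cf (be b1 b2) (fun c c' => ov ρ ρ c c') ≤ N * (b1 + b2) ^ 2 :=
    mul_le_mul_of_nonneg_left h1 hN
  have h4 : c ^ 2 * ((N : ℝ) * Cf (be b1 b2) (fun c c' => ov ρ ρ c c')) ≤
      1 * (N * Cf (be b1 b2) (fun c c' => ov ρ ρ c c')) :=
    mul_le_mul_of_nonneg_right hc (mul_nonneg hN h0)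
  linarith

/-- the average of `|R - u|` is small in the primed system, if the free energy is large.
[Let `η = δ/2`, `B = {ρ : η < |R - u|}`: `dev ≤ η + 2 mass(B)` (`|R-u| ≤ 2`).  `e := η^2/4`.  By
`EL_le_pair` `EL B ≤ N(F1+F2) - N η^2 + C N^{3/4} ≤ LZ - N η^2 + N e + C N^{3/4}`, so the gap is at
least `N η^2/2 =: 3 t` for `N` large; `mass_small` with `dot_vA_le` gives
`mass ≤ exp(-N η^2/6) + 72 (B N + C N^{3/4})/(N^2 η^4) → 0`.] -/
theorem dev_small {b1 b2 u : ℝ} (hb1 : 0 ≤ b1) (hb2 : 0 ≤ b2) (hu : |u| ≤ 1) (M : ℕ) {δ : ℝ}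
    (hδ : 0 < δ) : ∃ e : ℝ, 0 < e ∧ ∃ N1 : ℕ, ∀ N : ℕ, N1 ≤ N → ∀ x : PM M → ℝ,
      (∀ p, x p ∈ Set.Icc (1 : ℝ) 2) →
      (N : ℝ) * (FN b1 N + FN b2 N) - N * e ≤ LZ b1 b2 (cN N) u M N x →
      dev b1 b2 u M N x ≤ δ := by
  classical
  set η : ℝ := δ / 2 with hη
  have hη0 : 0 < η := half_pos hδ
  set A : ℝ := (b1 + b2) ^ 2 with hA
  set C : ℝ := 4 * ((M : ℝ) + 1) ^ 3 with hC
  have hA0 : 0 ≤ A := sq_nonneg _
  have hC0 : 0 ≤ C := by positivity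
  have hη2 : 0 < η ^ 2 := by positivity
  set T : ℝ := 4 * (A + C) / η ^ 2 with hT
  have hT0 : 0 ≤ T := by positivity
  refine ⟨η ^ 2 / 4, by positivity,
    ⌈1 + T ^ 4 + 576 * (A + C) / (η ^ 4 * δ) + 48 / (η ^ 2 * δ)⌉₊, fun N hN x hx hle => ?_⟩
  have hN' : 1 + T ^ 4 + 576 * (A + C) / (η ^ 4 * δ) + 48 / (η ^ 2 * δ) ≤ N :=
    (Nat.le_ceil _).trans (by exact_mod_cast hN)
  have hp1 : 0 ≤ T ^ 4 := by positivity
  have hp2 : 0 ≤ 576 * (A + C) / (η ^ 4 * δ) := by positivity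
  have hp3 : 0 ≤ 48 / (η ^ 2 * δ) := by positivity
  have hN1 : (1 : ℝ) ≤ N := by linarith
  have hNT : T ^ 4 ≤ N := by linarith
  have hN2 : 576 * (A + C) / (η ^ 4 * δ) ≤ N := by linarith
  have hN3 : 48 / (η ^ 2 * δ) ≤ N := by linarith
  have hN0 : (0 : ℝ) < N := by linarith
  have hNpos : 0 < N := by exact_mod_cast hN0
  -- the root
  set s : ℝ := (N : ℝ) ^ (1 / 4 : ℝ) with hs
  have hs4 : s ^ 4 = N := by
    rw [hs, ← Real.rpow_natCast, ← Real.rpow_mul hN0.le]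
    norm_num
  have hs3 : (N : ℝ) ^ (3 / 4 : ℝ) = s ^ 3 := by
    rw [hs, ← Real.rpow_natCast, ← Real.rpow_mul hN0.le]
    norm_num
  have hs1 : 1 ≤ s := Real.one_le_rpow hN1 (by norm_num)
  have hsT : T ≤ s := by
    by_contra hcon
    rw [not_le] at hcon
    have : s ^ 4 < T ^ 4 := pow_lt_pow_left₀ hcon (by linarith) (by norm_num)
    rw [hs4] at this
    linarith
  have hTs : 4 * (A + C) ≤ s * η ^ 2 := by
    rw [hT, div_le_iff₀ hη2] at hsT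
    exact hsT
  have hs3pos : 0 < s ^ 3 := by positivity
  have hs31 : 1 ≤ s ^ 3 := one_le_pow₀ hs1
  have hmain : A + C * (N : ℝ) ^ (3 / 4 : ℝ) ≤ N * η ^ 2 / 4 := by
    rw [hs3, ← hs4]
    have e1 : A + C * s ^ 3 ≤ (A + C) * s ^ 3 := by nlinarith
    have e2 : 4 * (A + C) * s ^ 3 ≤ s * η ^ 2 * s ^ 3 := mul_le_mul_of_nonneg_right hTs hs3pos.le
    have e3 : s * η ^ 2 * s ^ 3 = s ^ 4 * η ^ 2 := by ring
    linarith
  have hs34 : (N : ℝ) ^ (3 / 4 : ℝ) ≤ N := by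
    rw [hs3, ← hs4]
    exact pow_le_pow_right₀ hs1 (by norm_num)
  -- the set
  set B : Finset (Cfg (Fin 2) N) := Finset.univ.filter (fun ρ => η < |ov ρ ρ 0 1 - u|) with hB
  set D : ℝ := N * (b1 + b2) ^ 2 + 4 * ((M : ℝ) + 1) ^ 3 * (N : ℝ) ^ (3 / 4 : ℝ) with hD
  have ht : 0 < N * η ^ 2 / 6 := by positivity
  have hcN := cN_bounds N
  have hmass := mass_small B (vA b1 b2 (cN N) M N x) (Pen u N) (D := D) (t := N * η ^ 2 / 6)
    (fun ρ => dot_vA_le hb1 hb2 hcN.2 hx ρ) ht (by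
      intro hne
      have h1 := EL_le_pair hb1 hb2 hNpos hcN.1 hcN.2 hx hη0.le hne
        (fun ρ hρ => (Finset.mem_filter.1 hρ).2.le)
      have h2 : LZ b1 b2 (cN N) u M N x =
        EL (Finset.univ : Finset (Cfg (Fin 2) N)) (vA b1 b2 (cN N) M N x) (Pen u N) := rfl
      rw [← h2]
      rw [← hA, ← hC] at h1
      linarith)
  -- the average
  have hdev : dev b1 b2 u M N x ≤ η + 2 * E1 (vA b1 b2 (cN N) M N x) (Pen u N)
      (fun ρ => if ρ ∈ B then 1 else 0) := by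
    rw [← MassB_affine]
    refine MassB_mono _ _ fun ρ => ?_
    by_cases hρ : ρ ∈ B
    · rw [if_pos hρ]
      have h1 := abs_ov_le ρ ρ 0 1
      have h2 : |ov ρ ρ 0 1 - u| ≤ |ov ρ ρ 0 1| + |u| := abs_sub _ _
      linarith
    · rw [if_neg hρ]
      have h1 : ¬ η < |ov ρ ρ 0 1 - u| := fun h => hρ (Finset.mem_filter.2 ⟨Finset.mem_univ _, h⟩)
      linarith [not_lt.1 h1]
  have hexp : Real.exp (-(N * η ^ 2 / 6)) ≤ δ / 8 := by
    have h1 : N * η ^ 2 / 6 ≤ Real.exp (N * η ^ 2 / 6) := by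
      have := Real.add_one_le_exp (N * η ^ 2 / 6)
      linarith
    have h2 : 8 / δ ≤ N * η ^ 2 / 6 := by
      rw [div_le_iff₀ (by positivity)] at hN3
      rw [div_le_iff₀ hδ]
      linarith
    rw [Real.exp_neg]
    calc (Real.exp (N * η ^ 2 / 6))⁻¹ ≤ (8 / δ)⁻¹ :=
          inv_anti₀ (by positivity) (h2.trans h1)
      _ = δ / 8 := by rw [inv_div]
  have hDle : D ≤ (A + C) * N := by
    have e1 : C * (N : ℝ) ^ (3 / 4 : ℝ) ≤ C * N := mul_le_mul_of_nonneg_left hs34 hC0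
    rw [hD, ← hA, ← hC]
    linarith
  have hfrac : 2 * D / (N * η ^ 2 / 6) ^ 2 ≤ δ / 8 := by
    rw [div_le_iff₀ (by positivity)]
    rw [div_le_iff₀ (by positivity)] at hN2
    have e1 : δ / 8 * (N * η ^ 2 / 6) ^ 2 = (N * (η ^ 4 * δ)) * N / 288 := by ring
    rw [e1]
    have e2 : 576 * (A + C) * N ≤ (N * (η ^ 4 * δ)) * N := mul_le_mul_of_nonneg_right hN2 hN0.le
    linarith
  linarith

end SKC.H
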