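import Pool.Agent.H.MP_08eaf3_pr.H.PkB
import Pool.Agent.H.MP_08eaf3_pr.H.CavB

/-!
# Part H1: kernels, comparison for `Z_N`
-/

set_option autoImplicit false

open MeasureTheory ProbabilityTheory Filter Topology Matrix

namespace SKC.H

/-- `B = (b1+b2)^2` as the square of the sum of `be b1 b2` -/
theorem sum_be (b1 b2 : ℝ) : (∑ c, be b1 b2 c) = b1 + b2 := by
  simp [be, Fin.sum_univ_two]

/-- -/
theorem be_nonneg {b1 b2 : ℝ} (h1 : 0 ≤ b1) (h2 : 0 ≤ b2) (c : Fin 2) : 0 ≤ be b1 b2 c := by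
  fin_cases c
  · simpa [be] using h1
  · simpa [be] using h2

/-- `CH = E log Z'' <∑_s exp(∑ s_c z_c)>`, without subtracting `E log Z'` -/
noncomputable def CH (b1 b2 u : ℝ) (M N : ℕ) (x : PM M → ℝ) : ℝ :=
  EL (Finset.univ : Finset (Cfg (Fin 2) N × (Fin 2 → Bool)))
    (fun p => Sum.elim (vA b1 b2 (cN N) M N x p.1) (vs (be b1 b2) N p)) (fun p => Pen u N p.1)

/-- `CY = E log Z' <exp y>`, without subtracting `E log Z'` -/
noncomputable def CY (b1 b2 u : ℝ) (M N : ℕ) (x : PM M → ℝ) : ℝ :=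
  EL (Finset.univ : Finset (Cfg (Fin 2) N))
    (fun ρ => Sum.elim (vA b1 b2 (cN N) M N x ρ) (vy (be b1 b2) N ρ)) (Pen u N)

/-- the kernel of `vA` [`dot_elim`, `dot_smul`, `dot_vH`.] -/
theorem dot_vA (b1 b2 c : ℝ) (M N : ℕ) (x : PM M → ℝ) (ρ ρ' : Cfg (Fin 2) N) :
    dot (vA b1 b2 c M N x ρ) (vA b1 b2 c M N x ρ') =
      c ^ 2 * (N * Cf (be b1 b2) (fun c c' => ov ρ ρ' c c')) +
        dot (vP M N x ρ) (vP M N x ρ') := by
  unfold vA
  rw [dot_elim, dot_smul, dot_vH]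

/-- `cN N ^ 2 * N = N^2/(N+1)` -/
theorem cN_sq (N : ℕ) : cN N ^ 2 = (N : ℝ) / (N + 1) := by
  unfold cN
  rw [Real.sq_sqrt (by positivity)]

/-- `4 ≤ ∑_s exp(∑_c s_c z_c) = 4 cosh z_0 cosh z_1`
[`∑_s exp(∑ sg(s c) z_c) = ∏_c (exp z_c + exp(-z_c))` by `Finset.prod_univ_sum`, and
`exp z + exp (-z) ≥ 2`.] -/
theorem four_le_sum_exp (b1 b2 : ℝ) {N : ℕ} (ρ : Cfg (Fin 2) N) (y : Fin N → ℝ) :
    (Fintype.card (Fin 2 → Bool) : ℝ) ≤ ∑ s, Real.exp (dot y (vs (be b1 b2) N (ρ, s))) := by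
  have hsg : ∀ b : Bool, sg (!b) = - sg b := by
    intro b
    cases b <;> simp [sg]
  have h0 : ∑ s : Fin 2 → Bool, dot y (vs (be b1 b2) N (ρ, s)) = 0 := by
    have h1 := Equiv.sum_comp (Equiv.arrowCongr (Equiv.refl (Fin 2)) Equiv.boolNot)
      (fun s : Fin 2 → Bool => dot y (vs (be b1 b2) N (ρ, s)))
    have h2 : ∀ s : Fin 2 → Bool, dot y (vs (be b1 b2) N
        (ρ, Equiv.arrowCongr (Equiv.refl (Fin 2)) Equiv.boolNot s)) =
        - dot y (vs (be b1 b2) N (ρ, s)) := by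
      intro s
      unfold dot
      rw [← Finset.sum_neg_distrib]
      apply Finset.sum_congr rfl
      intro i _
      have h3 : vs (be b1 b2) N (ρ, Equiv.arrowCongr (Equiv.refl (Fin 2)) Equiv.boolNot s) i =
          - vs (be b1 b2) N (ρ, s) i := by
        unfold vs
        rw [← Finset.sum_neg_distrib]
        apply Finset.sum_congr rfl
        intro c _
        have h4 : (Equiv.arrowCongr (Equiv.refl (Fin 2)) Equiv.boolNot s) c = !(s c) := rfl
        simp only [h4, hsg]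
        ring
      rw [h3]
      ring
    simp only [h2, Finset.sum_neg_distrib] at h1
    linarith
  calc (Fintype.card (Fin 2 → Bool) : ℝ)
      = ∑ s : Fin 2 → Bool, (dot y (vs (be b1 b2) N (ρ, s)) + 1) := by
        rw [Finset.sum_add_distrib, h0, zero_add, Finset.sum_const, Finset.card_univ,
          nsmul_eq_mul, mul_one]
    _ ≤ _ := Finset.sum_le_sum (fun s _ => Real.add_one_le_exp _)

/-- comparison of `Z_N(x)` (features `vA 1`) with `Z'` and the field `y`: the kernels differ by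
`N C - N^2/(N+1) C - C = - C/(N+1)`. [`EL_diff_le`, `dot_vA`, `dot_vy`, `Cf_le`.] -/
theorem LZ_le_CY {b1 b2 u : ℝ} (hb1 : 0 ≤ b1) (hb2 : 0 ≤ b2) {M N : ℕ} (hN : 0 < N)
    (x : PM M → ℝ) :
    LZ b1 b2 1 u M N x ≤ CY b1 b2 u M N x + (b1 + b2) ^ 2 / ((N : ℝ) + 1) := by
  have hN' : (0 : ℝ) < (N : ℝ) + 1 := by positivity
  have h := EL_diff_le (Finset.univ : Finset (Cfg (Fin 2) N)) Finset.univ_nonempty
    (vA b1 b2 1 M N x)
    (fun ρ => Sum.elim (vA b1 b2 (cN N) M N x ρ) (vy (be b1 b2) N ρ)) (Pen u N)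
    ((b1 + b2) ^ 2 / ((N : ℝ) + 1)) (by
      intro ρ _ ρ' _
      rw [dot_elim, dot_vA, dot_vA, dot_vy _ hN, cN_sq]
      have h1 : ∀ C P : ℝ, 1 ^ 2 * ((N : ℝ) * C) + P -
          ((N : ℝ) / (N + 1) * (N * C) + P + C) = - (C / ((N : ℝ) + 1)) := by
        intro C P
        field_simp
        ring
      rw [h1, abs_neg, abs_div, abs_of_pos hN']
      apply div_le_div_of_nonneg_right _ hN'.le
      have h3 := Cf_nonneg (β := be b1 b2) (be_nonneg hb1 hb2) (fun c c' => ov ρ ρ' c c')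
      have h2 := Cf_le (β := be b1 b2) (be_nonneg hb1 hb2)
        (R := fun c c' => ov ρ ρ' c c') (fun c c' => abs_ov_le ρ ρ' c c')
      rw [sum_be] at h2
      exact (abs_of_nonneg h3).le.trans h2)
  have h2 := (abs_le.mp h).2
  unfold LZ CY
  linarith

end SKC.H
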