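import Pool.Agent.H.MP_08eaf3_pr.H.OneA

/-!
# Part H1: comparison for `Z_{N+1}`
-/

set_option autoImplicit false

open MeasureTheory ProbabilityTheory Filter Topology Matrix

namespace SKC.H

/-- the kernels of the features of `Z_{N+1}` and of the cavity system -/
theorem OneB_kernel {b1 b2 : ℝ} (hb1 : 0 ≤ b1) (hb2 : 0 ≤ b2) {M N : ℕ}
    (hN : 0 < N) {x : PM M → ℝ} (hx : ∀ p, x p ∈ Set.Icc (1 : ℝ) 2)
    (p p' : Cfg (Fin 2) N × (Fin 2 → Bool)) :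
    |dot (vA b1 b2 1 M (N + 1) x (snc p.1 p.2)) (vA b1 b2 1 M (N + 1) x (snc p'.1 p'.2)) -
      dot (Sum.elim (vA b1 b2 (cN N) M N x p.1) (vs (be b1 b2) N p))
        (Sum.elim (vA b1 b2 (cN N) M N x p'.1) (vs (be b1 b2) N p'))| ≤
      3 * (b1 + b2) ^ 2 / ((N : ℝ) + 1) +
        4 * ((M : ℝ) + 1) ^ 3 * (1 + 6 * M) * (N : ℝ) ^ (-(1 / 4) : ℝ) := by
  have hN1 : (0 : ℝ) < (N : ℝ) + 1 := by positivity
  have h1 := vP_snc (M := M) hN hx p.1 p'.1 p.2 p'.2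
  have h2 := abs_dot_vs_le (be_nonneg hb1 hb2) N p p'
  rw [sum_be] at h2
  have h3 := Cf_snc (be b1 b2) p.1 p'.1 p.2 p'.2
  rw [← dot_vs, sum_be] at h3
  have e1 : dot (vA b1 b2 1 M (N + 1) x (snc p.1 p.2)) (vA b1 b2 1 M (N + 1) x (snc p'.1 p'.2)) =
      (N : ℝ) ^ 2 / (N + 1) * Cf (be b1 b2) (fun c c' => ov p.1 p'.1 c c')
      + N / (N + 1) * dot (vs (be b1 b2) N p) (vs (be b1 b2) N p')
      + (b1 + b2) ^ 2 / (N + 1) +
      dot (vP M (N + 1) x (snc p.1 p.2)) (vP M (N + 1) x (snc p'.1 p'.2)) := by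
    rw [dot_vA, ← h3]
    push_cast
    ring
  have e2 : dot (Sum.elim (vA b1 b2 (cN N) M N x p.1) (vs (be b1 b2) N p))
        (Sum.elim (vA b1 b2 (cN N) M N x p'.1) (vs (be b1 b2) N p')) =
      (N : ℝ) ^ 2 / (N + 1) * Cf (be b1 b2) (fun c c' => ov p.1 p'.1 c c') +
      dot (vP M N x p.1) (vP M N x p'.1) + dot (vs (be b1 b2) N p) (vs (be b1 b2) N p') := by
    rw [dot_elim, dot_vA, cN_sq]
    ring
  have e3 : (N : ℝ) / (N + 1) * dot (vs (be b1 b2) N p) (vs (be b1 b2) N p') =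
      dot (vs (be b1 b2) N p) (vs (be b1 b2) N p') -
        dot (vs (be b1 b2) N p) (vs (be b1 b2) N p') / (N + 1) := by
    field_simp
    ring
  have h4 : |dot (vs (be b1 b2) N p) (vs (be b1 b2) N p') / ((N : ℝ) + 1)| ≤
      2 * (b1 + b2) ^ 2 / ((N : ℝ) + 1) := by
    rw [abs_div, abs_of_pos hN1]
    exact div_le_div_of_nonneg_right h2 hN1.le
  have h5 : |(b1 + b2) ^ 2 / ((N : ℝ) + 1)| = (b1 + b2) ^ 2 / ((N : ℝ) + 1) :=
    abs_of_nonneg (by positivity)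
  rw [e1, e2, e3]
  have e4 : (N : ℝ) ^ 2 / (N + 1) * Cf (be b1 b2) (fun c c' => ov p.1 p'.1 c c') +
      (dot (vs (be b1 b2) N p) (vs (be b1 b2) N p') -
        dot (vs (be b1 b2) N p) (vs (be b1 b2) N p') / (N + 1)) +
      (b1 + b2) ^ 2 / (N + 1) +
      dot (vP M (N + 1) x (snc p.1 p.2)) (vP M (N + 1) x (snc p'.1 p'.2)) -
      ((N : ℝ) ^ 2 / (N + 1) * Cf (be b1 b2) (fun c c' => ov p.1 p'.1 c c') +
        dot (vP M N x p.1) (vP M N x p'.1) + dot (vs (be b1 b2) N p) (vs (be b1 b2) N p')) =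
      -(dot (vs (be b1 b2) N p) (vs (be b1 b2) N p') / ((N : ℝ) + 1)) +
        (b1 + b2) ^ 2 / ((N : ℝ) + 1) +
        (dot (vP M (N + 1) x (snc p.1 p.2)) (vP M (N + 1) x (snc p'.1 p'.2)) -
          dot (vP M N x p.1) (vP M N x p'.1)) := by ring
  rw [e4]
  refine (abs_add_three _ _ _).trans ?_
  rw [abs_neg, h5]
  have e5 : 3 * (b1 + b2) ^ 2 / ((N : ℝ) + 1) =
      2 * (b1 + b2) ^ 2 / ((N : ℝ) + 1) + (b1 + b2) ^ 2 / ((N : ℝ) + 1) := by ring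
  rw [e5]
  exact add_le_add (add_le_add_left h4 _) h1

/-- `Z_{N+1}` as a sum over pairs -/
theorem OneB_pairs (b1 b2 u : ℝ) (M N : ℕ) (x : PM M → ℝ) :
    LZ b1 b2 1 u M (N + 1) x =
      EL (Finset.univ : Finset (Cfg (Fin 2) N × (Fin 2 → Bool)))
        (fun p => vA b1 b2 1 M (N + 1) x (snc p.1 p.2)) (fun p => Pen u (N + 1) (snc p.1 p.2)) := by
  unfold LZ
  have h1 := EL_map (sncE (Fin 2) N).toEmbedding Finset.univ (vA b1 b2 1 M (N + 1) x)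
    (Pen u (N + 1))
  rw [Finset.map_univ_equiv] at h1
  exact h1

/-- comparison of `Z_{N+1}(x)` with the cavity system, before removing the weight.
[`EL_map` with `sncE`: `LZ .. (N+1) x` is `EL univ` over pairs `(ρ,s)` with features
`vA 1 .. (N+1) (snc ρ s)` and part `Pen u (N+1) (snc ρ s)`; `pen_snc` and `EL_mono`, `EL_add_const`;
then `EL_diff_le`: kernels `(N+1) C(R~) + P_{N+1}` and `N^2/(N+1) C(R) + P_N + ∑ A s s'` differ by
`Cf_snc` by at most `B/(N+1) + 2B/(N+1)` (`abs_dot_vs_le`) plus `vP_snc`.] -/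
theorem CHW_le_LZ {b1 b2 u : ℝ} (hb1 : 0 ≤ b1) (hb2 : 0 ≤ b2) (hu : |u| ≤ 1) {M N : ℕ}
    (hN : 0 < N) {x : PM M → ℝ} (hx : ∀ p, x p ∈ Set.Icc (1 : ℝ) 2) :
    EL (Finset.univ : Finset (Cfg (Fin 2) N × (Fin 2 → Bool)))
      (fun p => Sum.elim (vA b1 b2 (cN N) M N x p.1) (vs (be b1 b2) N p))
      (fun p => Pen u N p.1 - 4 * |ov p.1 p.1 0 1 - u|) - 4 / ((N : ℝ) + 1)
      - 3 * (b1 + b2) ^ 2 / ((N : ℝ) + 1)
      - 4 * ((M : ℝ) + 1) ^ 3 * (1 + 6 * M) * (N : ℝ) ^ (-(1 / 4) : ℝ) ≤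
    LZ b1 b2 1 u M (N + 1) x := by
  have h1 := EL_diff_le (Finset.univ : Finset (Cfg (Fin 2) N × (Fin 2 → Bool)))
    Finset.univ_nonempty (fun p => vA b1 b2 1 M (N + 1) x (snc p.1 p.2))
    (fun p => Sum.elim (vA b1 b2 (cN N) M N x p.1) (vs (be b1 b2) N p))
    (fun p => Pen u (N + 1) (snc p.1 p.2)) _
    (fun p _ p' _ => OneB_kernel hb1 hb2 hN hx p p')
  have h2 := EL_mono (B := (Finset.univ : Finset (Cfg (Fin 2) N × (Fin 2 → Bool))))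
    Finset.univ_nonempty (fun p => Sum.elim (vA b1 b2 (cN N) M N x p.1) (vs (be b1 b2) N p))
    (a := fun p => (Pen u N p.1 - 4 * |ov p.1 p.1 0 1 - u|) + -(4 / ((N : ℝ) + 1)))
    (a' := fun p => Pen u (N + 1) (snc p.1 p.2))
    (fun p _ => by
      have h3 := pen_snc hu p.1 p.2
      linarith)
  rw [EL_add_const Finset.univ_nonempty] at h2
  rw [OneB_pairs]
  have h4 := (abs_le.1 h1).1
  linarith

end SKC.H
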