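import Pool.Agent.H.MP_08eaf3_pr.H.OneB

/-!
# Part H1: the Aizenman-Sims-Starr step
-/

set_option autoImplicit false

open MeasureTheory ProbabilityTheory Filter Topology Matrix

namespace SKC.H

/-- the average of `|R - u|` in the primed system -/
noncomputable def dev (b1 b2 u : ℝ) (M N : ℕ) (x : PM M → ℝ) : ℝ :=
  E1 (vA b1 b2 (cN N) M N x) (Pen u N) (fun ρ => |ov ρ ρ 0 1 - u|)

theorem OneC_int {ι ι' : Type} [Fintype ι] [Fintype ι'] {f : (ι ⊕ ι' → ℝ) → ℝ}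
    (hf : Integrable f (gam (ι ⊕ ι'))) :
    Integrable (fun x => ∫ y, f (Sum.elim x y) ∂(gam ι')) (gam ι) := by
  have h1 := (measurePreserving_sumPiEquivProdPi_symm
    (fun _ : ι ⊕ ι' => gaussianReal 0 1)).integrable_comp_emb
    (MeasurableEquiv.measurableEmbedding _) (g := f)
  have h2 := (h1.2 hf).integral_prod_left
  exact h2

theorem OneC_dot_elim {ι ι' : Type} [Fintype ι] [Fintype ι'] (x v : ι → ℝ) (y w : ι' → ℝ) :
    dot (Sum.elim x y) (Sum.elim v w) = dot x v + dot y w := dot_elim x v y w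

theorem OneC_univ_ne {Ω : Type} [Fintype Ω] [Nonempty Ω] : (Finset.univ : Finset Ω).Nonempty :=
  Finset.univ_nonempty

/-- Jensen conditionally on the first block of the disorder -/
theorem OneC_annealed {Ω ι ι' : Type} [Fintype Ω] [Nonempty Ω] [Fintype ι] [Fintype ι']
    (v : Ω → ι → ℝ) (w : Ω → ι' → ℝ) (a : Ω → ℝ) {C : ℝ} (hC : ∀ ω, dot (w ω) (w ω) ≤ 2 * C) :
    EL Finset.univ (fun ω => Sum.elim (v ω) (w ω)) a ≤ EL Finset.univ v a + C := by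
  have hi := integrable_lse (OneC_univ_ne (Ω := Ω)) (fun ω => Sum.elim (v ω) (w ω)) a
  unfold EL
  rw [integral_sum_gam _ hi]
  have h1 : ∀ x : ι → ℝ, ∫ y, lse Finset.univ
      (fun ω => dot (Sum.elim x y) (Sum.elim (v ω) (w ω)) + a ω) ∂(gam ι') ≤
      lse Finset.univ (fun ω => dot x (v ω) + a ω) + C := by
    intro x
    have h2 := EL_le_annealed (OneC_univ_ne (Ω := Ω)) w (fun ω => dot x (v ω) + a ω)
    have h3 : (fun y => lse Finset.univ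
        (fun ω => dot (Sum.elim x y) (Sum.elim (v ω) (w ω)) + a ω)) =
        fun y => lse Finset.univ (fun ω => dot y (w ω) + (dot x (v ω) + a ω)) := by
      funext y
      congr 1
      funext ω
      rw [OneC_dot_elim]
      ring
    rw [h3]
    refine h2.trans ?_
    rw [← lse_add_const (OneC_univ_ne (Ω := Ω))]
    refine lse_mono OneC_univ_ne fun ω _ => ?_
    have h4 := hC ω
    linarith
  have h5 : ∫ x, (lse Finset.univ (fun ω => dot x (v ω) + a ω) + C) ∂(gam ι) =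
      ∫ x, lse Finset.univ (fun ω => dot x (v ω) + a ω) ∂(gam ι) + C := by
    rw [integral_add (integrable_lse OneC_univ_ne v a) (integrable_const _)]
    simp
  rw [← h5]
  exact integral_mono (OneC_int hi)
    ((integrable_lse OneC_univ_ne v a).add (integrable_const _)) h1

/-- H1. [`CHW_le_LZ`, `cav_weight` with `D = (b1+b2)^2`, `W = 4 |R - u|`, `four_le_sum_exp`,
`LZ_le_CY`; the constants: `4/(N+1) + 3B/(N+1) + B/(N+1)`.] -/
theorem one_step {b1 b2 u : ℝ} (hb1 : 0 ≤ b1) (hb2 : 0 ≤ b2) (hu : |u| ≤ 1) {M N : ℕ}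
    (hN : 0 < N) {x : PM M → ℝ} (hx : ∀ p, x p ∈ Set.Icc (1 : ℝ) 2) :
    CH b1 b2 u M N x - CY b1 b2 u M N x
      - 4 * Real.exp ((b1 + b2) ^ 2) * dev b1 b2 u M N x
      - 4 * (1 + (b1 + b2) ^ 2) / ((N : ℝ) + 1)
      - 4 * ((M : ℝ) + 1) ^ 3 * (1 + 6 * M) * (N : ℝ) ^ (-(1 / 4) : ℝ) ≤
    LZ b1 b2 1 u M (N + 1) x - LZ b1 b2 1 u M N x := by
  have h1 := CHW_le_LZ hb1 hb2 hu hN hx
  have h2 := LZ_le_CY (u := u) hb1 hb2 hN x
  have h3 := cav_weight (S := Fin 2 → Bool) (vA b1 b2 (cN N) M N x) (Pen u N)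
    (fun ρ => 4 * |ov ρ ρ 0 1 - u|) (fun ρ s => vs (be b1 b2) N (ρ, s))
    (fun ρ => by positivity) (D := (b1 + b2) ^ 2)
    (fun ρ s => by
      have h4 := abs_dot_vs_le (be_nonneg hb1 hb2) N (ρ, s) (ρ, s)
      rw [sum_be] at h4
      exact (le_abs_self _).trans h4)
    (fun ρ y => four_le_sum_exp b1 b2 ρ y)
  have h4 : E1 (vA b1 b2 (cN N) M N x) (Pen u N) (fun ρ => 4 * |ov ρ ρ 0 1 - u|) =
      4 * dev b1 b2 u M N x := by
    unfold dev E1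
    rw [← integral_const_mul]
    refine integral_congr_ae (Eventually.of_forall fun z => ?_)
    show _ = 4 * _
    rw [Finset.mul_sum]
    refine Finset.sum_congr rfl fun ρ _ => ?_
    ring
  rw [h4] at h3
  have h5 : EL (Finset.univ : Finset (Cfg (Fin 2) N × (Fin 2 → Bool)))
      (fun p => Sum.elim (vA b1 b2 (cN N) M N x p.1) (vs (be b1 b2) N (p.1, p.2)))
      (fun p => Pen u N p.1) = CH b1 b2 u M N x := rfl
  rw [h5] at h3
  have h6 : 4 * (1 + (b1 + b2) ^ 2) / ((N : ℝ) + 1) = 4 / ((N : ℝ) + 1) +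
      3 * (b1 + b2) ^ 2 / ((N : ℝ) + 1) + (b1 + b2) ^ 2 / ((N : ℝ) + 1) := by ring
  have h7 : EL (Finset.univ : Finset (Cfg (Fin 2) N × (Fin 2 → Bool)))
      (fun p => Sum.elim (vA b1 b2 (cN N) M N x p.1) (vs (be b1 b2) N (p.1, p.2)))
      (fun p => Pen u N p.1 - 4 * |ov p.1 p.1 0 1 - u|) =
      EL (Finset.univ : Finset (Cfg (Fin 2) N × (Fin 2 → Bool)))
      (fun p => Sum.elim (vA b1 b2 (cN N) M N x p.1) (vs (be b1 b2) N p))
      (fun p => Pen u N p.1 - 4 * |ov p.1 p.1 0 1 - u|) := rfl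
  rw [h7] at h3
  rw [h6]
  linarith

/-- lower bound of `CH` [`lse` over pairs is at least `lse` over `ρ` plus `log 4` by
`four_le_sum_exp`; `integral_sum_gam`.] -/
theorem CH_ge (b1 b2 u : ℝ) (M N : ℕ) (x : PM M → ℝ) :
    LZ b1 b2 (cN N) u M N x + Real.log 4 ≤ CH b1 b2 u M N x := by
  have h0 : LZ b1 b2 (cN N) u M N x = EL (Finset.univ : Finset (Cfg (Fin 2) N))
      (fun ρ => Sum.elim (vA b1 b2 (cN N) M N x ρ) (0 : Fin N → ℝ)) (Pen u N) := by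
    refine EL_congr_cov _ _ _ _ fun ρ _ ρ' _ => ?_
    rw [dot_elim]
    simp [dot]
  have hi := integrable_lse (OneC_univ_ne (Ω := Cfg (Fin 2) N))
    (fun ρ => Sum.elim (vA b1 b2 (cN N) M N x ρ) (0 : Fin N → ℝ)) (Pen u N)
  have hi' := integrable_lse (OneC_univ_ne (Ω := Cfg (Fin 2) N × (Fin 2 → Bool)))
    (fun p => Sum.elim (vA b1 b2 (cN N) M N x p.1) (vs (be b1 b2) N p)) (fun p => Pen u N p.1)
  have h5 : EL (Finset.univ : Finset (Cfg (Fin 2) N))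
      (fun ρ => Sum.elim (vA b1 b2 (cN N) M N x ρ) (0 : Fin N → ℝ)) (Pen u N) + Real.log 4 =
      ∫ z, (lse (Finset.univ : Finset (Cfg (Fin 2) N)) (fun ρ => dot z
        (Sum.elim (vA b1 b2 (cN N) M N x ρ) (0 : Fin N → ℝ)) + Pen u N ρ) + Real.log 4)
        ∂(gam _) := by
    rw [integral_add hi (integrable_const _)]
    simp [EL]
  rw [h0, h5]
  refine integral_mono (hi.add (integrable_const _)) hi' fun z => ?_
  show lse (Finset.univ : Finset (Cfg (Fin 2) N)) (fun ρ => dot z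
        (Sum.elim (vA b1 b2 (cN N) M N x ρ) (0 : Fin N → ℝ)) + Pen u N ρ) + Real.log 4 ≤
    lse (Finset.univ : Finset (Cfg (Fin 2) N × (Fin 2 → Bool))) (fun p => dot z
        (Sum.elim (vA b1 b2 (cN N) M N x p.1) (vs (be b1 b2) N p)) + Pen u N p.1)
  obtain ⟨z1, z2, rfl⟩ : ∃ (z1 : (Fin N × Fin N) ⊕ IP M N → ℝ) (z2 : Fin N → ℝ),
      z = Sum.elim z1 z2 := ⟨z ∘ Sum.inl, z ∘ Sum.inr, (Sum.elim_comp_inl_inr z).symm⟩
  simp only [dot_elim]
  unfold lse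
  have hpos : 0 < ∑ ρ : Cfg (Fin 2) N, Real.exp (dot z1 (vA b1 b2 (cN N) M N x ρ) +
      dot z2 (0 : Fin N → ℝ) + Pen u N ρ) :=
    Finset.sum_pos (fun ρ _ => Real.exp_pos _) Finset.univ_nonempty
  rw [← Real.log_mul hpos.ne' (by norm_num)]
  refine Real.log_le_log (by positivity) ?_
  rw [Fintype.sum_prod_type, Finset.sum_mul]
  refine Finset.sum_le_sum fun ρ _ => ?_
  have h6 : ∑ s : Fin 2 → Bool, Real.exp (dot z1 (vA b1 b2 (cN N) M N x ρ) +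
      dot z2 (vs (be b1 b2) N (ρ, s)) + Pen u N ρ) =
      Real.exp (dot z1 (vA b1 b2 (cN N) M N x ρ) + dot z2 (0 : Fin N → ℝ) + Pen u N ρ) *
        ∑ s : Fin 2 → Bool, Real.exp (dot z2 (vs (be b1 b2) N (ρ, s))) := by
    rw [Finset.mul_sum]
    refine Finset.sum_congr rfl fun s _ => ?_
    rw [← Real.exp_add]
    congr 1
    have h7 : dot z2 (0 : Fin N → ℝ) = 0 := by simp [dot]
    rw [h7]
    ring
  rw [h6]
  refine mul_le_mul_of_nonneg_left ?_ (Real.exp_pos _).le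
  have h8 := four_le_sum_exp b1 b2 ρ z2
  simpa using h8

/-- upper bound of `CY` [`integral_sum_gam`; for fixed `x` apply `EL_le_annealed` to the features
`vy` and the part `<x, vA> + Pen`: `dot_vy = C(R(ρ,ρ)) ≤ (b1+b2)^2`.] -/
theorem CY_le {b1 b2 : ℝ} (hb1 : 0 ≤ b1) (hb2 : 0 ≤ b2) (u : ℝ) (M : ℕ) {N : ℕ} (hN : 0 < N)
    (x : PM M → ℝ) :
    CY b1 b2 u M N x ≤ LZ b1 b2 (cN N) u M N x + (b1 + b2) ^ 2 / 2 := by
  refine OneC_annealed _ _ _ fun ρ => ?_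
  rw [dot_vy _ hN]
  have h1 := Cf_le (be_nonneg hb1 hb2) (R := fun c c' => ov ρ ρ c c')
    (fun c c' => abs_ov_le ρ ρ c c')
  rw [sum_be] at h1
  linarith

/-- -/
theorem dev_nonneg (b1 b2 u : ℝ) (M N : ℕ) (x : PM M → ℝ) : 0 ≤ dev b1 b2 u M N x := by
  refine integral_nonneg fun z => Finset.sum_nonneg fun ρ _ =>
    mul_nonneg (gw_nonneg _ _ _ _) (abs_nonneg _)

/-- [`|R - u| ≤ 2`.] -/
theorem dev_le {b1 b2 u : ℝ} (hu : |u| ≤ 1) (M N : ℕ) (x : PM M → ℝ) :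
    dev b1 b2 u M N x ≤ 2 := by
  have h1 : ∫ _z : (Fin N × Fin N) ⊕ IP M N → ℝ, (2 : ℝ) ∂(gam _) = 2 := by simp
  rw [← h1]
  refine integral_mono_of_nonneg (Eventually.of_forall fun z => Finset.sum_nonneg fun ρ _ =>
    mul_nonneg (gw_nonneg _ _ _ _) (abs_nonneg _)) (integrable_const _)
    (Eventually.of_forall fun z => ?_)
  show ∑ ρ, gw (vA b1 b2 (cN N) M N x) (Pen u N) z ρ * |ov ρ ρ 0 1 - u| ≤ 2
  have h2 : ∀ ρ : Cfg (Fin 2) N, |ov ρ ρ 0 1 - u| ≤ 2 := by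
    intro ρ
    have h3 := abs_ov_le ρ ρ (0 : Fin 2) 1
    have h4 := abs_sub (ov ρ ρ (0 : Fin 2) 1) u
    linarith
  calc ∑ ρ, gw (vA b1 b2 (cN N) M N x) (Pen u N) z ρ * |ov ρ ρ 0 1 - u|
      ≤ ∑ ρ, gw (vA b1 b2 (cN N) M N x) (Pen u N) z ρ * 2 :=
        Finset.sum_le_sum fun ρ _ => mul_le_mul_of_nonneg_left (h2 ρ) (gw_nonneg _ _ _ _)
    _ = 2 := by rw [← Finset.sum_mul, sum_gw, one_mul]

/-- the constant in the lower bound of the increments -/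
noncomputable def C0 (b1 b2 : ℝ) (M : ℕ) : ℝ :=
  (b1 + b2) ^ 2 / 2 + 8 * Real.exp ((b1 + b2) ^ 2) + 4 * (1 + (b1 + b2) ^ 2) +
    4 * ((M : ℝ) + 1) ^ 3 * (1 + 6 * M)

/-- the increments are bounded below [`one_step`, `CH_ge`, `CY_le`, `dev_le`, `log 4 ≥ 0`,
`N^{-1/4} ≤ 1`.] -/
theorem step_ge {b1 b2 u : ℝ} (hb1 : 0 ≤ b1) (hb2 : 0 ≤ b2) (hu : |u| ≤ 1) {M N : ℕ}
    (hN : 0 < N) {x : PM M → ℝ} (hx : ∀ p, x p ∈ Set.Icc (1 : ℝ) 2) :
    -C0 b1 b2 M ≤ LZ b1 b2 1 u M (N + 1) x - LZ b1 b2 1 u M N x := by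
  have h1 := one_step hb1 hb2 hu hN hx
  have h2 := CH_ge b1 b2 u M N x
  have h3 := CY_le hb1 hb2 u M hN x
  have h4 := dev_le (b1 := b1) (b2 := b2) hu M N x
  have h5 : 0 ≤ Real.log 4 := Real.log_nonneg (by norm_num)
  have hN1 : (1 : ℝ) ≤ N := by exact_mod_cast hN
  have h6 : (N : ℝ) ^ (-(1 / 4) : ℝ) ≤ 1 :=
    Real.rpow_le_one_of_one_le_of_nonpos hN1 (by norm_num)
  have h7 : 4 * ((M : ℝ) + 1) ^ 3 * (1 + 6 * M) * (N : ℝ) ^ (-(1 / 4) : ℝ) ≤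
      4 * ((M : ℝ) + 1) ^ 3 * (1 + 6 * M) := mul_le_of_le_one_right (by positivity) h6
  have h8 : 4 * (1 + (b1 + b2) ^ 2) / ((N : ℝ) + 1) ≤ 4 * (1 + (b1 + b2) ^ 2) :=
    div_le_self (by positivity) (by linarith)
  have h9 : 4 * Real.exp ((b1 + b2) ^ 2) * dev b1 b2 u M N x ≤
      4 * Real.exp ((b1 + b2) ^ 2) * 2 := mul_le_mul_of_nonneg_left h4 (by positivity)
  unfold C0
  linarith

end SKC.H
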