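import Pool.Agent.H.MP_08eaf3_pr.H.PkA

/-!
# Part H: the perturbation kernel and the penalty when one site is added
-/

set_option autoImplicit false

open MeasureTheory ProbabilityTheory Filter Topology Matrix

namespace SKC.H

/-- [From `ov_snc`: `R~ - R = (s s' - R)/(N+1)`.] -/
theorem ov_snc_sub {K : Type} [Fintype K] {N : ℕ} (ρ ρ' : Cfg K N) (s s' : K → Bool) (c c' : K) :
    |ov (snc ρ s) (snc ρ' s') c c' - ov ρ ρ' c c'| ≤ 2 / ((N : ℝ) + 1) := by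
  have hN : (0 : ℝ) < (N : ℝ) + 1 := by positivity
  have h1 := ov_snc ρ ρ' s s' c c'
  have h2 := abs_ov_le ρ ρ' c c'
  have h3 : |sg (s c) * sg (s' c')| = 1 := by rw [abs_mul, abs_sg, abs_sg, one_mul]
  rw [le_div_iff₀ hN]
  calc |ov (snc ρ s) (snc ρ' s') c c' - ov ρ ρ' c c'| * ((N : ℝ) + 1)
      = |sg (s c) * sg (s' c') - ov ρ ρ' c c'| := by
        have e0 : (ov (snc ρ s) (snc ρ' s') c c' - ov ρ ρ' c c') * ((N : ℝ) + 1) =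
            sg (s c) * sg (s' c') - ov ρ ρ' c c' := by linear_combination h1
        rw [← e0, abs_mul, abs_of_pos hN]
    _ ≤ |sg (s c) * sg (s' c')| + |ov ρ ρ' c c'| := abs_sub _ _
    _ ≤ 2 := by linarith

/-- [`(N+1)^{3/4} = (N+1) (N+1)^{-1/4} ≤ (N+1) N^{-1/4} = N^{3/4} + N^{-1/4}`.] -/
theorem rpow_step {N : ℕ} (hN : 0 < N) :
    ((N : ℝ) + 1) ^ (3 / 4 : ℝ) - (N : ℝ) ^ (3 / 4 : ℝ) ≤ (N : ℝ) ^ (-(1 / 4) : ℝ) := by
  have hN0 : (0 : ℝ) < N := Nat.cast_pos.2 hN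
  have h1 : ((N : ℝ) + 1) ^ (3 / 4 : ℝ) = ((N : ℝ) + 1) * ((N : ℝ) + 1) ^ (-(1 / 4) : ℝ) := by
    conv_rhs => rw [← Real.rpow_one ((N : ℝ) + 1), Real.rpow_one,
      ← Real.rpow_one_add' (by positivity) (by norm_num)]
    norm_num
  have h2 : (N : ℝ) ^ (3 / 4 : ℝ) = (N : ℝ) * (N : ℝ) ^ (-(1 / 4) : ℝ) := by
    rw [← Real.rpow_one_add' hN0.le (by norm_num)]
    norm_num
  have h3 : ((N : ℝ) + 1) ^ (-(1 / 4) : ℝ) ≤ (N : ℝ) ^ (-(1 / 4) : ℝ) :=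
    Real.rpow_le_rpow_of_nonpos hN0 (by linarith) (by norm_num)
  rw [h1, h2]
  nlinarith [mul_le_mul_of_nonneg_left h3 (show (0 : ℝ) ≤ (N : ℝ) + 1 by positivity)]

theorem PkB_card (M : ℕ) : (Fintype.card (PM M) : ℝ) = ((M : ℝ) + 1) ^ 3 := by
  have h : Fintype.card (PM M) = (M + 1) ^ 3 := by
    simp only [PM, Fintype.card_prod, Fintype.card_fin]
    ring
  rw [h]
  push_cast
  ring

theorem PkB_x {t : ℝ} (h : t ∈ Set.Icc (1 : ℝ) 2) : 0 ≤ t ^ 2 ∧ t ^ 2 ≤ 4 :=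
  ⟨sq_nonneg t, by nlinarith [h.1, h.2]⟩

/-- bound of the perturbation kernel [`dot_vP`, `abs_Kp_le`, `x p ^ 2 ≤ 4`,
`card (PM M) = (M+1)^3`.] -/
theorem abs_dot_vP_le {M : ℕ} (N : ℕ) {x : PM M → ℝ} (hx : ∀ p, x p ∈ Set.Icc (1 : ℝ) 2)
    (ρ ρ' : Cfg (Fin 2) N) :
    |dot (vP M N x ρ) (vP M N x ρ')| ≤ 4 * ((M : ℝ) + 1) ^ 3 * (N : ℝ) ^ (3 / 4 : ℝ) := by
  have hN : 0 ≤ (N : ℝ) ^ (3 / 4 : ℝ) := Real.rpow_nonneg (Nat.cast_nonneg _) _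
  rw [dot_vP, abs_mul, abs_of_nonneg hN, mul_comm]
  refine mul_le_mul_of_nonneg_right ?_ hN
  calc |∑ p, x p ^ 2 * Kp p (ovM ρ ρ')| ≤ ∑ p, |x p ^ 2 * Kp p (ovM ρ ρ')| :=
        Finset.abs_sum_le_sum_abs _ _
    _ ≤ ∑ _p : PM M, (4 : ℝ) := by
        refine Finset.sum_le_sum fun p _ => ?_
        obtain ⟨h1, h2⟩ := PkB_x (hx p)
        rw [abs_mul, abs_of_nonneg h1]
        calc x p ^ 2 * |Kp p (ovM ρ ρ')| ≤ 4 * 1 :=
              mul_le_mul h2 (abs_Kp_le p ρ ρ') (abs_nonneg _) (by norm_num)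
          _ = 4 := by norm_num
    _ = 4 * ((M : ℝ) + 1) ^ 3 := by
        rw [Finset.sum_const, Finset.card_univ, nsmul_eq_mul, PkB_card]
        ring

/-- adding one site changes the perturbation kernel by `O(N^{-1/4})`.
[Termwise: `(N+1)^{3/4} K_p(R~) - N^{3/4} K_p(R) = ((N+1)^{3/4} - N^{3/4}) K_p(R~) +
N^{3/4} (K_p(R~) - K_p(R))`, absolute value at most `N^{-1/4} + N^{3/4} * 3 M * 2/(N+1) ≤
(1 + 6 M) N^{-1/4}` by `rpow_step`, `Kp_lip`, `ov_snc_sub`; `x_p^2 ≤ 4`, `(M+1)^3` terms.] -/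
theorem vP_snc {M N : ℕ} (hN : 0 < N) {x : PM M → ℝ} (hx : ∀ p, x p ∈ Set.Icc (1 : ℝ) 2)
    (ρ ρ' : Cfg (Fin 2) N) (s s' : Fin 2 → Bool) :
    |dot (vP M (N + 1) x (snc ρ s)) (vP M (N + 1) x (snc ρ' s')) -
        dot (vP M N x ρ) (vP M N x ρ')| ≤
      4 * ((M : ℝ) + 1) ^ 3 * (1 + 6 * M) * (N : ℝ) ^ (-(1 / 4) : ℝ) := by
  have hN0 : (0 : ℝ) < N := Nat.cast_pos.2 hN
  have hq : 0 ≤ (N : ℝ) ^ (-(1 / 4) : ℝ) := Real.rpow_nonneg hN0.le _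
  have ha : 0 ≤ (N : ℝ) ^ (3 / 4 : ℝ) := Real.rpow_nonneg hN0.le _
  have hab : (N : ℝ) ^ (3 / 4 : ℝ) ≤ ((N : ℝ) + 1) ^ (3 / 4 : ℝ) :=
    Real.rpow_le_rpow hN0.le (by linarith) (by norm_num)
  have hstep := rpow_step hN
  have h2 : (N : ℝ) ^ (3 / 4 : ℝ) = (N : ℝ) * (N : ℝ) ^ (-(1 / 4) : ℝ) := by
    rw [← Real.rpow_one_add' hN0.le (by norm_num)]
    norm_num
  rw [dot_vP, dot_vP, Nat.cast_add, Nat.cast_one]
  set a := (N : ℝ) ^ (3 / 4 : ℝ) with haa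
  set b := ((N : ℝ) + 1) ^ (3 / 4 : ℝ) with hbb
  set q := (N : ℝ) ^ (-(1 / 4) : ℝ) with hqq
  have hterm : ∀ p : PM M, |x p ^ 2 * (b * Kp p (ovM (snc ρ s) (snc ρ' s')) -
      a * Kp p (ovM ρ ρ'))| ≤ 4 * ((1 + 6 * M) * q) := by
    intro p
    obtain ⟨h3, h4⟩ := PkB_x (hx p)
    have h5 := abs_Kp_le p (snc ρ s) (snc ρ' s')
    have h6 : |Kp p (ovM (snc ρ s) (snc ρ' s')) - Kp p (ovM ρ ρ')| ≤
        3 * M * (2 / ((N : ℝ) + 1)) :=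
      Kp_lip p (fun c c' => abs_ov_le _ _ c c') (fun c c' => abs_ov_le _ _ c c')
        fun c c' => ov_snc_sub ρ ρ' s s' c c'
    have h7 : b * Kp p (ovM (snc ρ s) (snc ρ' s')) - a * Kp p (ovM ρ ρ') =
        (b - a) * Kp p (ovM (snc ρ s) (snc ρ' s')) +
          a * (Kp p (ovM (snc ρ s) (snc ρ' s')) - Kp p (ovM ρ ρ')) := by ring
    have h8 : |(b - a) * Kp p (ovM (snc ρ s) (snc ρ' s'))| ≤ q * 1 := by
      rw [abs_mul, abs_of_nonneg (sub_nonneg.2 hab)]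
      exact mul_le_mul hstep h5 (abs_nonneg _) hq
    have h9 : |a * (Kp p (ovM (snc ρ s) (snc ρ' s')) - Kp p (ovM ρ ρ'))| ≤ 6 * M * q := by
      rw [abs_mul, abs_of_nonneg ha]
      have h10 : a * (2 / ((N : ℝ) + 1)) ≤ 2 * q := by
        rw [h2, mul_div_assoc', div_le_iff₀ (by positivity)]
        nlinarith
      calc a * |Kp p (ovM (snc ρ s) (snc ρ' s')) - Kp p (ovM ρ ρ')|
          ≤ a * (3 * M * (2 / ((N : ℝ) + 1))) := mul_le_mul_of_nonneg_left h6 ha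
        _ = 3 * M * (a * (2 / ((N : ℝ) + 1))) := by ring
        _ ≤ 3 * M * (2 * q) := mul_le_mul_of_nonneg_left h10 (by positivity)
        _ = 6 * M * q := by ring
    have h11 : |b * Kp p (ovM (snc ρ s) (snc ρ' s')) - a * Kp p (ovM ρ ρ')| ≤
        (1 + 6 * M) * q := by
      rw [h7]
      refine (abs_add_le _ _).trans ?_
      calc _ ≤ q * 1 + 6 * M * q := add_le_add h8 h9
        _ = (1 + 6 * M) * q := by ring
    rw [abs_mul, abs_of_nonneg h3]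
    exact mul_le_mul h4 h11 (abs_nonneg _) (by norm_num)
  have e1 : b * ∑ p, x p ^ 2 * Kp p (ovM (snc ρ s) (snc ρ' s')) -
      a * ∑ p, x p ^ 2 * Kp p (ovM ρ ρ') =
      ∑ p, x p ^ 2 * (b * Kp p (ovM (snc ρ s) (snc ρ' s')) - a * Kp p (ovM ρ ρ')) := by
    rw [Finset.mul_sum, Finset.mul_sum, ← Finset.sum_sub_distrib]
    refine Finset.sum_congr rfl fun p _ => ?_
    ring
  rw [e1]
  calc _ ≤ ∑ p, |x p ^ 2 * (b * Kp p (ovM (snc ρ s) (snc ρ' s')) - a * Kp p (ovM ρ ρ'))| :=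
        Finset.abs_sum_le_sum_abs _ _
    _ ≤ ∑ _p : PM M, 4 * ((1 + 6 * (M : ℝ)) * q) := Finset.sum_le_sum fun p _ => hterm p
    _ = 4 * ((M : ℝ) + 1) ^ 3 * (1 + 6 * M) * q := by
        rw [Finset.sum_const, Finset.card_univ, nsmul_eq_mul, PkB_card]
        ring

/-- adding one site changes the penalty by little (lower bound).
[`(N+1)(R~-u) = N(R-u) + (s0 s1 - u)` by `ov_snc`, so with `d = R - u`, `e = s0 s1 - u`, `|e| ≤ 2`: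
`Pen (N+1) - Pen N = N d^2 - (N d + e)^2/(N+1) = (N d^2 - 2 N d e - e^2)/(N+1) ≥
-(4 |d| + 4/(N+1))`.] -/
theorem pen_snc {u : ℝ} (hu : |u| ≤ 1) {N : ℕ} (ρ : Cfg (Fin 2) N) (s : Fin 2 → Bool) :
    Pen u N ρ - 4 * |ov ρ ρ 0 1 - u| - 4 / ((N : ℝ) + 1) ≤ Pen u (N + 1) (snc ρ s) := by
  have hN : (0 : ℝ) < (N : ℝ) + 1 := by positivity
  have hN0 : (0 : ℝ) ≤ (N : ℝ) := Nat.cast_nonneg _
  have h1 := ov_snc ρ ρ s s 0 1
  have h3 : |sg (s 0) * sg (s 1)| = 1 := by rw [abs_mul, abs_sg, abs_sg, one_mul]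
  have h4 : |sg (s 0) * sg (s 1) - u| ≤ 2 := (abs_sub _ _).trans (by linarith)
  unfold Pen
  rw [Nat.cast_add, Nat.cast_one]
  set R := ov ρ ρ 0 1 with hR
  set R' := ov (snc ρ s) (snc ρ s) 0 1 with hR'
  set e := sg (s 0) * sg (s 1) - u with he
  have h5 : ((N : ℝ) + 1) * (R' - u) = N * (R - u) + e := by
    rw [he]
    linear_combination h1
  set d := R - u with hd
  have h6 : (((N : ℝ) + 1) * (R' - u)) ^ 2 ≤ ((N : ℝ) + 1) * (N * d ^ 2 + 4 * |d|) + 4 := by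
    rw [h5]
    have h7 : d * e ≤ |d| * 2 := by
      calc d * e ≤ |d * e| := le_abs_self _
        _ = |d| * |e| := abs_mul _ _
        _ ≤ |d| * 2 := mul_le_mul_of_nonneg_left h4 (abs_nonneg _)
    have h8 : e ^ 2 ≤ 4 := by
      rw [← sq_abs]
      nlinarith [abs_nonneg e]
    have h9 : 0 ≤ |d| := abs_nonneg d
    nlinarith [mul_le_mul_of_nonneg_left h7 hN0, mul_nonneg hN0 (sq_nonneg d)]
  have h10 : ((N : ℝ) + 1) * (R' - u) ^ 2 ≤ N * d ^ 2 + 4 * |d| + 4 / ((N : ℝ) + 1) := by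
    have h11 : ((N : ℝ) + 1) * (R' - u) ^ 2 = (((N : ℝ) + 1) * (R' - u)) ^ 2 / ((N : ℝ) + 1) := by
      field_simp
    have h12 : N * d ^ 2 + 4 * |d| + 4 / ((N : ℝ) + 1) =
        (((N : ℝ) + 1) * (N * d ^ 2 + 4 * |d|) + 4) / ((N : ℝ) + 1) := by
      field_simp
    rw [h11, h12]
    exact div_le_div_of_nonneg_right h6 hN.le
  linarith

end SKC.H
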