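import Pool.Agent.H.MP_08eaf3_pr.H.BlkA

/-!
# Part H: choice of a size and of a parameter in a good block
-/

set_option autoImplicit false

open MeasureTheory ProbabilityTheory Filter Topology Matrix

namespace SKC.H

theorem Sel_restrict (M : ℕ) : muX M = (volume : Measure (PM M → ℝ)).restrict
    (Set.pi Set.univ fun _ => Set.Icc (1 : ℝ) 2) := by
  unfold muX
  rw [volume_pi, Measure.restrict_pi_pi]

/-- -/
theorem muX_prob (M : ℕ) : IsProbabilityMeasure (muX M) := by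
  have h1 : IsProbabilityMeasure ((volume : Measure ℝ).restrict (Set.Icc (1 : ℝ) 2)) := by
    constructor
    rw [Measure.restrict_apply_univ, Real.volume_Icc]
    norm_num
  unfold muX
  infer_instance

/-- [`Measure.pi` of restrictions; `Measure.restrict_pi_pi`, or `ae_of_all` for each coordinate.] -/
theorem muX_ae (M : ℕ) : ∀ᵐ x ∂muX M, ∀ p, x p ∈ Set.Icc (1 : ℝ) 2 := by
  rw [Sel_restrict]
  have h := ae_restrict_mem (μ := (volume : Measure (PM M → ℝ)))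
    (s := Set.pi Set.univ fun _ => Set.Icc (1 : ℝ) 2)
    (MeasurableSet.univ_pi fun _ => measurableSet_Icc)
  filter_upwards [h] with x hx p using hx p (Set.mem_univ p)

/-- continuous functions are integrable for `muX` [bounded on the compact cube] -/
theorem muX_integrable {M : ℕ} {f : (PM M → ℝ) → ℝ} (hf : Continuous f) :
    Integrable f (muX M) := by
  rw [Sel_restrict]
  exact hf.continuousOn.integrableOn_compact (isCompact_univ_pi fun _ => isCompact_Icc)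

/-- choice of a size `N` and a parameter `x` in a good block.  `g` = Ghirlanda-Guerra errors.
[Let `K = 2 (|A| + C0 + 2)/ε` (`C0 = C0 b1 b2 M` of `step_ge`, `C0 ≥ 0`), `C` from `hgi`.  Take `δ ≤ ε/2`, `δ ≤ 1`
with `δ + K (M+1)^3 C * 2 δ ≤ min (ε/2) 1`, `N1'` with `N^{-1/8} ≤ δ` for `N ≥ N1'`, and a good block `N0, L` for
`δ` and `max N1 N1' 1`.  The function `Φ(x) = ∑_{N0 ≤ N < N0+L} (LZ 1 (N+1) x - LZ 1 N x + K ∑_p g N p x)` is
`LZ 1 (N0+L) x - LZ 1 N0 x + ...` (`Finset.sum_range_sub` shifted), so `∫ Φ dmuX ≤ L (A + δ) + L K (M+1)^3 C 2 δ ≤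
L (A + ε')`, `ε' = min (ε/2) 1`.  There is `x` in the cube with `Φ(x) ≤ L (A + ε')` (`exists_le_integral` /
`exists_notMem_null_le_integral` and `muX_ae`), and then `N` in the block with
`LZ 1 (N+1) x - LZ 1 N x + K ∑_p g N p x ≤ A + ε'` (`Finset.exists_le_of_sum_le`).  As `g ≥ 0` the increment is
`≤ A + ε`; as the increment is `≥ -C0`: `K ∑_p g ≤ A + ε' + C0`, so `g N p x ≤ ε`.  The remaining claims are part
of `GoodBlocks` (`δ ≤ ε`).] -/
theorem select {b1 b2 u A : ℝ} (hb1 : 0 ≤ b1) (hb2 : 0 ≤ b2) (hu : |u| ≤ 1) {M : ℕ}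
    (h : GoodBlocks b1 b2 u A M) (g : ℕ → PM M → (PM M → ℝ) → ℝ)
    (hg0 : ∀ N p x, 0 ≤ g N p x) (hgc : ∀ N p, Continuous (g N p))
    (hgi : ∃ C : ℝ, 0 ≤ C ∧ ∀ N : ℕ, 0 < N → ∀ p : PM M, ∀ δ : ℝ, 0 ≤ δ →
      (∀ x : PM M → ℝ, (∀ p, x p ∈ Set.Icc (1 : ℝ) 2) → dev b1 b2 u M N x ≤ δ) →
      ∫ x, g N p x ∂(muX M) ≤ C * ((N : ℝ) ^ (-(1 / 8) : ℝ) + δ))
    (hLZ : ∀ N, Continuous (fun x => LZ b1 b2 1 u M N x)) {ε : ℝ} (hε : 0 < ε) (N1 : ℕ) :
    ∃ N : ℕ, N1 ≤ N ∧ 0 < N ∧ ∃ x : PM M → ℝ, (∀ p, x p ∈ Set.Icc (1 : ℝ) 2) ∧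
      (∀ p, g N p x ≤ ε) ∧ dev b1 b2 u M N x ≤ ε ∧
      LZ b1 b2 1 u M (N + 1) x - LZ b1 b2 1 u M N x ≤ A + ε ∧
      (N : ℝ) * (A - ε) ≤ LZ b1 b2 (cN N) u M N x := by
  obtain ⟨C, hC0, hC⟩ := hgi
  have := muX_prob M
  have hC00 : 0 ≤ C0 b1 b2 M := by unfold C0; positivity
  obtain ⟨ε', hε'⟩ : ∃ ε' : ℝ, ε' = min (ε / 2) 1 := ⟨_, rfl⟩
  have hε'0 : 0 < ε' := hε' ▸ lt_min (by positivity) one_pos
  have hε'1 : ε' ≤ ε / 2 := hε' ▸ min_le_left _ _
  have hε'2 : ε' ≤ 1 := hε' ▸ min_le_right _ _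
  obtain ⟨K, hK⟩ : ∃ K : ℝ, K = 2 * (|A| + C0 b1 b2 M + 2) / ε := ⟨_, rfl⟩
  have hK0 : 0 < K := by rw [hK]; positivity
  obtain ⟨D, hD⟩ : ∃ D : ℝ, D = 1 + K * ((M : ℝ) + 1) ^ 3 * C * 2 := ⟨_, rfl⟩
  have hD1 : 1 ≤ D := by
    rw [hD]
    have : 0 ≤ K * ((M : ℝ) + 1) ^ 3 * C * 2 := by positivity
    linarith
  obtain ⟨δ, hδ⟩ : ∃ δ : ℝ, δ = ε' / D := ⟨_, rfl⟩
  have hδ0 : 0 < δ := by rw [hδ]; exact div_pos hε'0 (by linarith)
  have hδ1 : δ ≤ ε' := by rw [hδ]; exact div_le_self hε'0.le hD1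
  have hδD : δ * D = ε' := by rw [hδ]; exact div_mul_cancel₀ _ (by linarith)
  have ht : Tendsto (fun N : ℕ => (N : ℝ) ^ (-(1 / 8) : ℝ)) atTop (𝓝 0) :=
    (tendsto_rpow_neg_atTop (by norm_num : (0 : ℝ) < 1 / 8)).comp tendsto_natCast_atTop_atTop
  obtain ⟨N1', hN1'⟩ := eventually_atTop.1 (ht.eventually_le_const hδ0)
  obtain ⟨N0, hN0, L, hL, hb, hi⟩ := h δ hδ0 (max (max N1 N1') 1)
  have hN01 : N1 ≤ N0 := (le_max_left _ _).trans ((le_max_left _ _).trans hN0)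
  have hN02 : N1' ≤ N0 := (le_max_right _ _).trans ((le_max_left _ _).trans hN0)
  have hN03 : 1 ≤ N0 := (le_max_right _ _).trans hN0
  have hsum : ∀ x, ∑ i ∈ Finset.range L,
      (LZ b1 b2 1 u M (N0 + i + 1) x - LZ b1 b2 1 u M (N0 + i) x) =
      LZ b1 b2 1 u M (N0 + L) x - LZ b1 b2 1 u M N0 x := fun x =>
    Finset.sum_range_sub (fun i => LZ b1 b2 1 u M (N0 + i) x) L
  obtain ⟨Φ, hΦ⟩ : ∃ Φ : (PM M → ℝ) → ℝ, Φ = fun x => ∑ i ∈ Finset.range L,
      ((LZ b1 b2 1 u M (N0 + i + 1) x - LZ b1 b2 1 u M (N0 + i) x) +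
        K * ∑ p, g (N0 + i) p x) := ⟨_, rfl⟩
  have hΦ' : Φ = fun x => (LZ b1 b2 1 u M (N0 + L) x - LZ b1 b2 1 u M N0 x) +
      K * ∑ i ∈ Finset.range L, ∑ p, g (N0 + i) p x := by
    rw [hΦ]
    funext x
    rw [Finset.sum_add_distrib, hsum, ← Finset.mul_sum]
  have hΦc : Continuous Φ := by
    rw [hΦ']
    exact ((hLZ _).sub (hLZ _)).add (continuous_const.mul
      (continuous_finsetSum _ fun i _ => continuous_finsetSum _ fun p _ => hgc _ _))
  have hcard : (Fintype.card (PM M) : ℝ) = ((M : ℝ) + 1) ^ 3 := by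
    simp only [PM, Fintype.card_prod, Fintype.card_fin]
    push_cast
    ring
  have hint : ∫ x, Φ x ∂(muX M) ≤ L * (A + ε') := by
    have i1 : Integrable (fun x => LZ b1 b2 1 u M (N0 + L) x - LZ b1 b2 1 u M N0 x) (muX M) :=
      muX_integrable ((hLZ _).sub (hLZ _))
    have i2 : Integrable (fun x => K * ∑ i ∈ Finset.range L, ∑ p, g (N0 + i) p x) (muX M) :=
      muX_integrable (continuous_const.mul
      (continuous_finsetSum _ fun i _ => continuous_finsetSum _ fun p _ => hgc _ _))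
    rw [hΦ', integral_add i1 i2, integral_const_mul]
    have e1 : ∫ x, (LZ b1 b2 1 u M (N0 + L) x - LZ b1 b2 1 u M N0 x) ∂(muX M) ≤
        L * (A + δ) := by
      have : ∫ _x, ((L : ℝ) * (A + δ)) ∂(muX M) = L * (A + δ) := by simp
      rw [← this]
      refine integral_mono_ae i1 (integrable_const _) ?_
      filter_upwards [muX_ae M] with x hx using hi x hx
    have e2 : ∫ x, ∑ i ∈ Finset.range L, ∑ p, g (N0 + i) p x ∂(muX M) ≤
        L * (((M : ℝ) + 1) ^ 3 * (C * (δ + δ))) := by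
      rw [integral_finsetSum _ fun i _ => muX_integrable
        (continuous_finsetSum _ fun p _ => hgc _ _)]
      have : (L : ℝ) * (((M : ℝ) + 1) ^ 3 * (C * (δ + δ))) =
          ∑ _i ∈ Finset.range L, (((M : ℝ) + 1) ^ 3 * (C * (δ + δ))) := by
        simp
      rw [this]
      refine Finset.sum_le_sum fun i hi' => ?_
      rw [integral_finsetSum _ fun p _ => muX_integrable (hgc _ _)]
      have h3 : (((M : ℝ) + 1) ^ 3 * (C * (δ + δ))) = ∑ _p : PM M, C * (δ + δ) := by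
        rw [Finset.sum_const, Finset.card_univ, nsmul_eq_mul, hcard]
      rw [h3]
      refine Finset.sum_le_sum fun p _ => ?_
      have h4 := hC (N0 + i) (by omega) p δ hδ0.le fun x hx =>
        (hb (N0 + i) (by omega) (by have := Finset.mem_range.1 hi'; omega) x hx).1
      refine h4.trans ?_
      refine mul_le_mul_of_nonneg_left ?_ hC0
      have h5 := hN1' (N0 + i) (by omega)
      linarith
    have e3 : K * ∫ x, ∑ i ∈ Finset.range L, ∑ p, g (N0 + i) p x ∂(muX M) ≤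
        K * (L * (((M : ℝ) + 1) ^ 3 * (C * (δ + δ)))) := mul_le_mul_of_nonneg_left e2 hK0.le
    have e4 : (L : ℝ) * (A + ε') = L * (A + δ) +
        K * (L * (((M : ℝ) + 1) ^ 3 * (C * (δ + δ)))) := by
      rw [← hδD, hD]
      ring
    linarith
  obtain ⟨x, hx1, hx2⟩ := exists_notMem_null_le_integral (muX_integrable hΦc)
    (ae_iff.1 (muX_ae M))
  have hx : ∀ p, x p ∈ Set.Icc (1 : ℝ) 2 := by
    simpa using hx1
  have hle : ∑ i ∈ Finset.range L,
      ((LZ b1 b2 1 u M (N0 + i + 1) x - LZ b1 b2 1 u M (N0 + i) x) +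
        K * ∑ p, g (N0 + i) p x) ≤ ∑ _i ∈ Finset.range L, (A + ε') := by
    have h1 : Φ x = ∑ i ∈ Finset.range L,
      ((LZ b1 b2 1 u M (N0 + i + 1) x - LZ b1 b2 1 u M (N0 + i) x) +
        K * ∑ p, g (N0 + i) p x) := by rw [hΦ]
    rw [← h1]
    have h2 : ∑ _i ∈ Finset.range L, (A + ε') = L * (A + ε') := by
      rw [Finset.sum_const, Finset.card_range, nsmul_eq_mul]
    rw [h2]
    exact hx2.trans hint
  obtain ⟨i, hi1, hi2⟩ := Finset.exists_le_of_sum_le (Finset.nonempty_range_iff.2 hL.ne') hle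
  have hiL := Finset.mem_range.1 hi1
  have hg1 : ∀ p, 0 ≤ g (N0 + i) p x := fun p => hg0 _ _ _
  have hgs : 0 ≤ ∑ p, g (N0 + i) p x := Finset.sum_nonneg fun p _ => hg1 p
  have hb' := hb (N0 + i) (by omega) (by omega) x hx
  have hstep := step_ge hb1 hb2 hu (M := M) (N := N0 + i) (by omega) hx
  have hKg : 0 ≤ K * ∑ p, g (N0 + i) p x := mul_nonneg hK0.le hgs
  have hNpos : 0 ≤ ((N0 + i : ℕ) : ℝ) := Nat.cast_nonneg _
  refine ⟨N0 + i, by omega, by omega, x, hx, ?_, ?_, ?_, ?_⟩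
  · intro p
    have h1 : g (N0 + i) p x ≤ ∑ p, g (N0 + i) p x :=
      Finset.single_le_sum (f := fun p => g (N0 + i) p x) (fun p _ => hg1 p) (Finset.mem_univ p)
    have h2 : K * ∑ p, g (N0 + i) p x ≤ K * ε := by
      have h3 : K * ε = 2 * (|A| + C0 b1 b2 M + 2) := by
        rw [hK]
        field_simp
      have h4 := le_abs_self A
      have h5 := abs_nonneg A
      rw [h3]
      linarith
    exact h1.trans (le_of_mul_le_mul_left h2 hK0)
  · linarith [hb'.1]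
  · linarith
  · refine le_trans ?_ hb'.2
    refine mul_le_mul_of_nonneg_left ?_ hNpos
    linarith

end SKC.H
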