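import Pool.Agent.H.MP_08eaf3_pr.Defs2
import Pool.Agent.H.MP_08eaf3_pr.IfA
import Pool.Agent.H.MP_08eaf3_pr.IfB
import Pool.Agent.H.MP_08eaf3_pr.IfJ
import Pool.Agent.H.MP_08eaf3_pr.A.Integ

/-!
# Part H2: the pair functional with `b2 = 0`, `u = 0` and the single functional
-/

set_option autoImplicit false

open MeasureTheory ProbabilityTheory Filter Topology Matrix

namespace SKC.H

/-- [`pr` keeps the weights.] -/
theorem valid_pr {l : List (Step (Fin 2))} (hl : Valid l) (d : Fin 2) : Valid (l.map (pr d)) := by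
  obtain ⟨h1, h2, l', E, hE⟩ := hl
  refine ⟨?_, ?_, ?_⟩
  · rw [List.pairwise_map]
    exact h1
  · intro a ha
    obtain ⟨b, hb, rfl⟩ := List.mem_map.1 ha
    exact h2 b hb
  · refine ⟨l'.map (pr d), (pr d ((1 : ℝ), E)).2, ?_⟩
    rw [hE, List.map_append]
    rfl

theorem SglA_nonneg (E : Matrix (Fin 2) (Fin 2) ℝ) (d : Fin 2) : 0 ≤ (E * Eᵀ) d d := by
  rw [Matrix.mul_apply]
  exact Finset.sum_nonneg fun j _ => by
    rw [Matrix.transpose_apply]
    exact mul_self_nonneg _

theorem SglA_pr_sq (s : Step (Fin 2)) (d : Fin 2) :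
    (pr d s).2 * (pr d s).2ᵀ = fun _ _ => (s.2 * s.2ᵀ) d d := by
  ext i j
  rw [Matrix.mul_apply, Fintype.sum_unique, Matrix.transpose_apply]
  exact Real.mul_self_sqrt (SglA_nonneg s.2 d)

/-- [`√(x) √(x) = x` for the nonnegative number `(E Eᵀ)_dd = ∑ E_dj^2`; induction on `l`.] -/
theorem Qtot_pr (l : List (Step (Fin 2))) (d : Fin 2) :
    Qtot (l.map (pr d)) = fun _ _ => Qtot l d d := by
  induction l with
  | nil =>
    ext i j
    rfl
  | cons s l ih =>
    rw [List.map_cons]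
    change (pr d s).2 * (pr d s).2ᵀ + Qtot (l.map (pr d)) = _
    rw [ih, SglA_pr_sq]
    ext i j
    rfl

/-- [`Cf (be b 0) Q = b^2 Q_00^2`; induction on `l`.] -/
theorem corr_pr (b : ℝ) (l : List (Step (Fin 2))) (Q : Matrix (Fin 2) (Fin 2) ℝ) :
    corr (be b 0) Q l = corr (fun _ : Unit => b) (fun _ _ => Q 0 0) (l.map (pr 0)) := by
  have hC : ∀ R : Matrix (Fin 2) (Fin 2) ℝ,
      Cf (be b 0) R = Cf (fun _ : Unit => b) (fun _ _ => R 0 0) := by
    intro R
    unfold Cf be
    simp [Fin.sum_univ_two]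
  induction l generalizing Q with
  | nil => rfl
  | cons s l ih =>
    rw [List.map_cons]
    set Q1 : Matrix Unit Unit ℝ := fun _ _ => Q 0 0 with hQ1
    change s.1 * (Cf (be b 0) (Q + s.2 * s.2ᵀ) - Cf (be b 0) Q) +
      corr (be b 0) (Q + s.2 * s.2ᵀ) l =
      s.1 * (Cf (fun _ : Unit => b) (Q1 + (pr 0 s).2 * (pr 0 s).2ᵀ) -
        Cf (fun _ : Unit => b) Q1) +
      corr (fun _ : Unit => b) (Q1 + (pr 0 s).2 * (pr 0 s).2ᵀ) (l.map (pr 0))
    have hQ : Q1 + (pr 0 s).2 * (pr 0 s).2ᵀ =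
        fun _ _ => (Q + s.2 * s.2ᵀ) 0 0 := by
      rw [SglA_pr_sq]
      ext i j
      rfl
    rw [hQ, hC, hC, ih]

/-- [`∑_{s0,s1} exp(s0 z0 + s1 * 0) = 2 ∑_{s0} exp(s0 z0)`.] -/
theorem F0_pr (z : Fin 2 → ℝ) (hz : z 1 = 0) :
    F0 z = F0 (K := Unit) (fun _ => z 0) + Real.log 2 := by
  unfold F0 psiEnd
  have h2 : ∑ s : Fin 2 → Bool, Real.exp ((∑ c, sg (s c) * z c) + 0 * 0) =
      2 * (Real.exp (z 0) + Real.exp (-z 0)) := by
    rw [← (finTwoArrowEquiv Bool).symm.sum_comp, Fintype.sum_prod_type]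
    simp only [Fintype.sum_bool, Fin.sum_univ_two, finTwoArrowEquiv_symm_apply, sg, hz]
    simp
    ring
  have h1 : ∑ s : Unit → Bool, Real.exp ((∑ c, sg (s c) * z 0) + 0 * 0) =
      Real.exp (z 0) + Real.exp (-z 0) := by
    rw [← (Equiv.funUnique Unit Bool).symm.sum_comp]
    simp only [Fintype.sum_bool, Fintype.sum_unique, sg]
    simp
  rw [h1, h2, mul_comm, Real.log_mul (by positivity) (by norm_num)]

/-- one step of the recursion: `B = Bm (be b 0) E` has second row `0` and first row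
`√2 b (E_00, E_01)`, so `z + B x` has second coordinate `0`, and its first coordinate has the law of
`z_0 + √2 b √((E Eᵀ)_00) y` (`gam_map_linear_eq`). Adding the constant `log 2` commutes with `Tm`
(needs integrability of `f` and `exp(m f)`: growth class `LG`). -/
theorem Tm_pr {b m : ℝ} (hm : 0 ≤ m) (E : Matrix (Fin 2) (Fin 2) ℝ) {f : (Fin 2 → ℝ) → ℝ}
    {g : (Unit → ℝ) → ℝ} (hg : LG g)
    (hfg : ∀ z : Fin 2 → ℝ, z 1 = 0 → f z = g (fun _ => z 0) + Real.log 2)
    (z : Fin 2 → ℝ) (hz : z 1 = 0) :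
    Tm m (Bm (be b 0) E) f z =
      Tm m (Bm (fun _ : Unit => b) (pr 0 (m, E)).2) g (fun _ => z 0) + Real.log 2 := by
  set M : Matrix Unit (Fin 2) ℝ := fun _ j => Real.sqrt 2 * b * E 0 j with hM
  set M' : Matrix Unit Unit ℝ := Bm (fun _ : Unit => b) (pr 0 (m, E)).2 with hM'
  have hMM : M * Mᵀ = M' * M'ᵀ := by
    ext i j
    rw [Matrix.mul_apply, Matrix.mul_apply]
    simp only [Matrix.transpose_apply, Fintype.sum_unique, Fin.sum_univ_two]
    have h1 : M' i default * M' j default = 2 * b ^ 2 * (E * Eᵀ) 0 0 := by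
      have h2 : ∀ i : Unit, M' i default =
          Real.sqrt 2 * b * Real.sqrt ((E * Eᵀ) 0 0) := fun _ => rfl
      have h4 := Real.mul_self_sqrt (SglA_nonneg E 0)
      have h5 := Real.mul_self_sqrt (show (0 : ℝ) ≤ 2 by norm_num)
      simp only [h2]
      calc Real.sqrt 2 * b * Real.sqrt ((E * Eᵀ) 0 0) * (Real.sqrt 2 * b *
            Real.sqrt ((E * Eᵀ) 0 0)) = (Real.sqrt 2 * Real.sqrt 2) * b ^ 2 *
            (Real.sqrt ((E * Eᵀ) 0 0) * Real.sqrt ((E * Eᵀ) 0 0)) := by ring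
        _ = 2 * b ^ 2 * (E * Eᵀ) 0 0 := by rw [h4, h5]
    rw [h1, Matrix.mul_apply, Fin.sum_univ_two, Matrix.transpose_apply, Matrix.transpose_apply]
    have h5 := Real.mul_self_sqrt (show (0 : ℝ) ≤ 2 by norm_num)
    simp only [hM]
    linear_combination (b ^ 2 * (E 0 0 * E 0 0 + E 0 1 * E 0 1)) * h5
  have hlaw := gam_map_linear_eq M M' hMM
  have hint : ∀ φ : (Unit → ℝ) → ℝ, Continuous φ →
      ∫ x, φ (M.mulVec x) ∂(gam (Fin 2)) = ∫ y, φ (M'.mulVec y) ∂(gam Unit) := by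
    intro φ hφ
    have hc : Continuous (fun x : Fin 2 → ℝ => M.mulVec x) :=
      continuous_const.matrix_mulVec continuous_id
    have hc' : Continuous (fun x : Unit → ℝ => M'.mulVec x) :=
      continuous_const.matrix_mulVec continuous_id
    have h1 := integral_map (μ := gam (Fin 2)) hc.measurable.aemeasurable
      (hφ.aestronglyMeasurable (μ := (gam (Fin 2)).map (fun x => M.mulVec x)))
    have h2 := integral_map (μ := gam Unit) hc'.measurable.aemeasurable
      (hφ.aestronglyMeasurable (μ := (gam Unit).map (fun x => M'.mulVec x)))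
    rw [← h1, ← h2, hlaw]
  have hval : ∀ x : Fin 2 → ℝ, f (z + (Bm (be b 0) E).mulVec x) =
      g ((fun _ => z 0) + M.mulVec x) + Real.log 2 := by
    intro x
    have h1 : (z + (Bm (be b 0) E).mulVec x) 1 = 0 := by
      rw [Pi.add_apply, hz, zero_add, Matrix.mulVec, dotProduct, Fin.sum_univ_two]
      unfold Bm be
      simp
    rw [hfg _ h1]
    congr 2
  have hgc : Continuous g := hg.1
  have hga : LG (fun y : Unit → ℝ => g ((fun _ => z 0) + M'.mulVec y)) := hg.comp_affine _ _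
  unfold Tm
  by_cases h0 : m = 0
  · rw [if_pos h0, if_pos h0]
    simp only [hval]
    rw [hint (fun v => g ((fun _ => z 0) + v) + Real.log 2)
      (by fun_prop)]
    rw [integral_add hga.integrable (integrable_const _)]
    simp
  · rw [if_neg h0, if_neg h0]
    simp only [hval]
    rw [hint (fun v => Real.exp (m * (g ((fun _ => z 0) + v) + Real.log 2)))
      (by fun_prop)]
    have h1 : ∀ y : Unit → ℝ, Real.exp (m * (g ((fun _ => z 0) + M'.mulVec y) + Real.log 2)) =
        Real.exp (m * Real.log 2) * Real.exp (m * g ((fun _ => z 0) + M'.mulVec y)) := by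
      intro y
      rw [← Real.exp_add]
      congr 1
      ring
    simp only [h1]
    rw [integral_const_mul]
    have h2 : 0 < ∫ y, Real.exp (m * g ((fun _ => z 0) + M'.mulVec y)) ∂(gam Unit) :=
      (hga.exp m).integral_pos (fun y => Real.exp_pos _)
    rw [Real.log_mul (Real.exp_pos _).ne' h2.ne', Real.log_exp]
    field_simp
    ring

end SKC.H
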