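import Pool.Agent.H.MP_08eaf3_pr.H.MassB

/-!
# Part H3, (L3): events of positive mass are full
-/

set_option autoImplicit false

open MeasureTheory ProbabilityTheory Filter Topology Matrix

namespace SKC.H

variable {J : Type} [Fintype J] [DecidableEq J]

/-- a `J`-tuple of pair configurations as one configuration with spin coordinates `J × Fin 2` -/
def jn (J : Type) (N : ℕ) : (J → Cfg (Fin 2) N) ≃ Cfg (J × Fin 2) N where
  toFun r := fun i p => r p.1 i p.2
  invFun ρ := fun j i c => ρ i (j, c)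
  left_inv _ := rfl
  right_inv _ := rfl

/-- -/
theorem ov_jn {N : ℕ} (r r' : J → Cfg (Fin 2) N) (p p' : J × Fin 2) :
    ov (jn J N r) (jn J N r') p p' = ov (r p.1) (r' p'.1) p.2 p'.2 := by
  rfl

theorem TreeA_dot_sum {Ω ι : Type} [Fintype ι] (v : Ω → ι → ℝ) (x : ι → ℝ) (r : J → Ω) :
    dot x (fun i => ∑ j, v (r j) i) = ∑ j, dot x (v (r j)) := by
  unfold dot
  rw [Finset.sum_comm]
  exact Finset.sum_congr rfl fun i _ => Finset.mul_sum _ _ _

theorem TreeA_dot_dot {κ : Type} [Fintype κ] (f g : J → κ → ℝ) :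
    dot (fun i => ∑ j, f j i) (fun i => ∑ j, g j i) = ∑ j, ∑ j', dot (f j) (g j') := by
  unfold dot
  have h1 : ∀ i : κ, (∑ j, f j i) * (∑ j, g j i) = ∑ j, ∑ j', f j i * g j' i := by
    intro i
    rw [Finset.sum_mul_sum]
  rw [Finset.sum_congr rfl fun i _ => h1 i, Finset.sum_comm]
  refine Finset.sum_congr rfl fun j _ => ?_
  rw [Finset.sum_comm]

theorem TreeA_prod {Ω ι : Type} [Fintype Ω] [Nonempty Ω] [Fintype ι] (v : Ω → ι → ℝ) (a : Ω → ℝ)
    {E : Finset (J → Ω)} (hE : E.Nonempty) (x : ι → ℝ) :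
    ∑ r ∈ E, ∏ j, gw v a x (r j) =
      Real.exp (lse E (fun r => dot x (fun i => ∑ j, v (r j) i) + ∑ j, a (r j)) -
      (Fintype.card J : ℝ) * lse Finset.univ (fun ω => dot x (v ω) + a ω)) := by
  have p1 : 0 < ∑ r ∈ E, Real.exp (dot x (fun i => ∑ j, v (r j) i) + ∑ j, a (r j)) :=
    Finset.sum_pos (fun ω _ => Real.exp_pos _) hE
  have p2 : 0 < ∑ ω, Real.exp (dot x (v ω) + a ω) :=
    Finset.sum_pos (fun ω _ => Real.exp_pos _) Finset.univ_nonempty
  unfold lse
  rw [Real.exp_sub, Real.exp_log p1, Real.exp_nat_mul, Real.exp_log p2, Finset.sum_div]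
  refine Finset.sum_congr rfl fun r _ => ?_
  unfold gw
  rw [Finset.prod_div_distrib, Finset.prod_const, Finset.card_univ, ← Real.exp_sum,
    Finset.sum_add_distrib, TreeA_dot_sum]

theorem TreeA_le_one {Ω ι : Type} [Fintype Ω] [Nonempty Ω] [Fintype ι] (v : Ω → ι → ℝ) (a : Ω → ℝ)
    (E : Finset (J → Ω)) (x : ι → ℝ) : ∑ r ∈ E, ∏ j, gw v a x (r j) ≤ 1 := by
  classical
  have h := Finset.prod_univ_sum (fun _ : J => (Finset.univ : Finset Ω))
    (fun _ ω => gw v a x ω)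
  rw [Fintype.piFinset_univ] at h
  have h1 : ∏ _j : J, ∑ ω, gw v a x ω = 1 := Finset.prod_eq_one fun _ _ => SKC.gw_sum v a x
  rw [h1] at h
  rw [h]
  exact Finset.sum_le_sum_of_subset_of_nonneg (Finset.subset_univ _)
    fun r _ _ => Finset.prod_nonneg fun j _ => SKC.gw_nonneg v a x (r j)

/-- quenched average of an event of `J`-tuples -/
noncomputable def PJ {Ω ι : Type} [Fintype Ω] [Fintype ι] (v : Ω → ι → ℝ) (a : Ω → ℝ)
    (E : Finset (J → Ω)) : ℝ :=
  ∫ x, ∑ r ∈ E, ∏ j, gw v a x (r j) ∂(gam ι)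

/-- [`∑_{r ∈ E} ∏_j gw(r j) = exp(lse E (∑_j ..) - |J| lse univ)`.] -/
theorem PJ_eq {Ω ι : Type} [Fintype Ω] [Nonempty Ω] [Fintype ι] (v : Ω → ι → ℝ) (a : Ω → ℝ)
    {E : Finset (J → Ω)} (hE : E.Nonempty) :
    PJ v a E = ∫ x, Real.exp (lse E (fun r => dot x (fun i => ∑ j, v (r j) i) + ∑ j, a (r j)) -
      (Fintype.card J : ℝ) * lse Finset.univ (fun ω => dot x (v ω) + a ω)) ∂(gam ι) := by
  unfold PJ
  exact integral_congr_ae (Filter.Eventually.of_forall fun x => TreeA_prod v a hE x)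

theorem TreeA_diag {Ω ι : Type} [Fintype ι] (v : Ω → ι → ℝ) {D : ℝ}
    (hD : ∀ ω, dot (v ω) (v ω) ≤ D) (r : J → Ω) :
    dot (fun i => ∑ j, v (r j) i) (fun i => ∑ j, v (r j) i) ≤ (Fintype.card J : ℝ) ^ 2 * D := by
  have h1 : dot (fun i => ∑ j, v (r j) i) (fun i => ∑ j, v (r j) i) ≤
      ∑ i, (Fintype.card J : ℝ) * ∑ j, v (r j) i ^ 2 := by
    unfold dot
    refine Finset.sum_le_sum fun i _ => ?_
    have h2 := sq_sum_le_card_mul_sum_sq (s := (Finset.univ : Finset J)) (f := fun j => v (r j) i)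
    rw [Finset.card_univ] at h2
    rw [← sq]
    exact h2
  refine h1.trans ?_
  rw [← Finset.mul_sum, Finset.sum_comm, sq, mul_assoc]
  refine mul_le_mul_of_nonneg_left ?_ (Nat.cast_nonneg _)
  have h3 : ∀ j ∈ (Finset.univ : Finset J), ∑ i, v (r j) i ^ 2 ≤ D := by
    intro j _
    have h4 := hD (r j)
    unfold dot at h4
    have h5 : ∑ i, v (r j) i ^ 2 = ∑ i, v (r j) i * v (r j) i :=
      Finset.sum_congr rfl fun i _ => sq _
    rw [h5]
    exact h4
  refine (Finset.sum_le_sum h3).trans ?_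
  rw [Finset.sum_const, Finset.card_univ, nsmul_eq_mul]

/-- positive mass implies a lower bound of the constrained free energy.
[`G(x)` = integrand of `PJ`, `0 ≤ G ≤ 1`.  With `D'` bounding the kernels (`|J|^2 D` for the tuple features,
Cauchy-Schwarz; `D` for `univ`) and `t^2 = 8 |J|^2 D / c`... : outside a set of measure `≤ c/4 + c/4` (`conc` for `E`
with `t`, for `univ` with `t/|J|`) `log G ≤ EL E - |J| EL univ + 2t`.  If this number were `< log (c/2)`, then
`∫ G < c/2 + c/2`.  Hence `|J| EL univ + log (c/2) - 2 t ≤ EL E`.] -/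
theorem EL_ge_of_mass {Ω ι : Type} [Fintype Ω] [Nonempty Ω] [Fintype ι] [Nonempty J]
    (v : Ω → ι → ℝ) (a : Ω → ℝ) {D c : ℝ} (hD : ∀ ω, dot (v ω) (v ω) ≤ D) (hD1 : 1 ≤ D)
    (hc : 0 < c) (E : Finset (J → Ω)) (h : c ≤ PJ v a E) :
    E.Nonempty ∧ (Fintype.card J : ℝ) * EL Finset.univ v a + Real.log (c / 2)
        - 2 * (Fintype.card J : ℝ) * Real.sqrt (4 * D / c) ≤
      EL E (fun r i => ∑ j, v (r j) i) (fun r => ∑ j, a (r j)) := by
  have hE : E.Nonempty := by
    rcases E.eq_empty_or_nonempty with rfl | hE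
    · exfalso
      unfold PJ at h
      simp only [Finset.sum_empty, integral_zero] at h
      linarith
    · exact hE
  refine ⟨hE, ?_⟩
  set n : ℝ := (Fintype.card J : ℝ) with hn
  have hn0 : 0 < n := by
    rw [hn]
    exact_mod_cast Fintype.card_pos
  set s : ℝ := Real.sqrt (4 * D / c) with hs
  have hD0 : 0 < D := by linarith
  have hs0 : 0 < s := Real.sqrt_pos.2 (by positivity)
  have hs2 : s ^ 2 = 4 * D / c := Real.sq_sqrt (by positivity)
  set w : (J → Ω) → ι → ℝ := fun r i => ∑ j, v (r j) i with hw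
  set b : (J → Ω) → ℝ := fun r => ∑ j, a (r j) with hb
  have c1 := conc hE w b (D := n ^ 2 * D) (t := n * s) (fun r _ => TreeA_diag v hD r)
    (mul_pos hn0 hs0)
  have c2 := conc (Finset.univ_nonempty (α := Ω)) v a (D := D) (fun ω _ => hD ω) hs0
  have q2 : D / s ^ 2 = c / 4 := by
    rw [hs2]
    field_simp
  have q1 : n ^ 2 * D / (n * s) ^ 2 = c / 4 := by
    rw [← q2, mul_pow]
    field_simp
  rw [q1] at c1
  rw [q2] at c2
  have m1 : MeasurableSet {x : ι → ℝ | n * s ≤ |lse E (fun ω => dot x (w ω) + b ω) - EL E w b|} :=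
    measurableSet_le measurable_const ((MassA_meas E w b).sub_const _).abs
  have m2 : MeasurableSet {x : ι → ℝ | s ≤ |lse Finset.univ (fun ω => dot x (v ω) + a ω) -
      EL Finset.univ v a|} :=
    measurableSet_le measurable_const ((MassA_meas Finset.univ v a).sub_const _).abs
  set S1 := {x : ι → ℝ | n * s ≤ |lse E (fun ω => dot x (w ω) + b ω) - EL E w b|} with hS1
  set S2 := {x : ι → ℝ | s ≤ |lse Finset.univ (fun ω => dot x (v ω) + a ω) -
      EL Finset.univ v a|} with hS2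
  have i1 : Integrable (S1.indicator (fun _ => (1 : ℝ))) (gam ι) :=
    (integrable_const (1 : ℝ)).indicator m1
  have i2 : Integrable (S2.indicator (fun _ => (1 : ℝ))) (gam ι) :=
    (integrable_const (1 : ℝ)).indicator m2
  by_contra hcon
  rw [not_le] at hcon
  set g : ℝ := EL E w b - n * EL Finset.univ v a + 2 * n * s with hg
  have hg1 : g < Real.log (c / 2) := by
    rw [hg]
    linarith
  have hg2 : Real.exp g < c / 2 := by
    rw [← Real.exp_log (show (0 : ℝ) < c / 2 by positivity)]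
    exact Real.exp_lt_exp.2 hg1
  have hG0 : ∀ x : ι → ℝ, 0 ≤ ∑ r ∈ E, ∏ j, gw v a x (r j) := fun x =>
    Finset.sum_nonneg fun r _ => Finset.prod_nonneg fun j _ => SKC.gw_nonneg v a x (r j)
  have hle : ∀ x : ι → ℝ, ∑ r ∈ E, ∏ j, gw v a x (r j) ≤
      Real.exp g + S1.indicator (fun _ => (1 : ℝ)) x + S2.indicator (fun _ => (1 : ℝ)) x := by
    intro x
    have n1 : 0 ≤ S1.indicator (fun _ => (1 : ℝ)) x :=
      Set.indicator_nonneg (fun _ _ => zero_le_one) x
    have n2 : 0 ≤ S2.indicator (fun _ => (1 : ℝ)) x :=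
      Set.indicator_nonneg (fun _ _ => zero_le_one) x
    have n3 := Real.exp_pos g
    have hG1 := TreeA_le_one v a E x
    by_cases hx1 : x ∈ S1
    · rw [Set.indicator_of_mem hx1]
      linarith
    by_cases hx2 : x ∈ S2
    · rw [Set.indicator_of_mem hx2]
      linarith
    rw [hS1, Set.mem_ofPred_eq, not_le] at hx1
    rw [hS2, Set.mem_ofPred_eq, not_le] at hx2
    have e1 := (abs_lt.1 hx1).2
    have e2 := (abs_lt.1 hx2).1
    have e3 : ∑ r ∈ E, ∏ j, gw v a x (r j) ≤ Real.exp g := by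
      rw [TreeA_prod v a hE x]
      refine Real.exp_le_exp.2 ?_
      have e4 : n * (EL Finset.univ v a - s) ≤ n * lse Finset.univ (fun ω => dot x (v ω) + a ω) :=
        mul_le_mul_of_nonneg_left (by linarith) hn0.le
      have e5 : lse E (fun r => dot x (fun i => ∑ j, v (r j) i) + ∑ j, a (r j)) =
        lse E (fun r => dot x (w r) + b r) := rfl
      rw [e5, hg]
      linarith
    linarith
  have i3 : Integrable (fun x : ι → ℝ => Real.exp g + S1.indicator (fun _ => (1 : ℝ)) x +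
      S2.indicator (fun _ => (1 : ℝ)) x) (gam ι) := ((integrable_const _).add i1).add i2
  have hint : PJ v a E ≤ ∫ x, (Real.exp g + S1.indicator (fun _ => (1 : ℝ)) x +
      S2.indicator (fun _ => (1 : ℝ)) x) ∂(gam ι) :=
    integral_mono_of_nonneg (Filter.Eventually.of_forall hG0) i3 (Filter.Eventually.of_forall hle)
  have e4 : ∫ x, (Real.exp g + S1.indicator (fun _ => (1 : ℝ)) x +
      S2.indicator (fun _ => (1 : ℝ)) x) ∂(gam ι) =
      Real.exp g + (gam ι).real S1 + (gam ι).real S2 := by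
    have j1 : Integrable (fun x : ι → ℝ => Real.exp g + S1.indicator (fun _ => (1 : ℝ)) x)
      (gam ι) := (integrable_const _).add i1
    rw [integral_add j1 i2, integral_add (integrable_const _) i1, integral_const,
      integral_indicator_const _ m1, integral_indicator_const _ m2]
    simp
  rw [e4] at hint
  linarith

theorem TreeA_Cf {N : ℕ} (b1 b2 : ℝ) (r r' : J → Cfg (Fin 2) N) :
    Cf (beN b1 b2 J) (fun p p' => ov (jn J N r) (jn J N r') p p') =
      ∑ j, ∑ j', Cf (be b1 b2) (fun c c' => ov (r j) (r' j') c c') := by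
  unfold Cf
  rw [Fintype.sum_prod_type]
  refine Finset.sum_congr rfl fun j _ => ?_
  have h1 : ∀ c : Fin 2, (∑ p' : J × Fin 2, beN b1 b2 J (j, c) * beN b1 b2 J p' *
      ov (jn J N r) (jn J N r') (j, c) p' ^ 2) =
      ∑ j', ∑ c', be b1 b2 c * be b1 b2 c' * ov (r j) (r' j') c c' ^ 2 := by
    intro c
    rw [Fintype.sum_prod_type]
    rfl
  rw [Finset.sum_congr rfl fun c _ => h1 c, Finset.sum_comm]

/-- kernel of the `J`-fold features: [bilinearity; the Hamiltonian part is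
`c^2 N Cf (beN ..)`, because `Cf (beN b1 b2 J) (ov (jn r) (jn r')) = ∑_{j,j'} Cf (be b1 b2) (ov (r j) (r' j'))`;
the perturbation part has `|J|^2` terms bounded by `abs_dot_vP_le`.] -/
theorem kernel_J {b1 b2 c : ℝ} (hb1 : 0 ≤ b1) (hb2 : 0 ≤ b2) {M N : ℕ}
    (hc : 1 - 1 / ((N : ℝ) + 1) ≤ c ^ 2) (hc1 : c ^ 2 ≤ 1) {x : PM M → ℝ}
    (hx : ∀ p, x p ∈ Set.Icc (1 : ℝ) 2) (r r' : J → Cfg (Fin 2) N) :
    |dot (fun i => ∑ j, vA b1 b2 c M N x (r j) i) (fun i => ∑ j, vA b1 b2 c M N x (r' j) i) -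
        dot (vH (beN b1 b2 J) N (jn J N r)) (vH (beN b1 b2 J) N (jn J N r'))| ≤
      (Fintype.card J : ℝ) ^ 2 *
        ((b1 + b2) ^ 2 + 4 * ((M : ℝ) + 1) ^ 3 * (N : ℝ) ^ (3 / 4 : ℝ)) := by
  rw [dot_vH, TreeA_Cf, TreeA_dot_dot (fun j => vA b1 b2 c M N x (r j))
    (fun j => vA b1 b2 c M N x (r' j)), Finset.mul_sum, ← Finset.sum_sub_distrib]
  have hN : (0 : ℝ) ≤ N := Nat.cast_nonneg N
  have hterm : ∀ j j' : J, |dot (vA b1 b2 c M N x (r j)) (vA b1 b2 c M N x (r' j')) -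
      N * Cf (be b1 b2) (fun c c' => ov (r j) (r' j') c c')| ≤
      (b1 + b2) ^ 2 + 4 * ((M : ℝ) + 1) ^ 3 * (N : ℝ) ^ (3 / 4 : ℝ) := by
    intro j j'
    rw [dot_vA]
    have h1 := Cf_le (be_nonneg hb1 hb2) (R := fun c c' => ov (r j) (r' j') c c')
      (fun c c' => abs_ov_le (r j) (r' j') c c')
    rw [sum_be] at h1
    have h0 := Cf_nonneg (be_nonneg hb1 hb2) (fun c c' => ov (r j) (r' j') c c')
    have h2 := abs_le.1 (abs_dot_vP_le N hx (r j) (r' j'))
    set F : ℝ := Cf (be b1 b2) (fun c c' => ov (r j) (r' j') c c') with hF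
    have h3 : (1 - c ^ 2) * (N * F) ≤ (b1 + b2) ^ 2 := by
      have e1 : (1 - c ^ 2) * (N * F) ≤ 1 / ((N : ℝ) + 1) * (N * F) :=
        mul_le_mul_of_nonneg_right (by linarith) (mul_nonneg hN h0)
      have e2 : 1 / ((N : ℝ) + 1) * (N * F) = N / ((N : ℝ) + 1) * F := by ring
      have e3 : (N : ℝ) / ((N : ℝ) + 1) ≤ 1 := by
        rw [div_le_one (by positivity)]
        linarith
      have e4 : (N : ℝ) / ((N : ℝ) + 1) * F ≤ 1 * F := mul_le_mul_of_nonneg_right e3 h0
      linarith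
    have h4 : 0 ≤ (1 - c ^ 2) * (N * F) := mul_nonneg (by linarith) (mul_nonneg hN h0)
    rw [abs_le]
    have h5 : 0 ≤ (b1 + b2) ^ 2 := sq_nonneg _
    constructor <;> linarith [h2.1, h2.2]
  refine (Finset.abs_sum_le_sum_abs _ _).trans ?_
  have hrow : ∀ j ∈ (Finset.univ : Finset J),
      |(∑ j', dot (vA b1 b2 c M N x (r j)) (vA b1 b2 c M N x (r' j'))) -
        N * ∑ j', Cf (be b1 b2) (fun c c' => ov (r j) (r' j') c c')| ≤
      (Fintype.card J : ℝ) *
        ((b1 + b2) ^ 2 + 4 * ((M : ℝ) + 1) ^ 3 * (N : ℝ) ^ (3 / 4 : ℝ)) := by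
    intro j _
    rw [Finset.mul_sum, ← Finset.sum_sub_distrib]
    refine (Finset.abs_sum_le_sum_abs _ _).trans ?_
    refine (Finset.sum_le_sum fun j' _ => hterm j j').trans ?_
    rw [Finset.sum_const, Finset.card_univ, nsmul_eq_mul]
  refine (Finset.sum_le_sum hrow).trans (le_of_eq ?_)
  rw [Finset.sum_const, Finset.card_univ, nsmul_eq_mul]
  ring

end SKC.H
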